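import Pool.Agent.Lib.MP_1ef7cf_nt.SDefs

/-!
# Quadratic ray class characters: dependence on the residue and the signs
-/

open NumberField NumberField.mixedEmbedding NumberField.InfinitePlace Module

namespace Pool.Agent.ST

/-- A real character of a narrow ray class group, as a completely multiplicative function. -/
structure IsRayChar {M : Type*} [Field M] [NumberField M] (n : Ideal (𝓞 M))
    (χ : Ideal (𝓞 M) →*₀ ℝ) : Prop where
  sq : ∀ I, I ≠ ⊥ → IsCoprime I n → χ I = 1 ∨ χ I = -1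
  zero : ∀ I, ¬ IsCoprime I n → χ I = 0
  one : ∀ a : 𝓞 M, a ≠ 0 → a - 1 ∈ n → (∀ φ : M →+* ℝ, 0 < φ (a : M)) → χ (Ideal.span {a}) = 1

end Pool.Agent.ST

namespace Pool.Agent.STc

open Pool.Agent.ST

section raychar

variable {M : Type*} [Field M] [NumberField M] {n : Ideal (𝓞 M)} {χ : Ideal (𝓞 M) →*₀ ℝ}

lemma abs_chi_le (h : IsRayChar n χ) (I : Ideal (𝓞 M)) : |χ I| ≤ 1 := by
  by_cases h0 : I = ⊥
  · rw [h0, ← Ideal.zero_eq_bot, map_zero]
    simp
  by_cases hc : IsCoprime I n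
  · rcases h.sq I h0 hc with h1 | h1 <;> rw [h1] <;> simp
  · rw [h.zero I hc]
    simp

omit [NumberField M] in
lemma coprime_span_iff {x y : 𝓞 M} (hxy : x - y ∈ n) :
    IsCoprime (Ideal.span {x}) n ↔ IsCoprime (Ideal.span {y}) n := by
  constructor
  · intro h
    exact StarkRQ.coprime_of_sub_mem h (by
      have : y - x = -(x - y) := by ring
      rw [this]; exact n.neg_mem hxy)
  · intro h
    exact StarkRQ.coprime_of_sub_mem h hxy

lemma exists_pow_sub_one (hn : n ≠ ⊥) {x : 𝓞 M} (hx : IsCoprime (Ideal.span {x}) n) :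
    ∃ k : ℕ, x ^ (2 * k + 2) - 1 ∈ n := by
  have hfin : Finite (𝓞 M ⧸ n) := Ideal.finiteQuotientOfFreeOfNeBot n hn
  have hu : IsUnit (Ideal.Quotient.mk n x) := by
    rw [Ideal.isCoprime_iff_exists] at hx
    obtain ⟨a, ha, b, hb, hab⟩ := hx
    obtain ⟨c, rfl⟩ := Ideal.mem_span_singleton'.1 ha
    refine IsUnit.of_mul_eq_one (Ideal.Quotient.mk n c) ?_
    rw [← map_mul, ← map_one (Ideal.Quotient.mk n), Ideal.Quotient.eq]
    have : x * c - 1 = -b := by linear_combination hab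
    rw [this]
    exact n.neg_mem hb
  obtain ⟨u, hu⟩ := hu
  have hfu : Finite (𝓞 M ⧸ n)ˣ := inferInstance
  have h1 : u ^ Nat.card (𝓞 M ⧸ n)ˣ = 1 := pow_card_eq_one'
  have hpos : 0 < Nat.card (𝓞 M ⧸ n)ˣ := Nat.card_pos
  refine ⟨Nat.card (𝓞 M ⧸ n)ˣ - 1, ?_⟩
  have h2 : 2 * (Nat.card (𝓞 M ⧸ n)ˣ - 1) + 2 = Nat.card (𝓞 M ⧸ n)ˣ * 2 := by omega
  rw [h2, ← Ideal.Quotient.eq, map_pow, map_one, ← hu, pow_mul, ← Units.val_pow_eq_pow_val, h1,
    Units.val_one, one_pow]

omit [NumberField M] in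
/-- The real embedding as a real place. -/
lemma exists_place (φ : M →+* ℝ) : ∃ w : {w : InfinitePlace M // IsReal w}, ∀ x : M,
    (mixedEmbedding M x).1 w = φ x := by
  set ψ : M →+* ℂ := Complex.ofRealHom.comp φ with hψ
  have hreal : ComplexEmbedding.IsReal ψ := by
    ext x
    simp [hψ]
  have hw : IsReal (mk ψ) := ⟨ψ, hreal, rfl⟩
  refine ⟨⟨mk ψ, hw⟩, fun x => ?_⟩
  rw [mixedEmbedding_apply_isReal]
  have h1 : ((embedding_of_isReal hw x : ℝ) : ℂ) = ((φ x : ℝ) : ℂ) := by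
    rw [embedding_of_isReal_apply, embedding_mk_eq_of_isReal hreal]
    rfl
  exact_mod_cast h1

/-- The value of the character at a principal ideal depends only on the residue and the signs. -/
lemma chi_eq (h : IsRayChar n χ) (hn : n ≠ ⊥) {x y : 𝓞 M} (hx : x ≠ 0) (hy : y ≠ 0)
    (hxy : x - y ∈ n)
    (hs : signSet (mixedEmbedding M (x : M)) = signSet (mixedEmbedding M (y : M))) :
    χ (Ideal.span {x}) = χ (Ideal.span {y}) := by
  by_cases hc : IsCoprime (Ideal.span {x}) n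
  · have hc' := (coprime_span_iff hxy).1 hc
    obtain ⟨k, hk⟩ := exists_pow_sub_one hn hc
    have hz : x ^ (2 * k + 1) * y ≠ 0 := mul_ne_zero (pow_ne_zero _ hx) hy
    have h1 : x ^ (2 * k + 1) * y - 1 ∈ n := by
      have : x ^ (2 * k + 1) * y - 1 = (x ^ (2 * k + 2) - 1) - x ^ (2 * k + 1) * (x - y) := by ring
      rw [this]
      exact n.sub_mem hk (n.mul_mem_left _ hxy)
    have h2 : ∀ φ : M →+* ℝ, 0 < φ ((x ^ (2 * k + 1) * y : 𝓞 M) : M) := by
      intro φ
      obtain ⟨w, hw⟩ := exists_place φ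
      have e1 : ((x ^ (2 * k + 1) * y : 𝓞 M) : M) = (x : M) ^ (2 * k + 1) * (y : M) := by
        push_cast; rfl
      rw [e1, map_mul, map_pow]
      have hx' : φ (x : M) ≠ 0 := by
        rw [Ne, map_eq_zero]
        exact fun h0 => hx (RingOfIntegers.ext h0)
      have hy' : φ (y : M) ≠ 0 := by
        rw [Ne, map_eq_zero]
        exact fun h0 => hy (RingOfIntegers.ext h0)
      have hiff : φ (x : M) ≤ 0 ↔ φ (y : M) ≤ 0 := by
        rw [← hw, ← hw]
        have := congrArg (fun S => w ∈ S) hs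
        exact iff_of_eq this
      have hpow : φ (x : M) ^ (2 * k + 1) = (φ (x : M) ^ k) ^ 2 * φ (x : M) := by ring
      rw [hpow, mul_assoc]
      apply mul_pos (pow_pos_of_ne_zero_sq hx' k)
      rcases lt_or_gt_of_ne hx' with hneg | hpos
      · have : φ (y : M) < 0 := lt_of_le_of_ne (hiff.1 hneg.le) hy'
        exact mul_pos_of_neg_of_neg hneg this
      · have : 0 < φ (y : M) := by
          by_contra hcon
          have := hiff.2 (not_lt.1 hcon)
          linarith
        exact mul_pos hpos this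
    have h3 := h.one _ hz h1 h2
    rw [← Ideal.span_singleton_mul_span_singleton, ← Ideal.span_singleton_pow, map_mul, map_pow] at h3
    have hx0 : Ideal.span {x} ≠ ⊥ := by rwa [Ne, Ideal.span_singleton_eq_bot]
    have hy0 : Ideal.span {y} ≠ ⊥ := by rwa [Ne, Ideal.span_singleton_eq_bot]
    rcases h.sq _ hx0 hc with h4 | h4
    · rw [h4, one_pow, one_mul] at h3
      rw [h4, h3]
    · have hodd : Odd (2 * k + 1) := ⟨k, rfl⟩
      rw [h4, hodd.neg_one_pow] at h3
      rw [h4]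
      linarith
  · have hc' := fun hh => hc ((coprime_span_iff hxy).2 hh)
    rw [h.zero _ hc, h.zero _ hc']
where
  pow_pos_of_ne_zero_sq {a : ℝ} (ha : a ≠ 0) (k : ℕ) : 0 < (a ^ k) ^ 2 :=
    sq_pos_of_ne_zero (pow_ne_zero k ha)

variable (n χ) in
open Classical in
/-- The value of the character at the elements with given residue and signs. -/
noncomputable def cval (a : 𝓞 M ⧸ n) (S : Set {w : InfinitePlace M // IsReal w}) : ℝ :=
  if h : ∃ x : 𝓞 M, x ≠ 0 ∧ Ideal.Quotient.mk n x = a ∧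
    signSet (mixedEmbedding M (x : M)) = S then χ (Ideal.span {h.choose}) else 0

lemma abs_cval_le (h : IsRayChar n χ) (a : 𝓞 M ⧸ n) (S : Set {w : InfinitePlace M // IsReal w}) :
    |cval n χ a S| ≤ 1 := by
  unfold cval
  split_ifs
  · exact abs_chi_le h _
  · simp

lemma cval_eq (h : IsRayChar n χ) (hn : n ≠ ⊥) {x : 𝓞 M} (hx : x ≠ 0) :
    cval n χ (Ideal.Quotient.mk n x) (signSet (mixedEmbedding M (x : M))) =
      χ (Ideal.span {x}) := by
  unfold cval
  have hex : ∃ y : 𝓞 M, y ≠ 0 ∧ Ideal.Quotient.mk n y = Ideal.Quotient.mk n x ∧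
    signSet (mixedEmbedding M (y : M)) = signSet (mixedEmbedding M (x : M)) := ⟨x, hx, rfl, rfl⟩
  rw [dif_pos hex]
  obtain ⟨h1, h2, h3⟩ := hex.choose_spec
  exact chi_eq h hn h1 hx (Ideal.Quotient.eq.1 h2) h3

end raychar

end Pool.Agent.STc
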