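import Pool.Agent.Lib.MP_1ef7cf_nt.Frob2
import Pool.Agent.Lib.MP_1ef7cf_nt_b.Val

/-!
# Local squares, Galois action on primes
-/

set_option linter.unusedSectionVars false

open NumberField IsDedekindDomain
open scoped Pointwise

namespace Pool.Agent.STc

open Pool.Agent.ST Pool.Agent.STb

section loc

variable {M : Type*} [Field M] [NumberField M]

/-- `x` is a local square at the (odd) prime `P`: some `x y ^ 2` is congruent to `1`. -/
def LSq (P : PrI M) (x : M) : Prop := ∃ y : M, P.valuation M (x * y ^ 2 - 1) < 1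

lemma LSq.sqAt {P : PrI M} {x : M} (h : LSq P x) : SqAt P x := by
  obtain ⟨y, hy⟩ := h
  refine ⟨y, ?_⟩
  have h1 : P.valuation M (x * y ^ 2) = P.valuation M (1 : M) := by
    have h2 : x * y ^ 2 = (x * y ^ 2 - 1) + 1 := by ring
    rw [h2]
    apply Valuation.map_add_eq_of_lt_right
    rwa [map_one]
  rw [h1, map_one]

lemma LSq.ne_zero {P : PrI M} {x : M} (h : LSq P x) : x ≠ 0 := by
  rintro rfl
  obtain ⟨y, hy⟩ := h
  rw [zero_mul, zero_sub, Valuation.map_neg, map_one] at hy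
  exact lt_irrefl _ hy

lemma LSq.one (P : PrI M) : LSq P (1 : M) := ⟨1, by simp⟩

lemma LSq.of_sq {P : PrI M} {x : M} (hx : x ≠ 0) : LSq P (x ^ 2) := ⟨x⁻¹, by
  rw [inv_pow, mul_inv_cancel₀ (pow_ne_zero 2 hx), sub_self, map_zero]
  exact zero_lt_one⟩

lemma LSq.mul {P : PrI M} {x x' : M} (h : LSq P x) (h' : LSq P x') : LSq P (x * x') := by
  obtain ⟨y, hy⟩ := h
  obtain ⟨y', hy'⟩ := h'
  refine ⟨y * y', ?_⟩
  have h1 : x * x' * (y * y') ^ 2 - 1 =
      (x * y ^ 2 - 1) * (x' * y' ^ 2 - 1) + ((x * y ^ 2 - 1) + (x' * y' ^ 2 - 1)) := by ring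
  rw [h1]
  refine Valuation.map_add_lt _ ?_ (Valuation.map_add_lt _ hy hy')
  rw [map_mul]
  exact mul_lt_one_of_lt_of_le hy hy'.le

lemma LSq.inv {P : PrI M} {x : M} (h : LSq P x) : LSq P x⁻¹ := by
  have h0 := h.ne_zero
  have h1 : x⁻¹ = x * (x⁻¹) ^ 2 := by field_simp
  rw [h1]
  exact h.mul (LSq.of_sq (inv_ne_zero h0))

lemma LSq.mul_sq {P : PrI M} {x z : M} (hz : z ≠ 0) : LSq P (x * z ^ 2) ↔ LSq P x := by
  constructor
  · intro h
    have := h.mul (LSq.of_sq (P := P) (inv_ne_zero hz))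
    rwa [mul_assoc, ← mul_pow, mul_inv_cancel₀ hz, one_pow, mul_one] at this
  · intro h
    exact h.mul (LSq.of_sq hz)

end loc

section act

variable {K E : Type*} [Field K] [NumberField K] [Field E] [NumberField E] [Algebra K E]

/-- Galois action on the primes. -/
noncomputable def pg (g : E ≃ₐ[K] E) (u : PrI E) : PrI E where
  asIdeal := g • u.asIdeal
  isPrime := (Ideal.IsPrime.smul_iff g).2 u.isPrime
  ne_bot := by
    intro h
    apply u.ne_bot
    have h1 : g⁻¹ • (g • u.asIdeal) = g⁻¹ • (⊥ : Ideal (𝓞 E)) := by rw [h]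
    rwa [inv_smul_smul, Ideal.smul_bot] at h1

lemma pg_asIdeal (g : E ≃ₐ[K] E) (u : PrI E) : (pg g u).asIdeal = g • u.asIdeal := rfl

lemma pg_one (u : PrI E) : pg (1 : E ≃ₐ[K] E) u = u :=
  HeightOneSpectrum.ext (one_smul _ _)

lemma pg_mul (g h : E ≃ₐ[K] E) (u : PrI E) : pg (g * h) u = pg g (pg h u) :=
  HeightOneSpectrum.ext (mul_smul _ _ _)

lemma pg_inv_pg (g : E ≃ₐ[K] E) (u : PrI E) : pg g⁻¹ (pg g u) = u := by
  rw [← pg_mul, inv_mul_cancel, pg_one]

lemma pg_pg_inv (g : E ≃ₐ[K] E) (u : PrI E) : pg g (pg g⁻¹ u) = u := by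
  rw [← pg_mul, mul_inv_cancel, pg_one]

lemma mem_pg {g : E ≃ₐ[K] E} {u : PrI E} {x : 𝓞 E} :
    x ∈ (pg g u).asIdeal ↔ g⁻¹ • x ∈ u.asIdeal :=
  Ideal.mem_pointwise_smul_iff_inv_smul_mem

lemma smul_mem_pg {g : E ≃ₐ[K] E} {u : PrI E} {x : 𝓞 E} :
    g • x ∈ (pg g u).asIdeal ↔ x ∈ u.asIdeal :=
  Ideal.smul_mem_pointwise_smul_iff

lemma und_pg (g : E ≃ₐ[K] E) (u : PrI E) : und K (pg g u) = und K u := by
  apply HeightOneSpectrum.ext
  ext a
  have h1 : ∀ v : PrI E, a ∈ (und K v).asIdeal ↔ algebraMap (𝓞 K) (𝓞 E) a ∈ v.asIdeal :=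
    fun v => Iff.rfl
  rw [h1, h1, mem_pg, smul_algebraMap]

lemma pg_pow_mem {g : E ≃ₐ[K] E} {u : PrI E} {x : 𝓞 E} {n : ℕ} :
    g • x ∈ (pg g u).asIdeal ^ n ↔ x ∈ u.asIdeal ^ n := by
  have h : (pg g u).asIdeal ^ n = g • (u.asIdeal ^ n) := by
    rw [pg_asIdeal, smul_pow']
  rw [h]
  exact Ideal.smul_mem_pointwise_smul_iff

/-- transport of the valuation -/
lemma valuation_pg_int (g : E ≃ₐ[K] E) (u : PrI E) (x : 𝓞 E) :
    (pg g u).intValuation (g • x) = u.intValuation x := by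
  by_cases hx : x = 0
  · rw [hx, smul_zero, map_zero, map_zero]
  have hgx : g • x ≠ 0 := fun h => hx ((smul_eq_zero_iff_eq g).1 h)
  apply le_antisymm
  · obtain ⟨n, hn⟩ : ∃ n : ℕ, u.intValuation x = WithZero.exp (-(n : ℤ)) := by
      rw [u.intValuation_if_neg hx]
      exact ⟨_, rfl⟩
    rw [hn, HeightOneSpectrum.intValuation_le_pow_iff_mem, pg_pow_mem,
      ← HeightOneSpectrum.intValuation_le_pow_iff_mem, hn]
  · obtain ⟨n, hn⟩ : ∃ n : ℕ, (pg g u).intValuation (g • x) = WithZero.exp (-(n : ℤ)) := by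
      rw [(pg g u).intValuation_if_neg hgx]
      exact ⟨_, rfl⟩
    rw [hn, HeightOneSpectrum.intValuation_le_pow_iff_mem, ← pg_pow_mem (g := g),
      ← HeightOneSpectrum.intValuation_le_pow_iff_mem, hn]

lemma valuation_pg (g : E ≃ₐ[K] E) (u : PrI E) (x : E) :
    (pg g u).valuation E (g x) = u.valuation E x := by
  obtain ⟨a, b, hb, rfl⟩ := IsFractionRing.div_surjective (A := 𝓞 E) x
  rw [map_div₀, map_div₀, map_div₀]
  have h : ∀ c : 𝓞 E, (pg g u).valuation E (g (algebraMap (𝓞 E) E c)) =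
      u.valuation E (algebraMap (𝓞 E) E c) := by
    intro c
    rw [← ST.coe_smul', HeightOneSpectrum.valuation_of_algebraMap,
      HeightOneSpectrum.valuation_of_algebraMap, valuation_pg_int]
  rw [h, h]

lemma valuation_pg' (g : E ≃ₐ[K] E) (u : PrI E) (x : E) :
    (pg g u).valuation E x = u.valuation E (g⁻¹ x) := by
  have h : x = g (g⁻¹ x) := by
    rw [← AlgEquiv.mul_apply, mul_inv_cancel, AlgEquiv.one_apply]
  conv_lhs => rw [h]
  exact valuation_pg g u _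

lemma LSq.pg {g : E ≃ₐ[K] E} {u : PrI E} {x : E} : LSq (pg g u) (g x) ↔ LSq u x := by
  constructor
  · rintro ⟨y, hy⟩
    refine ⟨g⁻¹ y, ?_⟩
    have h : g (x * (g⁻¹ y) ^ 2 - 1) = g x * y ^ 2 - 1 := by
      rw [map_sub, map_mul, map_pow, map_one, ← AlgEquiv.mul_apply g, mul_inv_cancel,
        AlgEquiv.one_apply]
    rw [← valuation_pg g, h]
    exact hy
  · rintro ⟨y, hy⟩
    refine ⟨g y, ?_⟩
    have h : g x * (g y) ^ 2 - 1 = g (x * y ^ 2 - 1) := by simp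
    rw [h, valuation_pg]
    exact hy

lemma sqAt_pg {g : E ≃ₐ[K] E} {u : PrI E} {x : E} : SqAt (STc.pg g u) (g x) ↔ SqAt u x := by
  constructor
  · rintro ⟨y, hy⟩
    refine ⟨g⁻¹ y, ?_⟩
    have h : g (x * (g⁻¹ y) ^ 2) = g x * y ^ 2 := by
      rw [map_mul, map_pow, ← AlgEquiv.mul_apply g, mul_inv_cancel, AlgEquiv.one_apply]
    rw [← valuation_pg g, h]
    exact hy
  · rintro ⟨y, hy⟩
    refine ⟨g y, ?_⟩
    have h : g x * (g y) ^ 2 = g (x * y ^ 2) := by simp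
    rw [h, valuation_pg]
    exact hy

/-- transitivity of the action on the primes above a prime -/
lemma exists_pg [IsGalois K E] {u u' : PrI E} (h : und K u = und K u') :
    ∃ g : E ≃ₐ[K] E, pg g u = u' := by
  have := u.isPrime
  have := u'.isPrime
  obtain ⟨g, hg⟩ := Algebra.IsInvariant.exists_smul_of_under_eq (𝓞 K) (𝓞 E) (E ≃ₐ[K] E)
    u.asIdeal u'.asIdeal (by
      have := congrArg HeightOneSpectrum.asIdeal h
      exact this)
  exact ⟨g, HeightOneSpectrum.ext hg.symm⟩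

end act

end Pool.Agent.STc
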