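import Pool.Agent.Lib.MP_1ef7cf_nt_c.CountA

/-!
# The count of the Selmer group: group actions
-/

namespace Pool.Agent.STc.Cnt

open Subgroup

lemma prod_zpow_sum {A : Type*} [CommGroup A] {κ : Type*} (s : Finset κ) (x : A) (f : κ → ℤ) :
    ∏ i ∈ s, x ^ f i = x ^ (∑ i ∈ s, f i) := by
  classical
  induction s using Finset.induction_on with
  | empty => simp
  | insert i s hi ih => rw [Finset.prod_insert hi, Finset.sum_insert hi, ih, zpow_add]

section ff

variable {A : Type*} [CommGroup A] {G : Type*} [Group G] [MulDistribMulAction G A]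

/-- the product of the conjugates by the elements of a finite set -/
noncomputable def ff (Z : Finset G) : A →* A where
  toFun x := ∏ g ∈ Z, g • x
  map_one' := by simp
  map_mul' x y := by simp [Finset.prod_mul_distrib]

lemma ff_apply (Z : Finset G) (x : A) : ff Z x = ∏ g ∈ Z, g • x := rfl

/-- the sum over a finite set of group elements on functions -/
def fz (Z : Finset G) {ι : Type*} [MulAction G ι] {B : Type*} [AddCommMonoid B] :
    (ι → B) →+ (ι → B) where
  toFun a := fun i => ∑ g ∈ Z, a (g⁻¹ • i)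
  map_zero' := by ext i; simp
  map_add' a b := by ext i; simp [Finset.sum_add_distrib]

lemma fz_apply (Z : Finset G) {ι : Type*} [MulAction G ι] {B : Type*} [AddCommMonoid B]
    (a : ι → B) (i : ι) : fz Z a i = ∑ g ∈ Z, a (g⁻¹ • i) := rfl

lemma fz_comp (Z : Finset G) {ι : Type*} [MulAction G ι] {B C : Type*} [AddCommMonoid B]
    [AddCommMonoid C] (φ : B →+ C) (a : ι → B) : fz Z (φ ∘ a) = φ ∘ (fz Z a) := by
  ext i
  simp [fz_apply]

variable {ι : Type*} [Fintype ι] [MulAction G ι]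

lemma ff_prod (Z : Finset G) {π : ι → A} (hπ : ∀ (g : G) i, g • π i = π (g • i)) (a : ι → ℤ) :
    ff Z (∏ i, π i ^ a i) = ∏ i, π i ^ (fz Z a i) := by
  rw [ff_apply]
  have h1 : ∀ g ∈ Z, g • ∏ i, π i ^ a i = ∏ i, π i ^ (a (g⁻¹ • i)) := by
    intro g _
    rw [Finset.smul_prod']
    rw [← Equiv.prod_comp (MulAction.toPerm g) (fun i => π i ^ (a (g⁻¹ • i)))]
    refine Finset.prod_congr rfl fun i _ => ?_
    rw [MulAction.toPerm_apply, inv_smul_smul, smul_zpow', hπ]
  rw [Finset.prod_congr rfl h1, Finset.prod_comm]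
  refine Finset.prod_congr rfl fun i _ => ?_
  rw [fz_apply, prod_zpow_sum]

/-- the subgroup generated by `c` and the family `π` -/
def gen (c : A) (π : ι → A) : Subgroup A where
  carrier := {x | ∃ (k : ℤ) (a : ι → ℤ), x = c ^ k * ∏ i, π i ^ a i}
  one_mem' := ⟨0, 0, by simp⟩
  mul_mem' := by
    rintro x y ⟨k, a, rfl⟩ ⟨l, b, rfl⟩
    refine ⟨k + l, a + b, ?_⟩
    rw [zpow_add, mul_mul_mul_comm, ← Finset.prod_mul_distrib]
    congr 1
    refine Finset.prod_congr rfl fun i _ => ?_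
    rw [Pi.add_apply, zpow_add]
  inv_mem' := by
    rintro x ⟨k, a, rfl⟩
    refine ⟨-k, -a, ?_⟩
    rw [zpow_neg, mul_inv, ← Finset.prod_inv_distrib]
    congr 1
    refine Finset.prod_congr rfl fun i _ => ?_
    rw [Pi.neg_apply, zpow_neg]

omit [MulAction G ι] in
lemma mem_gen {c : A} {π : ι → A} {x : A} :
    x ∈ gen c π ↔ ∃ (k : ℤ) (a : ι → ℤ), x = c ^ k * ∏ i, π i ^ a i := Iff.rfl

lemma self_mem_gen (c : A) (π : ι → A) : c ∈ gen c π := ⟨1, 0, by simp⟩

open Classical in
lemma mem_gen_π (c : A) (π : ι → A) (i : ι) : π i ∈ gen c π := by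
  refine ⟨0, Pi.single i 1, ?_⟩
  rw [zpow_zero, one_mul, Finset.prod_eq_single i]
  · simp
  · intro j _ hj
    rw [Pi.single_eq_of_ne hj, zpow_zero]
  · intro h
    exact absurd (Finset.mem_univ i) h

lemma gen_smul {c : A} {π : ι → A} (hc : ∀ g : G, g • c = c)
    (hπ : ∀ (g : G) i, g • π i = π (g • i)) (g : G) {x : A} (hx : x ∈ gen c π) :
    g • x ∈ gen c π := by
  obtain ⟨k, a, rfl⟩ := hx
  rw [smul_mul', smul_zpow', hc, Finset.smul_prod']
  refine mul_mem (zpow_mem (self_mem_gen c π) k) (prod_mem fun i _ => ?_)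
  rw [smul_zpow', hπ]
  exact zpow_mem (mem_gen_π c π _) _

/-- the upper bound for the count -/
theorem cc_gen_le (Z : Finset G) {c : A} {π : ι → A} (hcZ : ff Z c = 1)
    (hπ : ∀ (g : G) i, g • π i = π (g • i)) :
    cc (ff Z) (gen c π) (sq (gen c π)) ≠ 0 ∧ cc (ff Z) (gen c π) (sq (gen c π)) ≤
      Nat.card (fz Z (ι := ι) (B := ZMod 2)).range := by
  unfold cc
  have hfin : Finite (fz Z (ι := ι) (B := ZMod 2)).range := inferInstance
  refine relIndex_le_card (fun b => ∏ i, π i ^ ((b.1 i).val : ℤ)) ?_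
  rintro y ⟨x, ⟨k, a, rfl⟩, rfl⟩
  set φ : ℤ →+ ZMod 2 := (Int.castRingHom (ZMod 2)).toAddMonoidHom with hφ
  refine ⟨⟨fz Z (φ ∘ a), φ ∘ a, rfl⟩, ?_⟩
  rw [map_mul, map_zpow, hcZ, one_zpow, one_mul, ff_prod Z hπ, ← Finset.prod_inv_distrib,
    ← Finset.prod_mul_distrib]
  have h1 : ∀ i : ι, ∃ m : ℤ, fz Z a i = ((fz Z (φ ∘ a) i).val : ℤ) + 2 * m := by
    intro i
    have h2 : fz Z (φ ∘ a) i = ((fz Z a i : ℤ) : ZMod 2) := by
      rw [fz_comp]
      rfl
    have h3 : ((fz Z a i - ((fz Z (φ ∘ a) i).val : ℤ) : ℤ) : ZMod 2) = 0 := by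
      push_cast
      rw [ZMod.natCast_zmod_val, h2, sub_self]
    rw [ZMod.intCast_zmod_eq_zero_iff_dvd] at h3
    obtain ⟨m, hm⟩ := h3
    exact ⟨m, by push_cast at hm; linarith⟩
  choose m hm using h1
  refine mem_sq.2 ⟨∏ i, π i ^ m i, prod_mem fun i _ => zpow_mem (mem_gen_π c π i) _, ?_⟩
  rw [← Finset.prod_pow]
  refine Finset.prod_congr rfl fun i _ => ?_
  rw [hm i, zpow_add, inv_mul_cancel_left, mul_comm 2, zpow_mul, zpow_ofNat]

end ff

section sum

variable {G : Type*} [Group G]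

/-- the range of `fz` on a disjoint union -/
lemma card_range_sum_le (Z : Finset G) (ι κ : Type*) [Finite ι] [Finite κ] [MulAction G ι]
    [MulAction G κ] :
    Nat.card (fz Z (ι := ι ⊕ κ) (B := ZMod 2)).range ≤
      Nat.card (fz Z (ι := ι) (B := ZMod 2)).range * 2 ^ Nat.card κ := by
  classical
  have := Fintype.ofFinite ι
  have := Fintype.ofFinite κ
  have h1 : (2 : ℕ) ^ Nat.card κ = Nat.card (κ → ZMod 2) := by
    rw [Nat.card_fun]; simp
  rw [h1, ← Nat.card_prod]
  refine Nat.card_le_card_of_injective (fun b => (⟨⟨fun i => b.1 (Sum.inl i), ?_⟩,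
    fun j => b.1 (Sum.inr j)⟩ : (fz Z (ι := ι) (B := ZMod 2)).range × (κ → ZMod 2))) ?_
  · obtain ⟨b, a, rfl⟩ := b
    exact ⟨fun i => a (Sum.inl i), rfl⟩
  · intro b b' h
    have h2 := congrArg Prod.fst h
    have h3 := congrArg Prod.snd h
    have h4 := congrArg Subtype.val h2
    apply Subtype.ext
    ext i
    rcases i with i | j
    · exact congrFun h4 i
    · exact congrFun h3 j

end sum

section idem

variable {G : Type*} [Group G]

lemma zmod2_cases (a : ZMod 2) : a = 0 ∨ a = 1 := by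
  revert a; decide

open Classical in
/-- combinatorial form of the idempotent relation -/
def IsIdem (Z : Finset G) : Prop :=
  ∀ k : G, (((Z ×ˢ Z).filter (fun p => p.1 * p.2 = k)).card : ZMod 2) = if k ∈ Z then 1 else 0

lemma isIdem_support {e : MonoidAlgebra (ZMod 2) G} (he : e * e = e) : IsIdem e.coeff.support := by
  classical
  intro k
  have h1 : ∀ g ∈ e.coeff.support, e.coeff g = 1 := by
    intro g hg
    exact (zmod2_cases _).resolve_left (Finsupp.mem_support_iff.1 hg)
  have h2 : (e * e).coeff k = if k ∈ e.coeff.support then 1 else 0 := by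
    rw [he]
    split_ifs with h
    · exact h1 k h
    · exact Finsupp.notMem_support_iff.1 h
  rw [← h2, MonoidAlgebra.coeff_mul, Finsupp.sum, Finset.card_filter, Nat.cast_sum,
    Finset.sum_product]
  refine Finset.sum_congr rfl fun g hg => ?_
  rw [Finsupp.sum]
  refine Finset.sum_congr rfl fun g' hg' => ?_
  rw [h1 g hg, h1 g' hg']
  simp

lemma even_card_support {e : MonoidAlgebra (ZMod 2) G} [Fintype G]
    (hea : ∑ g : G, e.coeff g = 0) : Even e.coeff.support.card := by
  have h1 : ∑ g ∈ e.coeff.support, e.coeff g = ∑ g : G, e.coeff g :=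
    Finset.sum_subset (Finset.subset_univ _) fun g _ hg => Finsupp.notMem_support_iff.1 hg
  have h2 : ∑ g ∈ e.coeff.support, e.coeff g = ∑ g ∈ e.coeff.support, (1 : ZMod 2) := by
    refine Finset.sum_congr rfl fun g hg => ?_
    exact (zmod2_cases _).resolve_left (Finsupp.mem_support_iff.1 hg)
  rw [hea, h2, Finset.sum_const, nsmul_eq_mul, mul_one] at h1
  exact (ZMod.natCast_eq_zero_iff_even).1 h1

open Classical in
lemma sum_prod_fiber {M : Type*} [AddCommMonoid M] (Z : Finset G) (F : G → M) [Fintype G] :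
    ∑ g ∈ Z, ∑ h ∈ Z, F (g * h) =
      ∑ k : G, ((Z ×ˢ Z).filter (fun p => p.1 * p.2 = k)).card • F k := by
  rw [← Finset.sum_product' (f := fun g h => F (g * h)),
    ← Finset.sum_fiberwise (Z ×ˢ Z) (fun p => p.1 * p.2)]
  refine Finset.sum_congr rfl fun k _ => ?_
  rw [Finset.sum_congr rfl (g := fun _ => F k), Finset.sum_const]
  intro p hp
  rw [(Finset.mem_filter.1 hp).2]

/-- idempotent relation on functions with values in `ZMod 2` -/
lemma fz_fz [Finite G] {Z : Finset G} (hZ : IsIdem Z) {ι : Type*} [MulAction G ι]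
    (a : ι → ZMod 2) : fz Z (fz Z a) = fz Z a := by
  classical
  have := Fintype.ofFinite G
  ext i
  rw [fz_apply]
  simp only [fz_apply]
  have h1 := Finset.sum_comm (s := Z) (t := Z) (f := fun g h => a ((h * g)⁻¹ • i))
  have h2 : ∑ g ∈ Z, ∑ h ∈ Z, a (h⁻¹ • g⁻¹ • i) = ∑ g ∈ Z, ∑ h ∈ Z, a ((g * h)⁻¹ • i) := by
    refine Finset.sum_congr rfl fun g _ => Finset.sum_congr rfl fun h _ => ?_
    rw [mul_inv_rev, mul_smul]
  rw [h2, sum_prod_fiber Z (fun k => a (k⁻¹ • i))]
  have h3 : ∀ k : G, ((Z ×ˢ Z).filter (fun p => p.1 * p.2 = k)).card • a (k⁻¹ • i) =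
      if k ∈ Z then a (k⁻¹ • i) else 0 := by
    intro k
    rw [nsmul_eq_mul]
    have := hZ k
    rw [this, ite_mul, one_mul, zero_mul]
  rw [Finset.sum_congr rfl fun k _ => h3 k, Finset.sum_ite_mem, Finset.univ_inter]

/-- idempotent relation on a multiplicative group -/
lemma exists_w [Finite G] {Z : Finset G} (hZ : IsIdem Z) (A : Type*) [CommGroup A]
    [MulDistribMulAction G A] : ∃ w : A →* A, (∀ x, ff Z (ff Z x) = ff Z x * (w x) ^ 2) ∧
      ∀ X : Subgroup A, (∀ (g : G), ∀ x ∈ X, g • x ∈ X) → ∀ x ∈ X, w x ∈ X := by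
  classical
  have := Fintype.ofFinite G
  let n : G → ℕ := fun k => ((Z ×ˢ Z).filter (fun p => p.1 * p.2 = k)).card
  refine ⟨{ toFun := fun x => ∏ k : G, (k • x) ^ (n k / 2), map_one' := by simp,
            map_mul' := fun x y => by simp [mul_pow, Finset.prod_mul_distrib] }, ?_, ?_⟩
  · intro x
    have h1 : ff Z (ff Z x) = ∏ k : G, (k • x) ^ n k := by
      have h2 := sum_prod_fiber Z (fun k => Additive.ofMul (k • x))
      have h3 : ff Z (ff Z x) = ∏ g ∈ Z, ∏ h ∈ Z, (g * h) • x := by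
        rw [ff_apply]
        refine Finset.prod_congr rfl fun g _ => ?_
        rw [ff_apply, Finset.smul_prod']
        refine Finset.prod_congr rfl fun h _ => ?_
        rw [mul_smul]
      rw [h3]
      exact h2
    have h4 : ∀ k : G, (k • x) ^ n k = (if k ∈ Z then k • x else 1) * ((k • x) ^ (n k / 2)) ^ 2 := by
      intro k
      have h5 : n k % 2 = if k ∈ Z then 1 else 0 := by
        have h6 := hZ k
        have h7 : ((n k : ℕ) : ZMod 2) = ((if k ∈ Z then 1 else 0 : ℕ) : ZMod 2) := by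
          push_cast
          exact h6
        have h8 := (ZMod.natCast_eq_natCast_iff' _ _ _).1 h7
        rw [h8]
        split_ifs <;> rfl
      conv_lhs => rw [← Nat.mod_add_div (n k) 2, pow_add, h5, mul_comm 2, pow_mul]
      congr 1
      split_ifs <;> simp
    rw [h1, Finset.prod_congr rfl fun k _ => h4 k, Finset.prod_mul_distrib, Finset.prod_ite_mem,
      Finset.univ_inter, Finset.prod_pow]
    rfl
  · intro X hX x hx
    exact prod_mem fun k _ => pow_mem (hX k x hx) _

lemma ff_mem {A : Type*} [CommGroup A] [MulDistribMulAction G A] (Z : Finset G) {X : Subgroup A}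
    (hX : ∀ (g : G), ∀ x ∈ X, g • x ∈ X) : ∀ x ∈ X, ff Z x ∈ X := by
  intro x hx
  exact prod_mem fun k _ => hX k x hx

lemma ff_smul {A : Type*} [CommGroup A] [MulDistribMulAction G A] (Z : Finset G)
    (hab : ∀ g h : G, g * h = h * g) (g : G) (x : A) : ff Z (g • x) = g • ff Z x := by
  rw [ff_apply, ff_apply, Finset.smul_prod']
  refine Finset.prod_congr rfl fun h _ => ?_
  rw [← mul_smul, hab, mul_smul]

end idem

end Pool.Agent.STc.Cnt
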