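import Pool.Agent.Lib.MP_1ef7cf_nt_c.CountDiv
import Pool.Agent.Lib.MP_1ef7cf_nt.Mg.G001
import Pool.Agent.Lib.MP_1ef7cf_nt_c.Loc

/-!
# The count of the Selmer group: equivariant families
-/

set_option linter.unusedSectionVars false

open NumberField IsDedekindDomain

namespace Pool.Agent.STc.Cnt

open Pool.Agent.ST Pool.Agent.STb

section eqv

variable {G : Type*} [Group G] [Fintype G] {X : Type*} [MulAction G X] {A : Type*} [CommGroup A]
  [MulDistribMulAction G A]

/-- the representative of the orbit of `x` -/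
noncomputable def rep (G : Type*) [Group G] {X : Type*} [MulAction G X] (x : X) : X :=
  (Quotient.mk (MulAction.orbitRel G X) x).out

lemma rep_smul (g : G) (x : X) : rep G (g • x) = rep G x := by
  unfold rep
  congr 1
  apply Quotient.sound
  exact ⟨g, rfl⟩

lemma exists_smul_rep (x : X) : ∃ g : G, g • rep G x = x := by
  have h : (MulAction.orbitRel G X) (rep G x) x := Quotient.mk_out x
  obtain ⟨g, hg⟩ := h
  refine ⟨g⁻¹, ?_⟩
  rw [← hg, inv_smul_smul]

open Classical in
/-- the equivariant family made from the family `p` -/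
noncomputable def eqv (G : Type*) [Group G] [Fintype G] {X : Type*} [MulAction G X] {A : Type*}
    [CommGroup A] [MulDistribMulAction G A] (p : X → A) (x : X) : A :=
  ∏ g ∈ Finset.univ.filter (fun g : G => g • rep G x = x), g • p (rep G x)

lemma eqv_smul (p : X → A) (g : G) (x : X) : g • eqv G p x = eqv G p (g • x) := by
  classical
  unfold eqv
  rw [Finset.smul_prod', rep_smul]
  refine Finset.prod_bij (fun h _ => g * h) ?_ ?_ ?_ ?_
  · intro h hh
    rw [Finset.mem_filter] at hh ⊢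
    exact ⟨Finset.mem_univ _, by rw [mul_smul, hh.2]⟩
  · intro a _ b _ hab
    exact mul_left_cancel hab
  · intro b hb
    refine ⟨g⁻¹ * b, ?_, by rw [mul_inv_cancel_left]⟩
    rw [Finset.mem_filter] at hb ⊢
    exact ⟨Finset.mem_univ _, by rw [mul_smul, hb.2, inv_smul_smul]⟩
  · intro a _
    rw [mul_smul]

lemma eqv_nonempty [DecidableEq X] (x : X) :
    (Finset.univ.filter (fun g : G => g • rep G x = x)).Nonempty := by
  obtain ⟨g, hg⟩ := exists_smul_rep (G := G) x
  exact ⟨g, Finset.mem_filter.2 ⟨Finset.mem_univ _, hg⟩⟩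

end eqv

section primes

variable {K E : Type*} [Field K] [NumberField K] [Field E] [NumberField E] [Algebra K E]

noncomputable scoped instance : MulAction (E ≃ₐ[K] E) (PrI E) where
  smul := pg
  one_smul := pg_one
  mul_smul := pg_mul

lemma smul_eq_pg (g : E ≃ₐ[K] E) (u : PrI E) : g • u = pg g u := rfl

lemma ord_smul (g : E ≃ₐ[K] E) (u : PrI E) (x : Eˣ) : ord (g • u) (g • x) = ord u x := by
  rw [ord_eq_iff, smul_eq_pg]
  have h : ((g • x : Eˣ) : E) = g (x : E) := rfl
  rw [h, valuation_pg, val_eq]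

lemma ord_smul' (g : E ≃ₐ[K] E) (u : PrI E) (x : Eˣ) : ord u (g • x) = ord (g⁻¹ • u) x := by
  rw [← ord_smul g (g⁻¹ • u), smul_inv_smul]

lemma und_smul (g : E ≃ₐ[K] E) (u : PrI E) : und K (g • u) = und K u := und_pg g u

/-- equivariant generators of powers of primes -/
lemma exists_eqv_gen (K E : Type*) [Field K] [NumberField K] [Field E] [NumberField E]
    [Algebra K E] : ∃ (ϖ : PrI E → Eˣ) (h : PrI E → ℕ), (∀ u, 0 < h u) ∧
    (∀ u, ord u (ϖ u) = h u) ∧ (∀ u v, v ≠ u → ord v (ϖ u) = 0) ∧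
    ∀ (g : E ≃ₐ[K] E) u, g • ϖ u = ϖ (g • u) := by
  classical
  obtain ⟨h, hh, hp⟩ := exists_gen_pow E
  choose p hp1 hp2 using hp
  have key : ∀ u v : PrI E, ord v (eqv (E ≃ₐ[K] E) p u) =
      if v = u then ((Finset.univ.filter (fun g : E ≃ₐ[K] E =>
        g • rep (E ≃ₐ[K] E) u = u)).card * h : ℕ) else 0 := by
    intro u v
    unfold eqv
    rw [ord_prod]
    split_ifs with hvu
    · subst hvu
      rw [Finset.sum_congr rfl (g := fun _ => (h : ℤ)), Finset.sum_const, nsmul_eq_mul]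
      · push_cast
        rfl
      · intro g hg
        have hg' := (Finset.mem_filter.1 hg).2
        have e : g⁻¹ • v = rep (E ≃ₐ[K] E) v := by rw [inv_smul_eq_iff, hg']
        rw [ord_smul', e, hp1]
    · refine Finset.sum_eq_zero fun g hg => ?_
      have hg' := (Finset.mem_filter.1 hg).2
      rw [ord_smul']
      apply hp2
      intro h1
      apply hvu
      rw [inv_smul_eq_iff] at h1
      rw [h1, hg']
  refine ⟨eqv (E ≃ₐ[K] E) p, fun u => (Finset.univ.filter (fun g : E ≃ₐ[K] E =>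
        g • rep (E ≃ₐ[K] E) u = u)).card * h, ?_, ?_, ?_, ?_⟩
  · intro u
    exact Nat.mul_pos (Finset.card_pos.2 (eqv_nonempty u)) hh
  · intro u
    rw [key, if_pos rfl]
  · intro u v hvu
    rw [key, if_neg hvu, Nat.cast_zero]
  · intro g u
    exact eqv_smul p g u

end primes

section real

variable {K E : Type*} [Field K] [NumberField K] [Field E] [NumberField E] [Algebra K E]

noncomputable scoped instance : MulAction (E ≃ₐ[K] E) (E →+* ℝ) where
  smul g φ := φ.comp ((g⁻¹ : E ≃ₐ[K] E) : E →+* E)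
  one_smul φ := by
    ext x
    rfl
  mul_smul g h φ := by
    ext x
    change φ ((g * h)⁻¹ x) = φ (h⁻¹ (g⁻¹ x))
    rw [mul_inv_rev]
    rfl

lemma real_smul_apply (g : E ≃ₐ[K] E) (φ : E →+* ℝ) (x : E) : (g • φ) x = φ (g⁻¹ x) := rfl

lemma real_inv_smul_apply (g : E ≃ₐ[K] E) (φ : E →+* ℝ) (x : E) : (g⁻¹ • φ) x = φ (g x) := by
  rw [real_smul_apply, inv_inv]

/-- the place of a real embedding -/
noncomputable def rpl (φ : E →+* ℝ) : InfinitePlace E := InfinitePlace.mk (Complex.ofRealHom.comp φ)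

lemma rpl_apply (φ : E →+* ℝ) (x : E) : rpl φ x = |φ x| := by
  unfold rpl
  rw [InfinitePlace.apply]
  simp

lemma rpl_injective : Function.Injective (rpl (E := E)) := by
  intro φ ψ h
  have h1 : ∀ x, (Complex.ofRealHom.comp φ) x = (Complex.ofRealHom.comp ψ) x := by
    unfold rpl at h
    rw [InfinitePlace.mk_eq_iff] at h
    rcases h with h | h
    · exact fun x => DFunLike.congr_fun h x
    · intro x
      have h2 := DFunLike.congr_fun h x
      simp at h2
      simp [h2]
  ext x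
  have := h1 x
  simpa using this

lemma rpl_surjective (hTR : ∀ (φ : E →+* ℂ) (x : E), (φ x).im = 0) :
    Function.Surjective (rpl (E := E)) := by
  intro w
  have hreal : ComplexEmbedding.IsReal w.embedding := by
    rw [ComplexEmbedding.isReal_iff]
    ext x
    rw [ComplexEmbedding.conjugate_coe_eq]
    exact Complex.conj_eq_iff_im.2 (hTR _ x)
  refine ⟨hreal.embedding, ?_⟩
  unfold rpl
  conv_rhs => rw [← InfinitePlace.mk_embedding w]
  congr 1
  ext x
  exact hreal.coe_embedding_apply x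

/-- equivariant family of units, one for each real place, small at the other places -/
lemma exists_eqv_unit (K : Type*) {E : Type*} [Field K] [NumberField K] [Field E] [NumberField E]
    [Algebra K E] (hTR : ∀ (φ : E →+* ℂ) (x : E), (φ x).im = 0) :
    ∃ ε : (E →+* ℝ) → Eˣ, (∀ φ u, ord u (ε φ) = 0) ∧ (∀ (g : E ≃ₐ[K] E) φ, g • ε φ = ε (g • φ)) ∧
      ∃ N : ℕ, 0 < N ∧ ∀ x : Eˣ, (∀ u, ord u x = 0) → x ^ N ∈ Subgroup.closure (Set.range ε) := by
  classical
  choose p0 hp0 using fun φ : E →+* ℝ =>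
    NumberField.Units.dirichletUnitTheorem.exists_unit E (rpl φ)
  set j : (𝓞 E)ˣ →* Eˣ := Units.map (algebraMap (𝓞 E) E).toMonoidHom with hj
  let p : (E →+* ℝ) → Eˣ := fun φ => j (p0 φ)
  have hj1 : ∀ η : (𝓞 E)ˣ, ((j η : Eˣ) : E) = algebraMap (𝓞 E) E (η : 𝓞 E) := fun η => rfl
  have hp : ∀ φ ψ : E →+* ℝ, ψ ≠ φ → |ψ (p φ : E)| < 1 := by
    intro φ ψ h
    have h1 := hp0 φ (rpl ψ) (fun h' => h (rpl_injective h'))
    rw [rpl_apply] at h1
    have h2 : 0 < |ψ (p φ : E)| := abs_pos.2 ((map_ne_zero _).2 (p φ).ne_zero)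
    by_contra hcon
    rw [not_lt] at hcon
    exact absurd h1 (not_lt.2 (Real.log_nonneg hcon))
  set ε : (E →+* ℝ) → Eˣ := eqv (E ≃ₐ[K] E) p with hε
  have hord : ∀ φ u, ord u (ε φ) = 0 := by
    intro φ u
    rw [hε]
    unfold eqv
    rw [ord_prod]
    refine Finset.sum_eq_zero fun g _ => ?_
    rw [ord_smul']
    exact ord_unit _ _
  have hsmall : ∀ φ ψ : E →+* ℝ, ψ ≠ φ → |ψ (ε φ : E)| < 1 := by
    intro φ ψ h
    have h1 : ψ (ε φ : E) = ∏ g ∈ Finset.univ.filter (fun g : E ≃ₐ[K] E =>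
        g • rep (E ≃ₐ[K] E) φ = φ), (g⁻¹ • ψ) (p (rep (E ≃ₐ[K] E) φ) : E) := by
      rw [hε]
      unfold eqv
      rw [Units.coe_prod, map_prod]
      refine Finset.prod_congr rfl fun g _ => ?_
      rw [real_inv_smul_apply]
      rfl
    rw [h1, Finset.abs_prod]
    have h2 : ∏ g ∈ Finset.univ.filter (fun g : E ≃ₐ[K] E => g • rep (E ≃ₐ[K] E) φ = φ),
        |(g⁻¹ • ψ) (p (rep (E ≃ₐ[K] E) φ) : E)| <
        ∏ g ∈ Finset.univ.filter (fun g : E ≃ₐ[K] E => g • rep (E ≃ₐ[K] E) φ = φ), (1 : ℝ) := by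
      refine Finset.prod_lt_prod_of_nonempty ?_ ?_ (eqv_nonempty φ)
      · intro g _
        exact abs_pos.2 ((map_ne_zero _).2 (Units.ne_zero _))
      · intro g hg
        apply hp
        intro h3
        apply h
        rw [inv_smul_eq_iff] at h3
        rw [h3, (Finset.mem_filter.1 hg).2]
    rwa [Finset.prod_const_one] at h2
  choose η hη using fun φ => exists_unit_of_ord (hord φ)
  choose φw hφw using rpl_surjective hTR
  have hfin := finiteIndex_of (fun w => η (φw w)) (by
    intro w w' hw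
    have e1 : w' (algebraMap (𝓞 E) E (η (φw w) : 𝓞 E)) = |φw w' (ε (φw w) : E)| := by
      rw [hη, ← rpl_apply, hφw]
    change Real.log (w' (algebraMap (𝓞 E) E (η (φw w) : 𝓞 E))) < 0
    rw [e1]
    apply Real.log_neg
    · exact abs_pos.2 ((map_ne_zero _).2 (Units.ne_zero _))
    · apply hsmall
      intro h
      apply hw
      rw [← hφw w', ← hφw w, h])
  refine ⟨ε, hord, fun g φ => eqv_smul p g φ, _, Nat.pos_of_ne_zero hfin.index_ne_zero, ?_⟩
  intro x hx
  obtain ⟨ηx, hηx⟩ := exists_unit_of_ord hx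
  have h1 := Subgroup.pow_index_mem (Subgroup.closure (Set.range fun w => η (φw w))) ηx
  have h2 := Subgroup.mem_map_of_mem j h1
  rw [map_pow] at h2
  have h3 : j ηx = x := by
    apply Units.ext
    rw [hj1, hηx]
  rw [h3, MonoidHom.map_closure] at h2
  refine Subgroup.closure_mono ?_ h2
  rintro _ ⟨_, ⟨w, rfl⟩, rfl⟩
  refine ⟨φw w, ?_⟩
  apply Units.ext
  rw [hj1, hη]

end real

end Pool.Agent.STc.Cnt
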