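import Pool.Agent.Lib.MP_1ef7cf_nt_c.CountB
import Pool.Agent.Lib.MP_1ef7cf_nt_c.CountEqv

/-!
# The count of the Selmer group: the class group
-/

set_option linter.unusedSectionVars false

open NumberField IsDedekindDomain

namespace Pool.Agent.STc.Cnt

open Pool.Agent.ST Pool.Agent.STb

section F

variable {G : Type*} [Group G] {X : Type*} [MulAction G X]

/-- the action of a finite set of group elements on divisors -/
noncomputable def Fd (Z : Finset G) : (X →₀ ℤ) →+ (X →₀ ℤ) :=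
  ∑ g ∈ Z, Finsupp.mapDomain.addMonoidHom (fun x => g • x)

lemma Fd_apply (Z : Finset G) (a : X →₀ ℤ) (x : X) : Fd Z a x = ∑ g ∈ Z, a (g⁻¹ • x) := by
  unfold Fd
  rw [AddMonoidHom.finsetSum_apply, Finsupp.finsetSum_apply]
  refine Finset.sum_congr rfl fun g _ => ?_
  have h : x = (fun x => g • x) (g⁻¹ • x) := (smul_inv_smul g x).symm
  conv_lhs => rw [h]
  exact Finsupp.mapDomain_apply (MulAction.injective g) a _

end F

section cl

variable {K E : Type*} [Field K] [NumberField K] [Field E] [NumberField E] [Algebra K E]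
  {Z : Finset (E ≃ₐ[K] E)} {S : PrI E → Prop} {P : Subgroup Eˣ}

lemma Fd_dv (x : Eˣ) : Fd Z (dv x) = dv (ff Z x) := by
  ext u
  rw [Fd_apply, dv_apply, ff_apply, ord_prod]
  refine Finset.sum_congr rfl fun g _ => ?_
  rw [dv_apply, ord_smul']

/-- divisors of elements of `P`, outside `S` -/
def PP (S : PrI E → Prop) (P : Subgroup Eˣ) : AddSubgroup (PrI E →₀ ℤ) where
  carrier := {a | ∃ x ∈ P, ∀ u, ¬ S u → a u = ord u x}
  zero_mem' := ⟨1, one_mem _, fun u _ => by rw [ord_one]; rfl⟩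
  add_mem' := by
    rintro a b ⟨x, hx, hx'⟩ ⟨y, hy, hy'⟩
    exact ⟨x * y, mul_mem hx hy, fun u hu => by rw [Finsupp.add_apply, hx' u hu, hy' u hu, ord_mul]⟩
  neg_mem' := by
    rintro a ⟨x, hx, hx'⟩
    exact ⟨x⁻¹, inv_mem hx, fun u hu => by rw [Finsupp.neg_apply, hx' u hu, ord_inv]⟩

lemma mem_PP {a : PrI E →₀ ℤ} : a ∈ PP S P ↔ ∃ x ∈ P, ∀ u, ¬ S u → a u = ord u x := Iff.rfl

lemma Fd_PP (hS : ∀ (g : E ≃ₐ[K] E) u, S (g • u) ↔ S u) (hP : ∀ (g : E ≃ₐ[K] E), ∀ x ∈ P, g • x ∈ P)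
    {a : PrI E →₀ ℤ} (ha : a ∈ PP S P) : Fd Z a ∈ PP S P := by
  obtain ⟨x, hx, hx'⟩ := ha
  refine ⟨ff Z x, ff_mem Z hP x hx, fun u hu => ?_⟩
  rw [Fd_apply, ff_apply, ord_prod]
  refine Finset.sum_congr rfl fun g _ => ?_
  rw [hx' _ (by rwa [hS]), ord_smul']

lemma Fd_two (hS : ∀ (g : E ≃ₐ[K] E) u, S (g • u) ↔ S u)
    (hCl : ∀ u, ¬ S u → ∃ x ∈ P, ∀ u', ¬ S u' →
      Even (Fd Z (Finsupp.single u 1) u' - ord u' x)) (a : PrI E →₀ ℤ) :
    ∃ p ∈ PP S P, ∃ c, Fd Z a = p + (2 : ℤ) • c := by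
  classical
  have hsingle : ∀ u : PrI E, ∃ p ∈ PP S P, ∃ c, Fd Z (Finsupp.single u 1) = p + (2 : ℤ) • c := by
    intro u
    by_cases hu : S u
    · refine ⟨Fd Z (Finsupp.single u 1), ⟨1, one_mem _, fun u' hu' => ?_⟩, 0, by simp⟩
      rw [ord_one, Fd_apply]
      refine Finset.sum_eq_zero fun g _ => ?_
      rw [Finsupp.single_eq_of_ne]
      rintro h
      apply hu'
      rwa [← h, hS] at hu
    · obtain ⟨x, hx, hx'⟩ := hCl u hu
      set b : PrI E →₀ ℤ := Fd Z (Finsupp.single u 1) - dv x with hb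
      refine ⟨Fd Z (Finsupp.single u 1) - (2 : ℤ) • b.mapRange (fun n => n / 2) (by norm_num),
        ⟨x, hx, fun u' hu' => ?_⟩, b.mapRange (fun n => n / 2) (by norm_num), by abel⟩
      rw [Finsupp.sub_apply, Finsupp.smul_apply, Finsupp.mapRange_apply]
      have h1 := hx' u' hu'
      have h2 : b u' = Fd Z (Finsupp.single u 1) u' - ord u' x := by
        rw [hb, Finsupp.sub_apply, dv_apply]
      rw [← h2] at h1
      have h3 := Int.two_mul_ediv_two_of_even h1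
      rw [smul_eq_mul, h3, h2]
      ring
  induction a using Finsupp.induction_linear with
  | zero => exact ⟨0, zero_mem _, 0, by simp⟩
  | add a b iha ihb =>
    obtain ⟨p, hp, c, hc⟩ := iha
    obtain ⟨q, hq, d, hd⟩ := ihb
    exact ⟨p + q, add_mem hp hq, c + d, by rw [map_add, hc, hd, smul_add]; abel⟩
  | single u n =>
    obtain ⟨p, hp, c, hc⟩ := hsingle u
    refine ⟨n • p, zsmul_mem hp n, n • c, ?_⟩
    have h1 : Finsupp.single u n = n • Finsupp.single u (1 : ℤ) := by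
      rw [Finsupp.smul_single, smul_eq_mul, mul_one]
    rw [h1, map_zsmul, hc, smul_add, smul_comm]

lemma Fd_pow (hS : ∀ (g : E ≃ₐ[K] E) u, S (g • u) ↔ S u) (hP : ∀ (g : E ≃ₐ[K] E), ∀ x ∈ P, g • x ∈ P)
    (hCl : ∀ u, ¬ S u → ∃ x ∈ P, ∀ u', ¬ S u' →
      Even (Fd Z (Finsupp.single u 1) u' - ord u' x)) (n : ℕ) (a : PrI E →₀ ℤ) :
    ∃ p ∈ PP S P, ∃ c, (Fd Z)^[n] a = p + ((2 ^ n : ℕ) : ℤ) • c := by
  induction n with
  | zero => exact ⟨0, zero_mem _, a, by simp⟩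
  | succ n ih =>
    obtain ⟨p, hp, c, hc⟩ := ih
    obtain ⟨q, hq, d, hd⟩ := Fd_two hS hCl c
    refine ⟨Fd Z p + ((2 ^ n : ℕ) : ℤ) • q, add_mem (Fd_PP hS hP hp) (zsmul_mem hq _), d, ?_⟩
    rw [Function.iterate_succ_apply', hc, map_add, map_zsmul, hd, smul_add, smul_smul, add_assoc]
    push_cast
    rw [pow_succ]

lemma mul_mem_PP (hP2 : ∀ x : Eˣ, x ^ 2 ∈ P) : ∃ h : ℕ, 0 < h ∧
    ∀ a : PrI E →₀ ℤ, ((2 * h : ℕ) : ℤ) • a ∈ PP S P := by
  classical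
  obtain ⟨h, hh, hp⟩ := exists_gen_pow E
  refine ⟨h, hh, fun a => ?_⟩
  induction a using Finsupp.induction_linear with
  | zero => rw [smul_zero]; exact zero_mem _
  | add a b iha ihb => rw [smul_add]; exact add_mem iha ihb
  | single u n =>
    obtain ⟨x, hx1, hx2⟩ := hp u
    have h1 : ((2 * h : ℕ) : ℤ) • Finsupp.single u n = n • ((2 * h : ℕ) : ℤ) • Finsupp.single u (1 : ℤ) := by
      rw [Finsupp.smul_single, Finsupp.smul_single, Finsupp.smul_single, smul_eq_mul, smul_eq_mul,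
        smul_eq_mul, mul_one, mul_comm]
    rw [h1]
    apply zsmul_mem
    refine ⟨x ^ 2, hP2 x, fun v _ => ?_⟩
    rw [ord_pow, Finsupp.smul_apply]
    by_cases hv : v = u
    · subst hv
      rw [hx1, Finsupp.single_eq_same]
      push_cast
      ring
    · rw [hx2 v hv, Finsupp.single_eq_of_ne hv]
      simp

/-- the key lemma for the class group -/
theorem exists_odd (hS : ∀ (g : E ≃ₐ[K] E) u, S (g • u) ↔ S u)
    (hP : ∀ (g : E ≃ₐ[K] E), ∀ x ∈ P, g • x ∈ P) (hP2 : ∀ x : Eˣ, x ^ 2 ∈ P)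
    (hCl : ∀ u, ¬ S u → ∃ x ∈ P, ∀ u', ¬ S u' →
      Even (Fd Z (Finsupp.single u 1) u' - ord u' x)) :
    ∃ n k : ℕ, ∀ c : PrI E →₀ ℤ, ∃ x ∈ P, ∀ u, ¬ S u →
      (2 * k + 1) * ((Fd Z)^[n + 1] c) u = ord u x := by
  obtain ⟨h, hh, hmul⟩ := mul_mem_PP (S := S) hP2
  obtain ⟨n, m, hm, hnm⟩ := Nat.exists_eq_two_pow_mul_odd (n := 2 * h) (by omega)
  obtain ⟨k, rfl⟩ := hm
  obtain ⟨n, rfl⟩ : ∃ n', n = n' + 1 := by
    rcases n with _ | n
    · exfalso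
      rw [pow_zero, one_mul] at hnm
      omega
    · exact ⟨n, rfl⟩
  refine ⟨n, k, fun c => ?_⟩
  obtain ⟨p, hp, d, hd⟩ := Fd_pow hS hP hCl (n + 1) c
  have h1 : ((2 * k + 1 : ℕ) : ℤ) • (Fd Z)^[n + 1] c ∈ PP S P := by
    rw [hd, smul_add, smul_smul]
    refine add_mem (zsmul_mem hp _) ?_
    have h2 := hmul d
    rw [hnm] at h2
    have h3 : ((2 * k + 1 : ℕ) : ℤ) * ((2 ^ (n + 1) : ℕ) : ℤ) =
        ((2 ^ (n + 1) * (2 * k + 1) : ℕ) : ℤ) := by push_cast; ring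
    rw [h3]
    exact h2
  obtain ⟨x, hx, hx'⟩ := h1
  refine ⟨x, hx, fun u hu => ?_⟩
  rw [← hx' u hu, Finsupp.smul_apply, smul_eq_mul]
  push_cast
  ring

lemma Fd_iter_dv (n : ℕ) (x : Eˣ) : (Fd Z)^[n] (dv x) = dv ((ff Z)^[n] x) := by
  induction n with
  | zero => rfl
  | succ n ih => rw [Function.iterate_succ_apply', ih, Fd_dv, Function.iterate_succ_apply']

lemma ff_iter {w : Eˣ →* Eˣ} (hw : ∀ x, ff Z (ff Z x) = ff Z x * (w x) ^ 2) (n : ℕ) (x : Eˣ) :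
    ∃ s, (ff Z)^[n + 1] x = ff Z x * s ^ 2 := by
  induction n with
  | zero => exact ⟨1, by simp⟩
  | succ n ih =>
    obtain ⟨s, hs⟩ := ih
    refine ⟨w x * ff Z s, ?_⟩
    rw [Function.iterate_succ_apply', hs, map_mul, hw, map_pow, mul_pow, mul_assoc]

end cl

end Pool.Agent.STc.Cnt
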