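import Pool.Agent.Lib.MP_1ef7cf_nt_c.SelDefs

/-!
# The count of the Selmer group: local symbols
-/

set_option linter.unusedSectionVars false

open NumberField IsDedekindDomain

namespace Pool.Agent.STc.Cnt

open Pool.Agent.ST Pool.Agent.STb

section loc

variable {M : Type*} [Field M] [NumberField M]

/-- reduction of an element of even order -/
lemma exists_red {u : PrI M} {x : M} (h : SqAt u x) :
    ∃ a : 𝓞 M, a ∉ u.asIdeal ∧ ∃ y : M, y ≠ 0 ∧ u.valuation M (x * y ^ 2 - algebraMap (𝓞 M) M a) < 1 := by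
  obtain ⟨y, hy⟩ := h
  have hy0 : y ≠ 0 := by
    rintro rfl
    rw [zero_pow (by norm_num), mul_zero, map_zero] at hy
    exact zero_ne_one hy
  obtain ⟨a, ha⟩ := u.exists_valuation_sub_lt_of_integer (K := M) hy.le 1
  have ha' : u.valuation M (x * y ^ 2 - algebraMap (𝓞 M) M a) < 1 := by
    rw [Valuation.map_sub_swap]
    simpa using ha
  refine ⟨a, ?_, y, hy0, ha'⟩
  intro ha0
  have h1 := (u.valuation_lt_one_iff_mem (K := M) a).2 ha0
  have h2 : x * y ^ 2 = (x * y ^ 2 - algebraMap (𝓞 M) M a) + algebraMap (𝓞 M) M a := by ring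
  have h3 : u.valuation M (x * y ^ 2) < 1 := by
    rw [h2]
    exact Valuation.map_add_lt _ ha' h1
  rw [hy] at h3
  exact lt_irrefl _ h3

lemma val_one_of_notMem {u : PrI M} {a : 𝓞 M} (ha : a ∉ u.asIdeal) :
    u.valuation M (algebraMap (𝓞 M) M a) = 1 := (u.valuation_eq_one_iff_notMem (K := M)).2 ha

/-- squares in the residue field -/
lemma lsq_of_isSquare {u : PrI M} {x y : M} {a : 𝓞 M} (ha : a ∉ u.asIdeal)
    (h : u.valuation M (x * y ^ 2 - algebraMap (𝓞 M) M a) < 1)
    (hs : IsSquare (Ideal.Quotient.mk u.asIdeal a)) : LSq u x := by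
  obtain ⟨b, hb⟩ := hs
  obtain ⟨b, rfl⟩ := Ideal.Quotient.mk_surjective b
  have h1 : a - b * b ∈ u.asIdeal := by
    rw [← Ideal.Quotient.eq_zero_iff_mem, map_sub, map_mul, hb, sub_self]
  have hb0 : b ∉ u.asIdeal := by
    intro hb'
    apply ha
    have h2 : a = (a - b * b) + b * b := by ring
    rw [h2]
    exact u.asIdeal.add_mem h1 (u.asIdeal.mul_mem_left b hb')
  have hbv := val_one_of_notMem hb0
  have hbn : algebraMap (𝓞 M) M b ≠ 0 := by
    intro h0
    rw [h0, map_zero] at hbv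
    exact zero_ne_one hbv
  refine ⟨y / algebraMap (𝓞 M) M b, ?_⟩
  have h3 : x * (y / algebraMap (𝓞 M) M b) ^ 2 - 1 =
      ((x * y ^ 2 - algebraMap (𝓞 M) M a) + algebraMap (𝓞 M) M (a - b * b)) *
        ((algebraMap (𝓞 M) M b) ^ 2)⁻¹ := by
    rw [map_sub, map_mul]
    field_simp
    ring
  rw [h3, map_mul, map_inv₀, map_pow, hbv, one_pow, inv_one, mul_one]
  exact Valuation.map_add_lt _ h ((u.valuation_lt_one_iff_mem (K := M) _).2 h1)

/-- an integer that is a local square is a square in the residue field -/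
lemma isSquare_of_lsq {u : PrI M} {a : 𝓞 M} (ha : a ∉ u.asIdeal)
    (h : LSq u (algebraMap (𝓞 M) M a)) : IsSquare (Ideal.Quotient.mk u.asIdeal a) := by
  obtain ⟨y, hy⟩ := h
  have hav := val_one_of_notMem ha
  have h1 : u.valuation M (algebraMap (𝓞 M) M a * y ^ 2) = 1 := by
    have h2 : algebraMap (𝓞 M) M a * y ^ 2 = (algebraMap (𝓞 M) M a * y ^ 2 - 1) + 1 := by ring
    rw [h2, Valuation.map_add_eq_of_lt_right, map_one]
    rwa [map_one]
  rw [map_mul, hav, one_mul, map_pow] at h1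
  have h2 : u.valuation M y = 1 := by
    have hy0 : y ≠ 0 := by
      rintro rfl
      rw [map_zero, zero_pow (by norm_num)] at h1
      exact zero_ne_one h1
    obtain ⟨k, hk⟩ := exists_exp (P := u) hy0
    rw [hk, pow_two, ← WithZero.exp_add, ← WithZero.exp_zero, WithZero.exp_injective.eq_iff] at h1
    rw [hk, ← WithZero.exp_zero]
    congr 1
    omega
  obtain ⟨c, hc⟩ := u.exists_valuation_sub_lt_of_integer (K := M) h2.le 1
  have hc' : u.valuation M (algebraMap (𝓞 M) M c - y) < 1 := by simpa using hc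
  have h3 : a * c ^ 2 - 1 ∈ u.asIdeal := by
    refine (u.valuation_lt_one_iff_mem (K := M) _).1 ?_
    have h4 : algebraMap (𝓞 M) M (a * c ^ 2 - 1) =
        (algebraMap (𝓞 M) M a * y ^ 2 - 1) +
        algebraMap (𝓞 M) M a * ((algebraMap (𝓞 M) M c - y) * (algebraMap (𝓞 M) M c + y)) := by
      rw [map_sub, map_mul, map_pow, map_one]
      ring
    change u.valuation M (algebraMap (𝓞 M) M (a * c ^ 2 - 1)) < 1
    rw [h4]
    refine Valuation.map_add_lt _ hy ?_
    rw [map_mul, hav, one_mul, map_mul]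
    refine mul_lt_one_of_lt_of_le hc' ?_
    exact (Valuation.map_add_le _ (HeightOneSpectrum.valuation_le_one _ _) h2.le)
  have hu := u.isMaximal
  let _ : Field (𝓞 M ⧸ u.asIdeal) := Ideal.Quotient.field u.asIdeal
  have h5 : Ideal.Quotient.mk u.asIdeal a * (Ideal.Quotient.mk u.asIdeal c) ^ 2 = 1 := by
    have := Ideal.Quotient.eq_zero_iff_mem.2 h3
    rw [map_sub, map_mul, map_pow, map_one, sub_eq_zero] at this
    exact this
  have hc0 : Ideal.Quotient.mk u.asIdeal c ≠ 0 := by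
    intro h0
    rw [h0, zero_pow (by norm_num), mul_zero] at h5
    exact zero_ne_one h5
  refine ⟨(Ideal.Quotient.mk u.asIdeal c)⁻¹, ?_⟩
  field_simp
  exact h5

/-- in a finite field the product of two nonsquares is a square -/
lemma isSquare_mul_of_not {F : Type*} [Field F] [Finite F] {a b : F} (ha : ¬ IsSquare a)
    (hb : ¬ IsSquare b) : IsSquare (a * b) := by
  classical
  have := Fintype.ofFinite F
  by_cases h2 : ringChar F = 2
  · exact absurd (FiniteField.isSquare_of_char_two h2 a) ha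
  have ha' := (quadraticChar_neg_one_iff_not_isSquare (F := F)).2 ha
  have hb' := (quadraticChar_neg_one_iff_not_isSquare (F := F)).2 hb
  by_contra hab
  have hab' := (quadraticChar_neg_one_iff_not_isSquare (F := F)).2 hab
  rw [map_mul, ha', hb'] at hab'
  norm_num at hab'

/-- the product of two local nonsquares of even order is a local square -/
lemma lsq_mul_of_not {u : PrI M} {x x' : M} (hx : SqAt u x) (hx' : SqAt u x')
    (h : ¬ LSq u x) (h' : ¬ LSq u x') : LSq u (x * x') := by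
  obtain ⟨a, ha, y, hy0, hy⟩ := exists_red hx
  obtain ⟨a', ha', y', hy0', hy'⟩ := exists_red hx'
  have hu := u.isMaximal
  let _ : Field (𝓞 M ⧸ u.asIdeal) := Ideal.Quotient.field u.asIdeal
  have hfin : Finite (𝓞 M ⧸ u.asIdeal) := Ideal.finiteQuotientOfFreeOfNeBot u.asIdeal u.ne_bot
  have h1 : ¬ IsSquare (Ideal.Quotient.mk u.asIdeal a) := fun hs => h (lsq_of_isSquare ha hy hs)
  have h1' : ¬ IsSquare (Ideal.Quotient.mk u.asIdeal a') :=
    fun hs => h' (lsq_of_isSquare ha' hy' hs)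
  have h2 := isSquare_mul_of_not h1 h1'
  rw [← map_mul] at h2
  have h3 : a * a' ∉ u.asIdeal := fun hm => (u.isPrime.mem_or_mem hm).elim ha ha'
  refine lsq_of_isSquare (y := y * y') h3 ?_ h2
  have h4 : x * x' * (y * y') ^ 2 - algebraMap (𝓞 M) M (a * a') =
      (x * y ^ 2 - algebraMap (𝓞 M) M a) * (x' * y' ^ 2 - algebraMap (𝓞 M) M a') +
      ((x * y ^ 2 - algebraMap (𝓞 M) M a) * algebraMap (𝓞 M) M a' +
        algebraMap (𝓞 M) M a * (x' * y' ^ 2 - algebraMap (𝓞 M) M a')) := by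
    rw [map_mul]; ring
  rw [h4]
  refine Valuation.map_add_lt _ ?_ (Valuation.map_add_lt _ ?_ ?_)
  · rw [map_mul]
    exact mul_lt_one_of_lt_of_le hy hy'.le
  · rw [map_mul, val_one_of_notMem ha', mul_one]
    exact hy
  · rw [map_mul, val_one_of_notMem ha, one_mul]
    exact hy'

end loc

section trv

variable {M : Type*} [Field M] [NumberField M] {u : PrI M} {τ : M}

lemma trv_one : Trv u τ (1 : M) := Or.inl (LSq.one u)

lemma trv_mul (hτ0 : τ ≠ 0) {x x' : M} (h : Trv u τ x) (h' : Trv u τ x') : Trv u τ (x * x') := by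
  rcases h with h | h <;> rcases h' with h' | h'
  · exact Or.inl (h.mul h')
  · right
    have := h.mul h'
    rwa [show x * (τ * x') = τ * (x * x') by ring] at this
  · right
    have := h.mul h'
    rwa [mul_assoc] at this
  · left
    have := h.mul h'
    rwa [show τ * x * (τ * x') = x * x' * τ ^ 2 by ring, LSq.mul_sq hτ0] at this

lemma trv_inv (hτ0 : τ ≠ 0) {x : M} (h : Trv u τ x) : Trv u τ x⁻¹ := by
  rcases h with h | h
  · exact Or.inl h.inv
  · right
    have h1 := h.inv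
    rw [← LSq.mul_sq (z := τ) hτ0] at h1
    rwa [show (τ * x)⁻¹ * τ ^ 2 = τ * x⁻¹ by rw [mul_inv]; field_simp] at h1

lemma sqAt_or {x : M} (hx : x ≠ 0) (hτ0 : τ ≠ 0) (hτ : ¬ SqAt u τ) : SqAt u x ∨ SqAt u (τ * x) := by
  by_cases h : SqAt u x
  · exact Or.inl h
  · exact Or.inr (SqAt.mul_of_iff hτ0 hx (iff_of_false hτ h))

lemma trv_mul_of_not (hτ0 : τ ≠ 0) (hτ : ¬ SqAt u τ) {x x' : M} (hx : x ≠ 0) (hx' : x' ≠ 0)
    (h : ¬ Trv u τ x) (h' : ¬ Trv u τ x') : Trv u τ (x * x') := by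
  unfold Trv at h h'
  push Not at h h'
  rcases sqAt_or hx hτ0 hτ with h1 | h1 <;> rcases sqAt_or hx' hτ0 hτ with h1' | h1'
  · exact Or.inl (lsq_mul_of_not h1 h1' h.1 h'.1)
  · right
    have := lsq_mul_of_not h1 h1' h.1 h'.2
    rwa [show x * (τ * x') = τ * (x * x') by ring] at this
  · right
    have := lsq_mul_of_not h1 h1' h.2 h'.1
    rwa [mul_assoc] at this
  · left
    have := lsq_mul_of_not h1 h1' h.2 h'.2
    rwa [show τ * x * (τ * x') = x * x' * τ ^ 2 by ring, LSq.mul_sq hτ0] at this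

open Classical in
/-- the transverse symbol -/
noncomputable def trs (u : PrI M) (τ : M) (hτ0 : τ ≠ 0) (hτ : ¬ SqAt u τ) :
    Additive Mˣ →+ ZMod 2 where
  toFun x := if Trv u τ (x.toMul : M) then 0 else 1
  map_zero' := by
    rw [if_pos]
    exact trv_one
  map_add' x y := by
    have e : (((x + y).toMul : Mˣ) : M) = (x.toMul : M) * (y.toMul : M) := rfl
    rw [e]
    have key : ∀ {a b : M}, b ≠ 0 → Trv u τ a → Trv u τ (a * b) → Trv u τ b := by
      intro a b hb ha hab
      have h := trv_mul hτ0 (trv_inv hτ0 ha) hab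
      rwa [← mul_assoc, inv_mul_cancel₀ ?_, one_mul] at h
      rintro rfl
      rcases ha with h1 | h1
      · exact h1.ne_zero rfl
      · exact h1.ne_zero (mul_zero _)
    by_cases hx : Trv u τ (x.toMul : M) <;> by_cases hy : Trv u τ (y.toMul : M)
    · rw [if_pos hx, if_pos hy, if_pos (trv_mul hτ0 hx hy), add_zero]
    · rw [if_pos hx, if_neg hy, if_neg (fun h => hy (key y.toMul.ne_zero hx h)), zero_add]
    · rw [if_neg hx, if_pos hy, if_neg (fun h => hx (key x.toMul.ne_zero hy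
        (by rwa [mul_comm] at h))), add_zero]
    · rw [if_neg hx, if_neg hy, if_pos (trv_mul_of_not hτ0 hτ x.toMul.ne_zero y.toMul.ne_zero
        hx hy)]
      rfl

lemma trs_eq_zero (hτ0 : τ ≠ 0) (hτ : ¬ SqAt u τ) {x : Mˣ} :
    trs u τ hτ0 hτ (Additive.ofMul x) = 0 ↔ Trv u τ (x : M) := by
  classical
  change (if Trv u τ (x : M) then (0 : ZMod 2) else 1) = 0 ↔ _
  split_ifs with h
  · simp [h]
  · simp [h]

end trv

section sgn

variable {M : Type*} [Field M] [NumberField M]

open Classical in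
/-- the sign -/
noncomputable def sgs (φ : M →+* ℝ) : Additive Mˣ →+ ZMod 2 where
  toFun x := if 0 < φ (x.toMul : M) then 0 else 1
  map_zero' := by
    rw [if_pos]
    change 0 < φ 1
    rw [map_one]
    exact one_pos
  map_add' x y := by
    have e : (((x + y).toMul : Mˣ) : M) = (x.toMul : M) * (y.toMul : M) := rfl
    rw [e, map_mul]
    have hx0 : φ (x.toMul : M) ≠ 0 := (map_ne_zero _).2 x.toMul.ne_zero
    have hy0 : φ (y.toMul : M) ≠ 0 := (map_ne_zero _).2 y.toMul.ne_zero
    rcases lt_or_gt_of_ne hx0 with hx | hx <;> rcases lt_or_gt_of_ne hy0 with hy | hy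
    · rw [if_neg (not_lt.2 hx.le), if_neg (not_lt.2 hy.le), if_pos (mul_pos_of_neg_of_neg hx hy)]
      rfl
    · rw [if_neg (not_lt.2 hx.le), if_pos hy, if_neg (not_lt.2 (mul_neg_of_neg_of_pos hx hy).le)]
      rfl
    · rw [if_pos hx, if_neg (not_lt.2 hy.le), if_neg (not_lt.2 (mul_neg_of_pos_of_neg hx hy).le)]
      rfl
    · rw [if_pos hx, if_pos hy, if_pos (mul_pos hx hy)]
      rfl

lemma sgs_eq_zero {φ : M →+* ℝ} {x : Mˣ} : sgs φ (Additive.ofMul x) = 0 ↔ 0 < φ (x : M) := by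
  classical
  change (if 0 < φ (x : M) then (0 : ZMod 2) else 1) = 0 ↔ _
  split_ifs with h
  · simp [h]
  · simp [h]

end sgn

end Pool.Agent.STc.Cnt
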