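import Pool.Agent.Lib.MP_1ef7cf_nt_c.CountEqv
import Pool.Agent.Lib.MP_1ef7cf_nt_c.CountLoc

/-!
# The count of the Selmer group: the symbol map
-/

set_option linter.unusedSectionVars false

open NumberField IsDedekindDomain

namespace Pool.Agent.STc.Cnt

open Pool.Agent.ST Pool.Agent.STb

section unram

variable {K E : Type*} [Field K] [NumberField K] [Field E] [NumberField E] [Algebra K E]

lemma not_sqAt_of_unram {u : PrI E} {t : K} (ht : t ≠ 0) (h : ¬ SqAt (und K u) t)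
    (hu : Algebra.IsUnramifiedAt (𝓞 K) u.asIdeal) : ¬ SqAt u (algebraMap K E t) := by
  have hover : u.asIdeal.LiesOver (und K u).asIdeal := ⟨rfl⟩
  have h1 : (und K u).asIdeal.ramificationIdx' u.asIdeal = 1 := by
    rw [Ideal.ramificationIdx'_eq_ramificationIdx _ _ (und K u).ne_bot,
      Ideal.ramificationIdx_eq_one_of_isUnramifiedAt]
  have h2 := HeightOneSpectrum.valuation_liesOver E (und K u) u t
  rw [h1, pow_one] at h2
  obtain ⟨a, ha⟩ := exists_exp (P := und K u) ht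
  rw [sqAt_iff ha] at h
  rw [sqAt_iff (h2.symm.trans ha)]
  exact h

end unram

section sym

variable {K E : Type*} [Field K] [NumberField K] [Field E] [NumberField E] [Algebra K E]

/-- the primes of `E` above a set of primes of `K` -/
abbrev OvE (E : Type*) {K : Type*} [Field K] [NumberField K] [Field E] [NumberField E]
    [Algebra K E] (r : Finset (PrI K)) := {u : PrI E // und K u ∈ r}

noncomputable scoped instance (r : Finset (PrI K)) : MulAction (E ≃ₐ[K] E) (OvE E r) where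
  smul g u := ⟨g • u.1, by rw [und_smul]; exact u.2⟩
  one_smul u := Subtype.ext (one_smul _ _)
  mul_smul g h u := Subtype.ext (mul_smul _ _ _)

lemma coe_smul_ov (r : Finset (PrI K)) (g : E ≃ₐ[K] E) (u : OvE E r) :
    ((g • u : OvE E r) : PrI E) = g • (u : PrI E) := rfl

scoped instance (r : Finset (PrI K)) : Finite (OvE E r) := by
  have h : {u : PrI E | und K u ∈ r}.Finite := by
    have h1 : {u : PrI E | und K u ∈ r} = ⋃ q ∈ r, ovr K (E := E) q := by
      ext u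
      simp [ovr]
    rw [h1]
    exact r.finite_toSet.biUnion fun q _ => finite_ovr K q
  exact h

variable {r : Finset (PrI K)} {τ : PrI K → K}
  (hτ0 : ∀ u : PrI E, und K u ∈ r → algebraMap K E (τ (und K u)) ≠ 0)
  (hτ : ∀ u : PrI E, und K u ∈ r → ¬ SqAt u (algebraMap K E (τ (und K u))))

/-- the symbol map: signs and transverse symbols -/
noncomputable def sym : Eˣ →* Multiplicative (((E →+* ℝ) ⊕ OvE E r) → ZMod 2) where
  toFun x := Multiplicative.ofAdd (Sum.elim (fun φ => sgs φ (Additive.ofMul x))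
    (fun u => trs u.1 _ (hτ0 u.1 u.2) (hτ u.1 u.2) (Additive.ofMul x)))
  map_one' := by
    apply Multiplicative.toAdd.injective
    ext i
    rcases i with φ | u
    · exact map_zero (sgs φ)
    · exact map_zero (trs u.1 _ (hτ0 u.1 u.2) (hτ u.1 u.2))
  map_mul' x y := by
    apply Multiplicative.toAdd.injective
    ext i
    rcases i with φ | u
    · exact map_add (sgs φ) _ _
    · exact map_add (trs u.1 _ (hτ0 u.1 u.2) (hτ u.1 u.2)) _ _

lemma sym_inl (x : Eˣ) (φ : E →+* ℝ) :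
    (sym hτ0 hτ x).toAdd (Sum.inl φ) = sgs φ (Additive.ofMul x) := rfl

lemma sym_inr (x : Eˣ) (u : OvE E r) :
    (sym hτ0 hτ x).toAdd (Sum.inr u) =
      trs u.1 _ (hτ0 u.1 u.2) (hτ u.1 u.2) (Additive.ofMul x) := rfl

lemma zmod2_ext {a b : ZMod 2} (h : a = 0 ↔ b = 0) : a = b := by
  revert a b; decide

lemma sym_eq_one {x : Eˣ} : sym hτ0 hτ x = 1 ↔ InP r τ (x : E) := by
  constructor
  · intro h
    refine ⟨x.ne_zero, fun φ => ?_, fun u hu => ?_⟩
    · rw [← sgs_eq_zero, ← sym_inl hτ0 hτ, h]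
      rfl
    · rw [← trs_eq_zero (hτ0 u hu) (hτ u hu), ← sym_inr hτ0 hτ x ⟨u, hu⟩, h]
      rfl
  · intro h
    apply Multiplicative.toAdd.injective
    ext i
    rcases i with φ | u
    · rw [sym_inl, sgs_eq_zero.2 (h.pos φ)]
      rfl
    · rw [sym_inr, (trs_eq_zero (hτ0 u.1 u.2) (hτ u.1 u.2)).2 (h.trv u.1 u.2)]
      rfl

lemma lsq_smul {g : E ≃ₐ[K] E} {u : PrI E} {x : E} : LSq u (g x) ↔ LSq (g⁻¹ • u) x := by
  have h := LSq.pg (g := g) (u := g⁻¹ • u) (x := x)
  rw [← smul_eq_pg, smul_inv_smul] at h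
  exact h

lemma sym_smul (g : E ≃ₐ[K] E) (x : Eˣ) (i : (E →+* ℝ) ⊕ OvE E r) :
    (sym hτ0 hτ (g • x)).toAdd i = (sym hτ0 hτ x).toAdd (g⁻¹ • i) := by
  rcases i with φ | u
  · have e : g⁻¹ • (Sum.inl φ : (E →+* ℝ) ⊕ OvE E r) = Sum.inl (g⁻¹ • φ) := rfl
    rw [e, sym_inl, sym_inl]
    apply zmod2_ext
    rw [sgs_eq_zero, sgs_eq_zero, real_inv_smul_apply]
    rfl
  · have e : g⁻¹ • (Sum.inr u : (E →+* ℝ) ⊕ OvE E r) = Sum.inr (g⁻¹ • u) := rfl
    rw [e, sym_inr, sym_inr]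
    apply zmod2_ext
    rw [trs_eq_zero, trs_eq_zero]
    have e1 : ((g⁻¹ • u : OvE E r) : PrI E) = g⁻¹ • (u : PrI E) := rfl
    have e2 : ((g • x : Eˣ) : E) = g (x : E) := rfl
    rw [e1, e2, und_smul]
    unfold Trv
    rw [lsq_smul, ← lsq_smul (x := algebraMap K E (τ (und K u.1)) * x), map_mul, AlgEquiv.commutes]

end sym

section surj

variable {E : Type*} [Field E] [NumberField E]

/-- weak approximation: signs -/
lemma exists_sign (a : (E →+* ℝ) → ZMod 2) : ∃ x : Eˣ, ∀ φ, sgs φ (Additive.ofMul x) = a φ := by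
  classical
  let s : (E →+* ℝ) → E := fun φ => if a φ = 0 then 1 else -1
  let s' : (w : InfinitePlace E) → E := fun w =>
    if h : ∃ φ, rpl φ = w then s h.choose else 1
  have hs' : ∀ φ, s' (rpl φ) = s φ := by
    intro φ
    have h : ∃ ψ, rpl ψ = rpl φ := ⟨φ, rfl⟩
    have h1 : h.choose = φ := rpl_injective h.choose_spec
    simp only [s']
    rw [dif_pos h, h1]
  have hd := InfinitePlace.denseRange_algebraMap_pi E
  obtain ⟨y, hy⟩ := Metric.denseRange_iff.1 hd (fun w => (WithAbs.equiv w.1).symm (s' w)) 1 one_pos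
  rw [dist_pi_lt_iff one_pos] at hy
  have hφ : ∀ φ : E →+* ℝ, |φ y - φ (s φ)| < 1 := by
    intro φ
    have h1 := hy (rpl φ)
    rw [hs'] at h1
    rw [← map_sub, ← rpl_apply]
    rw [dist_comm, dist_eq_norm] at h1
    exact h1
  have hφ' : ∀ φ : E →+* ℝ, (a φ = 0 → 0 < φ y) ∧ (a φ ≠ 0 → φ y < 0) := by
    intro φ
    have h1 := abs_lt.1 (hφ φ)
    constructor
    · intro h
      have h2 : s φ = 1 := if_pos h
      rw [h2, map_one] at h1
      linarith [h1.1]
    · intro h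
      have h2 : s φ = -1 := if_neg h
      rw [h2, map_neg, map_one] at h1
      linarith [h1.2]
  by_cases hE : Nonempty (E →+* ℝ)
  · obtain ⟨φ0⟩ := hE
    have hy0 : y ≠ 0 := by
      rintro rfl
      have := hφ' φ0
      rw [map_zero] at this
      by_cases h : a φ0 = 0
      · exact lt_irrefl _ (this.1 h)
      · exact lt_irrefl _ (this.2 h)
    refine ⟨Units.mk0 y hy0, fun φ => ?_⟩
    apply zmod2_ext
    rw [sgs_eq_zero, Units.val_mk0]
    constructor
    · intro h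
      by_contra h'
      exact lt_asymm h ((hφ' φ).2 h')
    · exact (hφ' φ).1
  · exact ⟨1, fun φ => absurd ⟨φ⟩ hE⟩

/-- an integer which is a nonsquare in the residue field -/
lemma exists_nonsq {u : PrI E} (h2 : (2 : 𝓞 E) ∉ u.asIdeal) :
    ∃ a : 𝓞 E, ¬ IsSquare (Ideal.Quotient.mk u.asIdeal a) := by
  have hu := u.isMaximal
  let _ : Field (𝓞 E ⧸ u.asIdeal) := Ideal.Quotient.field u.asIdeal
  have hfin : Finite (𝓞 E ⧸ u.asIdeal) := Ideal.finiteQuotientOfFreeOfNeBot u.asIdeal u.ne_bot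
  have h3 : ringChar (𝓞 E ⧸ u.asIdeal) ≠ 2 := by
    intro h
    apply h2
    rw [← Ideal.Quotient.eq_zero_iff_mem, map_ofNat]
    have := ringChar.Nat.cast_ringChar (R := 𝓞 E ⧸ u.asIdeal)
    rw [h] at this
    exact_mod_cast this
  obtain ⟨a, ha⟩ := FiniteField.exists_nonsquare h3
  obtain ⟨a, rfl⟩ := Ideal.Quotient.mk_surjective a
  exact ⟨a, ha⟩

lemma exists_pos_int (z : 𝓞 E) {n : ℕ} (hn : 0 < n) :
    ∃ k : ℕ, ∀ φ : E →+* ℝ, 0 < φ (algebraMap (𝓞 E) E (z + n * k)) := by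
  classical
  obtain ⟨k, hk⟩ : ∃ k : ℕ, ∀ φ : E →+* ℝ, -φ (algebraMap (𝓞 E) E z) < k := by
    obtain ⟨B, hB⟩ := (Set.finite_range (fun φ : E →+* ℝ => -φ (algebraMap (𝓞 E) E z))).bddAbove
    obtain ⟨k, hk⟩ := exists_nat_gt B
    exact ⟨k, fun φ => (hB ⟨φ, rfl⟩).trans_lt hk⟩
  refine ⟨k, fun φ => ?_⟩
  rw [map_add, map_add, map_mul, map_natCast, map_natCast, map_mul, map_natCast, map_natCast]
  have h1 := hk φ
  have h2 : (1 : ℝ) ≤ n := by exact_mod_cast hn
  have h3 : (0 : ℝ) ≤ k := by positivity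
  nlinarith

variable {K : Type*} [Field K] [NumberField K] [Algebra K E] {r : Finset (PrI K)} {τ : PrI K → K}

/-- weak approximation: transverse symbols -/
lemma exists_trv (hτ0 : ∀ u : PrI E, und K u ∈ r → algebraMap K E (τ (und K u)) ≠ 0)
    (hτ : ∀ u : PrI E, und K u ∈ r → ¬ SqAt u (algebraMap K E (τ (und K u))))
    (h2 : ∀ u : PrI E, und K u ∈ r → (2 : 𝓞 E) ∉ u.asIdeal) (b : OvE E r → ZMod 2) :
    ∃ x : Eˣ, (∀ φ, sgs φ (Additive.ofMul x) = 0) ∧
      ∀ u : OvE E r, trs u.1 _ (hτ0 u.1 u.2) (hτ u.1 u.2) (Additive.ofMul x) = b u := by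
  classical
  have := Fintype.ofFinite (OvE E r)
  choose a ha using fun u : OvE E r => exists_nonsq (h2 u.1 u.2)
  obtain ⟨z, hz⟩ := IsDedekindDomain.exists_forall_sub_mem_ideal (R := 𝓞 E) (s := Finset.univ)
    (fun u : OvE E r => u.1.asIdeal) (fun _ => 1)
    (fun u _ => u.1.prime) (fun u _ v _ huv h => huv (Subtype.ext (HeightOneSpectrum.ext h)))
    (fun u => if b u.1 = 0 then 1 else a u.1)
  set n : ℕ := ∏ u : OvE E r, pn u.1 with hn
  have hn0 : 0 < n := Finset.prod_pos fun u _ => lt_of_lt_of_le (by norm_num) (two_le_pn u.1)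
  have hnu : ∀ u : OvE E r, ((n : ℕ) : 𝓞 E) ∈ u.1.asIdeal := by
    intro u
    rw [hn, ← Finset.mul_prod_erase Finset.univ _ (Finset.mem_univ u), Nat.cast_mul]
    exact Ideal.mul_mem_right _ _ (Ideal.absNorm_mem _)
  obtain ⟨k, hk⟩ := exists_pos_int z hn0
  set x : 𝓞 E := z + n * k with hx
  have hxu : ∀ u : OvE E r, x - (if b u = 0 then 1 else a u) ∈ u.1.asIdeal := by
    intro u
    have h3 := hz u (Finset.mem_univ u)
    rw [pow_one] at h3
    have h4 : x - (if b u = 0 then 1 else a u) = (z - (if b u = 0 then 1 else a u)) + n * k := by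
      rw [hx]; ring
    rw [h4]
    exact Ideal.add_mem _ h3 (Ideal.mul_mem_right _ _ (hnu u))
  by_cases hx0 : x = 0
  · -- then there is nothing to prove
    have hE : IsEmpty (E →+* ℝ) := ⟨fun φ => by
      have := hk φ
      rw [hx0, map_zero, map_zero] at this
      exact lt_irrefl _ this⟩
    have hr : IsEmpty (OvE E r) := ⟨fun u => by
      have h3 := hxu u
      rw [hx0, zero_sub] at h3
      have h4 := u.1.asIdeal.neg_mem_iff.1 h3
      split_ifs at h4 with h5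
      · exact u.1.isPrime.ne_top ((Ideal.eq_top_iff_one _).2 h4)
      · exact ha u ⟨0, by rw [Ideal.Quotient.eq_zero_iff_mem.2 h4, mul_zero]⟩⟩
    exact ⟨1, fun φ => hE.elim φ, fun u => hr.elim u⟩
  have hx0' : algebraMap (𝓞 E) E x ≠ 0 := by
    intro h0
    exact hx0 (RingOfIntegers.coe_injective (by rw [h0, map_zero]))
  refine ⟨Units.mk0 _ hx0', fun φ => sgs_eq_zero.2 (hk φ), fun u => ?_⟩
  apply zmod2_ext
  rw [trs_eq_zero, Units.val_mk0]
  have h3 := hxu u
  constructor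
  · intro h
    by_contra hb
    rw [if_neg hb] at h3
    have h4 : Ideal.Quotient.mk u.1.asIdeal x = Ideal.Quotient.mk u.1.asIdeal (a u) := by
      rw [← sub_eq_zero, ← map_sub]
      exact Ideal.Quotient.eq_zero_iff_mem.2 h3
    have hxn : x ∉ u.1.asIdeal := by
      intro h5
      apply ha u
      rw [← h4, Ideal.Quotient.eq_zero_iff_mem.2 h5]
      exact ⟨0, by rw [mul_zero]⟩
    rcases h with h | h
    · apply ha u
      rw [← h4]
      exact isSquare_of_lsq hxn h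
    · have h5 : SqAt u.1 (algebraMap (𝓞 E) E x) := ⟨1, by
        rw [one_pow, mul_one]
        exact val_one_of_notMem hxn⟩
      have h6 := h.sqAt
      apply hτ u.1 u.2
      have h7 := SqAt.mul_of_iff (mul_ne_zero (hτ0 u.1 u.2) hx0') hx0' (iff_of_true h6 h5)
      obtain ⟨y, hy⟩ := h7
      exact ⟨algebraMap (𝓞 E) E x * y, by rw [← hy]; congr 1; ring⟩
  · intro hb
    rw [if_pos hb] at h3
    left
    refine ⟨1, ?_⟩
    rw [one_pow, mul_one]
    have h4 : u.1.valuation E (algebraMap (𝓞 E) E (x - 1)) < 1 :=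
      (u.1.valuation_lt_one_iff_mem (K := E) _).2 h3
    rwa [map_sub, map_one] at h4

/-- the symbol map is surjective -/
lemma sym_surj (hτ0 : ∀ u : PrI E, und K u ∈ r → algebraMap K E (τ (und K u)) ≠ 0)
    (hτ : ∀ u : PrI E, und K u ∈ r → ¬ SqAt u (algebraMap K E (τ (und K u))))
    (h2 : ∀ u : PrI E, und K u ∈ r → (2 : 𝓞 E) ∉ u.asIdeal)
    (a : ((E →+* ℝ) ⊕ OvE E r) → ZMod 2) : ∃ x, sym hτ0 hτ x = Multiplicative.ofAdd a := by
  obtain ⟨x, hx⟩ := exists_sign (fun φ => a (Sum.inl φ))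
  obtain ⟨y, hy1, hy2⟩ := exists_trv hτ0 hτ h2
    (fun u => a (Sum.inr u) - (sym hτ0 hτ x).toAdd (Sum.inr u))
  refine ⟨x * y, ?_⟩
  apply Multiplicative.toAdd.injective
  rw [map_mul, toAdd_mul]
  ext i
  rcases i with φ | u
  · rw [Pi.add_apply, sym_inl, sym_inl, hx, hy1, add_zero]
    rfl
  · rw [Pi.add_apply, sym_inr hτ0 hτ y, hy2, add_sub_cancel]
    rfl

end surj

end Pool.Agent.STc.Cnt
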