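import Pool.Agent.Lib.MP_1ef7cf_nt.Mg.G002
import Pool.Agent.Lib.MP_1ef7cf_nt_c.CountCl
import Pool.Agent.Lib.MP_1ef7cf_nt_c.CountSym

/-!
# The count of the Selmer group
-/

set_option linter.unusedSectionVars false

open NumberField IsDedekindDomain

namespace Pool.Agent.STc

open Pool.Agent.ST Pool.Agent.STb

namespace Cnt

section units

variable {E : Type*} [Field E] [NumberField E]

/-- the elements which are units outside `S` -/
def SU (S : PrI E → Prop) : Subgroup Eˣ where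
  carrier := {x | ∀ u, ¬ S u → ord u x = 0}
  one_mem' := fun u _ => ord_one u
  mul_mem' := by
    intro x y hx hy u hu
    rw [ord_mul, hx u hu, hy u hu, add_zero]
  inv_mem' := by
    intro x hx u hu
    rw [ord_inv, hx u hu, neg_zero]

lemma mem_SU {S : PrI E → Prop} {x : Eˣ} : x ∈ SU S ↔ ∀ u, ¬ S u → ord u x = 0 := Iff.rfl

lemma gen_le {A : Type*} [CommGroup A] {ι : Type*} [Fintype ι] {c : A} {π : ι → A}
    {U : Subgroup A} (hc : c ∈ U) (hπ : ∀ i, π i ∈ U) : gen c π ≤ U := by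
  rintro x ⟨k, a, rfl⟩
  exact mul_mem (zpow_mem hc _) (prod_mem fun i _ => zpow_mem (hπ i) _)

lemma ord_neg_one (u : PrI E) : ord u (-1 : Eˣ) = 0 := by
  have h1 : ord u ((-1 : Eˣ) ^ 2) = 0 := by rw [neg_one_sq, ord_one]
  rw [ord_pow] at h1
  push_cast at h1
  omega

lemma units_sq_eq_one {x : Eˣ} (h : x ^ 2 = 1) : x = 1 ∨ x = -1 := by
  have h1 : (x : E) * x = 1 := by
    rw [← pow_two, ← Units.val_pow_eq_pow_val, h, Units.val_one]
  rcases mul_self_eq_one_iff.1 h1 with h | h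
  · exact Or.inl (Units.ext h)
  · exact Or.inr (Units.ext (by rw [h]; rfl))

/-- removing the divisor of a power of an `S`-unit -/
lemma exists_exponent {κ : Type*} [Fintype κ] {v : κ → PrI E} (hv : Function.Injective v)
    {ϖ : PrI E → Eˣ} {h : PrI E → ℕ} (hh : ∀ u, 0 < h u) (h1 : ∀ u, ord u (ϖ u) = h u)
    (h2 : ∀ u v, v ≠ u → ord v (ϖ u) = 0) : ∃ H : ℕ, 0 < H ∧ ∀ x : Eˣ,
      (∀ u, u ∉ Set.range v → ord u x = 0) → ∃ a : κ → ℤ, ∀ u,
        ord u (x ^ H * ∏ i, ϖ (v i) ^ a i) = 0 := by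
  classical
  refine ⟨∏ i, h (v i), Finset.prod_pos fun i _ => hh _, fun x hx => ?_⟩
  refine ⟨fun i => -((∏ j ∈ Finset.univ.erase i, h (v j) : ℕ) : ℤ) * ord (v i) x, fun u => ?_⟩
  rw [ord_mul, ord_pow, ord_prod]
  by_cases hu : u ∈ Set.range v
  · obtain ⟨i, rfl⟩ := hu
    rw [Finset.sum_eq_single i]
    · rw [ord_zpow, h1, ← Finset.mul_prod_erase Finset.univ _ (Finset.mem_univ i)]
      push_cast
      ring
    · intro j _ hj
      rw [ord_zpow, h2 _ _ (fun h => hj (hv h).symm), mul_zero]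
    · intro hi
      exact absurd (Finset.mem_univ i) hi
  · rw [hx u hu, mul_zero, zero_add]
    refine Finset.sum_eq_zero fun j _ => ?_
    rw [ord_zpow, h2, mul_zero]
    rintro rfl
    exact hu ⟨j, rfl⟩

end units

section iter

variable {K E : Type*} [Field K] [NumberField K] [Field E] [NumberField E] [Algebra K E]

lemma Fd_iter_two {Z : Finset (E ≃ₐ[K] E)} {S : PrI E → Prop}
    (hS : ∀ (g : E ≃ₐ[K] E) u, S (g • u) ↔ S u) (m : ℕ) {a c : PrI E →₀ ℤ}
    (h : ∀ u, ¬ S u → a u = 2 * c u) :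
    ∀ u, ¬ S u → ((Fd Z)^[m] a) u = 2 * ((Fd Z)^[m] c) u := by
  induction m with
  | zero => exact h
  | succ m ih =>
    intro u hu
    rw [Function.iterate_succ_apply', Function.iterate_succ_apply', Fd_apply, Fd_apply,
      Finset.mul_sum]
    exact Finset.sum_congr rfl fun g _ => ih _ (by rwa [hS])

end iter

end Cnt

open Cnt

open Classical in
/-- **The count.** `E / K` abelian, `E` totally real, `K` real quadratic. `D`, `r` finite disjoint sets of primes of `K`,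
the primes in `r` are odd and split completely in `E`, `τ q` has odd valuation at `q`. `e` is an idempotent of
`F_2[Gal(E/K)]` with augmentation zero, such that `e` kills the class group `I^(Dr) / (I^2, P_r)` (`hCl`).
If `b` is in the Selmer group and `e N_T b` is not a square for a 2-subgroup `T`, then `|T|` is at most the number
of primes of `E` above `D`. -/
theorem count {K : Type*} {E : Type} [Field K] [NumberField K] [Field E] [NumberField E] [Algebra K E]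
    [IsGalois K E] (hab : ∀ σ τ : E ≃ₐ[K] E, σ * τ = τ * σ) (hK : Module.finrank ℚ K = 2)
    (hTR : ∀ (φ : E →+* ℂ) (x : E), (φ x).im = 0) (D r : Finset (PrI K)) (hDr : Disjoint D r)
    (hr2 : ∀ q ∈ r, (2 : 𝓞 K) ∉ q.asIdeal)
    (hrs : ∀ u : PrI E, und K u ∈ r → pn u = pn (und K u) ∧ Algebra.IsUnramifiedAt (𝓞 K) u.asIdeal)
    (τ : PrI K → K) (hτ : ∀ q ∈ r, τ q ≠ 0 ∧ ¬ SqAt q (τ q))
    (e : MonoidAlgebra (ZMod 2) (E ≃ₐ[K] E)) (he : e * e = e) (hea : ∑ g : E ≃ₐ[K] E, e.coeff g = 0)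
    (hCl : ∀ u : PrI E, und K u ∉ D → und K u ∉ r → ∃ x : E, InP r τ x ∧
      ∀ u' : PrI E, und K u' ∉ D → und K u' ∉ r →
        ((∑ g ∈ Finset.univ.filter (fun g : E ≃ₐ[K] E => pg g u = u'), e.coeff g = 0) ↔ SqAt u' x))
    (b : E) (hb : InH D r τ b) (T : Subgroup (E ≃ₐ[K] E)) (hT : IsPGroup 2 T)
    (hNb : ¬ IsSquare (prd e (∏ t : T, (t : E ≃ₐ[K] E) b))) :
    Nat.card T ≤ Set.ncard {u : PrI E | und K u ∈ D} := by
  have hτ0 : ∀ u : PrI E, und K u ∈ r → algebraMap K E (τ (und K u)) ≠ 0 :=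
    fun u hu => (map_ne_zero _).2 (hτ _ hu).1
  have hτE : ∀ u : PrI E, und K u ∈ r → ¬ SqAt u (algebraMap K E (τ (und K u))) :=
    fun u hu => not_sqAt_of_unram (hτ _ hu).1 (hτ _ hu).2 (hrs u hu).2
  have h2E : ∀ u : PrI E, und K u ∈ r → (2 : 𝓞 E) ∉ u.asIdeal := by
    intro u hu h
    apply hr2 _ hu
    change algebraMap (𝓞 K) (𝓞 E) 2 ∈ u.asIdeal
    rwa [map_ofNat]
  set Z : Finset (E ≃ₐ[K] E) := e.coeff.support with hZdef
  have hZ : IsIdem Z := isIdem_support he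
  obtain ⟨w, hw, hwX⟩ := exists_w hZ Eˣ
  set Sm := sym hτ0 hτE with hSm
  set P : Subgroup Eˣ := Sm.ker with hPdef
  have hPmem : ∀ {x : Eˣ}, x ∈ P ↔ InP r τ (x : E) := by
    intro x
    rw [hPdef, MonoidHom.mem_ker, hSm, sym_eq_one]
  let S : PrI E → Prop := fun u => und K u ∈ D ∨ und K u ∈ r
  have hS : ∀ (g : E ≃ₐ[K] E) u, S (g • u) ↔ S u := by
    intro g u
    change und K (g • u) ∈ D ∨ und K (g • u) ∈ r ↔ _
    rw [und_smul]
  have hP : ∀ (g : E ≃ₐ[K] E), ∀ x ∈ P, g • x ∈ P := by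
    intro g x hx
    rw [hPdef, MonoidHom.mem_ker] at hx ⊢
    apply Multiplicative.toAdd.injective
    ext i
    rw [hSm, sym_smul, ← hSm, hx]
    rfl
  have hP2 : ∀ x : Eˣ, x ^ 2 ∈ P := by
    intro x
    rw [hPdef, MonoidHom.mem_ker, map_pow]
    apply Multiplicative.toAdd.injective
    ext i
    rw [toAdd_pow, Pi.smul_apply, two_nsmul]
    have : ∀ a : ZMod 2, a + a = 0 := by decide
    exact this _
  have hCl' : ∀ u, ¬ S u → ∃ x ∈ P, ∀ u', ¬ S u' →
      Even (Fd Z (Finsupp.single u 1) u' - ord u' x) := by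
    intro u hu
    obtain ⟨x, hx, hx'⟩ := hCl u (fun h => hu (Or.inl h)) (fun h => hu (Or.inr h))
    refine ⟨Units.mk0 x hx.ne_zero, hPmem.2 hx, fun u' hu' => ?_⟩
    have h1 := hx' u' (fun h => hu' (Or.inl h)) (fun h => hu' (Or.inr h))
    have h2 : SqAt u' x ↔ Even (ord u' (Units.mk0 x hx.ne_zero)) := by
      rw [← sqAt_iff_even, Units.val_mk0]
    rw [h2] at h1
    have h3 : ((Fd Z (Finsupp.single u 1) u' : ℤ) : ZMod 2) =
        ∑ g ∈ Finset.univ.filter (fun g : E ≃ₐ[K] E => pg g u = u'), e.coeff g := by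
      rw [Fd_apply, Int.cast_sum, Finset.sum_filter,
        ← Finset.sum_subset (Finset.subset_univ Z)]
      · refine Finset.sum_congr rfl fun g hg => ?_
        have h4 : e.coeff g = 1 := (zmod2_cases _).resolve_left (Finsupp.mem_support_iff.1 hg)
        rw [h4, Finsupp.single_apply]
        have h5 : u = g⁻¹ • u' ↔ pg g u = u' := by
          rw [eq_inv_smul_iff, smul_eq_pg]
        simp only [h5]
        split_ifs <;> simp
      · intro g _ hg
        have h4 : e.coeff g = 0 := Finsupp.notMem_support_iff.1 hg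
        rw [h4, ite_self]
    rw [← h3, ZMod.intCast_zmod_eq_zero_iff_dvd] at h1
    rw [Int.even_sub, ← h1, even_iff_two_dvd]
    rfl
  obtain ⟨n, k, hodd⟩ := exists_odd hS hP hP2 hCl'
  have hSU : ∀ (g : E ≃ₐ[K] E), ∀ x ∈ SU S, g • x ∈ SU S := by
    intro g x hx u hu
    rw [ord_smul', hx _ (by rwa [hS])]
  -- the symbol of odd powers
  have hodd1 : ∀ y : Eˣ, Sm (((ff Z)^[n + 1] y) ^ (2 * k + 1)) = Sm (ff Z y) := by
    intro y
    obtain ⟨s, hs⟩ := ff_iter hw n y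
    have h1 : ((ff Z)^[n + 1] y) ^ (2 * k + 1) =
        ff Z y * (s * ((ff Z)^[n + 1] y) ^ k) ^ 2 := by
      rw [mul_pow, ← mul_assoc, ← hs, ← pow_mul, mul_comm k 2, pow_succ, mul_comm]
    rw [h1, map_mul, (hP2 _ : Sm _ = 1), mul_one]
  -- generators
  obtain ⟨ϖ, h, hh, hϖ1, hϖ2, hϖ3⟩ := exists_eqv_gen K E
  obtain ⟨ε, hε1, hε2, N0, hN0, hε3⟩ := exists_eqv_unit K hTR
  have := Fintype.ofFinite (OvE E r)
  have := Fintype.ofFinite (OvE E D)
  let π : ((E →+* ℝ) ⊕ OvE E r) ⊕ OvE E D → Eˣ :=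
    Sum.elim (Sum.elim ε (fun u => ϖ u.1)) (fun u => ϖ u.1)
  have hπ : ∀ (g : E ≃ₐ[K] E) i, g • π i = π (g • i) := by
    rintro g ((φ | u) | u)
    · exact hε2 g φ
    · exact hϖ3 g u.1
    · exact hϖ3 g u.1
  have hgen : gen (-1 : Eˣ) π ≤ SU S := by
    refine gen_le (fun u _ => ord_neg_one u) ?_
    rintro ((φ | v) | v) u hu
    · exact hε1 φ u
    · refine hϖ2 _ _ ?_
      rintro rfl
      exact hu (Or.inr v.2)
    · refine hϖ2 _ _ ?_
      rintro rfl
      exact hu (Or.inl v.2)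
  let vv : OvE E r ⊕ OvE E D → PrI E := Sum.elim (fun u => u.1) (fun u => u.1)
  have hvv : Function.Injective vv := by
    rintro (u | u) (v | v) huv
    · exact congrArg Sum.inl (Subtype.ext huv)
    · exfalso
      have h1 : u.1 = v.1 := huv
      have h2 := u.2
      rw [h1] at h2
      exact Finset.disjoint_left.1 hDr v.2 h2
    · exfalso
      have h1 : u.1 = v.1 := huv
      have h2 := u.2
      rw [h1] at h2
      exact Finset.disjoint_left.1 hDr h2 v.2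
    · exact congrArg Sum.inr (Subtype.ext huv)
  obtain ⟨H, hH, hHx⟩ := exists_exponent hvv hh hϖ1 hϖ2
  have hUN : ∀ x ∈ SU S, x ^ (H * N0) ∈ gen (-1 : Eˣ) π := by
    intro x hx
    obtain ⟨a, ha⟩ := hHx x (by
      intro u hu
      apply hx
      rintro (h1 | h1)
      · exact hu ⟨Sum.inr ⟨u, h1⟩, rfl⟩
      · exact hu ⟨Sum.inl ⟨u, h1⟩, rfl⟩)
    have h1 := hε3 _ ha
    have h2 : Subgroup.closure (Set.range ε) ≤ gen (-1 : Eˣ) π := by
      rw [Subgroup.closure_le]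
      rintro _ ⟨φ, rfl⟩
      exact mem_gen_π (-1 : Eˣ) π (Sum.inl (Sum.inl φ))
    have h3 : ∏ i, ϖ (vv i) ^ a i ∈ gen (-1 : Eˣ) π := by
      refine prod_mem fun i _ => zpow_mem ?_ _
      rcases i with i | i
      · exact mem_gen_π (-1 : Eˣ) π (Sum.inl (Sum.inr i))
      · exact mem_gen_π (-1 : Eˣ) π (Sum.inr i)
    have h4 : x ^ (H * N0) = (x ^ H * ∏ i, ϖ (vv i) ^ a i) ^ N0 * ((∏ i, ϖ (vv i) ^ a i) ^ N0)⁻¹ := by
      rw [mul_pow, mul_inv_cancel_right, pow_mul]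
    rw [h4]
    exact mul_mem (h2 h1) (inv_mem (pow_mem h3 _))
  have hcZ : ff Z (-1 : Eˣ) = 1 := by
    rw [ff_apply, Finset.prod_congr rfl (g := fun _ => (-1 : Eˣ)), Finset.prod_const]
    · exact (even_card_support hea).neg_one_pow
    · intro g _
      ext
      simp
  have hc : ∀ g : E ≃ₐ[K] E, g • (-1 : Eˣ) = -1 := by
    intro g
    ext
    simp
  have hSy : ∀ y : Eˣ, ∃ u ∈ SU S, Sm (ff Z y) = Sm u := by
    intro y
    obtain ⟨x, hx, hx'⟩ := hodd (dv y)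
    refine ⟨((ff Z)^[n + 1] y) ^ (2 * k + 1) * x⁻¹, ?_, ?_⟩
    · intro u hu
      rw [ord_mul, ord_inv, ← hx' u hu, Fd_iter_dv, dv_apply, ord_pow]
      push_cast
      ring
    · rw [map_mul, hodd1, map_inv, (hx : Sm x = 1), inv_one, mul_one]
  -- the element `b`
  set b0 : Eˣ := Units.mk0 b hb.ne_zero with hb0
  have hbP : b0 ∈ P := hPmem.2 hb.toInP
  have hbe : ∀ u, ¬ S u → Even (ord u b0) := by
    intro u hu
    rw [← sqAt_iff_even]
    exact hb.even u (fun h => hu (Or.inl h)) (fun h => hu (Or.inr h))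
  obtain ⟨x, hx, hx'⟩ := hodd ((dv b0).mapRange (fun m => m / 2) (by norm_num))
  have hdvb : ∀ u, ¬ S u → ord u (((ff Z)^[n + 1] b0) ^ (2 * k + 1)) = 2 * ord u x := by
    intro u hu
    rw [← hx' u hu, ord_pow, ← dv_apply, ← Fd_iter_dv]
    rw [Fd_iter_two hS (n + 1) (a := dv b0) (c := (dv b0).mapRange (fun m => m / 2) (by norm_num))
      ?_ u hu]
    · push_cast
      ring
    · intro v hv
      rw [Finsupp.mapRange_apply, dv_apply]
      exact (Int.two_mul_ediv_two_of_even (hbe v hv)).symm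
  set Y : Eˣ := (ff Z)^[n + 1] b0 with hY
  have huU : Y ^ (2 * k + 1) * (x ^ 2)⁻¹ ∈ SU S := by
    intro u hu
    rw [ord_mul, hdvb u hu, ord_inv, ord_pow]
    push_cast
    ring
  have huS : Sm (Y ^ (2 * k + 1) * (x ^ 2)⁻¹) = 1 := by
    rw [map_mul, hodd1, map_inv, (hP2 x : Sm (x ^ 2) = 1), inv_one, mul_one]
    exact ff_mem Z hP b0 hbP
  obtain ⟨s, hs⟩ := ff_iter hw n b0
  have hu1 : Y ^ (2 * k + 1) * (x ^ 2)⁻¹ = ff Z b0 * (s * Y ^ k * x⁻¹) ^ 2 := by
    have h1 : Y ^ (2 * k + 1) = Y * (Y ^ k) ^ 2 := by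
      rw [← pow_mul, mul_comm k 2, pow_succ, mul_comm]
    rw [h1]
    conv_lhs => rw [hY, hs, ← hs, ← hY]
    rw [mul_pow, mul_pow, inv_pow, ← mul_assoc, ← mul_assoc, ← hs]
  have hfu : ff Z (Y ^ (2 * k + 1) * (x ^ 2)⁻¹) = ff Z b0 * (w b0 * ff Z (s * Y ^ k * x⁻¹)) ^ 2 := by
    rw [hu1, map_mul, hw, map_pow, mul_pow, mul_assoc]
  have := Fintype.ofFinite T
  have hfin := count_abs hab hZ Sm (sym_surj hτ0 hτE h2E) (sym_smul hτ0 hτE) hSU hc hcZ
    (fun x hx => units_sq_eq_one hx) hπ hgen (Nat.mul_pos hH hN0) hUN hSy huU huS T hT ?_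
  · rw [← Nat.card_coe_set_eq]
    exact hfin
  · rintro ⟨t, ht⟩
    apply hNb
    have h1 : ∏ t : T, (t : E ≃ₐ[K] E) • ff Z (Y ^ (2 * k + 1) * (x ^ 2)⁻¹) =
        ff Z (∏ t : T, (t : E ≃ₐ[K] E) • b0) *
          (∏ t : T, (t : E ≃ₐ[K] E) • (w b0 * ff Z (s * Y ^ k * x⁻¹))) ^ 2 := by
      rw [map_prod, ← Finset.prod_pow, ← Finset.prod_mul_distrib]
      refine Finset.prod_congr rfl fun t _ => ?_
      rw [hfu, smul_mul', smul_pow', ff_smul Z hab]
    rw [h1] at ht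
    have h2 : ff Z (∏ t : T, (t : E ≃ₐ[K] E) • b0) =
        (t * (∏ t : T, (t : E ≃ₐ[K] E) • (w b0 * ff Z (s * Y ^ k * x⁻¹)))⁻¹) ^ 2 := by
      rw [mul_pow, pow_two t, ← ht, inv_pow, mul_inv_cancel_right]
    have h3 : prd e (∏ t : T, (t : E ≃ₐ[K] E) b) =
        ((ff Z (∏ t : T, (t : E ≃ₐ[K] E) • b0) : Eˣ) : E) := by
      unfold prd
      rw [ff_apply, Units.coe_prod]
      refine Finset.prod_congr rfl fun g _ => ?_
      have h4 : ((∏ t : T, (t : E ≃ₐ[K] E) • b0 : Eˣ) : E) = ∏ t : T, (t : E ≃ₐ[K] E) b := by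
        rw [Units.coe_prod]
        rfl
      rw [← h4]
      rfl
    have h5 : IsSquare (prd e (∏ t : T, (t : E ≃ₐ[K] E) b)) := by
      rw [h3, h2]
      exact ⟨_, by rw [pow_two, Units.val_mul]⟩
    have h6 : ∀ i₁ i₂ : Fintype T, (@Finset.univ T i₁).prod (fun t => (t : E ≃ₐ[K] E) b) =
        (@Finset.univ T i₂).prod (fun t => (t : E ≃ₐ[K] E) b) := by
      intro i₁ i₂
      rw [Subsingleton.elim i₁ i₂]
    rw [h6 _ this]
    exact h5

end Pool.Agent.STc
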