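import Mathlib

/-!
# The count of the Selmer group: group theory

`f`, `w` endomorphisms of a commutative group with `f (f x) = f x * (w x) ^ 2`. For subgroups `X ≥ Y ≥ X ^ 2`
the number `cc f X Y = [f(X) Y : Y]` is multiplicative in towers, and `cc f X (X ^ 2)` does not change
when `X` is replaced by a subgroup `Y` with `X / Y` of finite exponent.
-/

namespace Pool.Agent.STc.Cnt

open Subgroup

section cc

variable {A : Type*} [CommGroup A]

/-- the subgroup of squares -/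
abbrev sq (X : Subgroup A) : Subgroup A := X.map (powMonoidHom 2)

lemma mem_sq {X : Subgroup A} {x : A} : x ∈ sq X ↔ ∃ y ∈ X, y ^ 2 = x := by
  simp [sq, Subgroup.mem_map, powMonoidHom]

/-- `[f(X) Y : Y]` -/
noncomputable def cc (f : A →* A) (X Y : Subgroup A) : ℕ := Y.relIndex (X.map f)

variable {f w : A →* A}

lemma cc_mul (hw : ∀ x, f (f x) = f x * (w x) ^ 2) {X Z Y : Subgroup A} (hZX : Z ≤ X) (hYZ : Y ≤ Z)
    (hY : ∀ x ∈ X, x ^ 2 ∈ Y) (hfZ : ∀ x ∈ Z, f x ∈ Z) (hwX : ∀ x ∈ X, w x ∈ X) :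
    cc f X Y = cc f X Z * cc f Z Y := by
  unfold cc
  have h1 := relIndex_mul_relIndex (Y ⊓ X.map f) (Z ⊓ X.map f) (X.map f)
    (inf_le_inf_right _ hYZ) inf_le_right
  rw [inf_relIndex_right, inf_relIndex_right] at h1
  have h2 : (Y ⊓ X.map f).relIndex (Z ⊓ X.map f) = Y.relIndex (Z ⊓ X.map f) := by
    rw [← inf_relIndex_right (Y ⊓ X.map f), ← inf_relIndex_right Y]
    congr 1
    rw [inf_assoc, ← inf_assoc (X.map f), inf_comm (X.map f) Z, inf_assoc Z, inf_idem]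
  have h3 : Y ⊔ (Z ⊓ X.map f) = Y ⊔ Z.map f := by
    apply le_antisymm
    · apply sup_le le_sup_left
      rintro y ⟨hyZ, hyX⟩
      obtain ⟨x, hx, rfl⟩ := hyX
      have h4 : f x = (f (f x)) * ((w x) ^ 2)⁻¹ := by
        rw [hw, mul_inv_cancel_right]
      rw [h4]
      apply mul_mem
      · exact mem_sup_right (mem_map_of_mem f hyZ)
      · exact mem_sup_left (inv_mem (hY _ (hwX x hx)))
    · apply sup_le le_sup_left
      rintro y ⟨x, hx, rfl⟩
      exact mem_sup_right ⟨hfZ x hx, mem_map_of_mem f (hZX hx)⟩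
  rw [← h1, h2, ← relIndex_sup_left (K := Y) (H := Z ⊓ X.map f), h3, relIndex_sup_left, mul_comm]

lemma sq_le {X : Subgroup A} : sq X ≤ X := by
  intro x hx
  obtain ⟨y, hy, rfl⟩ := mem_sq.1 hx
  exact pow_mem hy 2

/-- the square case -/
lemma cc_sq_two (hw : ∀ x, f (f x) = f x * (w x) ^ 2) {X Y : Subgroup A} (hYX : Y ≤ X)
    (hXY : ∀ x ∈ X, x ^ 2 ∈ Y) (h2 : ∀ x : A, x ^ 2 = 1 → x ∈ Y)
    (hfX : ∀ x ∈ X, f x ∈ X) (hfY : ∀ x ∈ Y, f x ∈ Y)
    (hwX : ∀ x ∈ X, w x ∈ X) (hwY : ∀ x ∈ Y, w x ∈ Y) :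
    cc f X (sq X) = cc f Y (sq Y) := by
  have hsq : sq X ≤ Y := by
    intro x hx
    obtain ⟨y, hy, rfl⟩ := mem_sq.1 hx
    exact hXY y hy
  have h1 : cc f X (sq X) = cc f X Y * cc f Y (sq X) :=
    cc_mul hw hYX hsq (fun x hx => mem_sq.2 ⟨x, hx, rfl⟩) hfY hwX
  have h3 : cc f Y (sq Y) = cc f Y (sq X) * cc f (sq X) (sq Y) := by
    refine cc_mul hw hsq (Subgroup.map_mono hYX) (fun x hx => mem_sq.2 ⟨x, hx, rfl⟩) ?_ hwY
    intro x hx
    obtain ⟨y, hy, rfl⟩ := mem_sq.1 hx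
    exact mem_sq.2 ⟨f y, hfX y hy, by rw [map_pow]⟩
  have h4 : cc f (sq X) (sq Y) = cc f X Y := by
    unfold cc
    have h5 : (sq X).map f = (X.map f).map (powMonoidHom 2) := by
      rw [sq, Subgroup.map_map, Subgroup.map_map]
      congr 1
      ext x
      simp
    rw [h5, sq, relIndex_map_map]
    have h6 : (powMonoidHom 2 : A →* A).ker ≤ Y := by
      intro x hx
      exact h2 x (by simpa [MonoidHom.mem_ker] using hx)
    rw [sup_eq_left.2 h6, ← relIndex_sup_left (K := Y) (H := X.map f ⊔ _),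
      ← relIndex_sup_left (K := Y) (H := X.map f)]
    congr 1
    rw [sup_comm (X.map f), ← sup_assoc, sup_eq_left.2 h6]
  rw [h1, h3, h4, mul_comm]

/-- the odd case -/
lemma cc_sq_odd {X Y : Subgroup A} (hYX : Y ≤ X) {k : ℕ}
    (hXY : ∀ x ∈ X, x ^ (2 * k + 1) ∈ Y) (hfX : ∀ x ∈ X, f x ∈ X) (hfY : ∀ x ∈ Y, f x ∈ Y) :
    cc f X (sq X) = cc f Y (sq Y) := by
  have h1 : ∀ x ∈ X, x ^ 2 ∈ Y → x ∈ Y := by
    intro x hx h
    have h2 : x = x ^ (2 * k + 1) * ((x ^ 2) ^ k)⁻¹ := by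
      rw [← pow_mul, pow_succ, mul_comm (x ^ (2 * k)), mul_inv_cancel_right]
    rw [h2]
    exact mul_mem (hXY x hx) (inv_mem (pow_mem h k))
  have h2 : ∀ x ∈ X, ∃ y ∈ Y, ∃ z ∈ X, x = y * z ^ 2 := by
    intro x hx
    refine ⟨_, hXY x hx, (x ^ k)⁻¹, inv_mem (pow_mem hx k), ?_⟩
    rw [inv_pow, ← pow_mul, mul_comm k 2, pow_succ, mul_comm (x ^ (2 * k)), mul_inv_cancel_right]
  unfold cc
  have h3 : sq X ⊔ X.map f = sq X ⊔ Y.map f := by
    apply le_antisymm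
    · apply sup_le le_sup_left
      rintro y ⟨x, hx, rfl⟩
      obtain ⟨y, hy, z, hz, rfl⟩ := h2 x hx
      rw [map_mul, map_pow]
      exact mul_mem (mem_sup_right (mem_map_of_mem f hy)) (mem_sup_left (mem_sq.2 ⟨_, hfX z hz, rfl⟩))
    · exact sup_le_sup_left (Subgroup.map_mono hYX) _
  rw [← relIndex_sup_left (K := sq X) (H := X.map f), h3, relIndex_sup_left,
    ← inf_relIndex_right (sq X), ← inf_relIndex_right (sq Y)]
  congr 1
  apply le_antisymm
  · apply le_inf _ inf_le_right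
    rintro y ⟨hy1, hy2⟩
    obtain ⟨x, hx, hxy⟩ := hy2
    obtain ⟨z, hz, rfl⟩ := mem_sq.1 hy1
    refine mem_sq.2 ⟨z, h1 z hz ?_, rfl⟩
    rw [← hxy]
    exact hfY x hx
  · exact inf_le_inf_right _ (Subgroup.map_mono hYX)

/-- invariance under passage to a subgroup such that the quotient has finite exponent -/
theorem cc_sq_eq (hw : ∀ x, f (f x) = f x * (w x) ^ 2) {Y : Subgroup A}
    (h2 : ∀ x : A, x ^ 2 = 1 → x ∈ Y) (hfY : ∀ x ∈ Y, f x ∈ Y) (hwY : ∀ x ∈ Y, w x ∈ Y) (m : ℕ) :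
    ∀ (_ : 0 < m) (X : Subgroup A) (_ : Y ≤ X)
    (_ : ∀ x ∈ X, x ^ m ∈ Y) (_ : ∀ x ∈ X, f x ∈ X) (_ : ∀ x ∈ X, w x ∈ X),
    cc f X (sq X) = cc f Y (sq Y) := by
  induction m using Nat.strong_induction_on with
  | _ m ih =>
    intro hm X hYX hXY hfX hwX
    obtain ⟨k, hk | hk⟩ := Nat.even_or_odd' m
    · have hZX : Y ⊔ sq X ≤ X := sup_le hYX sq_le
      have hsqst : ∀ (g : A →* A), (∀ x ∈ X, g x ∈ X) → (∀ x ∈ Y, g x ∈ Y) →
          ∀ x ∈ Y ⊔ sq X, g x ∈ Y ⊔ sq X := by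
        intro g hgX hgY x hx
        obtain ⟨y, hy, z, hz, rfl⟩ := Subgroup.mem_sup.1 hx
        obtain ⟨t, ht, rfl⟩ := mem_sq.1 hz
        rw [map_mul, map_pow]
        exact mul_mem (mem_sup_left (hgY y hy)) (mem_sup_right (mem_sq.2 ⟨_, hgX t ht, rfl⟩))
      have e1 : cc f X (sq X) = cc f (Y ⊔ sq X) (sq (Y ⊔ sq X)) := by
        refine cc_sq_two hw hZX ?_ (fun x hx => mem_sup_left (h2 x hx)) hfX ?_ hwX ?_
        · intro x hx
          exact mem_sup_right (mem_sq.2 ⟨x, hx, rfl⟩)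
        · exact hsqst f hfX hfY
        · exact hsqst w hwX hwY
      rw [e1]
      refine ih k (by omega) (by omega) _ le_sup_left ?_ (hsqst f hfX hfY) (hsqst w hwX hwY)
      intro x hx
      obtain ⟨y, hy, z, hz, rfl⟩ := Subgroup.mem_sup.1 hx
      obtain ⟨t, ht, rfl⟩ := mem_sq.1 hz
      rw [mul_pow, ← pow_mul, ← hk]
      exact mul_mem (pow_mem hy k) (hXY t ht)
    · rw [hk] at hXY
      exact cc_sq_odd hYX hXY hfX hfY

end cc

section bound

variable {A : Type*} [CommGroup A]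

/-- upper bound of an index by a set of representatives -/
lemma relIndex_le_card {H K : Subgroup A} {β : Type*} [Finite β] (θ : β → A)
    (h : ∀ k ∈ K, ∃ b, (θ b)⁻¹ * k ∈ H) : H.relIndex K ≠ 0 ∧ H.relIndex K ≤ Nat.card β := by
  choose φ hφ using fun k : K => h k.1 k.2
  have hinj : Function.Injective (fun q : K ⧸ H.subgroupOf K => φ q.out) := by
    intro q q' hq
    have h1 := hφ q.out
    have h2 := hφ q'.out
    have hq' : φ q.out = φ q'.out := hq
    rw [hq'] at h1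
    have h3 : (q.out)⁻¹ * q'.out ∈ H.subgroupOf K := by
      rw [Subgroup.mem_subgroupOf]
      have h4 := H.mul_mem (H.inv_mem h1) h2
      have h5 : ((θ (φ q'.out))⁻¹ * (q.out : A))⁻¹ * ((θ (φ q'.out))⁻¹ * (q'.out : A)) =
          (q.out : A)⁻¹ * q'.out := by
        group
      rw [h5] at h4
      simpa using h4
    have h6 : (QuotientGroup.mk q.out : K ⧸ H.subgroupOf K) = QuotientGroup.mk q'.out :=
      QuotientGroup.eq.2 h3
    rwa [QuotientGroup.out_eq', QuotientGroup.out_eq'] at h6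
  have hfin : Finite (K ⧸ H.subgroupOf K) := Finite.of_injective _ hinj
  constructor
  · exact index_ne_zero_of_finite
  · exact Nat.card_le_card_of_injective _ hinj

/-- lower bound of an index by inequivalent elements -/
lemma card_le_relIndex {H K : Subgroup A} {β : Type*} (θ : β → A) (hK : ∀ b, θ b ∈ K)
    (h : ∀ b b', (θ b)⁻¹ * θ b' ∈ H → b = b') (h0 : H.relIndex K ≠ 0) :
    Nat.card β ≤ H.relIndex K := by
  have hfin : Finite (K ⧸ H.subgroupOf K) := index_ne_zero_iff_finite.1 h0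
  refine Nat.card_le_card_of_injective
    (fun b => (QuotientGroup.mk (⟨θ b, hK b⟩ : K) : K ⧸ H.subgroupOf K)) ?_
  intro b b' hb
  have h1 := QuotientGroup.eq.1 hb
  rw [Subgroup.mem_subgroupOf] at h1
  exact h b b' h1

end bound

end Pool.Agent.STc.Cnt
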