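import Pool.Agent.Lib.MP_1ef7cf_nt.PrimeSum
import Pool.Agent.Lib.MP_1ef7cf_nt_b.Val

/-!
# The count of the Selmer group: divisors
-/

set_option linter.unusedSectionVars false

open NumberField IsDedekindDomain

namespace Pool.Agent.STc.Cnt

open Pool.Agent.ST Pool.Agent.STb

section ord

variable {M : Type*} [Field M] [NumberField M]

/-- the order of `x` at the prime `u` -/
noncomputable def ord (u : PrI M) (x : Mˣ) : ℤ := -WithZero.log (u.valuation M (x : M))

lemma val_ne_zero (u : PrI M) (x : Mˣ) : u.valuation M (x : M) ≠ 0 :=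
  (Valuation.ne_zero_iff _).2 x.ne_zero

lemma val_eq (u : PrI M) (x : Mˣ) : u.valuation M (x : M) = WithZero.exp (-ord u x) := by
  rw [ord, neg_neg, WithZero.exp_log (val_ne_zero u x)]

lemma ord_eq_iff {u : PrI M} {x : Mˣ} {a : ℤ} :
    ord u x = a ↔ u.valuation M (x : M) = WithZero.exp (-a) := by
  rw [val_eq, WithZero.exp_injective.eq_iff, neg_inj]

lemma ord_mul (u : PrI M) (x y : Mˣ) : ord u (x * y) = ord u x + ord u y := by
  rw [ord_eq_iff, Units.val_mul, map_mul, val_eq, val_eq, ← WithZero.exp_add, neg_add]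

@[simp] lemma ord_one (u : PrI M) : ord u 1 = 0 := by
  rw [ord_eq_iff, Units.val_one, map_one, neg_zero, WithZero.exp_zero]

/-- the order as a homomorphism -/
noncomputable def ordH (u : PrI M) : Additive Mˣ →+ ℤ where
  toFun x := ord u x.toMul
  map_zero' := ord_one u
  map_add' x y := ord_mul u x.toMul y.toMul

lemma ord_inv (u : PrI M) (x : Mˣ) : ord u x⁻¹ = -ord u x := map_neg (ordH u) (Additive.ofMul x)

lemma ord_pow (u : PrI M) (x : Mˣ) (n : ℕ) : ord u (x ^ n) = n * ord u x := by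
  have := map_nsmul (ordH u) n (Additive.ofMul x)
  rw [nsmul_eq_mul] at this
  exact this

lemma ord_zpow (u : PrI M) (x : Mˣ) (n : ℤ) : ord u (x ^ n) = n * ord u x := by
  have := map_zsmul (ordH u) n (Additive.ofMul x)
  rw [zsmul_eq_mul] at this
  exact this

lemma ord_prod {κ : Type*} (u : PrI M) (s : Finset κ) (x : κ → Mˣ) :
    ord u (∏ i ∈ s, x i) = ∑ i ∈ s, ord u (x i) := by
  classical
  induction s using Finset.induction_on with
  | empty => simp
  | insert i s hi ih => rw [Finset.prod_insert hi, Finset.sum_insert hi, ord_mul, ih]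

lemma sqAt_iff_even {u : PrI M} {x : Mˣ} : SqAt u (x : M) ↔ Even (ord u x) := by
  rw [sqAt_iff (val_eq u x), even_neg]

lemma finite_ord (x : Mˣ) : {u : PrI M | ord u x ≠ 0}.Finite := by
  have h1 := HeightOneSpectrum.Support.finite (𝓞 M) (x : M)
  have h2 := HeightOneSpectrum.Support.finite (𝓞 M) ((x⁻¹ : Mˣ) : M)
  refine (h1.union h2).subset ?_
  intro u hu
  have h3 : ord u x < 0 ∨ ord u x⁻¹ < 0 := by
    rw [ord_inv]
    have : ord u x ≠ 0 := hu
    omega
  have h4 : ∀ y : Mˣ, ord u y < 0 → 1 < u.valuation M (y : M) := by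
    intro y hy
    rw [val_eq, ← WithZero.exp_zero, WithZero.exp_lt_exp]
    omega
  rcases h3 with h3 | h3
  · exact Or.inl (h4 _ h3)
  · exact Or.inr (h4 _ h3)

/-- elements with order zero everywhere are units -/
lemma exists_unit_of_ord {x : Mˣ} (hx : ∀ u : PrI M, ord u x = 0) :
    ∃ η : (𝓞 M)ˣ, (algebraMap (𝓞 M) M (η : 𝓞 M)) = x := by
  have h1 : ∀ y : Mˣ, (∀ u : PrI M, ord u y = 0) → ∃ z : 𝓞 M, algebraMap (𝓞 M) M z = y := by
    intro y hy
    apply HeightOneSpectrum.mem_integers_of_valuation_le_one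
    intro u
    rw [val_eq, hy, neg_zero, WithZero.exp_zero]
  obtain ⟨z, hz⟩ := h1 x hx
  obtain ⟨z', hz'⟩ := h1 x⁻¹ (fun u => by rw [ord_inv, hx, neg_zero])
  have h2 : z * z' = 1 := by
    apply RingOfIntegers.coe_injective
    rw [map_mul, hz, hz', Units.mul_inv, map_one]
  exact ⟨⟨z, z', h2, by rw [mul_comm, h2]⟩, hz⟩

lemma ord_unit (u : PrI M) (η : (𝓞 M)ˣ) :
    ord u (Units.map (algebraMap (𝓞 M) M).toMonoidHom η) = 0 := by
  rw [ord_eq_iff, neg_zero, WithZero.exp_zero]
  have h1 : ((Units.map (algebraMap (𝓞 M) M).toMonoidHom η : Mˣ) : M) =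
      algebraMap (𝓞 M) M (η : 𝓞 M) := rfl
  rw [h1, u.valuation_eq_one_iff_notMem]
  intro h
  exact u.isPrime.ne_top (Ideal.eq_top_of_isUnit_mem _ h η.isUnit)

/-- the divisor of `x` -/
noncomputable def dv (x : Mˣ) : PrI M →₀ ℤ :=
  Finsupp.ofSupportFinite (fun u => ord u x) (finite_ord x)

lemma dv_apply (x : Mˣ) (u : PrI M) : dv x u = ord u x := rfl

/-- a power of a prime is principal -/
lemma exists_gen_pow (M : Type*) [Field M] [NumberField M] : ∃ h : ℕ, 0 < h ∧ ∀ u : PrI M,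
    ∃ x : Mˣ, ord u x = h ∧ ∀ v : PrI M, v ≠ u → ord v x = 0 := by
  classical
  refine ⟨Fintype.card (ClassGroup (𝓞 M)), Fintype.card_pos, fun u => ?_⟩
  set h := Fintype.card (ClassGroup (𝓞 M)) with hh
  have h1 : ClassGroup.mk0 (⟨u.asIdeal, mem_nonZeroDivisors_iff_ne_zero.2 u.ne_bot⟩ ^ h) = 1 := by
    rw [map_pow]
    exact pow_card_eq_one
  rw [ClassGroup.mk0_eq_one_iff] at h1
  obtain ⟨z, hz⟩ := h1.principal
  have hz' : u.asIdeal ^ h = Ideal.span {z} := by
    rw [← Ideal.submodule_span_eq, ← hz]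
    rfl
  have hz0 : z ≠ 0 := by
    rintro rfl
    rw [Ideal.span_singleton_eq_bot.2 rfl] at hz'
    exact u.ne_bot (pow_eq_zero_iff (hh ▸ Fintype.card_ne_zero) |>.1 hz')
  have hz0' : algebraMap (𝓞 M) M z ≠ 0 := by
    intro h0
    exact hz0 (RingOfIntegers.coe_injective (by rw [h0, map_zero]))
  refine ⟨Units.mk0 _ hz0', ?_, ?_⟩
  · rw [ord_eq_iff, Units.val_mk0, HeightOneSpectrum.valuation_of_algebraMap]
    apply le_antisymm
    · rw [HeightOneSpectrum.intValuation_le_pow_iff_mem, hz']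
      exact Ideal.mem_span_singleton_self z
    · by_contra hlt
      rw [not_le] at hlt
      have h2 : u.intValuation z ≤ WithZero.exp (-((h + 1 : ℕ) : ℤ)) := by
        have h3 : u.intValuation z ≠ 0 := u.intValuation_ne_zero z hz0
        rw [← WithZero.exp_log h3, WithZero.exp_lt_exp] at hlt
        rw [← WithZero.exp_log h3, WithZero.exp_le_exp]
        push_cast
        omega
      rw [HeightOneSpectrum.intValuation_le_pow_iff_mem] at h2
      have h4 : u.asIdeal ^ h ≤ u.asIdeal ^ (h + 1) := by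
        rw [hz', Ideal.span_singleton_le_iff_mem]
        exact h2
      have h5 : u.asIdeal ^ (h + 1) < u.asIdeal ^ h :=
        Ideal.pow_right_strictAnti _ u.ne_bot u.isPrime.ne_top (Nat.lt_succ_self h)
      exact absurd h4 (not_le_of_gt h5)
  · intro v hv
    rw [ord_eq_iff, neg_zero, WithZero.exp_zero, Units.val_mk0, v.valuation_eq_one_iff_notMem]
    intro hzv
    have h2 : u.asIdeal ^ h ≤ v.asIdeal := by
      rw [hz', Ideal.span_singleton_le_iff_mem]
      exact hzv
    have h3 : u.asIdeal ≤ v.asIdeal := Ideal.IsPrime.le_of_pow_le h2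
    have := u.isMaximal
    exact hv (HeightOneSpectrum.ext (u.isMaximal.eq_of_le v.isPrime.ne_top h3).symm)

end ord

end Pool.Agent.STc.Cnt
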