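import Pool.Agent.Lib.MP_1ef7cf_nt_b.MainT

/-!
# Cyclicity of the cyclotomic tower
-/

set_option linter.unusedSectionVars false
set_option linter.style.haveILetI false

open NumberField IntermediateField

namespace Pool.Agent.STc

open Pool.Agent.ST Pool.Agent.STb

section cyc

variable {K : Type*} [Field K] [NumberField K] [Algebra K ℝ] {A M : IntermediateField K ℝ}

lemma act_two (t : M ≃ₐ[K] M) : act t 2 = 2 := by
  rw [act_of_mem t (ofNat_mem M 2)]
  have : (⟨2, ofNat_mem M 2⟩ : M) = 2 := rfl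
  rw [this, map_ofNat]
  rfl

/-- An automorphism fixing `cc j` fixes the field `ℚ(cc j)`. -/
lemma fix_QQ {t : M ≃ₐ[K] M} {j : ℕ} (hM : cc j ∈ M) (h1 : act t (cc j) = cc j) {r : ℝ}
    (hr : r ∈ QQ j) : r ∈ M ∧ act t r = r := by
  have h2 : QQ j ≤ rs (eqField t 1) := ext_le bot_le (by
    rw [mem_rs, eqField_iff]
    exact ⟨hM, h1⟩)
  have h3 := h2 hr
  rwa [mem_rs, eqField_iff] at h3

/-- An automorphism fixing `cc n` fixes the `cc j`, `j ≤ n`. -/
lemma fix_of_le {t : M ≃ₐ[K] M} {n j : ℕ} (hM : cc n ∈ M) (h1 : act t (cc n) = cc n)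
    (hj : j ≤ n) : act t (cc j) = cc j := by
  have h2 : cc n ∈ eqField t 1 := eqField_iff.2 ⟨hM, h1⟩
  exact (eqField_iff.1 (cc_mem_of_le h2 hj)).2

lemma act_cc_sq (t : M ≃ₐ[K] M) {j : ℕ} (hM : cc (j + 1) ∈ M) (h1 : act t (cc j) = cc j) :
    act t (cc (j + 1)) = cc (j + 1) ∨ act t (cc (j + 1)) = -cc (j + 1) := by
  rw [← sq_eq_sq_iff_eq_or_eq_neg, ← act_pow t hM, cc_sq,
    act_add t (ofNat_mem M 2) (cc_mem_of_le hM (by omega)), act_two, h1]

lemma cyc_step {t : M ≃ₐ[K] M} {j : ℕ} (hM : cc (j + 2) ∈ M) (h1 : act t (cc j) = cc j)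
    (h2 : act t (cc (j + 1)) = -cc (j + 1)) : act (t * t) (cc (j + 1)) = cc (j + 1) ∧
      act (t * t) (cc (j + 2)) = -cc (j + 2) := by
  have hj1 : cc (j + 1) ∈ M := cc_mem_of_le hM (by omega)
  have hj0 : cc j ∈ M := cc_mem_of_le hM (by omega)
  constructor
  · rw [act_comp _ _ hj1, h2, act_neg t hj1, h2, neg_neg]
  obtain ⟨r, hr, hr0, hdd⟩ := dd_eq j
  obtain ⟨hrM, hrt⟩ := fix_QQ hj0 h1 hr
  have hddM : dd j ∈ M := by rw [hdd]; exact mul_mem hrM hj1
  have htdd : act t (dd j) = -dd j := by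
    rw [hdd, act_mul t hrM hj1, hrt, h2]; ring
  have hmul := dd_succ_mul j
  have hcpos := cc_pos (j + 1)
  have hdpos := dd_pos (j + 1)
  have hdd1 : dd (j + 1) = dd j / cc (j + 2) := by
    rw [← hmul]
    field_simp
  have hdd1M : dd (j + 1) ∈ M := by rw [hdd1]; exact div_mem hddM hM
  have hsq : (act t (cc (j + 2))) ^ 2 = dd (j + 1) ^ 2 := by
    rw [← act_pow t hM, cc_sq, act_add t (ofNat_mem M 2) hj1, act_two, h2, dd_sq]
    ring
  have hne : act t (cc (j + 2)) ≠ 0 := by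
    intro h
    rw [h, dd_sq] at hsq
    have := dd_sq (j + 1)
    have := pow_pos hdpos 2
    nlinarith
  have hkey : act t (dd (j + 1)) * act t (cc (j + 2)) = -dd j := by
    rw [← act_mul t hdd1M hM, hmul, htdd]
  rw [act_comp _ _ hM]
  rcases sq_eq_sq_iff_eq_or_eq_neg.1 hsq with h3 | h3
  · rw [h3] at hkey ⊢
    have : act t (dd (j + 1)) = -dd j / dd (j + 1) := by
      field_simp
      exact hkey
    rw [this, ← hmul]
    field_simp
  · rw [h3] at hkey ⊢
    rw [act_neg t hdd1M]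
    have : act t (dd (j + 1)) = dd j / dd (j + 1) := by
      field_simp
      linear_combination -hkey
    rw [this, ← hmul]
    field_simp

lemma act_pow_neg {t : M ≃ₐ[K] M} {x : ℝ} (hx : x ∈ M) (h : act t x = -x) (e : ℕ) :
    act (t ^ e) x = (-1) ^ e * x := by
  induction e with
  | zero => rw [pow_zero, act_one_left hx, pow_zero, one_mul]
  | succ e ih =>
    have h1 : (-1 : ℝ) ^ e * x = x ∨ (-1 : ℝ) ^ e * x = -x := by
      rcases neg_one_pow_eq_or ℝ e with h1 | h1 <;> rw [h1] <;> simp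
    rw [pow_succ' t e, act_comp _ _ hx, ih]
    rcases neg_one_pow_eq_or ℝ e with h1 | h1
    · rw [pow_succ, h1, one_mul, h]; ring
    · rw [pow_succ, h1]
      have : (-1 : ℝ) * x = -x := by ring
      rw [this, act_neg t hx, h]; ring

lemma act_pow_fix {t : M ≃ₐ[K] M} {x : ℝ} (hx : x ∈ M) (h : act t x = x) (e : ℕ) :
    act (t ^ e) x = x := by
  induction e with
  | zero => rw [pow_zero, act_one_left hx]
  | succ e ih => rw [pow_succ' t e, act_comp _ _ hx, ih, h]

/-- The powers of `t`. -/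
lemma cyc_pow {t : M ≃ₐ[K] M} {j : ℕ} (h1 : act t (cc j) = cc j)
    (h2 : act t (cc (j + 1)) = -cc (j + 1)) (i : ℕ) (hM : cc (j + i + 1) ∈ M) :
    act (t ^ 2 ^ i) (cc (j + i)) = cc (j + i) ∧
      act (t ^ 2 ^ i) (cc (j + i + 1)) = -cc (j + i + 1) := by
  induction i with
  | zero =>
    rw [pow_zero, pow_one]
    exact ⟨h1, h2⟩
  | succ i ih =>
    obtain ⟨h3, h4⟩ := ih (cc_mem_of_le hM (by omega))
    have h5 := cyc_step (j := j + i) hM h3 h4
    have h6 : t ^ 2 ^ (i + 1) = t ^ 2 ^ i * t ^ 2 ^ i := by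
      rw [← pow_add]
      congr 1
      ring
    rw [h6]
    exact h5

lemma cyc_iff {t : M ≃ₐ[K] M} {j : ℕ} (h1 : act t (cc j) = cc j)
    (h2 : act t (cc (j + 1)) = -cc (j + 1)) (i : ℕ) (hM : cc (j + i) ∈ M) (d : ℕ) :
    act (t ^ d) (cc (j + i)) = cc (j + i) ↔ 2 ^ i ∣ d := by
  induction i with
  | zero =>
    rw [pow_zero, add_zero]
    exact ⟨fun _ => one_dvd _, fun _ => act_pow_fix hM h1 d⟩
  | succ i ih =>
    have hM' : cc (j + i) ∈ M := cc_mem_of_le hM (by omega)
    obtain ⟨h3, h4⟩ := cyc_pow h1 h2 i hM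
    have h5 : ∀ e : ℕ, act (t ^ (2 ^ i * e)) (cc (j + (i + 1))) = (-1) ^ e * cc (j + (i + 1)) := by
      intro e
      rw [pow_mul]
      exact act_pow_neg hM h4 e
    have hpos : cc (j + (i + 1)) ≠ 0 := (cc_pos (j + i)).ne'
    constructor
    · intro h
      have h6 : act (t ^ d) (cc (j + i)) = cc (j + i) := fix_of_le hM h (by omega)
      obtain ⟨e, rfl⟩ := (ih hM').1 h6
      rw [h5 e] at h
      have h7 : (-1 : ℝ) ^ e = 1 := by
        have := mul_right_cancel₀ hpos (h.trans (one_mul _).symm)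
        exact this
      have h8 : Even e := by
        rcases Nat.even_or_odd e with h8 | h8
        · exact h8
        · rw [h8.neg_one_pow] at h7
          norm_num at h7
      obtain ⟨f, rfl⟩ := h8
      exact ⟨f, by ring⟩
    · rintro ⟨f, rfl⟩
      have h6 : 2 ^ (i + 1) * f = 2 ^ i * (2 * f) := by ring
      rw [h6, h5, pow_mul]
      norm_num

/-- Existence of the generator. -/
lemma exists_gen (hAM : A ≤ M) [FiniteDimensional K M] [IsAbelianGalois K M] {j : ℕ}
    (hj : cc j ∈ A) (hj1 : cc (j + 1) ∉ A) (hM : cc (j + 1) ∈ M) :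
    ∃ t : M ≃ₐ[K] M, (∀ x ∈ A, act t x = x) ∧ act t (cc (j + 1)) = -cc (j + 1) := by
  by_contra hcon
  push Not at hcon
  apply hj1
  apply mem_of_fixed hAM hM
  intro γ hγ
  rcases act_cc_sq γ hM (hγ _ hj) with h | h
  · exact h
  · exact absurd h (hcon γ hγ)

/-- Structure of the automorphisms fixing `A`. -/
lemma cyc_repr {ν j : ℕ} [IsAbelianGalois K M] (hM : cc ν ∈ M) {t : M ≃ₐ[K] M}
    (hAM : A ≤ M) (htA : ∀ x ∈ A, act t x = x) (hj : cc j ∈ A)
    (h2 : act t (cc (j + 1)) = -cc (j + 1)) (i : ℕ) (hi : j + i ≤ ν) {g : M ≃ₐ[K] M}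
    (hg : ∀ x ∈ A, act g x = x) (hgi : act g (cc (j + i)) = cc (j + i)) :
    ∃ q : ℕ, ∃ σ : M ≃ₐ[K] M, (∀ x ∈ A, act σ x = x) ∧ act σ (cc ν) = cc ν ∧
      g = t ^ (2 ^ i * q) * σ := by
  obtain ⟨m, hm⟩ : ∃ m, ν = j + i + m := ⟨ν - (j + i), by omega⟩
  induction m generalizing i g with
  | zero =>
    refine ⟨0, g, hg, ?_, ?_⟩
    · rw [hm, add_zero]; exact hgi
    · rw [mul_zero, pow_zero, one_mul]
  | succ m ih =>
    have hMi : cc (j + i + 1) ∈ M := cc_mem_of_le hM (by omega)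
    rcases act_cc_sq g hMi hgi with h | h
    · obtain ⟨q, σ, h3, h4, h5⟩ := ih (i + 1) (by omega) hg h (by omega)
      refine ⟨2 * q, σ, h3, h4, ?_⟩
      rw [h5]
      congr 2
      ring
    · obtain ⟨h6, h7⟩ := cyc_pow (htA _ hj) h2 i hMi
      set τ := t ^ 2 ^ i with hτ
      have hτA : ∀ x ∈ A, act τ x = x := fun x hx => act_pow_fix (hAM hx) (htA x hx) _
      have hinv : act τ⁻¹ (cc (j + i + 1)) = -cc (j + i + 1) := by
        apply act_inj τ (act_mem _ hMi) (neg_mem hMi)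
        rw [act_act_inv τ hMi, act_neg τ hMi, h7, neg_neg]
      have hinvA : ∀ x ∈ A, act τ⁻¹ x = x := by
        intro x hx
        apply act_inj τ (act_mem _ (hAM hx)) (hAM hx)
        rw [act_act_inv τ (hAM hx), hτA x hx]
      obtain ⟨q, σ, h3, h4, h5⟩ := ih (i + 1) (by omega) (g := τ⁻¹ * g) (by
        intro x hx
        rw [act_comp _ _ (hAM hx), hg x hx, hinvA x hx]) (by
        have e1 : act (τ⁻¹ * g) (cc (j + i + 1)) = cc (j + i + 1) := by
          rw [act_comp _ _ hMi, h, act_neg _ hMi, hinv, neg_neg]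
        exact e1) (by omega)
      refine ⟨2 * q + 1, σ, h3, h4, ?_⟩
      have h8 : g = τ * (τ⁻¹ * g) := by rw [← mul_assoc, mul_inv_cancel, one_mul]
      rw [h8, h5, hτ, ← mul_assoc, ← pow_add]
      congr 2
      ring

/-- The largest `j` with `cc j ∈ A`. -/
lemma exists_last (A : IntermediateField K ℝ) [FiniteDimensional K A] :
    ∃ j, cc j ∈ A ∧ cc (j + 1) ∉ A := by
  classical
  have hex : ∃ n, cc n ∉ A := by
    by_contra hcon
    push Not at hcon
    have hle : ∀ j, QQ j ≤ rs A := by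
      intro j
      apply ext_le bot_le
      exact hcon j
    have hfin := fd_rs A
    have hrank : ∀ j, j < Module.finrank ℚ (QQ j) := by
      intro j
      induction j with
      | zero => exact Module.finrank_pos
      | succ j ih =>
        have h1 : QQ j ≤ QQ (j + 1) := tw_le_succ _ j
        have hfd1 : FiniteDimensional ℚ (QQ (j + 1)) := fd_of_le (hle (j + 1))
        have h2 : QQ j ≠ QQ (j + 1) := by
          intro h
          apply cc_notMem j
          rw [h]; exact cc_mem_tw _ _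
        have h3 := finrank_dvd_of_le h1
        have h4 : Module.finrank ℚ (QQ j) ≠ Module.finrank ℚ (QQ (j + 1)) :=
          fun h => h2 (eq_of_le_of_finrank h1 h)
        have h5 := Nat.le_of_dvd Module.finrank_pos h3
        omega
    have h1 := hrank (Module.finrank ℚ (rs A))
    have h3 := finrank_dvd_of_le (hle (Module.finrank ℚ (rs A)))
    have h5 := Nat.le_of_dvd Module.finrank_pos h3
    omega
  have h0 : Nat.find hex ≠ 0 := by
    intro h
    have := Nat.find_spec hex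
    rw [h, cc_zero] at this
    exact this (zero_mem _)
  refine ⟨Nat.find hex - 1, ?_, ?_⟩
  · have := Nat.find_min hex (show Nat.find hex - 1 < Nat.find hex by omega)
    exact not_not.1 this
  · have h1 : Nat.find hex - 1 + 1 = Nat.find hex := by omega
    rw [h1]
    exact Nat.find_spec hex

end cyc

end Pool.Agent.STc
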