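import Pool.Agent.Lib.MP_1ef7cf_nt.Mg.G001
import Pool.Agent.Lib.MP_1ef7cf_nt_c.DCyc

/-!
# Devissage in the cyclotomic tower
-/

set_option linter.unusedSectionVars false
set_option linter.style.haveILetI false

open NumberField IntermediateField

namespace Pool.Agent.STc

open Pool.Agent.ST Pool.Agent.STb

section aux

variable {K : Type*} [Field K] [NumberField K] [Algebra K ℝ]

/-- Two automorphisms of `A(cc ν)` agreeing on `A` and at `cc ν` are equal. -/
lemma eq_of_eq_tw {A : IntermediateField K ℝ} {ν : ℕ} {γ δ : twK A ν ≃ₐ[K] twK A ν}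
    (h1 : ∀ x ∈ A, act γ x = act δ x) (h2 : act γ (cc ν) = act δ (cc ν)) : γ = δ := by
  have hle : twK A ν ≤ eqField γ δ := twK_le (fun x hx => ⟨le_twK A ν hx, h1 x hx⟩)
    ⟨cc_mem_twK A ν, h2⟩
  apply act_ext
  intro x hx
  exact (hle hx).2

lemma fix_tw_iff {A M : IntermediateField K ℝ} {k : ℕ} (hAM : twK A k ≤ M) (g : M ≃ₐ[K] M) :
    (∀ x ∈ twK A k, act g x = x) ↔ (∀ x ∈ A, act g x = x) ∧ act g (cc k) = cc k := by
  constructor
  · intro h
    exact ⟨fun x hx => h x (le_twK A k hx), h _ (cc_mem_twK A k)⟩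
  · rintro ⟨h1, h2⟩ x hx
    have hle : twK A k ≤ eqField g 1 := twK_le
      (fun y hy => eqField_iff.2 ⟨hAM (le_twK A k hy), h1 y hy⟩)
      (eqField_iff.2 ⟨hAM (cc_mem_twK A k), h2⟩)
    exact (eqField_iff.1 (hle hx)).2

/-- The automorphisms of `H` fixing `B` have order a power of `2`. -/
lemma two_power_of_fix {H B : IntermediateField K ℝ} [FiniteDimensional K H] [IsAbelianGalois K H]
    (hB : ∀ x, x ∈ B ↔ x ∈ H ∧ ∀ σ : H ≃ₐ[K] H, (∃ j : ℕ, σ ^ (2 ^ j) = 1) → act σ x = x)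
    {g : H ≃ₐ[K] H} (hg : ∀ x ∈ B, act g x = x) : ∃ j : ℕ, g ^ (2 ^ j) = 1 := by
  let P : Subgroup (H ≃ₐ[K] H) :=
    { carrier := {σ | ∃ j : ℕ, σ ^ (2 ^ j) = 1}
      mul_mem' := by
        rintro σ τ ⟨i, hi⟩ ⟨j, hj⟩
        refine ⟨i + j, ?_⟩
        have hc : Commute σ τ := mul_comm' σ τ
        rw [hc.mul_pow, pow_add, pow_mul, hi, one_pow, one_mul, mul_comm, pow_mul, hj, one_pow]
      one_mem' := ⟨0, by simp⟩
      inv_mem' := by
        rintro σ ⟨j, hj⟩
        exact ⟨j, by rw [inv_pow, hj, inv_one]⟩ }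
  have h1 : g ∈ P := by
    rw [← IntermediateField.fixingSubgroup_fixedField P, IntermediateField.mem_fixingSubgroup_iff]
    intro x hx
    rw [IntermediateField.mem_fixedField_iff] at hx
    have h2 : (x : ℝ) ∈ B := by
      rw [hB]
      refine ⟨x.2, fun σ hσ => ?_⟩
      rw [act_coe, hx σ hσ]
    have h3 := hg _ h2
    rw [act_coe] at h3
    exact Subtype.ext h3
  exact h1

/-- A uniform bound. -/
lemma pow_card_of {G : Type*} [Group G] [Finite G] {g : G} (hg : ∃ j : ℕ, g ^ (2 ^ j) = 1) :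
    g ^ (2 ^ Nat.card G) = 1 := by
  obtain ⟨j, hj⟩ := hg
  obtain ⟨i, -, hi⟩ := (Nat.dvd_prime_pow Nat.prime_two).1 (orderOf_dvd_of_pow_eq_one hj)
  apply orderOf_dvd_iff_pow_eq_one.1
  rw [hi]
  apply pow_dvd_pow
  have h1 : orderOf g ≤ Nat.card G := orderOf_le_card
  rw [hi] at h1
  exact (Nat.lt_two_pow_self).le.trans h1

end aux

section main

variable {K : Type*} [Field K] [NumberField K] [Algebra K ℝ]

open Classical in
/-- **D.** Devissage for the cyclotomic tower `H(cc ν)`. `B ⊂ H` is the fixed field of the automorphisms of 2-power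
order of `H/K`. -/
theorem devGal {K : Type*} [Field K] [NumberField K] [Algebra K ℝ] (H B : IntermediateField K ℝ)
    [FiniteDimensional K H] [IsAbelianGalois K H]
    (hfd : ∀ ν, FiniteDimensional K (twK H ν)) (hab : ∀ ν, IsAbelianGalois K (twK H ν))
    (hB : ∀ x, x ∈ B ↔ x ∈ H ∧ ∀ σ : H ≃ₐ[K] H, (∃ j : ℕ, σ ^ (2 ^ j) = 1) → act σ x = x) (k : ℕ) :
    ∃ ν₀, ∀ ν ≥ ν₀, ∀ (F : IntermediateField K ℝ) (hF : F ≤ twK H ν), twK B ν ≤ F →
      ∀ [Normal K F] [Normal K H] [FiniteDimensional K (twK H ν)]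
        (𝔞 : Ideal (MonoidAlgebra (ZMod 2) (F ≃ₐ[K] F))),
      (∀ θ, (∀ σ : F ≃ₐ[K] F, (∀ x ∈ twK B k, act σ x = x) →
          (1 + MonoidAlgebra.single σ 1) * θ ∈ 𝔞) →
        ∀ 𝒯 : Finset (F ≃ₐ[K] F), (∀ t ∈ 𝒯, ∀ x ∈ B, act t x = x) →
          (∀ g : F ≃ₐ[K] F, (∀ x ∈ B, act g x = x) →
            ∃! t, t ∈ 𝒯 ∧ ∀ x ∈ twK B k, act (t⁻¹ * g) x = x) →
          (∑ t ∈ 𝒯, MonoidAlgebra.single t 1) * θ ∈ 𝔞) →
      ∑ γ ∈ fib (le_twK H ν) (1 : H ≃ₐ[K] H), MonoidAlgebra.single (res hF γ) 1 ∈ 𝔞 := by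
  have hBH : B ≤ H := fun x hx => ((hB x).1 hx).1
  haveI hfdB : FiniteDimensional K B := fd_of_le hBH
  obtain ⟨j₀, hj₀, hj₀'⟩ := exists_last B
  obtain ⟨j₁, hj₁, hj₁'⟩ := exists_last H
  set a := Nat.card (H ≃ₐ[K] H) with ha
  set k' := k - j₀ with hk'
  set M₀ := 2 ^ a * ((2 ^ k' - 1) * (2 ^ a) ^ (2 ^ a)) with hM₀
  refine ⟨j₀ + j₁ + k + M₀ + 2, ?_⟩
  intro ν hν F hF hBF _ _ _ 𝔞 h
  haveI habL : IsAbelianGalois K (twK H ν) := hab ν
  haveI hfdF : FiniteDimensional K F := fd_of_le hF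
  haveI habF : IsAbelianGalois K F := isAbelianGalois_of_le hF
  haveI : Finite (F ≃ₐ[K] F) := inferInstance
  have hBF' : B ≤ F := (le_twK B ν).trans hBF
  have hccF : cc ν ∈ F := hBF (cc_mem_twK B ν)
  have hccL : cc ν ∈ twK H ν := cc_mem_twK H ν
  obtain ⟨t, htB, ht⟩ := exists_gen hBF' hj₀ hj₀' (cc_mem_of_le hccF (by omega))
  obtain ⟨z, hzH, hz⟩ := exists_gen (le_twK H ν) hj₁ hj₁' (cc_mem_of_le hccL (by omega))
  -- the set `S`
  set S : Finset (F ≃ₐ[K] F) := Finset.univ.filter fun g =>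
    (∀ x ∈ B, act g x = x) ∧ act g (cc ν) = cc ν with hS
  have hSm : ∀ g, g ∈ S ↔ (∀ x ∈ B, act g x = x) ∧ act g (cc ν) = cc ν := by
    intro g; rw [hS, Finset.mem_filter]; simp
  -- lifts
  have hlift : ∀ g ∈ S, ∃ g' : twK H ν ≃ₐ[K] twK H ν, res hF g' = g ∧ act g' (cc ν) = cc ν ∧
      ∃ j : ℕ, (res (le_twK H ν) g') ^ (2 ^ j) = 1 := by
    intro g hg
    obtain ⟨h1, h2⟩ := (hSm g).1 hg
    obtain ⟨g', hg'⟩ := res_surjective hF g
    refine ⟨g', hg', ?_, ?_⟩
    · rw [← act_res hF g' hccF, hg', h2]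
    · apply two_power_of_fix hB
      intro x hx
      rw [act_res _ _ (hBH hx), ← act_res hF g' (hBF' hx), hg', h1 x hx]
  have hSpow : ∀ g ∈ S, g ^ (2 ^ a) = 1 := by
    intro g hg
    obtain ⟨g', hg', h1, h2⟩ := hlift g hg
    have h3 := pow_card_of h2
    have h4 : g' ^ (2 ^ a) = 1 := by
      apply eq_of_eq_tw
      · intro x hx
        rw [← act_res (le_twK H ν) _ hx, map_pow, h3, act_one_left hx,
          act_one_left (le_twK H ν hx)]
      · rw [act_pow_fix hccL h1, act_one_left hccL]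
    rw [← hg', ← map_pow, h4, map_one]
  have hScard : S.card ≤ 2 ^ a := by
    choose! L hL1 hL2 hL3 using hlift
    have h1 : S.card ≤ (Finset.univ : Finset (H ≃ₐ[K] H)).card := by
      apply Finset.card_le_card_of_injOn (fun g => res (le_twK H ν) (L g))
        (fun _ _ => Finset.mem_univ _)
      intro g hg g' hg' he
      have h2 : L g = L g' := by
        apply eq_of_eq_tw
        · intro x hx
          rw [← act_res (le_twK H ν) (L g) hx, ← act_res (le_twK H ν) (L g') hx]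
          have he' : res (le_twK H ν) (L g) = res (le_twK H ν) (L g') := he
          rw [he']
        · rw [hL2 g hg, hL2 g' hg']
      rw [← hL1 g hg, ← hL1 g' hg', h2]
    rw [Finset.card_univ, ← Nat.card_eq_fintype_card, ← ha] at h1
    exact h1.trans (Nat.lt_two_pow_self).le
  -- representation
  have hrepr : ∀ i, j₀ + i ≤ ν → ∀ g : F ≃ₐ[K] F, (∀ x ∈ B, act g x = x) →
      act g (cc (j₀ + i)) = cc (j₀ + i) → ∃ q : ℕ, ∃ σ ∈ S, g = t ^ (2 ^ i * q) * σ := by
    intro i hi g hg hgi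
    obtain ⟨q, σ, h1, h2, h3⟩ := cyc_repr hccF hBF' htB hj₀ ht i hi hg hgi
    exact ⟨q, σ, (hSm σ).2 ⟨h1, h2⟩, h3⟩
  have htiff : ∀ i, j₀ + i ≤ ν → ∀ d : ℕ, act (t ^ d) (cc (j₀ + i)) = cc (j₀ + i) ↔ 2 ^ i ∣ d :=
    fun i hi d => cyc_iff (htB _ hj₀) ht i (cc_mem_of_le hccF hi) d
  have htpowB : ∀ d : ℕ, ∀ x ∈ B, act (t ^ d) x = x := fun d x hx =>
    act_pow_fix (hBF' hx) (htB x hx) d
  -- nilpotency
  have htS : t ^ (2 ^ (ν - j₀)) ∈ S := by
    rw [hSm]
    refine ⟨htpowB _, ?_⟩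
    have h1 : j₀ + (ν - j₀) = ν := by omega
    have h2 := (htiff (ν - j₀) (by omega) (2 ^ (ν - j₀))).2 dvd_rfl
    rwa [h1] at h2
  have htN : t ^ (2 ^ ((ν - j₀) + a)) = 1 := by
    rw [pow_add, pow_mul]
    exact hSpow _ htS
  -- z
  have hzB : ∃ i : ℕ, ∃ σ ∈ S, res hF z = t ^ i * σ := by
    have h1 : ∀ x ∈ B, act (res hF z) x = x := by
      intro x hx
      rw [act_res hF z (hBF' hx), hzH x (hBH hx)]
    obtain ⟨q, σ, hσ, h2⟩ := hrepr 0 (by omega) (res hF z) h1 (h1 _ hj₀)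
    exact ⟨_, σ, hσ, h2⟩
  obtain ⟨i₀, σ₀, hσ₀, hzb⟩ := hzB
  -- fixing `twK B k`
  set j₂ := j₀ + k' with hj₂
  have hj₂ν : j₂ ≤ ν := by omega
  have hfixk : ∀ g : F ≃ₐ[K] F, (∀ x ∈ twK B k, act g x = x) ↔
      (∀ x ∈ B, act g x = x) ∧ act g (cc j₂) = cc j₂ := by
    intro g
    have hBk : twK B k ≤ F := (twK_mono B (by omega)).trans hBF
    rw [fix_tw_iff hBk]
    constructor
    · rintro ⟨h1, h2⟩
      refine ⟨h1, ?_⟩
      rcases le_total k j₀ with h3 | h3
      · have : j₂ = j₀ := by omega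
        rw [this]; exact h1 _ hj₀
      · have : j₂ = k := by omega
        rw [this]; exact h2
    · rintro ⟨h1, h2⟩
      refine ⟨h1, ?_⟩
      exact fix_of_le (cc_mem_of_le hccF hj₂ν) h2 (by omega)
  -- the main hypothesis
  have hmain : ∀ θ : MonoidAlgebra (ZMod 2) (F ≃ₐ[K] F),
      (∀ q : ℕ, ∀ σ ∈ S, (1 + MonoidAlgebra.single (t ^ (2 ^ k' * q) * σ) 1) * θ ∈ 𝔞) →
      (∑ j ∈ Finset.range (2 ^ k'), MonoidAlgebra.single (t ^ j) 1) * θ ∈ 𝔞 := by
    intro θ hθ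
    have h1 := h θ (by
      intro σ hσ
      obtain ⟨h2, h3⟩ := (hfixk σ).1 hσ
      obtain ⟨q, σ', hσ', rfl⟩ := hrepr k' hj₂ν σ h2 h3
      exact hθ q σ' hσ')
    have hinj : ∀ r ∈ Finset.range (2 ^ k'), ∀ r' ∈ Finset.range (2 ^ k'),
        act ((t ^ r)⁻¹ * t ^ r') (cc j₂) = cc j₂ → r ≤ r' → r = r' := by
      intro r hr r' hr' he hle
      rw [Finset.mem_range] at hr hr'
      obtain ⟨d, rfl⟩ := Nat.exists_eq_add_of_le hle
      have h5 : (t ^ r)⁻¹ * t ^ (r + d) = t ^ d := by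
        rw [pow_add, ← mul_assoc, inv_mul_cancel, one_mul]
      rw [h5] at he
      have h6 := (htiff k' hj₂ν d).1 he
      rcases Nat.eq_zero_or_pos d with h7 | h7
      · omega
      · have := Nat.le_of_dvd h7 h6
        omega
    have hinj' : ∀ r ∈ Finset.range (2 ^ k'), ∀ r' ∈ Finset.range (2 ^ k'),
        act ((t ^ r)⁻¹ * t ^ r') (cc j₂) = cc j₂ → r = r' := by
      intro r hr r' hr' he
      rcases le_total r r' with hle | hle
      · exact hinj r hr r' hr' he hle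
      · refine (hinj r' hr' r hr ?_ hle).symm
        have hm : cc j₂ ∈ F := cc_mem_of_le hccF hj₂ν
        have h5 : (t ^ r')⁻¹ * t ^ r = ((t ^ r)⁻¹ * t ^ r')⁻¹ := by
          rw [mul_inv_rev, inv_inv]
        rw [h5]
        apply act_inj ((t ^ r)⁻¹ * t ^ r') (act_mem _ hm) hm
        rw [act_act_inv _ hm, he]
    have h2 := h1 ((Finset.range (2 ^ k')).image fun j => t ^ j) (by
      intro s hs x hx
      obtain ⟨j, -, rfl⟩ := Finset.mem_image.1 hs
      exact htpowB j x hx) (by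
      intro g hg
      obtain ⟨q, σ, hσ, hgq⟩ := hrepr 0 (by omega) g hg (hg _ hj₀)
      rw [pow_zero, one_mul] at hgq
      obtain ⟨hσ1, hσ2⟩ := (hSm σ).1 hσ
      have hfix2 : ∀ r q' : ℕ, q = r + 2 ^ k' * q' → ∀ x ∈ twK B k, act ((t ^ r)⁻¹ * g) x = x := by
        intro r q' hq
        rw [hfixk]
        have h3 : (t ^ r)⁻¹ * g = t ^ (2 ^ k' * q') * σ := by
          rw [hgq, hq, pow_add, mul_assoc, ← mul_assoc, inv_mul_cancel, one_mul]
        rw [h3]
        refine ⟨fun x hx => ?_, ?_⟩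
        · rw [act_comp _ _ (hBF' hx), hσ1 x hx, htpowB _ x hx]
        · have hm : cc j₂ ∈ F := cc_mem_of_le hccF hj₂ν
          rw [act_comp _ _ hm, fix_of_le hccF hσ2 hj₂ν]
          exact (htiff k' hj₂ν _).2 (dvd_mul_right _ _)
      refine ⟨t ^ (q % 2 ^ k'), ⟨Finset.mem_image.2 ⟨q % 2 ^ k', ?_, rfl⟩,
        hfix2 _ (q / 2 ^ k') (Nat.mod_add_div q (2 ^ k')).symm⟩, ?_⟩
      · rw [Finset.mem_range]
        exact Nat.mod_lt _ (by positivity)
      · rintro s ⟨hs1, hs2⟩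
        obtain ⟨r, hr, rfl⟩ := Finset.mem_image.1 hs1
        have h3 := ((hfixk _).1 hs2).2
        have h4 := ((hfixk _).1 (hfix2 _ (q / 2 ^ k') (Nat.mod_add_div q (2 ^ k')).symm)).2
        have hm : cc j₂ ∈ F := cc_mem_of_le hccF hj₂ν
        have h5 : (t ^ r)⁻¹ * t ^ (q % 2 ^ k') = ((t ^ r)⁻¹ * g) * ((t ^ (q % 2 ^ k'))⁻¹ * g)⁻¹ := by
          rw [mul_inv_rev, inv_inv]
          group
        have h6 : act ((t ^ r)⁻¹ * t ^ (q % 2 ^ k')) (cc j₂) = cc j₂ := by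
          rw [h5, act_comp _ _ hm]
          have h7 : act ((t ^ (q % 2 ^ k'))⁻¹ * g)⁻¹ (cc j₂) = cc j₂ := by
            apply act_inj ((t ^ (q % 2 ^ k'))⁻¹ * g) (act_mem _ hm) hm
            rw [act_act_inv _ hm, h4]
          rw [h7, h3]
        have h8 := hinj' r hr (q % 2 ^ k') (by
          rw [Finset.mem_range]
          exact Nat.mod_lt _ (by positivity)) h6
        change t ^ r = _
        rw [h8])
    rw [Finset.sum_image] at h2
    · exact h2
    · intro r hr r' hr' he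
      apply hinj' r hr r' hr'
      have he' : t ^ r = t ^ r' := he
      rw [he', inv_mul_cancel, act_one_left (cc_mem_of_le hccF hj₂ν)]
  -- apply the abstract result
  let cg : CommGroup (F ≃ₐ[K] F) :=
    { (inferInstance : Group (F ≃ₐ[K] F)) with mul_comm := fun x y => mul_comm' x y }
  set n := ν - j₁ with hn
  have hn' : M₀ ≤ 2 ^ n - 1 := by
    have h1 : n < 2 ^ n := Nat.lt_two_pow_self
    omega
  have key : ∑ j ∈ Finset.range (2 ^ n),
      (MonoidAlgebra.single ((res hF z) ^ j) 1 : MonoidAlgebra (ZMod 2) (F ≃ₐ[K] F)) ∈ 𝔞 := by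
    have h0 := @grp_devissage (F ≃ₐ[K] F) cg t (res hF z) S a k' (ν - j₀ + a) n i₀ hSpow hScard htN
      ⟨σ₀, hσ₀, hzb⟩ 𝔞 hmain hn'
    exact h0
  have hfib : fib (le_twK H ν) (1 : H ≃ₐ[K] H) = (Finset.range (2 ^ n)).image fun j => z ^ j := by
    ext γ
    rw [mem_fib, res_eq_one_iff, Finset.mem_image]
    constructor
    · intro hγ
      obtain ⟨q, σ, h1, h2, h3⟩ := cyc_repr hccL (le_twK H ν) hzH hj₁ hz 0 (by omega) hγ (hγ _ hj₁)
      rw [pow_zero, one_mul] at h3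
      have hσ1 : σ = 1 := by
        apply eq_of_eq_tw
        · intro x hx
          rw [h1 x hx, act_one_left (le_twK H ν hx)]
        · rw [h2, act_one_left hccL]
      rw [hσ1, mul_one] at h3
      refine ⟨q % 2 ^ n, Finset.mem_range.2 (Nat.mod_lt _ (by positivity)), ?_⟩
      have h4 : z ^ 2 ^ n = 1 := by
        apply eq_of_eq_tw
        · intro x hx
          rw [act_pow_fix (le_twK H ν hx) (hzH x hx), act_one_left (le_twK H ν hx)]
        · have h5 := (cyc_iff (hzH _ hj₁) hz n (by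
            have : j₁ + n = ν := by omega
            rw [this]; exact hccL) (2 ^ n)).2 dvd_rfl
          have : j₁ + n = ν := by omega
          rw [this] at h5
          rw [h5, act_one_left hccL]
      change z ^ (q % 2 ^ n) = γ
      rw [h3]
      conv_rhs => rw [← Nat.mod_add_div q (2 ^ n)]
      rw [pow_add, pow_mul, h4, one_pow, mul_one]
    · rintro ⟨j, -, rfl⟩ x hx
      exact act_pow_fix (le_twK H ν hx) (hzH x hx) j
  rw [hfib, Finset.sum_image]
  · have h1 : ∀ j ∈ Finset.range (2 ^ n),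
        (MonoidAlgebra.single (res hF (z ^ j)) 1 : MonoidAlgebra (ZMod 2) (F ≃ₐ[K] F)) =
        MonoidAlgebra.single ((res hF z) ^ j) 1 := by
      intro j _
      rw [map_pow]
    rw [Finset.sum_congr rfl h1]
    exact key
  · have haux : ∀ r r' : ℕ, r' < 2 ^ n → z ^ r = z ^ r' → r ≤ r' → r = r' := by
      intro r r' hr' he hle
      obtain ⟨d, rfl⟩ := Nat.exists_eq_add_of_le hle
      have h5 : z ^ d = 1 := by
        rw [pow_add] at he
        exact (mul_eq_left.1 he.symm)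
      have h6 : act (z ^ d) (cc (j₁ + n)) = cc (j₁ + n) := by
        rw [h5, act_one_left]
        have : j₁ + n = ν := by omega
        rw [this]; exact hccL
      have h7 := (cyc_iff (hzH _ hj₁) hz n (by
            have : j₁ + n = ν := by omega
            rw [this]; exact hccL) d).1 h6
      rcases Nat.eq_zero_or_pos d with h8 | h8
      · omega
      · have := Nat.le_of_dvd h8 h7
        omega
    intro r hr r' hr' he
    have hr := Finset.mem_range.1 hr
    have hr' := Finset.mem_range.1 hr'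
    have he' : z ^ r = z ^ r' := he
    rcases le_total r r' with hle | hle
    · exact haux r r' hr' he' hle
    · exact (haux r' r hr he'.symm hle).symm

end main

end Pool.Agent.STc
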