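import Pool.Agent.Lib.MP_1ef7cf_nt_c.CountLoc
import Pool.Agent.Lib.MP_1ef7cf_nt_b.Mg.G001

/-!
# The Kolyvagin relation between two elements at a prime
-/

set_option linter.unusedSectionVars false

open NumberField IsDedekindDomain

namespace Pool.Agent.STc

open Pool.Agent.ST Pool.Agent.STb

section rel

variable {M : Type*} [Field M] [NumberField M] {P : PrI M} {τ x y x' y' : M}

/-- `x` has even valuation at `P`, and `y` is a local square if `x` is, and `τ y` is a local square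
otherwise. -/
def Rel (P : PrI M) (τ x y : M) : Prop :=
  SqAt P x ∧ ((LSq P x ∧ LSq P y) ∨ (¬ LSq P x ∧ LSq P (τ * y)))

lemma sqAt_mul (h : SqAt P x) (h' : SqAt P y) : SqAt P (x * y) := by
  obtain ⟨s, hs⟩ := h
  obtain ⟨t, ht⟩ := h'
  refine ⟨s * t, ?_⟩
  have : x * y * (s * t) ^ 2 = (x * s ^ 2) * (y * t ^ 2) := by ring
  rw [this, map_mul, hs, ht, one_mul]

lemma sqAt_mul_sq {z : M} (hz : z ≠ 0) : SqAt P (x * z ^ 2) ↔ SqAt P x := by
  constructor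
  · rintro ⟨s, hs⟩
    exact ⟨z * s, by rw [← hs]; congr 1; ring⟩
  · rintro ⟨s, hs⟩
    exact ⟨z⁻¹ * s, by rw [← hs]; congr 1; field_simp⟩

lemma sqAt_of_sq {z : M} (hz : z ≠ 0) : SqAt P (z ^ 2) := ⟨z⁻¹, by
  rw [inv_pow, mul_inv_cancel₀ (pow_ne_zero 2 hz), map_one]⟩

lemma SqAt.inv (hx : SqAt P x) : SqAt P x⁻¹ := by
  have hx0 : x ≠ 0 := by rintro rfl; exact sqAt_zero_iff hx
  have h1 : x⁻¹ = x * (x⁻¹) ^ 2 := by field_simp
  rw [h1]
  exact (sqAt_mul_sq (inv_ne_zero hx0)).2 hx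

lemma lsq_of_mul (h : LSq P x) (h' : LSq P (x * y)) : LSq P y := by
  have h0 := h.ne_zero
  have : y = x⁻¹ * (x * y) := by field_simp
  rw [this]
  exact h.inv.mul h'

lemma Rel.mul (hτ : τ ≠ 0) (h : Rel P τ x y) (h' : Rel P τ x' y') : Rel P τ (x * x') (y * y') := by
  refine ⟨sqAt_mul h.1 h'.1, ?_⟩
  rcases h.2 with ⟨h1, h2⟩ | ⟨h1, h2⟩ <;> rcases h'.2 with ⟨h3, h4⟩ | ⟨h3, h4⟩
  · exact Or.inl ⟨h1.mul h3, h2.mul h4⟩
  · refine Or.inr ⟨fun h5 => h3 (lsq_of_mul h1 h5), ?_⟩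
    have : τ * (y * y') = y * (τ * y') := by ring
    rw [this]; exact h2.mul h4
  · refine Or.inr ⟨fun h5 => h1 (lsq_of_mul h3 (by rwa [mul_comm] at h5)), ?_⟩
    rw [← mul_assoc]; exact h2.mul h4
  · refine Or.inl ⟨Cnt.lsq_mul_of_not h.1 h'.1 h1 h3, ?_⟩
    have : y * y' = (τ * y) * (τ * y') * (τ⁻¹) ^ 2 := by field_simp
    rw [this, LSq.mul_sq (inv_ne_zero hτ)]
    exact h2.mul h4

lemma Rel.one : Rel P τ 1 1 := ⟨⟨1, by simp⟩, Or.inl ⟨LSq.one P, LSq.one P⟩⟩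

lemma Rel.mul_sq {s t : M} (hs : s ≠ 0) (ht : t ≠ 0) (h : Rel P τ x y) :
    Rel P τ (x * s ^ 2) (y * t ^ 2) := by
  refine ⟨(sqAt_mul_sq hs).2 h.1, ?_⟩
  rw [LSq.mul_sq hs, LSq.mul_sq ht, ← mul_assoc, LSq.mul_sq ht]
  exact h.2

lemma Rel.sqAt_iff (hτ : ¬ SqAt P τ) (h : Rel P τ x y) : SqAt P y ↔ LSq P x := by
  rcases h.2 with ⟨h1, h2⟩ | ⟨h1, h2⟩
  · exact ⟨fun _ => h1, fun _ => h2.sqAt⟩
  · refine ⟨fun h3 => ?_, fun h3 => absurd h3 h1⟩
    exfalso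
    apply hτ
    have hy0 : y ≠ 0 := by
      rintro rfl
      exact sqAt_zero_iff h3
    have : τ = (τ * y) * y * (y⁻¹) ^ 2 := by field_simp
    rw [this, sqAt_mul_sq (inv_ne_zero hy0)]
    exact sqAt_mul h2.sqAt h3

lemma Rel.trv (h : Rel P τ x y) : Trv P τ y := by
  rcases h.2 with ⟨-, h2⟩ | ⟨-, h2⟩
  · exact Or.inl h2
  · exact Or.inr h2

end rel

section act

variable {K E : Type*} [Field K] [NumberField K] [Field E] [NumberField E] [Algebra K E]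

lemma Rel.act {g : E ≃ₐ[K] E} {u : PrI E} {τ x y : E} :
    Rel (pg g u) (g τ) (g x) (g y) ↔ Rel u τ x y := by
  unfold Rel
  rw [sqAt_pg, LSq.pg, LSq.pg, ← map_mul, LSq.pg]

lemma Rel.prd {q : PrI K} {τ : K} (hτ : τ ≠ 0) {x y : E}
    (h : ∀ u : PrI E, und K u = q → Rel u (algebraMap K E τ) x y)
    (z : MonoidAlgebra (ZMod 2) (E ≃ₐ[K] E)) (u : PrI E) (hu : und K u = q) :
    Rel u (algebraMap K E τ) (STc.prd z x) (STc.prd z y) := by
  classical
  unfold STc.prd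
  generalize z.coeff.support = S
  induction S using Finset.induction_on with
  | empty => rw [Finset.prod_empty, Finset.prod_empty]; exact Rel.one
  | insert g S hg ih =>
    rw [Finset.prod_insert hg, Finset.prod_insert hg]
    refine Rel.mul (by simpa using hτ) ?_ ih
    have h1 := h (pg g⁻¹ u) (by rw [und_pg, hu])
    rw [← Rel.act (g := g), pg_pg_inv, g.commutes] at h1
    exact h1

end act

section tow

variable {A B : Type*} [Field A] [NumberField A] [Field B] [NumberField B] [Algebra A B]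

lemma rel_iff {w : PrI B} (hun : Algebra.IsUnramifiedAt (𝓞 A) w.asIdeal)
    (hpn : pn w = pn (und A w)) {τ x y : A} :
    Rel w (algebraMap A B τ) (algebraMap A B x) (algebraMap A B y) ↔ Rel (und A w) τ x y := by
  unfold Rel
  rw [sqAt_iff_unr w hun, lsq_iff hun hpn, lsq_iff hun hpn, ← map_mul, lsq_iff hun hpn]

end tow

end Pool.Agent.STc
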