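import Pool.Agent.Lib.MP_1ef7cf_nt_c.Flds
import Pool.Agent.Lib.MP_1ef7cf_nt_c.Rel

/-!
# Descent of local conditions
-/

set_option linter.unusedSectionVars false

open NumberField IsDedekindDomain nonZeroDivisors IntermediateField

namespace Pool.Agent.STc

open Pool.Agent.ST Pool.Agent.STb

section abs

variable {K A B : Type*} [Field K] [NumberField K] [Field A] [NumberField A] [Field B]
  [NumberField B] [Algebra K A] [Algebra K B] [Algebra A B] [IsScalarTower K A B]

lemma dn_unr (w : PrI B) (hun : Algebra.IsUnramifiedAt (𝓞 K) w.asIdeal) :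
    Algebra.IsUnramifiedAt (𝓞 A) w.asIdeal :=
  Algebra.IsUnramifiedAt.of_restrictScalars (R := 𝓞 K) w.asIdeal

lemma dn_sqAt (w : PrI B) (hun : Algebra.IsUnramifiedAt (𝓞 K) w.asIdeal) (x : A) :
    SqAt w (algebraMap A B x) ↔ SqAt (und A w) x :=
  sqAt_iff_unr w (dn_unr (K := K) w hun) x

lemma dn_pn (w : PrI B) (hs : IsFrob K w (1 : B ≃ₐ[K] B)) : pn w = pn (und A w) := by
  have h1 : IsFrob K (und A w) (1 : A ≃ₐ[K] A) := isFrob_und (fun x => rfl) hs
  rw [pn_eq_of_isFrob_one hs, pn_eq_of_isFrob_one h1, und_und]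

lemma dn_lsq (w : PrI B) (hun : Algebra.IsUnramifiedAt (𝓞 K) w.asIdeal)
    (hs : IsFrob K w (1 : B ≃ₐ[K] B)) (x : A) :
    LSq w (algebraMap A B x) ↔ LSq (und A w) x :=
  lsq_iff (dn_unr (K := K) w hun) (dn_pn w hs)

end abs

variable {K : Type*} [Field K] [NumberField K] [Algebra K ℝ]

attribute [local instance] numberField_of_fd

section dn

variable {A B : IntermediateField K ℝ} {q : PrI K}

lemma exists_dn_loc (h : A ≤ B) [FiniteDimensional K A] [FiniteDimensional K B] (hu : Unr q B)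
    (u : PrI A) (hq : und K u = q) :
    ∃ w : PrI B, und K w = q ∧ (∀ x : A, SqAt w (inclusion h x) ↔ SqAt u x) ∧
      (Spl q B → ∀ x : A, LSq w (inclusion h x) ↔ LSq u x) := by
  let _ : Algebra A B := (inclusion h).toAlgebra
  have : IsScalarTower K A B := IsScalarTower.of_algebraMap_eq' rfl
  obtain ⟨w, hw⟩ := exists_ovr (K := A) (L := B) u
  have hw' : und K w = q := by rw [← und_und (E₁ := A), hw, hq]
  refine ⟨w, hw', fun x => ?_, fun hs x => ?_⟩
  · rw [← hw]; exact dn_sqAt w (hu w hw') x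
  · rw [← hw]; exact dn_lsq w (hu w hw') (hs w hw') x

/-- descent of the relation -/
lemma rel_dn (h : A ≤ B) [FiniteDimensional K A] [FiniteDimensional K B] (hu : Unr q B)
    (hs : Spl q B) {τ : K} {x y : A}
    (hr : ∀ w : PrI B, und K w = q →
      Rel w (algebraMap K B τ) (inclusion h x) (inclusion h y)) (u : PrI A) (hq : und K u = q) :
    Rel u (algebraMap K A τ) x y := by
  obtain ⟨w, hw, h1, h2⟩ := exists_dn_loc h hu u hq
  have h3 := hr w hw
  have h4 : algebraMap K B τ = inclusion h (algebraMap K A τ) := rfl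
  unfold Rel at h3 ⊢
  rw [h4, ← map_mul, h1, h2 hs, h2 hs, h2 hs] at h3
  exact h3

lemma sqAt_dn (h : A ≤ B) [FiniteDimensional K A] [FiniteDimensional K B] (hu : Unr q B) {x : A}
    (hr : ∀ w : PrI B, und K w = q → SqAt w (inclusion h x)) (u : PrI A) (hq : und K u = q) :
    SqAt u x := by
  obtain ⟨w, hw, h1, -⟩ := exists_dn_loc h hu u hq
  exact (h1 x).1 (hr w hw)

end dn

end Pool.Agent.STc
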