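import Pool.Agent.Lib.MP_1ef7cf_nt_c.SelDefs

/-!
# The action of the group ring modulo squares
-/

set_option linter.unusedSectionVars false

open NumberField IsDedekindDomain

namespace Pool.Agent.STc

section sq

variable {F : Type*} [Field F]

lemma isSq_trans {a b c : F} (hb : b ≠ 0) (h1 : IsSquare (a * b)) (h2 : IsSquare (b * c)) :
    IsSquare (a * c) := by
  have : a * c = (a * b) * (b * c) * (b⁻¹) ^ 2 := by field_simp
  rw [this]
  exact (h1.mul h2).mul (even_two.isSquare_pow _)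

lemma isSq_mul_iff {a b : F} (hb : b ≠ 0) (hb2 : IsSquare b) : IsSquare (a * b) ↔ IsSquare a := by
  constructor
  · intro h
    have : a = (a * b) * b * (b⁻¹) ^ 2 := by field_simp
    rw [this]
    exact (h.mul hb2).mul (even_two.isSquare_pow _)
  · intro h; exact h.mul hb2

lemma isSq_congr {a b : F} (ha : a ≠ 0) (hb : b ≠ 0) (h : IsSquare (a * b)) :
    IsSquare a ↔ IsSquare b := by
  constructor
  · intro h1
    rw [mul_comm] at h
    exact (isSq_mul_iff ha h1).1 h
  · intro h1
    exact (isSq_mul_iff hb h1).1 h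

end sq

section prd

variable {K F : Type*} [Field K] [Field F] [Algebra K F]

/-- The product of the conjugates. -/
lemma prd_ne_zero {z : MonoidAlgebra (ZMod 2) (F ≃ₐ[K] F)} {x : F} (hx : x ≠ 0) : prd z x ≠ 0 :=
  Finset.prod_ne_zero_iff.2 fun g _ => by simpa using hx

lemma prd_mul_right (z : MonoidAlgebra (ZMod 2) (F ≃ₐ[K] F)) (x y : F) :
    prd z (x * y) = prd z x * prd z y := by
  unfold prd
  rw [← Finset.prod_mul_distrib]
  exact Finset.prod_congr rfl fun g _ => map_mul g x y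

lemma prd_pow (z : MonoidAlgebra (ZMod 2) (F ≃ₐ[K] F)) (x : F) (n : ℕ) :
    prd z (x ^ n) = prd z x ^ n := by
  unfold prd
  rw [← Finset.prod_pow]
  exact Finset.prod_congr rfl fun g _ => map_pow g x n

lemma IsSquare.prd {z : MonoidAlgebra (ZMod 2) (F ≃ₐ[K] F)} {x : F} (h : IsSquare x) :
    IsSquare (STc.prd z x) := by
  obtain ⟨s, rfl⟩ := h
  rw [prd_mul_right]
  exact ⟨_, rfl⟩

lemma prd_zero (x : F) : prd (0 : MonoidAlgebra (ZMod 2) (F ≃ₐ[K] F)) x = 1 := by
  unfold prd
  have : (0 : MonoidAlgebra (ZMod 2) (F ≃ₐ[K] F)).coeff.support = ∅ := by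
    rw [Finsupp.support_eq_empty]; rfl
  rw [this, Finset.prod_empty]

lemma prd_single (g : F ≃ₐ[K] F) (x : F) :
    prd (MonoidAlgebra.single g 1 : MonoidAlgebra (ZMod 2) (F ≃ₐ[K] F)) x = g x := by
  unfold prd
  have : (MonoidAlgebra.single g 1 : MonoidAlgebra (ZMod 2) (F ≃ₐ[K] F)).coeff.support = {g} :=
    Finsupp.support_single (a := g) (b := (1 : ZMod 2)) one_ne_zero
  rw [this, Finset.prod_singleton]

lemma prd_one (x : F) : prd (1 : MonoidAlgebra (ZMod 2) (F ≃ₐ[K] F)) x = x := by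
  rw [MonoidAlgebra.one_def, prd_single]
  rfl

lemma support_add_eq [DecidableEq (F ≃ₐ[K] F)] (z w : MonoidAlgebra (ZMod 2) (F ≃ₐ[K] F)) :
    (z + w).coeff.support = symmDiff z.coeff.support w.coeff.support := by
  ext g
  have h : (z + w).coeff g = z.coeff g + w.coeff g := rfl
  rw [Finsupp.mem_support_iff, Finset.mem_symmDiff, Finsupp.mem_support_iff,
    Finsupp.mem_support_iff, h]
  generalize z.coeff g = a
  generalize w.coeff g = b
  revert a b
  decide

lemma prd_add (z w : MonoidAlgebra (ZMod 2) (F ≃ₐ[K] F)) (x : F) :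
    IsSquare (prd (z + w) x * (prd z x * prd w x)) := by
  classical
  unfold prd
  rw [support_add_eq]
  set A := z.coeff.support
  set B := w.coeff.support
  refine ⟨∏ g ∈ A ∪ B, g x, ?_⟩
  have h1 : (∏ g ∈ A, g x) * ∏ g ∈ B, g x = (∏ g ∈ A ∪ B, g x) * ∏ g ∈ A ∩ B, g x :=
    Finset.prod_union_inter.symm
  have h2 : (∏ g ∈ symmDiff A B, g x) * ∏ g ∈ A ∩ B, g x = ∏ g ∈ A ∪ B, g x := by
    rw [← Finset.prod_union]
    · congr 1
      ext g
      simp only [Finset.mem_union, Finset.mem_symmDiff, Finset.mem_inter]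
      tauto
    · rw [Finset.disjoint_left]
      intro g hg
      rw [Finset.mem_symmDiff] at hg
      rw [Finset.mem_inter]
      tauto
  rw [h1]
  calc (∏ g ∈ symmDiff A B, g x) * ((∏ g ∈ A ∪ B, g x) * ∏ g ∈ A ∩ B, g x)
      = ((∏ g ∈ symmDiff A B, g x) * ∏ g ∈ A ∩ B, g x) * ∏ g ∈ A ∪ B, g x := by ring
    _ = _ := by rw [h2]

lemma single_mul_support [DecidableEq (F ≃ₐ[K] F)] (g : F ≃ₐ[K] F)
    (z : MonoidAlgebra (ZMod 2) (F ≃ₐ[K] F)) :
    (MonoidAlgebra.single g 1 * z).coeff.support = z.coeff.support.image (g * ·) := by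
  ext h
  rw [Finsupp.mem_support_iff, Finset.mem_image]
  have h1 : (MonoidAlgebra.single g 1 * z).coeff h = z.coeff (g⁻¹ * h) := by
    rw [MonoidAlgebra.coeff_single_mul_apply, one_mul]
  rw [h1]
  constructor
  · intro h2
    exact ⟨g⁻¹ * h, Finsupp.mem_support_iff.2 h2, by group⟩
  · rintro ⟨k, hk, rfl⟩
    rw [inv_mul_cancel_left]
    exact Finsupp.mem_support_iff.1 hk

lemma prd_single_mul (g : F ≃ₐ[K] F) (z : MonoidAlgebra (ZMod 2) (F ≃ₐ[K] F)) (x : F) :
    prd (MonoidAlgebra.single g 1 * z) x = g (prd z x) := by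
  classical
  unfold prd
  rw [single_mul_support, Finset.prod_image fun a _ b _ h => mul_left_cancel h, map_prod]
  rfl

lemma prd_mul (z w : MonoidAlgebra (ZMod 2) (F ≃ₐ[K] F)) {x : F} (hx : x ≠ 0) :
    IsSquare (prd (z * w) x * prd z (prd w x)) := by
  induction z using MonoidAlgebra.induction_on with
  | of g =>
    have h : MonoidAlgebra.of (ZMod 2) (F ≃ₐ[K] F) g = MonoidAlgebra.single g 1 := rfl
    rw [h, prd_single_mul, prd_single]
    exact ⟨_, rfl⟩
  | add a b ha hb =>
    rw [add_mul]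
    have h1 := prd_add (a * w) (b * w) x
    have h2 := prd_add a b (prd w x)
    have n1 := prd_ne_zero (z := a * w) hx
    have n2 := prd_ne_zero (z := b * w) hx
    have n3 := prd_ne_zero (z := a) (prd_ne_zero (z := w) hx)
    have n4 := prd_ne_zero (z := b) (prd_ne_zero (z := w) hx)
    apply isSq_trans (mul_ne_zero n1 n2) h1
    rw [mul_comm (prd (a + b) (prd w x))] at h2
    apply isSq_trans (mul_ne_zero n3 n4) _ h2
    have : prd (a * w) x * prd (b * w) x * (prd a (prd w x) * prd b (prd w x)) =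
        (prd (a * w) x * prd a (prd w x)) * (prd (b * w) x * prd b (prd w x)) := by ring
    rw [this]
    exact ha.mul hb
  | smul r a ha =>
    have hr : r = 0 ∨ r = 1 := by revert r; decide
    rcases hr with rfl | rfl
    · rw [zero_smul, zero_mul, prd_zero, prd_zero]; exact ⟨1, by ring⟩
    · rw [one_smul]; exact ha

end prd

end Pool.Agent.STc
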