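import Pool.Agent.Lib.MP_1ef7cf_nt_c.DCyc
import Pool.Agent.Lib.MP_1ef7cf_nt.Mg.G001
import Pool.Agent.Lib.MP_1ef7cf_nt_c.Prd

/-!
# From the vanishing of the class of `κ` to a square
-/

set_option linter.unusedSectionVars false

open NumberField IsDedekindDomain nonZeroDivisors IntermediateField

namespace Pool.Agent.STc

open Pool.Agent.ST Pool.Agent.STb

namespace EndSq

section sq

variable {K : Type*} [Field K] [Algebra K ℝ] (L : IntermediateField K ℝ)

/-- equality up to squares of nonzero elements of `L` -/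
def Eqv (a b : ℝ) : Prop := ∃ s ∈ L, s ≠ 0 ∧ a = b * s ^ 2

variable {L}

lemma Eqv.refl (a : ℝ) : Eqv L a a := ⟨1, one_mem L, one_ne_zero, by rw [one_pow, mul_one]⟩

lemma Eqv.mul {a b c d : ℝ} (h1 : Eqv L a b) (h2 : Eqv L c d) : Eqv L (a * c) (b * d) := by
  obtain ⟨s, hs, hs0, rfl⟩ := h1
  obtain ⟨t, ht, ht0, rfl⟩ := h2
  exact ⟨s * t, mul_mem hs ht, mul_ne_zero hs0 ht0, by ring⟩

lemma Eqv.prod {ι : Type*} (S : Finset ι) {f g : ι → ℝ} (h : ∀ i ∈ S, Eqv L (f i) (g i)) :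
    Eqv L (∏ i ∈ S, f i) (∏ i ∈ S, g i) := by
  classical
  induction S using Finset.induction_on with
  | empty => rw [Finset.prod_empty, Finset.prod_empty]; exact Eqv.refl 1
  | insert a S ha ih =>
    rw [Finset.prod_insert ha, Finset.prod_insert ha]
    exact (h a (Finset.mem_insert_self a S)).mul
      (ih fun i hi => h i (Finset.mem_insert_of_mem hi))

lemma Eqv.act {a b : ℝ} (σ : L ≃ₐ[K] L) (hb : b ∈ L) (h : Eqv L a b) :
    Eqv L (ST.act σ a) (ST.act σ b) := by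
  obtain ⟨s, hs, hs0, rfl⟩ := h
  exact ⟨ST.act σ s, act_mem σ hs, act_ne_zero σ hs hs0, by
    rw [act_mul σ hb (pow_mem hs 2), act_pow σ hs]⟩

end sq

section prd

variable {K F : Type*} [Field K] [Field F] [Algebra K F]

lemma prd_sum {ι : Type*} (S : Finset ι) (f : ι → F ≃ₐ[K] F) {y : F} (hy : y ≠ 0) :
    IsSquare (prd (∑ i ∈ S, MonoidAlgebra.single (f i) (1 : ZMod 2)) y * ∏ i ∈ S, f i y) := by
  classical
  induction S using Finset.induction_on with
  | empty =>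
    rw [Finset.sum_empty, Finset.prod_empty, prd_zero, mul_one]
    exact IsSquare.one
  | insert a S ha ih =>
    rw [Finset.sum_insert ha, Finset.prod_insert ha]
    have h1 := prd_add (MonoidAlgebra.single (f a) (1 : ZMod 2))
      (∑ i ∈ S, MonoidAlgebra.single (f i) (1 : ZMod 2)) y
    rw [prd_single] at h1
    set P := prd (∑ i ∈ S, MonoidAlgebra.single (f i) (1 : ZMod 2)) y with hP
    have hP0 : P ≠ 0 := prd_ne_zero hy
    refine isSq_trans (mul_ne_zero (by simpa using hy) hP0) h1 ?_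
    have h2 : f a y * P * (f a y * ∏ i ∈ S, f i y) = f a y * f a y * (P * ∏ i ∈ S, f i y) := by
      ring
    rw [h2]
    exact (IsSquare.mul_self _).mul ih

end prd

section ker

variable {K : Type*} [Field K] [NumberField K] [Algebra K ℝ] {H : IntermediateField K ℝ}

/-- the automorphisms of `H (cc ν)` over `H` form a 2-group -/
lemma pow_eq_one (ν : ℕ) {γ : twK H ν ≃ₐ[K] twK H ν} (hγ : ∀ x ∈ H, act γ x = x) :
    γ ^ (2 ^ ν) = 1 := by
  have h1 : ∀ i ≤ ν, act (γ ^ (2 ^ i)) (cc i) = cc i := by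
    intro i
    induction i with
    | zero =>
      intro _
      rw [cc_zero]
      have h0 := act_algebraMap (γ ^ (2 ^ 0)) (0 : K)
      rwa [map_zero] at h0
    | succ i ih =>
      intro hi
      have h2 := ih (by omega)
      have hM : cc (i + 1) ∈ twK H ν := cc_mem_of_le (cc_mem_twK H ν) hi
      have h3 := act_cc_sq (γ ^ (2 ^ i)) hM h2
      have h4 : γ ^ (2 ^ (i + 1)) = γ ^ (2 ^ i) * γ ^ (2 ^ i) := by
        rw [← pow_add]
        congr 1
        ring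
      rw [h4, act_comp _ _ hM]
      rcases h3 with h3 | h3
      · rw [h3, h3]
      · rw [h3, act_neg _ hM, h3, neg_neg]
  have h5 : ∀ x ∈ H, act (γ ^ (2 ^ ν)) x = x := fun x hx =>
    act_pow_fix (le_twK H ν hx) (hγ x hx) _
  apply eq_of_eq_on_sup (L₁ := H) (L₂ := K⟮cc ν⟯) (show twK H ν ≤ H ⊔ K⟮cc ν⟯ from le_rfl)
    (le_twK H ν) (le_sup_right : K⟮cc ν⟯ ≤ twK H ν)
  · intro x hx
    rw [h5 x hx, act_one_left (le_twK H ν hx)]
  · have hle : K⟮cc ν⟯ ≤ eqField (γ ^ (2 ^ ν)) 1 := by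
      rw [adjoin_simple_le_iff]
      exact ⟨cc_mem_twK H ν, by rw [h1 ν le_rfl, act_one_left (cc_mem_twK H ν)]⟩
    intro x hx
    exact (hle hx).2

end ker

end EndSq

open EndSq

open Classical in
/-- **Y.** From the vanishing of the class of `κ` in `F` to a square in `H(cc ν)`. -/
theorem end_sq {K : Type*} [Field K] [NumberField K] [Algebra K ℝ] (H : IntermediateField K ℝ)
    [FiniteDimensional K H] [IsAbelianGalois K H] (ν : ℕ) [FiniteDimensional K (twK H ν)]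
    [IsAbelianGalois K (twK H ν)] {F : IntermediateField K ℝ} (hF : F ≤ twK H ν) [Normal K F]
    [FiniteDimensional K F]
    (hker : ∀ σ : twK H ν ≃ₐ[K] twK H ν, (∀ x ∈ F, act σ x = x) → σ * σ = 1) {Y : ℝ}
    (hY : Y ∈ twK H ν) (hpos : ∀ σ : twK H ν ≃ₐ[K] twK H ν, 0 < act σ Y) {x : F}
    (hx : (x : ℝ) = 2 + Y + Y⁻¹)
    (hsq : IsSquare (prd (∑ γ ∈ fib (le_twK H ν) (1 : H ≃ₐ[K] H),
      MonoidAlgebra.single (res hF γ) (1 : ZMod 2)) (x * ∏ g ∈ odds (F ≃ₐ[K] F), g x))) :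
    ∃ s ∈ twK H ν, fibProd (le_twK H ν) Y 1 *
      ∏ g ∈ odds (H ≃ₐ[K] H), act g (fibProd (le_twK H ν) Y 1) = s ^ 2 := by
  set L := twK H ν with hL
  have hHL : H ≤ L := le_twK H ν
  have hcomm : ∀ a b : L ≃ₐ[K] L, a * b = b * a := by
    intro a b
    apply act_ext
    intro y hy
    rw [act_comp _ _ hy, act_comp _ _ hy, act_act_comm _ _ hy]
  have hY0 : 0 < Y := by
    have := hpos 1
    rwa [act_one_left hY] at this
  have hx0 : (x : ℝ) ≠ 0 := by
    rw [hx]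
    positivity
  have hx0' : x ≠ 0 := by
    intro h
    apply hx0
    rw [h]
    rfl
  have hxL : (x : ℝ) ∈ L := hF x.2
  -- the element `X`
  set X : F := x * ∏ g ∈ odds (F ≃ₐ[K] F), g x with hX
  have hX0 : X ≠ 0 := mul_ne_zero hx0' (Finset.prod_ne_zero_iff.2 fun g _ => by simpa using hx0')
  have h1 := prd_sum (fib hHL (1 : H ≃ₐ[K] H)) (fun γ => res hF γ) hX0
  have h2 : IsSquare (∏ γ ∈ fib hHL (1 : H ≃ₐ[K] H), res hF γ X) :=
    (isSq_congr (prd_ne_zero hX0)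
      (Finset.prod_ne_zero_iff.2 fun γ _ => by simpa using hX0) h1).1 hsq
  obtain ⟨t, ht⟩ := h2
  -- in the reals
  have hXr : (X : ℝ) = x * ∏ g ∈ odds (L ≃ₐ[K] L), act g (x : ℝ) := by
    have e1 : (X : ℝ) = x * ∏ g ∈ odds (F ≃ₐ[K] F), act g (x : ℝ) := by
      have e2 : ((∏ g ∈ odds (F ≃ₐ[K] F), g x : F) : ℝ) =
          ∏ g ∈ odds (F ≃ₐ[K] F), ((g x : F) : ℝ) := map_prod (algebraMap F ℝ) _ _
      rw [hX, MulMemClass.coe_mul, e2]
      congr 1
      exact Finset.prod_congr rfl fun g _ => (act_coe g x).symm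
    rw [e1]
    congr 1
    rw [← prod_odds_map hcomm (res hF) (res_surjective hF) (fun g hg => ⟨1, by
      rw [pow_one, pow_two]
      exact hker g ((res_eq_one_iff hF g).1 hg)⟩) (fun g => act g (x : ℝ))]
    exact Finset.prod_congr rfl fun g _ => act_res hF g x.2
  have hXL : (X : ℝ) ∈ L := hF X.2
  have htr : ∏ γ ∈ fib hHL (1 : H ≃ₐ[K] H), act γ (X : ℝ) = (t : ℝ) ^ 2 := by
    have e2 : ((∏ γ ∈ fib hHL (1 : H ≃ₐ[K] H), res hF γ X : F) : ℝ) =
        ∏ γ ∈ fib hHL (1 : H ≃ₐ[K] H), ((res hF γ X : F) : ℝ) := map_prod (algebraMap F ℝ) _ _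
    have e1 := congrArg (fun z : F => (z : ℝ)) ht
    rw [e2, MulMemClass.coe_mul, ← pow_two] at e1
    rw [← e1]
    refine Finset.prod_congr rfl fun γ _ => ?_
    rw [← act_coe, act_res hF γ X.2]
  -- `x` is `Y` up to squares
  have hxY : Eqv L (x : ℝ) Y := by
    refine ⟨(1 + Y) / Y, div_mem (add_mem (one_mem L) hY) hY, by positivity, ?_⟩
    rw [hx]
    field_simp
    ring
  set W : ℝ := Y * ∏ g ∈ odds (L ≃ₐ[K] L), act g Y with hW
  have hWL : W ∈ L := mul_mem hY (prod_mem fun g _ => act_mem g hY)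
  have hXW : Eqv L (X : ℝ) W := by
    rw [hXr, hW]
    exact hxY.mul (Eqv.prod _ fun g _ => hxY.act g hY)
  have hXW' : Eqv L (∏ γ ∈ fib hHL (1 : H ≃ₐ[K] H), act γ (X : ℝ))
      (∏ γ ∈ fib hHL (1 : H ≃ₐ[K] H), act γ W) := Eqv.prod _ fun γ _ => hXW.act γ hWL
  set w : ℝ := fibProd hHL Y 1 with hw
  have hwL : w ∈ L := fibProd_mem hHL hY 1
  have hwH : w ∈ H := by
    apply mem_of_fixed hHL hwL
    intro γ hγ
    rw [hw, act_fibProd hHL hY, (res_eq_one_iff hHL γ).2 hγ, mul_one]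
  have h3 : ∏ γ ∈ fib hHL (1 : H ≃ₐ[K] H), act γ W = w * ∏ g ∈ odds (L ≃ₐ[K] L), act g w := by
    have e1 : ∀ γ ∈ fib hHL (1 : H ≃ₐ[K] H), act γ W =
        act γ Y * ∏ g ∈ odds (L ≃ₐ[K] L), act g (act γ Y) := by
      intro γ _
      rw [hW, act_mul γ hY (prod_mem fun g _ => act_mem g hY),
        act_prod γ _ _ (fun g _ => act_mem g hY)]
      congr 1
      exact Finset.prod_congr rfl fun g _ => act_act_comm _ _ hY
    rw [Finset.prod_congr rfl e1, Finset.prod_mul_distrib, Finset.prod_comm]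
    congr 1
    refine Finset.prod_congr rfl fun g _ => ?_
    rw [hw]
    unfold fibProd
    rw [act_prod g _ _ (fun γ _ => act_mem γ hY)]
  have h4 : ∏ g ∈ odds (L ≃ₐ[K] L), act g w = ∏ g ∈ odds (H ≃ₐ[K] H), act g w := by
    rw [← prod_odds_map hcomm (res hHL) (res_surjective hHL) (fun g hg => ⟨ν,
      EndSq.pow_eq_one ν ((res_eq_one_iff hHL g).1 hg)⟩) (fun g => act g w)]
    exact Finset.prod_congr rfl fun g _ => (act_res hHL g hwH).symm
  rw [htr, h3, h4] at hXW'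
  obtain ⟨s, hs, hs0, hst⟩ := hXW'
  refine ⟨(t : ℝ) / s, div_mem (hF t.2) hs, ?_⟩
  rw [div_pow, hst]
  field_simp

end Pool.Agent.STc
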