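import Pool.Agent.Lib.MP_1ef7cf_nt.Mg.G001
import Pool.Agent.Lib.MP_1ef7cf_nt_c.Prd

/-!
# The idempotent `e_*`
-/

set_option linter.unusedSectionVars false

namespace Pool.Agent.STc

section sums

variable {K F : Type*} [Field K] [Field F] [Algebra K F]

lemma isSq_mul {a b : F} (ha : IsSquare a) (hb : IsSquare b) : IsSquare (a * b) := ha.mul hb

/-- the class of a sum -/
lemma prd_sum {ι : Type*} (S : Finset ι) (f : ι → (F ≃ₐ[K] F)) {x : F} (hx : x ≠ 0) :
    IsSquare (prd (∑ i ∈ S, MonoidAlgebra.single (f i) (1 : ZMod 2)) x * ∏ i ∈ S, f i x) := by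
  classical
  induction S using Finset.induction_on with
  | empty =>
    rw [Finset.sum_empty, Finset.prod_empty, prd_zero, mul_one]
    exact ⟨1, by ring⟩
  | insert i S hi ih =>
    rw [Finset.sum_insert hi, Finset.prod_insert hi]
    have h1 := prd_add (MonoidAlgebra.single (f i) (1 : ZMod 2))
      (∑ i ∈ S, MonoidAlgebra.single (f i) (1 : ZMod 2)) x
    rw [prd_single] at h1
    refine isSq_trans ?_ h1 ?_
    · exact mul_ne_zero (by rw [Ne, map_eq_zero]; exact hx) (prd_ne_zero hx)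
    · have h2 : ∀ a b c : F, a * b * (a * c) = a ^ 2 * (b * c) := fun a b c => by ring
      rw [h2]
      exact (IsSquare.sq (f i x)).mul ih

variable [FiniteDimensional K F]

/-- `x N_Δ(x)` -/
noncomputable def xx (x : F) : F := x * ∏ g ∈ odds (F ≃ₐ[K] F), g x

/-- the idempotent -/
noncomputable def estar : MonoidAlgebra (ZMod 2) (F ≃ₐ[K] F) :=
  1 + ∑ g ∈ odds (F ≃ₐ[K] F), MonoidAlgebra.single g 1

lemma xx_ne_zero {x : F} (hx : x ≠ 0) : xx (K := K) x ≠ 0 := by
  unfold xx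
  refine mul_ne_zero hx (Finset.prod_ne_zero_iff.2 fun g _ => ?_)
  rw [Ne, map_eq_zero]; exact hx

lemma prd_estar {x : F} (hx : x ≠ 0) :
    IsSquare (prd (estar (K := K) (F := F)) x * xx (K := K) x) := by
  unfold estar xx
  have h1 := prd_add (1 : MonoidAlgebra (ZMod 2) (F ≃ₐ[K] F))
    (∑ g ∈ odds (F ≃ₐ[K] F), MonoidAlgebra.single g 1) x
  rw [prd_one] at h1
  refine isSq_trans (mul_ne_zero hx (prd_ne_zero hx)) h1 ?_
  have h2 : ∀ a b c : F, a * b * (a * c) = a ^ 2 * (b * c) := fun a b c => by ring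
  rw [h2]
  exact (IsSquare.sq x).mul (prd_sum (odds (F ≃ₐ[K] F)) id hx)

/-- the class of `θ e_*` -/
lemma prd_mul_estar (w : MonoidAlgebra (ZMod 2) (F ≃ₐ[K] F)) {x : F} (hx : x ≠ 0) :
    IsSquare (prd (w * estar) x * prd w (xx (K := K) x)) := by
  refine isSq_trans (b := prd w (prd estar x)) (prd_ne_zero (prd_ne_zero hx)) (prd_mul w estar hx) ?_
  rw [← prd_mul_right]
  exact IsSquare.prd (prd_estar hx)

/-- conjugation commutes with `prd` -/
lemma map_prd (hab : ∀ σ τ : F ≃ₐ[K] F, σ * τ = τ * σ) (g : F ≃ₐ[K] F)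
    (w : MonoidAlgebra (ZMod 2) (F ≃ₐ[K] F)) (x : F) : g (prd w x) = prd w (g x) := by
  unfold prd
  rw [map_prod]
  refine Finset.prod_congr rfl fun h _ => ?_
  have := hab g h
  exact DFunLike.congr_fun this x

/-- the norm of `x N_Δ(x)` is a square -/
lemma prod_odds_xx (hab : ∀ σ τ : F ≃ₐ[K] F, σ * τ = τ * σ) (x : F) :
    IsSquare (∏ g ∈ odds (F ≃ₐ[K] F), g (xx (K := K) x)) := by
  unfold xx
  set N := ∏ g ∈ odds (F ≃ₐ[K] F), g x with hN
  have h1 : ∀ g ∈ odds (F ≃ₐ[K] F), g N = N := by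
    intro g hg
    rw [hN, map_prod]
    exact image_mul_odds hab hg (fun h : F ≃ₐ[K] F => h x)
  have h2 : ∏ g ∈ odds (F ≃ₐ[K] F), g (x * N) = N * N ^ (odds (F ≃ₐ[K] F)).card := by
    rw [← Finset.prod_const, hN, ← Finset.prod_mul_distrib, ← hN]
    refine Finset.prod_congr rfl fun g hg => ?_
    rw [map_mul, h1 g hg]
  rw [h2, ← pow_succ']
  obtain ⟨c, hc⟩ := odd_card_odds hab
  refine ⟨N ^ (c + 1), ?_⟩
  rw [hc, ← pow_add]
  congr 1; ring

lemma prod_odds_prd (hab : ∀ σ τ : F ≃ₐ[K] F, σ * τ = τ * σ)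
    (w : MonoidAlgebra (ZMod 2) (F ≃ₐ[K] F)) (x : F) :
    IsSquare (∏ g ∈ odds (F ≃ₐ[K] F), g (prd w (xx (K := K) x))) := by
  have h1 : ∏ g ∈ odds (F ≃ₐ[K] F), g (prd w (xx (K := K) x)) =
      prd w (∏ g ∈ odds (F ≃ₐ[K] F), g (xx (K := K) x)) := by
    have h2 : ∀ S : Finset (F ≃ₐ[K] F), prd w (∏ g ∈ S, g (xx (K := K) x)) =
        ∏ g ∈ S, prd w (g (xx (K := K) x)) := by
      classical
      intro S
      induction S using Finset.induction_on with
      | empty =>
        rw [Finset.prod_empty, Finset.prod_empty]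
        unfold prd
        exact Finset.prod_eq_one fun g _ => map_one g
      | insert g S hg ih => rw [Finset.prod_insert hg, Finset.prod_insert hg, prd_mul_right, ih]
    rw [h2]
    exact Finset.prod_congr rfl fun g _ => map_prd hab g w _
  rw [h1]
  exact IsSquare.prd (prod_odds_xx hab x)

end sums

end Pool.Agent.STc
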