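import Pool.Agent.Lib.MP_1ef7cf_nt_c.Main0

/-!
# Sums over ideal classes
-/

open NumberField NumberField.mixedEmbedding NumberField.InfinitePlace NumberField.Units Module
  nonZeroDivisors MeasureTheory IsDedekindDomain

namespace Pool.Agent.STc

open Pool.Agent.ST

section main1

variable {M : Type*} [Field M] [NumberField M]

/-- The ideal class. -/
noncomputable def mkC (I : NzI M) : ClassGroup (𝓞 M) :=
  ClassGroup.mk0 ⟨I.1, mem_nonZeroDivisors_of_ne_zero I.2⟩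

/-- Product of nonzero ideals. -/
def nzMul (I J : NzI M) : NzI M := ⟨I.1 * J.1, mul_ne_zero I.2 J.2⟩

lemma mkC_mul (I J : NzI M) : mkC (nzMul I J) = mkC I * mkC J := by
  unfold mkC
  rw [← map_mul]
  rfl

lemma mkC_eq_one_iff (I : NzI M) : mkC I = 1 ↔ ∃ x, I.1 = Ideal.span {x} := by
  unfold mkC
  rw [ClassGroup.mk0_eq_one_iff]
  constructor
  · rintro ⟨x, hx⟩
    exact ⟨x, hx⟩
  · rintro ⟨x, hx⟩
    exact ⟨x, hx⟩

lemma mkC_surjective (C : ClassGroup (𝓞 M)) : ∃ I : NzI M, mkC I = C := by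
  obtain ⟨I, hI⟩ := ClassGroup.mk0_surjective C
  exact ⟨⟨I.1, nonZeroDivisors.ne_zero I.2⟩, hI⟩

/-- Ideals in a class. -/
abbrev CId (C : ClassGroup (𝓞 M)) := {I : NzI M // mkC I = C}

/-- Multiplication by an ideal. -/
noncomputable def mulEquiv' (J : NzI M) : CId (mkC J)⁻¹ ≃ PId J.1 :=
  Equiv.ofBijective (fun I => ⟨nzMul I.1 J, (mkC_eq_one_iff _).1 (by
      rw [mkC_mul, I.2, inv_mul_cancel]), Ideal.mul_le_right⟩) (by
    constructor
    · intro I I' hII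
      have h1 : I.1.1 * J.1 = I'.1.1 * J.1 := congrArg (fun K => K.1.1) hII
      have h2 : I.1.1 = I'.1.1 := mul_right_cancel₀ J.2 h1
      exact Subtype.ext (Subtype.ext h2)
    · intro K
      obtain ⟨I, hI⟩ := Ideal.dvd_iff_le.2 K.2.2
      have hI0 : I ≠ ⊥ := by
        rintro rfl
        apply K.1.2
        rw [hI, Ideal.mul_bot]
      have hK : nzMul ⟨I, hI0⟩ J = K.1 := Subtype.ext (by
        show I * J.1 = K.1.1
        rw [hI, mul_comm])
      have h3 : mkC ⟨I, hI0⟩ = (mkC J)⁻¹ := by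
        rw [eq_inv_iff_mul_eq_one, ← mkC_mul, hK, mkC_eq_one_iff]
        exact K.2.1
      exact ⟨⟨⟨I, hI0⟩, h3⟩, Subtype.ext hK⟩)

lemma mulEquiv'_val (J : NzI M) (I : CId (mkC J)⁻¹) : (mulEquiv' J I).1.1 = I.1.1 * J.1 := rfl

/-- The summand of the Dirichlet series. -/
noncomputable def lterm (χ : Ideal (𝓞 M) →*₀ ℝ) (s : ℝ) (I : NzI M) : ℝ :=
  χ I.1 * (Ideal.absNorm I.1 : ℝ) ^ (-s)

lemma lterm_mul (χ : Ideal (𝓞 M) →*₀ ℝ) (s : ℝ) (I J : NzI M) :
    lterm χ s (nzMul I J) = lterm χ s I * lterm χ s J := by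
  unfold lterm nzMul
  rw [map_mul, map_mul, Nat.cast_mul, Real.mul_rpow (Nat.cast_nonneg _) (Nat.cast_nonneg _)]
  ring

/-- The partial sum over a class. -/
noncomputable def csum (χ : Ideal (𝓞 M) →*₀ ℝ) (C : ClassGroup (𝓞 M)) (s : ℝ) : ℝ :=
  ∑' I : CId C, lterm χ s I.1

variable {n : Ideal (𝓞 M)} {χ : Ideal (𝓞 M) →*₀ ℝ}

lemma csum_eq (h : IsRayChar n χ) (J : NzI M) (hJ : IsCoprime J.1 n) (s : ℝ) :
    csum χ (mkC J)⁻¹ s = χ J.1 * (Ideal.absNorm J.1 : ℝ) ^ s * psum χ J.1 s := by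
  have h1 : psum χ J.1 s = csum χ (mkC J)⁻¹ s * lterm χ s J := by
    unfold psum csum
    rw [← tsum_mul_right, ← (mulEquiv' J).tsum_eq]
    refine tsum_congr fun I => ?_
    rw [← lterm_mul]
    rfl
  have hN : (0 : ℝ) < Ideal.absNorm J.1 := by
    have := absNorm_pos M J
    exact_mod_cast this
  have h2 : (Ideal.absNorm J.1 : ℝ) ^ s * (Ideal.absNorm J.1 : ℝ) ^ (-s) = 1 := by
    rw [← Real.rpow_add hN, add_neg_cancel, Real.rpow_zero]
  have h3 : χ J.1 * χ J.1 = 1 := by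
    rcases h.sq J.1 J.2 hJ with h4 | h4 <;> rw [h4] <;> norm_num
  rw [h1]
  unfold lterm
  calc csum χ (mkC J)⁻¹ s = csum χ (mkC J)⁻¹ s * (χ J.1 * χ J.1) *
        ((Ideal.absNorm J.1 : ℝ) ^ s * (Ideal.absNorm J.1 : ℝ) ^ (-s)) := by rw [h2, h3]; ring
    _ = _ := by ring

lemma abs_lterm_le (h : IsRayChar n χ) (s : ℝ) (I : NzI M) :
    |lterm χ s I| ≤ (Ideal.absNorm I.1 : ℝ) ^ (-s) := by
  unfold lterm
  rw [abs_mul, abs_of_nonneg (by positivity : (0 : ℝ) ≤ (Ideal.absNorm I.1 : ℝ) ^ (-s))]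
  exact mul_le_of_le_one_left (by positivity) (abs_chi_le h _)

lemma summable_lterm (h : IsRayChar n χ) {s : ℝ} (hs : 1 < s) : Summable (lterm χ s) :=
  Summable.of_norm_bounded (summable_ideal M hs) fun I => abs_lterm_le h s I

variable (M) in
lemma zetaR_nonneg (s : ℝ) : 0 ≤ zetaR M s := tsum_nonneg fun I => by positivity

lemma abs_csum_le (h : IsRayChar n χ) (C : ClassGroup (𝓞 M)) {s : ℝ} (hs : 1 < s) :
    |csum χ C s| ≤ zetaR M s := by
  unfold csum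
  have h1 : Summable fun I : CId C => (Ideal.absNorm I.1.1 : ℝ) ^ (-s) :=
    (summable_ideal M hs).comp_injective (i := fun I : CId C => I.1) Subtype.val_injective
  have h2 : Summable fun I : CId C => ‖lterm χ s I.1‖ :=
    Summable.of_nonneg_of_le (fun _ => norm_nonneg _) (fun I => abs_lterm_le h s I.1) h1
  have h3 : |∑' I : CId C, lterm χ s I.1| ≤ ∑' I : CId C, ‖lterm χ s I.1‖ :=
    norm_tsum_le_tsum_norm h2
  have h4 : ∑' I : CId C, ‖lterm χ s I.1‖ ≤ ∑' I : CId C, (Ideal.absNorm I.1.1 : ℝ) ^ (-s) :=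
    h2.tsum_le_tsum (fun I => abs_lterm_le h s I.1) h1
  have h5 : ∑' I : CId C, (Ideal.absNorm I.1.1 : ℝ) ^ (-s) ≤ zetaR M s :=
    tsum_comp_le_tsum_of_inj (f := fun I : NzI M => (Ideal.absNorm I.1 : ℝ) ^ (-s))
      (i := fun I : CId C => I.1) (summable_ideal M hs) (fun I => by positivity)
      Subtype.val_injective
  exact h3.trans (h4.trans h5)

/-- The Dirichlet series of the character. -/
noncomputable def lsum (χ : Ideal (𝓞 M) →*₀ ℝ) (s : ℝ) : ℝ := ∑' I : NzI M, lterm χ s I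

lemma lsum_eq (h : IsRayChar n χ) {s : ℝ} (hs : 1 < s) :
    lsum χ s = ∑ C : ClassGroup (𝓞 M), csum χ C s := by
  unfold lsum csum
  have hsum := summable_lterm h hs
  rw [← (Equiv.sigmaFiberEquiv (mkC : NzI M → ClassGroup (𝓞 M))).tsum_eq]
  have hsum' : Summable fun c => lterm χ s
      (Equiv.sigmaFiberEquiv (mkC : NzI M → ClassGroup (𝓞 M)) c) :=
    (Equiv.sigmaFiberEquiv (mkC : NzI M → ClassGroup (𝓞 M))).summable_iff.2 hsum
  rw [Summable.tsum_sigma hsum', tsum_fintype]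
  rfl

/-- Representatives prime to `n`. -/
lemma exists_coprime (hn : n ≠ ⊥) (C : ClassGroup (𝓞 M)) :
    ∃ J : NzI M, IsCoprime J.1 n ∧ mkC J = C := by
  obtain ⟨I, hI⟩ := mkC_surjective C⁻¹
  -- an element of `I` generating `I` modulo `n * I`
  have hnI : n * I.1 ≠ 0 := mul_ne_zero hn I.2
  obtain ⟨a, ha⟩ := IsDedekindDomain.exists_sup_span_eq (I := n * I.1) (J := I.1)
    Ideal.mul_le_right hnI
  -- a nonzero such element
  obtain ⟨b, hb0, hb⟩ : ∃ b : 𝓞 M, b ≠ 0 ∧ n * I.1 ⊔ Ideal.span {b} = I.1 := by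
    by_cases ha0 : a = 0
    · obtain ⟨c, hc, hc0⟩ := Submodule.exists_mem_ne_zero_of_ne_bot hnI
      refine ⟨c, hc0, ?_⟩
      have h1 : n * I.1 = I.1 := by
        rw [ha0, Ideal.span_singleton_eq_bot.2 rfl, sup_bot_eq] at ha
        exact ha
      apply le_antisymm
      · apply sup_le h1.le
        rw [Ideal.span_singleton_le_iff_mem, ← h1]
        exact hc
      · rw [h1]
        exact le_sup_left
    · exact ⟨a, ha0, ha⟩
  have hbI : Ideal.span {b} ≤ I.1 := by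
    conv_rhs => rw [← hb]
    exact le_sup_right
  obtain ⟨J, hJ⟩ := Ideal.dvd_iff_le.2 hbI
  have hJ0 : J ≠ ⊥ := by
    rintro rfl
    rw [Ideal.mul_bot, Ideal.span_singleton_eq_bot] at hJ
    exact hb0 hJ
  have hcop : IsCoprime J n := by
    rw [Ideal.isCoprime_iff_sup_eq]
    have h2 : I.1 * (J ⊔ n) = I.1 * ⊤ := by
      rw [Ideal.mul_sup, Ideal.mul_top, ← hJ, mul_comm I.1 n, sup_comm]
      exact hb
    exact mul_left_cancel₀ I.2 h2
  refine ⟨⟨J, hJ0⟩, hcop, ?_⟩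
  have h3 : mkC (nzMul I ⟨J, hJ0⟩) = 1 := (mkC_eq_one_iff _).2 ⟨b, hJ.symm⟩
  rw [mkC_mul, hI] at h3
  exact (inv_mul_eq_one.1 h3).symm

end main1

end Pool.Agent.STc
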