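import Pool.Agent.Lib.MP_1ef7cf_nt.PrimeSum2
import Pool.Agent.Lib.MP_1ef7cf_nt_c.Main1

/-!
# The Euler product
-/

open NumberField nonZeroDivisors IsDedekindDomain Filter Topology

namespace Pool.Agent.STc

open Pool.Agent.ST

section euler

variable {M : Type*} [Field M] [NumberField M] {n : Ideal (𝓞 M)} {χ : Ideal (𝓞 M) →*₀ ℝ}

/-- No prime of `T` divides `I`. -/
def Free (T : Finset (PrI M)) (I : NzI M) : Prop := ∀ P ∈ T, ¬ P.asIdeal ∣ I.1

open Classical in
/-- The summand restricted to ideals prime to `T`. -/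
noncomputable def rterm (χ : Ideal (𝓞 M) →*₀ ℝ) (T : Finset (PrI M)) (s : ℝ) (I : NzI M) : ℝ :=
  if Free T I then lterm χ s I else 0

lemma summable_rterm (h : IsRayChar n χ) (T : Finset (PrI M)) {s : ℝ} (hs : 1 < s) :
    Summable (rterm χ T s) := by
  refine Summable.of_norm_bounded (summable_ideal M hs) fun I => ?_
  unfold rterm
  split_ifs
  · exact abs_lterm_le h s I
  · rw [norm_zero]; positivity

lemma nzMul_injective (P : NzI M) : Function.Injective (nzMul P) := by
  intro I J hIJ
  have h1 : P.1 * I.1 = P.1 * J.1 := congrArg (fun K => K.1) hIJ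
  exact Subtype.ext (mul_left_cancel₀ P.2 h1)

lemma free_nzMul {T : Finset (PrI M)} {P : PrI M} (hP : P ∉ T) (I : NzI M) :
    Free T (nzMul (toNz P) I) ↔ Free T I := by
  constructor
  · intro h Q hQ hd
    exact h Q hQ (hd.mul_left _)
  · intro h Q hQ hd
    rcases (Prime.dvd_mul Q.prime).1 hd with h1 | h1
    · have h2 : Q.asIdeal = P.asIdeal := by
        have h3 : P.asIdeal ≤ Q.asIdeal := Ideal.le_of_dvd h1
        exact (P.isMaximal.eq_of_le Q.isPrime.ne_top h3).symm
      apply hP
      rwa [← HeightOneSpectrum.ext h2]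
    · exact h Q hQ h1

lemma rsum_insert (h : IsRayChar n χ) {T : Finset (PrI M)} {P : PrI M} (hP : P ∉ T) {s : ℝ}
    (hs : 1 < s) [DecidableEq (PrI M)] :
    ∑' I, rterm χ (insert P T) s I = (1 - χ P.asIdeal * px s P) * ∑' I, rterm χ T s I := by
  classical
  have h1 : ∑' I, rterm χ T s I - ∑' I, rterm χ (insert P T) s I =
      ∑' I, (rterm χ T s I - rterm χ (insert P T) s I) :=
    ((summable_rterm h T hs).tsum_sub (summable_rterm h (insert P T) hs)).symm
  have h2 : ∑' I, (rterm χ T s I - rterm χ (insert P T) s I) =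
      ∑' J, (rterm χ T s (nzMul (toNz P) J) - rterm χ (insert P T) s (nzMul (toNz P) J)) := by
    symm
    refine (nzMul_injective (toNz P)).tsum_eq (f := fun I => rterm χ T s I -
      rterm χ (insert P T) s I) ?_
    intro I hI
    rw [Function.mem_support] at hI
    by_contra hr
    apply hI
    have hnd : ¬ P.asIdeal ∣ I.1 := by
      rintro ⟨J, hJ⟩
      apply hr
      have hJ0 : J ≠ ⊥ := by
        rintro rfl
        apply I.2
        rw [hJ, Ideal.mul_bot]
      exact ⟨⟨J, hJ0⟩, Subtype.ext hJ.symm⟩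
    have hiff : Free (insert P T) I ↔ Free T I := by
      constructor
      · intro hf Q hQ
        exact hf Q (Finset.mem_insert_of_mem hQ)
      · intro hf Q hQ
        rcases Finset.mem_insert.1 hQ with rfl | hQ
        · exact hnd
        · exact hf Q hQ
    unfold rterm
    by_cases hf : Free T I
    · rw [if_pos hf, if_pos (hiff.2 hf), sub_self]
    · rw [if_neg hf, if_neg fun hh => hf (hiff.1 hh), sub_self]
  have h3 : ∀ J, rterm χ T s (nzMul (toNz P) J) - rterm χ (insert P T) s (nzMul (toNz P) J) =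
      χ P.asIdeal * px s P * rterm χ T s J := by
    intro J
    have h4 : ¬ Free (insert P T) (nzMul (toNz P) J) := by
      intro hf
      exact hf P (Finset.mem_insert_self P T) ⟨J.1, rfl⟩
    have h5 : lterm χ s (toNz P) = χ P.asIdeal * px s P := by
      unfold lterm
      rw [px_eq]
      rfl
    unfold rterm
    rw [if_neg h4, sub_zero]
    by_cases hf : Free T J
    · rw [if_pos ((free_nzMul hP J).2 hf), if_pos hf, lterm_mul, h5]
    · rw [if_neg (fun hh => hf ((free_nzMul hP J).1 hh)), if_neg hf, mul_zero]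
  rw [h2, tsum_congr h3, tsum_mul_left] at h1
  linarith

lemma rsum_eq (h : IsRayChar n χ) (T : Finset (PrI M)) {s : ℝ} (hs : 1 < s) :
    ∑' I, rterm χ T s I = (∏ P ∈ T, (1 - χ P.asIdeal * px s P)) * lsum χ s := by
  classical
  induction T using Finset.induction_on with
  | empty =>
    rw [Finset.prod_empty, one_mul, lsum]
    refine tsum_congr fun I => ?_
    unfold rterm
    rw [if_pos]
    intro P hP
    simp at hP
  | insert P T hP ih =>
    rw [rsum_insert h hP hs, ih, Finset.prod_insert hP, mul_assoc]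

lemma exists_rsum_ge (h : IsRayChar n χ) {s : ℝ} (hs : 1 < s) :
    ∃ T₀ : Finset (PrI M), ∀ T, T₀ ⊆ T → 1 / 2 ≤ ∑' I, rterm χ T s I := by
  classical
  have hsum := summable_ideal M hs
  have h1 := tendsto_tsum_compl_atTop_zero (fun I : NzI M => (Ideal.absNorm I.1 : ℝ) ^ (-s))
  have h2 : ∀ᶠ A : Finset (NzI M) in atTop,
      ∑' I : {I // I ∉ A}, (Ideal.absNorm I.1.1 : ℝ) ^ (-s) < 1 / 2 :=
    h1.eventually_lt_const (by norm_num)
  obtain ⟨A, hA⟩ := h2.exists
  obtain ⟨T₀, hT₀⟩ := exists_primes A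
  refine ⟨T₀, fun T hT => ?_⟩
  have htop : (⊤ : Ideal (𝓞 M)) ≠ ⊥ := top_ne_bot
  set e : NzI M → ℝ := fun I => if I = ⟨⊤, htop⟩ then 1 else 0 with he
  have hse : Summable e := by
    apply summable_of_ne_finset_zero (s := {⟨⊤, htop⟩})
    intro I hI
    simp only [he]
    rw [if_neg]
    simpa using hI
  have hte : ∑' I, e I = 1 := by
    rw [tsum_eq_single ⟨⊤, htop⟩]
    · simp [he]
    · intro I hI
      simp [he, hI]
  have hg : Summable fun I : NzI M => if I ∉ A then (Ideal.absNorm I.1 : ℝ) ^ (-s) else 0 := by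
    refine Summable.of_nonneg_of_le (fun I => ?_) (fun I => ?_) hsum
    · split_ifs <;> positivity
    · split_ifs
      · positivity
      · exact le_rfl
  have hgt : ∑' I : NzI M, (if I ∉ A then (Ideal.absNorm I.1 : ℝ) ^ (-s) else 0) < 1 / 2 := by
    have h3 := tsum_subtype {I : NzI M | I ∉ A} (fun I : NzI M => (Ideal.absNorm I.1 : ℝ) ^ (-s))
    have h4 : ∑' I : NzI M, (if I ∉ A then (Ideal.absNorm I.1 : ℝ) ^ (-s) else 0) =
        ∑' I : NzI M, Set.indicator {I : NzI M | I ∉ A}
          (fun I : NzI M => (Ideal.absNorm I.1 : ℝ) ^ (-s)) I := by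
      refine tsum_congr fun I => ?_
      rw [Set.indicator_apply]
      rfl
    rw [h4, ← h3]
    exact hA
  have hdiff : |∑' I, rterm χ T s I - 1| ≤
      ∑' I : NzI M, (if I ∉ A then (Ideal.absNorm I.1 : ℝ) ^ (-s) else 0) := by
    rw [← hte, ← (summable_rterm h T hs).tsum_sub hse]
    have hb : ∀ I, ‖rterm χ T s I - e I‖ ≤
        if I ∉ A then (Ideal.absNorm I.1 : ℝ) ^ (-s) else 0 := by
      intro I
      by_cases hI : I = ⟨⊤, htop⟩
      · have hf : Free T I := by
          intro P _ hd
          rw [hI] at hd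
          have : P.asIdeal ∣ (⊤ : Ideal (𝓞 M)) := hd
          exact P.isPrime.ne_top (top_le_iff.1 (Ideal.le_of_dvd this))
        have h5 : rterm χ T s I = 1 := by
          unfold rterm lterm
          rw [if_pos hf, hI]
          show χ (⊤ : Ideal (𝓞 M)) * (Ideal.absNorm (⊤ : Ideal (𝓞 M)) : ℝ) ^ (-s) = 1
          rw [Ideal.absNorm_top, ← Ideal.one_eq_top, map_one, Nat.cast_one, Real.one_rpow, one_mul]
        have h6 : e I = 1 := by simp [he, hI]
        rw [h5, h6, sub_self, norm_zero]
        split_ifs <;> positivity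
      · have h6 : e I = 0 := by simp [he, hI]
        rw [h6, sub_zero]
        by_cases hIA : I ∈ A
        · have hnf : ¬ Free T I := by
            intro hf
            have hne : I.1 ≠ ⊤ := fun hh => hI (Subtype.ext hh)
            obtain ⟨m, hm, hIm⟩ := Ideal.exists_le_maximal I.1 hne
            have hm0 : m ≠ ⊥ := by
              rintro rfl
              exact I.2 (le_bot_iff.1 hIm)
            have hd : (⟨m, hm.isPrime, hm0⟩ : PrI M).asIdeal ∣ I.1 := Ideal.dvd_iff_le.2 hIm
            exact hf _ (hT (hT₀ I hIA _ hd)) hd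
          unfold rterm
          rw [if_neg hnf, norm_zero]
          split_ifs <;> positivity
        · rw [if_pos hIA]
          unfold rterm
          split_ifs
          · exact abs_lterm_le h s I
          · rw [norm_zero]; positivity
    have hsn : Summable fun I => ‖rterm χ T s I - e I‖ :=
      Summable.of_nonneg_of_le (fun _ => norm_nonneg _) hb hg
    exact (norm_tsum_le_tsum_norm hsn).trans (hsn.tsum_le_tsum hb hg)
  have := (abs_le.1 (hdiff.trans hgt.le)).1
  linarith

lemma exp_le_inv {y : ℝ} (hy : y < 1) : Real.exp y ≤ (1 - y)⁻¹ := by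
  have h1 := Real.add_one_le_exp (-y)
  rw [Real.exp_neg] at h1
  rw [← inv_inv (Real.exp y)]
  exact inv_anti₀ (by linarith) (by linarith)

lemma abs_chi_px_le (h : IsRayChar n χ) {s : ℝ} (P : PrI M) :
    |χ P.asIdeal * px s P| ≤ px s P := by
  rw [abs_mul, abs_of_pos (px_pos s P)]
  exact mul_le_of_le_one_left (px_pos s P).le (abs_chi_le h _)

lemma summable_chi_px (h : IsRayChar n χ) {s : ℝ} (hs : 1 < s) :
    Summable fun P : PrI M => χ P.asIdeal * px s P :=
  Summable.of_norm_bounded (summable_px hs) fun P => abs_chi_px_le h P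

lemma exp_primeSum_chi_le (h : IsRayChar n χ) {s : ℝ} (hs : 1 < s) :
    Real.exp (∑' P : PrI M, χ P.asIdeal * px s P) ≤ 2 * lsum χ s := by
  obtain ⟨T₀, hT₀⟩ := exists_rsum_ge h hs
  have h2 : Tendsto (fun T : Finset (PrI M) => Real.exp (∑ P ∈ T, χ P.asIdeal * px s P)) atTop
      (𝓝 (Real.exp (∑' P : PrI M, χ P.asIdeal * px s P))) :=
    (Real.continuous_exp.tendsto _).comp (summable_chi_px h hs).hasSum
  refine le_of_tendsto h2 ?_
  filter_upwards [eventually_ge_atTop T₀] with T hT
  have h3 := hT₀ T hT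
  rw [rsum_eq h T hs] at h3
  have hlt : ∀ P : PrI M, χ P.asIdeal * px s P < 1 := by
    intro P
    have h4 := abs_chi_px_le h (s := s) P
    have h5 := px_le_half hs.le P
    have := le_abs_self (χ P.asIdeal * px s P)
    linarith
  have hprod : 0 < ∏ P ∈ T, (1 - χ P.asIdeal * px s P) :=
    Finset.prod_pos fun P _ => by linarith [hlt P]
  rw [Real.exp_sum]
  have h6 : ∏ P ∈ T, Real.exp (χ P.asIdeal * px s P) ≤ (∏ P ∈ T, (1 - χ P.asIdeal * px s P))⁻¹ := by
    rw [← Finset.prod_inv_distrib]
    exact Finset.prod_le_prod (fun P _ => (Real.exp_pos _).le) fun P _ => exp_le_inv (hlt P)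
  refine h6.trans ?_
  rw [inv_eq_one_div, div_le_iff₀ hprod]
  linarith

end euler

end Pool.Agent.STc
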