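import Pool.Agent.Lib.MP_1ef7cf_nt_c.TFull

/-!
# The Stark-Tate conjecture over a real quadratic field: one exception implies many

`StarkTate σ₂ m` (in `Pool.Agent.Lib.MP_1ef7cf_nt.SDefs`) is the assertion of Q1 for the real
quadratic field `K` and the modulus `m`; `StarkRatios σ₂ m` (in `SDefs2`) is the assertion that the
conditions 1-3 of `Stark(K, m)` hold for the ratios of the numbers `exp (-2 ζ'(0, A))`, without any
square roots. We show that if Q1 fails for one modulus `n` divisible by all primes above `2`, then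
`StarkRatios` fails for many multiples of `n`: they are more numerous than the prime ideals, in the
sense of Dirichlet series.
-/

open NumberField IsDedekindDomain

namespace Pool.Agent.STc.ExceptionGrowth

open Pool.Agent.StarkRQ

/-- Let `K ⊂ ℝ` be a real quadratic field with second embedding `σ₂`, and let `n ≠ (0)` be an ideal
divisible by all primes above `2` for which Q1 fails. Then for each real number `C`, if `s > 1` is
close enough to `1`, there is a finite set `T` of nonzero multiples `m` of `n` for which even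
`StarkRatios` fails, such that the sum of `N(m) ^ (-s)` over `T` is at least
`C * log (1 / (s - 1))`. -/
theorem result {K : Type*} [Field K] [NumberField K] [Algebra K ℝ]
    (hK : Module.finrank ℚ K = 2) (σ₂ : K →+* ℝ) (hσ : σ₂ ≠ algebraMap K ℝ)
    (n : Ideal (𝓞 K)) (hn : n ≠ ⊥)
    (h2 : ∀ v : HeightOneSpectrum (𝓞 K), (2 : 𝓞 K) ∈ v.asIdeal → v.asIdeal ∣ n)
    (hfail : ¬ StarkTate σ₂ n) (C : ℝ) :
    ∃ δ > 0, ∀ s : ℝ, 1 < s → s < 1 + δ → ∃ T : Finset (Ideal (𝓞 K)),
      (∀ m ∈ T, m ≠ ⊥ ∧ n ∣ m ∧ ¬ StarkRatios σ₂ m) ∧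
      C * Real.log (1 / (s - 1)) ≤ ∑ m ∈ T, (Ideal.absNorm m : ℝ) ^ (-s) := by
  rw [starkTate_iff] at hfail
  obtain ⟨δ, hδ, h⟩ := Pool.Agent.STc.exceptions hK hσ hn h2 hfail C
  refine ⟨δ, hδ, fun s hs hs' => ?_⟩
  obtain ⟨T, hT, hsum⟩ := h s hs hs'
  refine ⟨T, fun m hm => ?_, hsum⟩
  obtain ⟨h1, h3, h4⟩ := hT m hm
  exact ⟨h1, h3, fun h5 => h4 h5.ratioP⟩

end Pool.Agent.STc.ExceptionGrowth
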