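import Pool.Agent.Lib.MP_1ef7cf_nt_b.MainT
import Pool.Agent.Lib.MP_1ef7cf_nt.Mg.G001

/-!
# The last step: from classes modulo squares to the square root condition
-/

open NumberField IsDedekindDomain nonZeroDivisors IntermediateField

namespace Pool.Agent.STc

open Pool.Agent.ST Pool.Agent.STb

/-- A finite abelian group modulo its elements of odd order is a 2-group. -/
lemma index_oddSub {G : Type*} [Group G] [Fintype G] (hab : ∀ a b : G, a * b = b * a) :
    ∃ r : ℕ, (oddSub hab).index = 2 ^ r := by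
  have hn : (oddSub hab).Normal := ⟨fun n hn g => by
    have h1 : g * n * g⁻¹ = n := by rw [hab g n, mul_assoc, mul_inv_cancel, mul_one]
    rwa [h1]⟩
  have hp : IsPGroup 2 (G ⧸ oddSub hab) := by
    intro q
    obtain ⟨g, rfl⟩ := QuotientGroup.mk_surjective q
    obtain ⟨j, n, hn, hjn⟩ := Nat.exists_eq_two_pow_mul_odd (orderOf_pos g).ne'
    refine ⟨j, ?_⟩
    rw [← QuotientGroup.mk_pow, QuotientGroup.eq_one_iff]
    change g ^ 2 ^ j ∈ odds G
    refine mem_odds_iff.2 ⟨n, hn, ?_⟩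
    rw [← pow_mul, ← hjn, pow_orderOf_eq_one]
  obtain ⟨r, hr⟩ := hp.exists_card_eq
  exact ⟨r, by rw [Subgroup.index_eq_card, hr]⟩


lemma exists_oddFixed {K : Type*} [Field K] [Algebra K ℝ] {H : IntermediateField K ℝ}
    [FiniteDimensional K H] [IsAbelianGalois K H] :
    ∃ (L₀ : IntermediateField K ℝ) (hLH : L₀ ≤ H) (_ : Normal K L₀),
      (∃ r : ℕ, Module.finrank K L₀ = 2 ^ r) ∧ fib hLH (1 : L₀ ≃ₐ[K] L₀) = odds (H ≃ₐ[K] H) := by
  have hab : ∀ a b : H ≃ₐ[K] H, a * b = b * a := fun a b => mul_comm' a b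
  let F₀ : IntermediateField K H := IntermediateField.fixedField (oddSub hab)
  have hLH : IntermediateField.lift F₀ ≤ H := IntermediateField.lift_le F₀
  have habL : IsAbelianGalois K (IntermediateField.lift F₀) := isAbelianGalois_of_le hLH
  have hfix : F₀.fixingSubgroup = oddSub hab := IntermediateField.fixingSubgroup_fixedField _
  refine ⟨IntermediateField.lift F₀, hLH, inferInstance, ?_, ?_⟩
  · obtain ⟨r, hr⟩ := index_oddSub hab
    refine ⟨r, ?_⟩
    have h1 : Module.finrank K (IntermediateField.lift F₀) = Module.finrank K F₀ :=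
      (IntermediateField.liftAlgEquiv F₀).toLinearEquiv.finrank_eq.symm
    rw [h1, IntermediateField.finrank_eq_fixingSubgroup_index, hfix, hr]
  · ext γ
    rw [mem_fib, res_eq_one_iff]
    have h1 : γ ∈ odds (H ≃ₐ[K] H) ↔ γ ∈ F₀.fixingSubgroup := by rw [hfix]; exact Iff.rfl
    rw [h1, IntermediateField.mem_fixingSubgroup_iff]
    constructor
    · intro h x hx
      have h2 : (x : ℝ) ∈ IntermediateField.lift F₀ := (IntermediateField.mem_lift x).2 hx
      have h3 := h _ h2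
      rw [act_coe] at h3
      exact Subtype.ext h3
    · intro h x hx
      have hxH : x ∈ H := hLH hx
      lift x to H using hxH
      rw [act_coe, h x ((IntermediateField.mem_lift x).1 hx)]

/-- **Z.** If `u N_Δ(u)` is a square in `H(cc ν)` (`Δ` the elements of odd order of `Gal(H/K)`), then `H(√u)/K` is
abelian. -/
theorem final_full {K : Type*} [Field K] [NumberField K] [Algebra K ℝ] {σ₂ : K →+* ℝ}
    (h2 : Module.finrank ℚ K = 2) (hσ : σ₂ ≠ sg1 K) {m : Ideal (𝓞 K)} (hm : m ≠ ⊥) (hm1 : m ≠ ⊤)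
    (hm2 : ∀ v : HeightOneSpectrum (𝓞 K), (2 : 𝓞 K) ∈ v.asIdeal → v.asIdeal ∣ m)
    (hS : ∀ k : ℕ, ∃ (H : IntermediateField K ℝ)
      (Art : RayClassGroup σ₂ (m * Ideal.span {2} ^ k) ≃* (H ≃ₐ[K] H)) (u : ℝ),
      SData σ₂ (m * Ideal.span {2} ^ k) H Art u)
    {H : IntermediateField K ℝ} {Art : RayClassGroup σ₂ m ≃* (H ≃ₐ[K] H)} {u : ℝ}
    (hd : SData σ₂ m H Art u) [FiniteDimensional K H] [IsAbelianGalois K H] (ν : ℕ)
    [FiniteDimensional K (twK H ν)] [IsAbelianGalois K (twK H ν)] {s : ℝ} (hs : s ∈ twK H ν)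
    (hsq : u * ∏ g ∈ odds (H ≃ₐ[K] H), act g u = s ^ 2) :
    IsAbelianGalois K (sqrtExt H u) := by
  classical
  obtain ⟨L₀, hLH, habL, hr, hfib⟩ := exists_oddFixed (H := H)
  have hfL : FiniteDimensional K L₀ := fd_of_le hLH
  have habL' : IsAbelianGalois K L₀ := isAbelianGalois_of_le hLH
  have key := sqrt_of_two_power h2 hσ hm hm1 hm2 hS hd hLH hr
  set N := fibProd hLH u 1 with hN
  have hNeq : N = ∏ g ∈ odds (H ≃ₐ[K] H), act g u := by rw [hN, fibProd, hfib]
  have hp := hd.pre.fibProd hLH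
  have hNpos : 0 < N := by
    have := hp.pos 1
    rwa [act_one_left hp.mem] at this
  have hupos : 0 < u := by
    have := hd.pre.pos 1
    rwa [act_one_left hd.pre.mem] at this
  have hsqN : Real.sqrt u = |s| / Real.sqrt N := by
    rw [eq_div_iff (Real.sqrt_pos.2 hNpos).ne', ← Real.sqrt_mul hupos.le, hNeq, hsq,
      Real.sqrt_sq_eq_abs]
  have hfdN : FiniteDimensional K (sqrtExt L₀ N) := finiteDimensional_sqrtExt hp.mem hNpos.le
  have hsup : IsAbelianGalois K (twK H ν ⊔ sqrtExt L₀ N : IntermediateField K ℝ) :=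
    isAbelianGalois_sup
  have hfds : FiniteDimensional K (twK H ν ⊔ sqrtExt L₀ N : IntermediateField K ℝ) := by
    exact IntermediateField.finiteDimensional_sup _ _
  have hle1 : twK H ν ≤ twK H ν ⊔ sqrtExt L₀ N := le_sup_left
  have hle2 : sqrtExt L₀ N ≤ twK H ν ⊔ sqrtExt L₀ N := le_sup_right
  have h4 : |s| ∈ twK H ν := by
    rcases abs_choice s with h | h
    · rw [h]; exact hs
    · rw [h]; exact neg_mem hs
  have h5 : Real.sqrt u ∈ twK H ν ⊔ sqrtExt L₀ N := by
    rw [hsqN]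
    exact div_mem (hle1 h4) (hle2 (sqrt_mem_sqrtExt L₀ N))
  exact isAbelianGalois_of_le (sqrtExt_le ((le_twK H ν).trans hle1) h5)

end Pool.Agent.STc
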