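import Pool.Agent.Lib.MP_1ef7cf_nt_c.Loc

/-!
# Local squares and residue fields, Frobenius elements
-/

open NumberField IsDedekindDomain nonZeroDivisors

namespace Pool.Agent.STc

open Pool.Agent.ST Pool.Agent.STb

section resid

variable {K : Type*} [Field K] [NumberField K]

lemma val_coe_eq_one {q : PrI K} {a : 𝓞 K} (ha : a ∉ q.asIdeal) :
    q.valuation K (a : K) = 1 := (q.valuation_eq_one_iff_notMem (K := K)).2 ha

lemma val_coe_lt_one {q : PrI K} {a : 𝓞 K} (ha : a ∈ q.asIdeal) :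
    q.valuation K (a : K) < 1 := (q.valuation_lt_one_iff_mem (K := K) a).2 ha

lemma lsq_of_isSquare {q : PrI K} {a : 𝓞 K} (ha : a ∉ q.asIdeal)
    (h : IsSquare (Ideal.Quotient.mk q.asIdeal a)) : LSq q (a : K) := by
  obtain ⟨r, hr⟩ := h
  obtain ⟨c, rfl⟩ := Ideal.Quotient.mk_surjective r
  have h1 : a - c * c ∈ q.asIdeal := by
    rw [← Ideal.Quotient.eq_zero_iff_mem, map_sub, map_mul, hr, sub_self]
  have hc : c ∉ q.asIdeal := by
    intro hc
    apply ha
    have h2 : a = (a - c * c) + c * c := by ring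
    rw [h2]
    exact q.asIdeal.add_mem h1 (q.asIdeal.mul_mem_left _ hc)
  have hvc := val_coe_eq_one hc
  have hc0 : (c : K) ≠ 0 := by
    intro h0
    rw [h0, map_zero] at hvc
    exact zero_ne_one hvc
  refine ⟨(c : K)⁻¹, ?_⟩
  have h3 : (a : K) * (c : K)⁻¹ ^ 2 - 1 = ((a - c * c : 𝓞 K) : K) * (c : K)⁻¹ ^ 2 := by
    push_cast
    field_simp
  rw [h3, map_mul, map_pow, map_inv₀, hvc, inv_one, one_pow, mul_one]
  exact val_coe_lt_one h1

lemma isSquare_of_lsq {q : PrI K} {a : 𝓞 K} (ha : a ∉ q.asIdeal) (h : LSq q (a : K)) :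
    IsSquare (Ideal.Quotient.mk q.asIdeal a) := by
  obtain ⟨y, hy⟩ := h
  have hva := val_coe_eq_one ha
  have h1 : q.valuation K ((a : K) * y ^ 2) = 1 := by
    have h1 : q.valuation K ((a : K) * y ^ 2) = q.valuation K (1 : K) := by
      have h2 : (a : K) * y ^ 2 = ((a : K) * y ^ 2 - 1) + 1 := by ring
      rw [h2]
      apply Valuation.map_add_eq_of_lt_right
      rwa [map_one]
    rw [h1, map_one]
  rw [map_mul, hva, one_mul, map_pow] at h1
  have hvy : q.valuation K y = 1 := by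
    have hy0 : q.valuation K y ≠ 0 := by
      intro h0
      rw [h0, zero_pow (by norm_num)] at h1
      exact zero_ne_one h1
    rw [← WithZero.exp_log hy0, ← WithZero.exp_nsmul, ← WithZero.exp_zero,
      WithZero.exp_injective.eq_iff] at h1
    have h3 : WithZero.log (q.valuation K y) = 0 := by
      rw [nsmul_eq_mul] at h1
      push_cast at h1
      omega
    rw [← WithZero.exp_log hy0, h3, WithZero.exp_zero]
  obtain ⟨b, hb⟩ := q.exists_valuation_sub_lt_of_integer (K := K) (x := y) hvy.le 1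
  rw [Units.val_one] at hb
  have h2 : q.valuation K ((a * (b * b) - 1 : 𝓞 K) : K) < 1 := by
    have h3 : ((a * (b * b) - 1 : 𝓞 K) : K) =
        ((a : K) * y ^ 2 - 1) + (a : K) * (((b : K) - y) * ((b : K) + y)) := by
      push_cast
      ring
    rw [h3]
    refine Valuation.map_add_lt _ hy ?_
    rw [map_mul, map_mul, hva, one_mul]
    have h4 : q.valuation K ((b : K) + y) ≤ 1 :=
      (Valuation.map_add _ _ _).trans (max_le (q.valuation_le_one (K := K) b) hvy.le)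
    exact mul_lt_one_of_lt_of_le hb h4
  have h3 : a * (b * b) - 1 ∈ q.asIdeal := (q.valuation_lt_one_iff_mem (K := K) _).1 h2
  refine ⟨Ideal.Quotient.mk q.asIdeal (a * b), ?_⟩
  rw [← map_mul, ← sub_eq_zero, ← map_sub, Ideal.Quotient.eq_zero_iff_mem]
  have h4 : a - a * b * (a * b) = -(a * (a * (b * b) - 1)) := by ring
  rw [h4]
  exact q.asIdeal.neg_mem (q.asIdeal.mul_mem_left _ h3)

lemma exists_int_rep {q : PrI K} {x : K} (hx : q.valuation K x = 1) :
    ∃ a : 𝓞 K, a ∉ q.asIdeal ∧ ∃ s : K, s ≠ 0 ∧ x = (a : K) * s ^ 2 := by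
  obtain ⟨n, d, hnd⟩ := q.exists_primeCompl_mul_eq_of_integer (K := K) x hx.le
  have hd : (d : 𝓞 K) ∉ q.asIdeal := d.2
  have hvd := val_coe_eq_one hd
  have hd0 : ((d : 𝓞 K) : K) ≠ 0 := by
    intro h0
    rw [h0, map_zero] at hvd
    exact zero_ne_one hvd
  have hn : n ∉ q.asIdeal := by
    intro hn
    have h1 := val_coe_lt_one hn
    have h2 : q.valuation K (n : K) = 1 := by
      have h3 : (n : K) = x * ((d : 𝓞 K) : K) := hnd.symm
      rw [h3, map_mul, hx, hvd, one_mul]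
    rw [h2] at h1
    exact lt_irrefl _ h1
  refine ⟨n * d, fun hc => ?_, (((d : 𝓞 K) : K))⁻¹, inv_ne_zero hd0, ?_⟩
  · rcases q.isPrime.mem_or_mem hc with h | h
    · exact hn h
    · exact hd h
  · have h3 : (n : K) = x * ((d : 𝓞 K) : K) := hnd.symm
    have e : ((n * (d : 𝓞 K) : 𝓞 K) : K) = (n : K) * ((d : 𝓞 K) : K) :=
      map_mul (algebraMap (𝓞 K) K) _ _
    rw [e, h3]
    field_simp

omit [NumberField K] in
lemma quot_char {q : PrI K} (h2 : (2 : 𝓞 K) ∉ q.asIdeal) : ringChar (𝓞 K ⧸ q.asIdeal) ≠ 2 := by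
  intro h
  have h3 : ((2 : ℕ) : 𝓞 K ⧸ q.asIdeal) = 0 := by
    rw [← h]; exact CharP.cast_eq_zero _ _
  apply h2
  rw [← Ideal.Quotient.eq_zero_iff_mem, map_ofNat]
  exact_mod_cast h3

/-- The product of two units which are not local squares is a local square. -/
lemma lsq_mul_of_not {q : PrI K} (h2 : (2 : 𝓞 K) ∉ q.asIdeal) {x y : K}
    (hx : q.valuation K x = 1) (hy : q.valuation K y = 1) (hx' : ¬ LSq q x) (hy' : ¬ LSq q y) :
    LSq q (x * y) := by
  obtain ⟨a, ha, s, hs, rfl⟩ := exists_int_rep hx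
  obtain ⟨b, hb, t, ht, rfl⟩ := exists_int_rep hy
  rw [LSq.mul_sq hs] at hx'
  rw [LSq.mul_sq ht] at hy'
  have e1 : (a : K) * s ^ 2 * ((b : K) * t ^ 2) = ((a * b : 𝓞 K) : K) * (s * t) ^ 2 := by
    push_cast
    ring
  rw [e1, LSq.mul_sq (mul_ne_zero hs ht)]
  have hab : a * b ∉ q.asIdeal := fun hc => (q.isPrime.mem_or_mem hc).elim ha hb
  apply lsq_of_isSquare hab
  have := q.isMaximal
  have : Finite (𝓞 K ⧸ q.asIdeal) := Ideal.finiteQuotientOfFreeOfNeBot q.asIdeal q.ne_bot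
  let _ : Field (𝓞 K ⧸ q.asIdeal) := Ideal.Quotient.field q.asIdeal
  let _ : Fintype (𝓞 K ⧸ q.asIdeal) := Fintype.ofFinite _
  have hchar := quot_char h2
  have hne : ∀ c : 𝓞 K, c ∉ q.asIdeal → Ideal.Quotient.mk q.asIdeal c ≠ 0 := by
    intro c hc h0
    exact hc (Ideal.Quotient.eq_zero_iff_mem.1 h0)
  have key : ∀ c : 𝓞 K, c ∉ q.asIdeal → ¬ LSq q (c : K) →
      (Ideal.Quotient.mk q.asIdeal c) ^ (Fintype.card (𝓞 K ⧸ q.asIdeal) / 2) = -1 := by
    intro c hc hc'
    rcases FiniteField.pow_dichotomy hchar (hne c hc) with h | h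
    · exact absurd (lsq_of_isSquare hc ((FiniteField.isSquare_iff hchar (hne c hc)).2 h)) hc'
    · exact h
  rw [FiniteField.isSquare_iff hchar (hne _ hab), map_mul, mul_pow, key a ha hx', key b hb hy']
  ring

end resid

section frob

variable {K L : Type*} [Field K] [NumberField K] [Field L] [NumberField L] [Algebra K L]

/-- valuation in an unramified extension -/
lemma sqAt_of_unram {P : PrI L} [Algebra.IsUnramifiedAt (𝓞 K) P.asIdeal] {d : K} {y : L}
    (hd : d ≠ 0) (hy : y ^ 2 = algebraMap K L d) : SqAt (und K P) d := by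
  have hlo : P.asIdeal.LiesOver (und K P).asIdeal := ⟨rfl⟩
  have h1 := HeightOneSpectrum.valuation_liesOver (K := K) L (und K P) P d
  have he : (und K P).asIdeal.ramificationIdx' P.asIdeal = 1 := by
    have := P.isPrime
    rw [Ideal.ramificationIdx'_eq_ramificationIdx _ _ (und K P).ne_bot,
      Ideal.ramificationIdx_eq_one_of_isUnramifiedAt]
  rw [he, pow_one, ← hy, map_pow] at h1
  obtain ⟨a, ha⟩ := exists_exp (P := und K P) hd
  have hy0 : y ≠ 0 := by
    rintro rfl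
    rw [zero_pow (by norm_num), eq_comm, map_eq_zero] at hy
    exact hd hy
  obtain ⟨b, hb⟩ := exists_exp (P := P) hy0
  rw [sqAt_iff ha]
  rw [ha, hb, pow_two, ← WithZero.exp_add, WithZero.exp_injective.eq_iff] at h1
  exact ⟨b, h1⟩

omit [NumberField L] in
lemma isSquare_of_frob' {P : PrI L} (h2 : (2 : 𝓞 K) ∉ (und K P).asIdeal) {σ : L ≃ₐ[K] L}
    (hσ : IsFrob K P σ) {η : 𝓞 K} (hη : η ∉ (und K P).asIdeal) {y : L}
    (hy : y ^ 2 = algebraMap K L ((η : 𝓞 K) : K))
    (hσy : σ y = y) : IsSquare (Ideal.Quotient.mk (und K P).asIdeal (η : 𝓞 K)) := by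
  set p := und K P with hp
  have := p.isMaximal
  have : Finite (𝓞 K ⧸ p.asIdeal) := Ideal.finiteQuotientOfFreeOfNeBot p.asIdeal p.ne_bot
  let _ : Field (𝓞 K ⧸ p.asIdeal) := Ideal.Quotient.field p.asIdeal
  let _ : Fintype (𝓞 K ⧸ p.asIdeal) := Fintype.ofFinite _
  have hchar : ringChar (𝓞 K ⧸ p.asIdeal) ≠ 2 := quot_char h2
  have hcard : Fintype.card (𝓞 K ⧸ p.asIdeal) = pn p := by
    unfold pn
    rw [Ideal.absNorm_apply, Submodule.cardQuot_apply, Nat.card_eq_fintype_card]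
  -- the integer y
  have hint : IsIntegral ℤ y := by
    apply IsIntegral.of_pow (n := 2) (by norm_num)
    rw [hy]
    have h3 : IsIntegral ℤ ((η : 𝓞 K) : K) := RingOfIntegers.isIntegral_coe _
    exact h3.map (algebraMap K L).toIntAlgHom
  let y' : 𝓞 L := ⟨y, hint⟩
  have hy' : y' ^ 2 = algebraMap (𝓞 K) (𝓞 L) (η : 𝓞 K) := by
    apply RingOfIntegers.coe_injective
    rw [map_pow]
    exact hy
  have hσy' : σ • y' = y' := by
    apply RingOfIntegers.coe_injective
    rw [ST.coe_smul']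
    exact hσy
  have h3 := hσ y'
  rw [hσy', ← hp, ← hcard] at h3
  have hodd : Fintype.card (𝓞 K ⧸ p.asIdeal) % 2 = 1 := FiniteField.odd_card_of_char_ne_two hchar
  set c := Fintype.card (𝓞 K ⧸ p.asIdeal) with hc
  have hc2 : c = 2 * (c / 2) + 1 := by omega
  have h4 : y' * (1 - algebraMap (𝓞 K) (𝓞 L) ((η : 𝓞 K) ^ (c / 2))) ∈ P.asIdeal := by
    have : y' * (1 - algebraMap (𝓞 K) (𝓞 L) ((η : 𝓞 K) ^ (c / 2))) = y' - y' ^ c := by
      conv_rhs => rw [hc2, pow_succ, pow_mul, hy']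
      rw [map_pow]
      ring
    rw [this]; exact h3
  have hyP : y' ∉ P.asIdeal := by
    intro h5
    have h6 : y' ^ 2 ∈ P.asIdeal := P.asIdeal.pow_mem_of_mem h5 2 (by norm_num)
    rw [hy'] at h6
    exact hη h6
  have h5 : 1 - algebraMap (𝓞 K) (𝓞 L) ((η : 𝓞 K) ^ (c / 2)) ∈ P.asIdeal :=
    (P.isPrime.mem_or_mem h4).resolve_left hyP
  have h6 : 1 - (η : 𝓞 K) ^ (c / 2) ∈ p.asIdeal := by
    change algebraMap (𝓞 K) (𝓞 L) _ ∈ P.asIdeal
    rw [map_sub, map_one]; exact h5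
  have h7 : (Ideal.Quotient.mk p.asIdeal (η : 𝓞 K)) ^ (c / 2) = 1 := by
    rw [← Ideal.Quotient.eq_zero_iff_mem, map_sub, map_one, map_pow, sub_eq_zero] at h6
    exact h6.symm
  have h8 : Ideal.Quotient.mk p.asIdeal (η : 𝓞 K) ≠ 0 := by
    intro h9
    rw [Ideal.Quotient.eq_zero_iff_mem] at h9
    exact hη h9
  exact (FiniteField.isSquare_iff hchar h8).2 h7

omit [NumberField L] in
/-- If the Frobenius element fixes `√d`, then `d` is a local square. -/
lemma lsq_of_frob {P : PrI L} (h2 : (2 : 𝓞 K) ∉ (und K P).asIdeal) {σ : L ≃ₐ[K] L}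
    (hσ : IsFrob K P σ) {d : K} (hsq : SqAt (und K P) d) {y : L}
    (hy : y ^ 2 = algebraMap K L d) (hσy : σ y = y) : LSq (und K P) d := by
  obtain ⟨z, hz1, hz2⟩ := exists_approx (und K P) hsq
  have hz0 : z ≠ 0 := by
    rintro rfl
    rw [zero_pow (by norm_num), mul_zero, map_zero] at hz1
    exact zero_ne_one hz1
  obtain ⟨D, hD⟩ := HeightOneSpectrum.mem_integers_of_valuation_le_one K _ hz2
  have hD' : (D : K) = d * z ^ 2 := hD
  have hDP : D ∉ (und K P).asIdeal := by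
    intro h
    have h3 := val_coe_lt_one h
    rw [hD', hz1] at h3
    exact lt_irrefl _ h3
  rw [← LSq.mul_sq hz0, ← hD']
  apply lsq_of_isSquare hDP
  apply isSquare_of_frob' h2 hσ hDP (y := y * algebraMap K L z)
  · rw [hD', mul_pow, hy, map_mul, map_pow]
  · rw [map_mul, hσy, σ.commutes]

end frob

end Pool.Agent.STc
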