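import Pool.Agent.Lib.MP_1ef7cf_nt.RCF4
import Pool.Agent.Lib.MP_1ef7cf_nt_b.Mg.G001
import Pool.Agent.Lib.MP_1ef7cf_nt_c.Mg.G007
import Pool.Agent.Lib.MP_1ef7cf_nt_c.Resid

/-!
# Existence of the quadratic extensions for fine primes
-/

open NumberField IsDedekindDomain nonZeroDivisors IntermediateField

namespace Pool.Agent.STc

open Pool.Agent.ST Pool.Agent.STb

/-- characters of exponent two -/
lemma exists_char_two {G : Type*} [CommGroup G] (W : Subgroup G) [Finite (G ⧸ W)]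
    (hsq : ∀ g : G, g ^ 2 ∈ W) {x : G} (hx : x ∉ W) :
    ∃ ψ : G →* ℤˣ, (∀ g ∈ W, ψ g = 1) ∧ ψ x ≠ 1 := by
  have hexp : Monoid.exponent (G ⧸ W) ∣ 2 := by
    apply Monoid.exponent_dvd_of_forall_pow_eq_one
    intro g
    obtain ⟨g, rfl⟩ := QuotientGroup.mk_surjective g
    have h1 : (QuotientGroup.mk (g ^ 2) : G ⧸ W) = 1 := (QuotientGroup.eq_one_iff _).2 (hsq g)
    exact h1
  have h2 : HasEnoughRootsOfUnity ℤ 2 :=
    { prim := ⟨-1, IsPrimitiveRoot.neg_one 0 (by norm_num)⟩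
      cyc := inferInstance }
  have h3 : HasEnoughRootsOfUnity ℤ (Monoid.exponent (G ⧸ W)) :=
    HasEnoughRootsOfUnity.of_dvd ℤ hexp
  have hx' : (QuotientGroup.mk x : G ⧸ W) ≠ 1 := fun h => hx ((QuotientGroup.eq_one_iff _).1 h)
  obtain ⟨ψ, hψ⟩ := CommGroup.exists_apply_ne_one_of_hasEnoughRootsOfUnity (G ⧸ W) ℤ hx'
  refine ⟨ψ.comp (QuotientGroup.mk' W), fun g hg => ?_, hψ⟩
  have h4 : (QuotientGroup.mk g : G ⧸ W) = 1 := (QuotientGroup.eq_one_iff _).2 hg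
  change ψ (QuotientGroup.mk g : G ⧸ W) = 1
  rw [h4, map_one]

section wgrp

variable {K : Type*} [Field K] [NumberField K] {σ₂ : K →+* ℝ}

lemma lsq_of_oneMod {n : Ideal (𝓞 K)} {q : PrI K} (h : q.asIdeal ∣ n) {γ : K}
    (hγ : OneMod n γ) : LSq q γ := by
  obtain ⟨a, b, hb, hab, rfl⟩ := hγ
  have hbq : b ∉ q.asIdeal := by
    intro hbq
    have h1 : IsCoprime q.asIdeal n :=
      hb.of_isCoprime_of_dvd_left (Ideal.dvd_span_singleton.2 hbq)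
    exact coprime_prime_iff.1 h1 h
  have hvb := val_coe_eq_one hbq
  have hb0 : (b : K) ≠ 0 := by
    intro h0
    rw [h0, map_zero] at hvb
    exact zero_ne_one hvb
  refine ⟨1, ?_⟩
  have e : (a : K) / b * 1 ^ 2 - 1 = ((a - b : 𝓞 K) : K) / b := by
    push_cast
    field_simp
  rw [e, map_div₀, hvb, div_one]
  exact val_coe_lt_one (Ideal.dvd_iff_le.1 h hab)

/-- a principal ideal prime to `n` is given by a unit at the primes dividing `n` -/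
lemma val_eq_one_of_primeTo {n : Ideal (𝓞 K)} {q : PrI K} (h : q.asIdeal ∣ n)
    (J : primeTo (K := K) n) {α : K}
    (hJ : ((J : (FI K)ˣ) : FI K) = FractionalIdeal.spanSingleton (𝓞 K)⁰ α) :
    q.valuation K α = 1 := by
  have hα : α ≠ 0 := by
    rintro rfl
    apply (J : (FI K)ˣ).ne_zero
    rw [hJ, FractionalIdeal.spanSingleton_zero]
  rw [val_eq_exp_count q hα, ← hJ, J.2 q h, neg_zero, WithZero.exp_zero]

/-- the subgroup of the ideals `(α) I ^ 2` -/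
noncomputable def Wgp (σ₂ : K →+* ℝ) (m : Ideal (𝓞 K)) (q : PrI K) :
    Subgroup (primeTo (K := K) (m * q.asIdeal)) where
  carrier := {J | ∃ (α : K) (I : (FI K)ˣ), OneMod m α ∧ 0 < σ₂ α ∧ LSq q α ∧
    ((J : (FI K)ˣ) : FI K) = FractionalIdeal.spanSingleton (𝓞 K)⁰ α * (I : FI K) ^ 2}
  one_mem' := ⟨1, 1, OneMod.one m, by simp, LSq.one q, by simp⟩
  mul_mem' := by
    rintro J J' ⟨α, I, h1, h2, h3, h4⟩ ⟨β, I', g1, g2, g3, g4⟩
    refine ⟨α * β, I * I', h1.mul g1, by rw [map_mul]; exact mul_pos h2 g2, h3.mul g3, ?_⟩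
    rw [Subgroup.coe_mul, Units.val_mul, h4, g4, Units.val_mul, mul_pow,
      ← FractionalIdeal.spanSingleton_mul_spanSingleton]
    ring
  inv_mem' := by
    rintro J ⟨α, I, h1, h2, h3, h4⟩
    refine ⟨α⁻¹, I⁻¹, h1.inv, by rw [map_inv₀]; exact inv_pos.2 h2, h3.inv, ?_⟩
    rw [Subgroup.coe_inv, Units.val_inv_eq_inv_val, h4, Units.val_inv_eq_inv_val, mul_inv,
      FractionalIdeal.spanSingleton_inv, inv_pow]

lemma mem_Wgp {m : Ideal (𝓞 K)} {q : PrI K} {J : primeTo (K := K) (m * q.asIdeal)} :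
    J ∈ Wgp σ₂ m q ↔ ∃ (α : K) (I : (FI K)ˣ), OneMod m α ∧ 0 < σ₂ α ∧ LSq q α ∧
    ((J : (FI K)ˣ) : FI K) = FractionalIdeal.spanSingleton (𝓞 K)⁰ α * (I : FI K) ^ 2 := Iff.rfl

lemma ray_le_Wgp (m : Ideal (𝓞 K)) (q : PrI K) : ray σ₂ (m * q.asIdeal) ≤ Wgp σ₂ m q := by
  rintro J ⟨α, h1, h2, h3⟩
  exact mem_Wgp.2 ⟨α, 1, h1.mono Ideal.mul_le_left, h2,
    lsq_of_oneMod (dvd_mul_left q.asIdeal m) h1, by rw [h3]; simp⟩

lemma sq_mem_Wgp (m : Ideal (𝓞 K)) (q : PrI K) (J : primeTo (K := K) (m * q.asIdeal)) :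
    J ^ 2 ∈ Wgp σ₂ m q :=
  mem_Wgp.2 ⟨1, (J : (FI K)ˣ), OneMod.one m, by simp, LSq.one q, by
    rw [Subgroup.coe_pow, Units.val_pow_eq_pow_val, FractionalIdeal.spanSingleton_one, one_mul]⟩

lemma notMem_Wgp {m : Ideal (𝓞 K)} {q : PrI K}
    (hst : ∀ x : K, x ≠ 0 → (∀ P : PrI K, SqAt P x) → LSq q x) {α₀ : K} (h0 : ¬ LSq q α₀)
    {J : primeTo (K := K) (m * q.asIdeal)}
    (hJ : ((J : (FI K)ˣ) : FI K) = FractionalIdeal.spanSingleton (𝓞 K)⁰ α₀) :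
    J ∉ Wgp σ₂ m q := by
  rw [mem_Wgp]
  rintro ⟨α, I, h1, h2, h3, h4⟩
  have hα₀ : α₀ ≠ 0 := by
    rintro rfl
    apply (J : (FI K)ˣ).ne_zero
    rw [hJ, FractionalIdeal.spanSingleton_zero]
  have hα : α ≠ 0 := h3.ne_zero
  have hx : α₀ * α⁻¹ ≠ 0 := mul_ne_zero hα₀ (inv_ne_zero hα)
  have h5 : FractionalIdeal.spanSingleton (𝓞 K)⁰ (α₀ * α⁻¹) = (I : FI K) ^ 2 := by
    rw [← FractionalIdeal.spanSingleton_mul_spanSingleton, ← hJ, h4, mul_right_comm,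
      FractionalIdeal.spanSingleton_mul_spanSingleton, mul_inv_cancel₀ hα,
      FractionalIdeal.spanSingleton_one, one_mul]
  have h6 : LSq q (α₀ * α⁻¹) := by
    apply hst _ hx
    intro P
    rw [sqAt_iff (val_eq_exp_count P hx), h5, FractionalIdeal.count_pow, even_neg]
    push_cast
    exact even_two_mul _
  apply h0
  have h7 := h6.mul h3
  rwa [inv_mul_cancel_right₀ hα] at h7

/-- Existence of a suitable principal ideal. -/
lemma exists_nonsq {n : Ideal (𝓞 K)} (hn0 : n ≠ ⊥) {q : PrI K}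
    (hq : ¬ q.asIdeal ∣ n)
    (hq2 : (2 : 𝓞 K) ∉ q.asIdeal) :
    ∃ z : 𝓞 K, z - 1 ∈ n ∧ 0 < σ₂ (z : K) ∧ z ∉ q.asIdeal ∧ ¬ LSq q (z : K) := by
  obtain ⟨x, hx⟩ := exists_not_isSquare hq2
  obtain ⟨x, rfl⟩ := Ideal.Quotient.mk_surjective x
  obtain ⟨y, hy1, hy2⟩ := exists_crt (coprime_prime_iff.2 hq).symm 1 x
  obtain ⟨z, hz1, hz2⟩ := exists_pos σ₂ (mul_ne_bot' hn0 q.ne_bot) y
  have hzx : z - x ∈ q.asIdeal := by
    have h1 : z - x = (z - y) + (y - x) := by ring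
    rw [h1]
    exact q.asIdeal.add_mem ((Ideal.mul_le_right : n * q.asIdeal ≤ q.asIdeal) hz1) hy2
  have hzn : z - 1 ∈ n := by
    have h1 : z - 1 = (z - y) + (y - 1) := by ring
    rw [h1]
    exact n.add_mem ((Ideal.mul_le_left : n * q.asIdeal ≤ n) hz1) hy1
  have hmk : Ideal.Quotient.mk q.asIdeal z = Ideal.Quotient.mk q.asIdeal x := by
    rw [← sub_eq_zero, ← map_sub, Ideal.Quotient.eq_zero_iff_mem]
    exact hzx
  have hzq : z ∉ q.asIdeal := by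
    intro h
    apply hx
    rw [← hmk, Ideal.Quotient.eq_zero_iff_mem.2 h]
    exact IsSquare.zero
  refine ⟨z, hzn, hz2, hzq, fun h => hx ?_⟩
  rw [← hmk]
  exact isSquare_of_lsq hzq h

end wgrp

section dat

variable {K : Type*} [Field K] [NumberField K] [Algebra K ℝ] {σ₂ : K →+* ℝ}

/-- auxiliary data -/
structure Dat (σ₂ : K →+* ℝ) (m : Ideal (𝓞 K)) (q : PrI K) (H : IntermediateField K ℝ)
    (Art : RayClassGroup σ₂ (m * q.asIdeal) ≃* (H ≃ₐ[K] H))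
    (φ : RayClassGroup σ₂ (m * q.asIdeal) →* ℤˣ) (θ : ℝ) (d : K) : Prop where
  rcf : IsRayClassField σ₂ (m * q.asIdeal) H Art
  mem : θ ∈ H
  ne : θ ≠ 0
  sq : θ ^ 2 = algebraMap K ℝ d
  act : ∀ A, act (Art A) θ = ((φ A : ℤ) : ℝ) * θ
  char : ∀ (J : primeTo (K := K) (m * q.asIdeal)) (α : K), OneMod m α → 0 < σ₂ α →
    ((J : (FI K)ˣ) : FI K) = FractionalIdeal.spanSingleton (𝓞 K)⁰ α →
    (φ (cls σ₂ _ J) = 1 ↔ LSq q α)

lemma Dat.ne_zero {m : Ideal (𝓞 K)} {q : PrI K} {H : IntermediateField K ℝ}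
    {Art : RayClassGroup σ₂ (m * q.asIdeal) ≃* (H ≃ₐ[K] H)}
    {φ : RayClassGroup σ₂ (m * q.asIdeal) →* ℤˣ} {θ : ℝ} {d : K} (h : Dat σ₂ m q H Art φ θ d) :
    d ≠ 0 := by
  rintro rfl
  have h1 := h.sq
  rw [map_zero] at h1
  exact h.ne (pow_eq_zero_iff (by norm_num) |>.1 h1)

theorem exists_dat {m : Ideal (𝓞 K)} (hm : m ≠ ⊥) {q : PrI K} (hq : ¬ q.asIdeal ∣ m)
    (hq2 : (2 : 𝓞 K) ∉ q.asIdeal)
    (hst : ∀ x : K, x ≠ 0 → (∀ P : PrI K, SqAt P x) → LSq q x)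
    {H : IntermediateField K ℝ} {Art : RayClassGroup σ₂ (m * q.asIdeal) ≃* (H ≃ₐ[K] H)}
    (hH : IsRayClassField σ₂ (m * q.asIdeal) H Art) :
    ∃ φ θ d, Dat σ₂ m q H Art φ θ d := by
  have hfd := hH.finite
  have hgal := hH.galois
  -- finiteness
  have hfinC : Finite (RayClassGroup σ₂ (m * q.asIdeal)) := Finite.of_equiv _ Art.symm.toEquiv
  have hfinW : Finite (primeTo (K := K) (m * q.asIdeal) ⧸ Wgp σ₂ m q) := by
    have : Finite (primeTo (K := K) (m * q.asIdeal) ⧸ ray σ₂ (m * q.asIdeal)) := hfinC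
    refine Finite.of_surjective (QuotientGroup.map (ray σ₂ (m * q.asIdeal)) (Wgp σ₂ m q)
      (MonoidHom.id _) (ray_le_Wgp m q)) ?_
    intro x
    obtain ⟨x, rfl⟩ := QuotientGroup.mk_surjective x
    exact ⟨QuotientGroup.mk x, rfl⟩
  -- the element
  obtain ⟨z, hz1, hz2, hz3, hz4⟩ := exists_nonsq (σ₂ := σ₂) hm hq hq2
  have hz0 : z ≠ 0 := by
    rintro rfl
    simp at hz2
  have hz0' : (z : K) ≠ 0 := ST.coe_ne_zero' hz0
  have hcop : IsCoprime (Ideal.span {z}) (m * q.asIdeal) := by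
    refine (coprime_span_of_sub_one_mem hz1).mul_right ?_
    rw [isCoprime_comm, coprime_prime_iff, Ideal.dvd_span_singleton]
    exact hz3
  let J₀ : primeTo (K := K) (m * q.asIdeal) :=
    ⟨uP (z : K) hz0', coe_mem_primeTo (by rw [coe_uP, coe_span_singleton]) hcop⟩
  have hJ₀ : ((J₀ : (FI K)ˣ) : FI K) = FractionalIdeal.spanSingleton (𝓞 K)⁰ (z : K) := rfl
  have hJ₀W : J₀ ∉ Wgp σ₂ m q := notMem_Wgp hst hz4 hJ₀
  obtain ⟨ψ, hψ1, hψ2⟩ := exists_char_two (Wgp σ₂ m q) (sq_mem_Wgp m q) hJ₀W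
  let φ : RayClassGroup σ₂ (m * q.asIdeal) →* ℤˣ :=
    QuotientGroup.lift (ray σ₂ (m * q.asIdeal)) ψ (fun J hJ => hψ1 J (ray_le_Wgp m q hJ))
  have hφ : ∀ J, φ (cls σ₂ _ J) = ψ J := fun J => rfl
  have hqn : q.asIdeal ∣ m * q.asIdeal := dvd_mul_left _ _
  have hchar : ∀ (J : primeTo (K := K) (m * q.asIdeal)) (α : K), OneMod m α → 0 < σ₂ α →
    ((J : (FI K)ˣ) : FI K) = FractionalIdeal.spanSingleton (𝓞 K)⁰ α →
    (φ (cls σ₂ _ J) = 1 ↔ LSq q α) := by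
    intro J α h1 h2 h3
    rw [hφ]
    constructor
    · intro h4
      by_contra h5
      have h6 : LSq q (α * z) := lsq_mul_of_not hq2 (val_eq_one_of_primeTo hqn J h3)
        (val_coe_eq_one hz3) h5 hz4
      have h7 : J * J₀ ∈ Wgp σ₂ m q := mem_Wgp.2 ⟨α * z, 1, h1.mul (oneMod_of_sub_one_mem hz1), by
        rw [map_mul]; exact mul_pos h2 hz2, h6, by
        rw [Subgroup.coe_mul, Units.val_mul, h3, hJ₀,
          FractionalIdeal.spanSingleton_mul_spanSingleton]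
        simp⟩
      have h8 := hψ1 _ h7
      rw [map_mul, h4, one_mul] at h8
      exact hψ2 h8
    · intro h4
      exact hψ1 _ (mem_Wgp.2 ⟨α, 1, h1, h2, h4, by rw [h3]; simp⟩)
  -- Hilbert 90
  let f : (H ≃ₐ[K] H) → Hˣ := fun σ => Units.map (Int.castRingHom H : ℤ →* H) (φ (Art.symm σ))
  have hfc : groupCohomology.IsMulCocycle₁ f := by
    intro σ τ
    apply Units.ext
    have h1 : (((σ • f τ : Hˣ) : H)) = σ ((f τ : Hˣ) : H) := rfl
    rw [Units.val_mul, h1]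
    simp only [f, Units.coe_map, MonoidHom.coe_coe, map_mul, Units.val_mul, eq_intCast,
      map_intCast]
    ring
  obtain ⟨β, hβ⟩ := groupCohomology.isMulCoboundary₁_of_isMulCocycle₁_of_aut_to_units f hfc
  have hβ' : ∀ σ : H ≃ₐ[K] H, σ (β : H) = (((φ (Art.symm σ) : ℤˣ) : ℤ) : H) * (β : H) := by
    intro σ
    have h1 := congrArg Units.val (div_eq_iff_eq_mul.1 (hβ σ))
    rw [Units.val_mul] at h1
    exact h1
  have hsq1 : ∀ u : ℤˣ, ((u : ℤ) : H) ^ 2 = 1 := by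
    intro u
    rw [← Int.cast_pow, ← Units.val_pow_eq_pow_val, Int.units_sq]
    simp
  obtain ⟨d, hd⟩ : ∃ d : K, algebraMap K H d = (β : H) ^ 2 := by
    have h1 : (β : H) ^ 2 ∈ (⊥ : IntermediateField K H) := by
      rw [IsGalois.mem_bot_iff_fixed]
      intro σ
      rw [map_pow, hβ', mul_pow, hsq1, one_mul]
    rw [IntermediateField.mem_bot] at h1
    exact h1
  refine ⟨φ, ((β : H) : ℝ), d, hH, (β : H).2, ?_, ?_, ?_, hchar⟩
  · intro h0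
    apply β.ne_zero
    exact Subtype.ext h0
  · have h1 := congrArg (fun x : H => (x : ℝ)) hd
    exact h1.symm
  · intro A
    rw [act_coe, hβ' (Art A), MulEquiv.symm_apply_apply]
    push_cast
    rfl

/-- Frobenius elements and `θ` -/
lemma Dat.und_prime {m : Ideal (𝓞 K)} {q : PrI K} {H : IntermediateField K ℝ}
    {Art : RayClassGroup σ₂ (m * q.asIdeal) ≃* (H ≃ₐ[K] H)}
    {φ : RayClassGroup σ₂ (m * q.asIdeal) →* ℤˣ} {θ : ℝ} {d : K} (h : Dat σ₂ m q H Art φ θ d)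
    {P : PrI K} (hP : ¬ P.asIdeal ∣ m) (hPq : P ≠ q) :
    SqAt P d ∧ (∀ β : 𝓞 K, P.asIdeal = Ideal.span {β} → β - 1 ∈ m →
      0 < σ₂ (β : K) → LSq q (β : K) → (2 : 𝓞 K) ∉ P.asIdeal → LSq P d) := by
  have hfd := h.rcf.finite
  have hgal := h.rcf.galois
  have hnf := numberField_of_fd H
  have hPn : ¬ P.asIdeal ∣ m * q.asIdeal := by
    intro hd
    rcases dvd_mul_prime hd with h1 | h1
    · exact hP h1
    · exact hPq h1
  obtain ⟨P', hP'⟩ := exists_ovr (K := K) (L := H) P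
  obtain ⟨hun, hfr⟩ := h.rcf.isRCF.frobP P' (by simp) (prJ _ P hPn) (by rw [coe_prJ, hP'])
  have hy : (⟨θ, h.mem⟩ : H) ^ 2 = algebraMap K H d := Subtype.ext h.sq
  have h1 : SqAt (und K P') d := sqAt_of_unram h.ne_zero hy
  refine ⟨hP' ▸ h1, ?_⟩
  intro β hPβ hβm hβ0 hβq h2
  have hfix : φ (cls σ₂ _ (prJ _ P hPn)) = 1 := by
    rw [h.char (prJ _ P hPn) (β : K) (oneMod_of_sub_one_mem hβm) hβ0
      (by rw [coe_prJ, hPβ, coe_span_singleton])]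
    exact hβq
  have h3 := h.act (cls σ₂ _ (prJ _ P hPn))
  rw [hfix, act_of_mem _ h.mem] at h3
  have h4 : (Art (cls σ₂ _ (prJ _ P hPn))) (⟨θ, h.mem⟩ : H) = ⟨θ, h.mem⟩ := by
    apply Subtype.ext
    rw [h3]
    simp
  have h5 := lsq_of_frob (by rw [hP']; exact h2) hfr h1 hy h4
  rwa [hP'] at h5

/-- injectivity -/
lemma Dat.inj {m : Ideal (𝓞 K)} (hm : m ≠ ⊥)
    (hH : ∀ n : Ideal (𝓞 K), n ≠ ⊥ → n ≤ m → ∃ (H : IntermediateField K ℝ)
      (Art : RayClassGroup σ₂ n ≃* (H ≃ₐ[K] H)), IsRayClassField σ₂ n H Art)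
    {q q' : PrI K} (hqq : q ≠ q') (hq' : ¬ q'.asIdeal ∣ m)
    (hq2' : (2 : 𝓞 K) ∉ q'.asIdeal)
    {H : IntermediateField K ℝ}
    {Art : RayClassGroup σ₂ (m * q.asIdeal) ≃* (H ≃ₐ[K] H)}
    {φ : RayClassGroup σ₂ (m * q.asIdeal) →* ℤˣ} {θ : ℝ} {d : K} (h : Dat σ₂ m q H Art φ θ d)
    {H' : IntermediateField K ℝ}
    {Art' : RayClassGroup σ₂ (m * q'.asIdeal) ≃* (H' ≃ₐ[K] H')}
    {φ' : RayClassGroup σ₂ (m * q'.asIdeal) →* ℤˣ} {θ' : ℝ} {d' : K}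
    (h' : Dat σ₂ m q' H' Art' φ' θ' d') {t s s' : K} (hs : s ≠ 0) (hd : d = t * s ^ 2)
    (hd' : d' = t * s' ^ 2) : False := by
  have hn0 : m * q.asIdeal ≠ ⊥ := mul_ne_bot' hm q.ne_bot
  have hnm : m * q.asIdeal ≤ m := Ideal.mul_le_left
  have hq'n : ¬ q'.asIdeal ∣ m * q.asIdeal := by
    intro hd
    rcases dvd_mul_prime hd with h1 | h1
    · exact hq' h1
    · exact hqq h1.symm
  set n₂ : Ideal (𝓞 K) := m * q.asIdeal * q'.asIdeal with hn₂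
  have hn₂0 : n₂ ≠ ⊥ := mul_ne_bot' hn0 q'.ne_bot
  have hle : n₂ ≤ m * q.asIdeal := Ideal.mul_le_left
  have hle' : n₂ ≤ m * q'.asIdeal := by
    rw [hn₂, mul_right_comm]
    exact Ideal.mul_le_left
  obtain ⟨H₂, Art₂, hH₂⟩ := hH n₂ hn₂0 (hle.trans hnm)
  have hfd := hH₂.finite
  have hgal := hH₂.galois
  have hg1 := h.rcf.galois
  have hg2 := h'.rcf.galois
  have i1 : H ≤ H₂ :=
    IsRCF.le hle hn₂0 Set.finite_empty Set.finite_empty hH₂.isRCF h.rcf.isRCF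
  have i2 : H' ≤ H₂ :=
    IsRCF.le hle' hn₂0 Set.finite_empty Set.finite_empty hH₂.isRCF h'.rcf.isRCF
  obtain ⟨z, hz1, hz2, hz3, hz4⟩ := exists_nonsq (σ₂ := σ₂) hn0 hq'n hq2'
  have hz0 : z ≠ 0 := by
    rintro rfl
    simp at hz2
  have hz0' : (z : K) ≠ 0 := ST.coe_ne_zero' hz0
  have hcop : IsCoprime (Ideal.span {z}) n₂ := by
    refine (coprime_span_of_sub_one_mem hz1).mul_right ?_
    rw [isCoprime_comm, coprime_prime_iff, Ideal.dvd_span_singleton]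
    exact hz3
  let J : primeTo (K := K) n₂ :=
    ⟨uP (z : K) hz0', coe_mem_primeTo (by rw [coe_uP, coe_span_singleton]) hcop⟩
  have hJ : ((J : (FI K)ˣ) : FI K) = FractionalIdeal.spanSingleton (𝓞 K)⁰ (z : K) := rfl
  set σ := Art₂ (cls σ₂ n₂ J) with hσ
  have hzm : OneMod m (z : K) := oneMod_of_sub_one_mem (hnm hz1)
  have a1 : ST.act σ θ = θ := by
    rw [← act_res i1 σ h.mem, hσ,
      IsRCF.res_art hle hn₂0 Set.finite_empty Set.finite_empty hH₂.isRCF h.rcf.isRCF, pr_cls,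
      h.act]
    have h1 : φ (cls σ₂ (m * q.asIdeal) (inc hle J)) = 1 := by
      rw [h.char (inc hle J) (z : K) hzm hz2 (by rw [coe_inc, hJ])]
      exact lsq_of_oneMod (dvd_mul_left q.asIdeal m) (oneMod_of_sub_one_mem hz1)
    rw [h1]
    simp
  have a2 : ST.act σ θ' = -θ' := by
    rw [← act_res i2 σ h'.mem, hσ,
      IsRCF.res_art hle' hn₂0 Set.finite_empty Set.finite_empty hH₂.isRCF h'.rcf.isRCF, pr_cls,
      h'.act]
    have h1 : φ' (cls σ₂ _ (inc hle' J)) ≠ 1 := by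
      rw [Ne, h'.char (inc hle' J) (z : K) hzm hz2 (by rw [coe_inc, hJ])]
      exact hz4
    rcases Int.units_eq_one_or (φ' (cls σ₂ _ (inc hle' J))) with h2 | h2
    · exact absurd h2 h1
    · rw [h2]
      simp
  have e0 : algebraMap K ℝ s ∈ H₂ := H₂.algebraMap_mem s
  have e0' : algebraMap K ℝ s' ∈ H₂ := H₂.algebraMap_mem s'
  have m1 : θ ∈ H₂ := i1 h.mem
  have m2 : θ' ∈ H₂ := i2 h'.mem
  have e1 : (θ' * algebraMap K ℝ s) ^ 2 = (θ * algebraMap K ℝ s') ^ 2 := by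
    rw [mul_pow, mul_pow, h.sq, h'.sq, hd, hd', map_mul, map_mul, map_pow, map_pow]
    ring
  have hs0 : algebraMap K ℝ s ≠ 0 := by
    rwa [Ne, map_eq_zero]
  have key : θ' * algebraMap K ℝ s = -(θ' * algebraMap K ℝ s) := by
    rcases sq_eq_sq_iff_eq_or_eq_neg.1 e1 with h1 | h1
    · have h2 := congrArg (ST.act σ) h1
      rw [act_mul σ m2 e0, act_mul σ m1 e0', a1, a2, act_algebraMap, act_algebraMap] at h2
      linarith
    · have h2 := congrArg (ST.act σ) h1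
      rw [act_mul σ m2 e0, act_neg σ (mul_mem m1 e0'), act_mul σ m1 e0', a1, a2, act_algebraMap,
        act_algebraMap] at h2
      linarith
  have h3 : θ' * algebraMap K ℝ s = 0 := by linarith
  rcases mul_eq_zero.1 h3 with h4 | h4
  · exact h'.ne h4
  · exact hs0 h4

/-- **C2.** Existence of the quadratic extensions `K(θ_q)` for all `q` splitting in finitely many given
quadratic extensions, up to finitely many `q`. -/
theorem exists_fine {σ₂ : K →+* ℝ} (_h2 : Module.finrank ℚ K = 2) (_hσ : σ₂ ≠ sg1 K)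
    {m : Ideal (𝓞 K)} (hm : m ≠ ⊥)
    (hm2 : ∀ v : PrI K, (2 : 𝓞 K) ∈ v.asIdeal → v.asIdeal ∣ m)
    (hH : ∀ n : Ideal (𝓞 K), n ≠ ⊥ → n ≤ m → ∃ (H : IntermediateField K ℝ)
      (Art : RayClassGroup σ₂ n ≃* (H ≃ₐ[K] H)), IsRayClassField σ₂ n H Art) :
    ∃ 𝔅 : Finset K, (∀ b ∈ 𝔅, b ≠ 0) ∧ ∃ X : Set (PrI K), X.Finite ∧
      ∀ q : PrI K, q ∉ X → (∀ b ∈ 𝔅, LSq q b) → ∃ (θ : ℝ) (d : K), Fine σ₂ m q θ d := by
  obtain ⟨T, hT0, hT⟩ := exists_reps (M := K) ∅ Set.finite_empty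
  obtain ⟨T', hT'0, hT'⟩ := exists_reps (M := K) {v | v.asIdeal ∣ m} (finite_dvd hm)
  -- the good primes
  have hdat : ∀ q : PrI K, (¬ q.asIdeal ∣ m ∧ ∀ b ∈ T, LSq q b) →
      ∃ (H : IntermediateField K ℝ) (Art : RayClassGroup σ₂ (m * q.asIdeal) ≃* (H ≃ₐ[K] H))
        (φ : RayClassGroup σ₂ (m * q.asIdeal) →* ℤˣ) (θ : ℝ) (d : K),
        Dat σ₂ m q H Art φ θ d := by
    rintro q ⟨hq, hqT⟩
    obtain ⟨H, Art, hHA⟩ := hH (m * q.asIdeal) (mul_ne_bot' hm q.ne_bot) Ideal.mul_le_left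
    refine ⟨H, Art, exists_dat hm hq (fun h => hq (hm2 q h)) ?_ hHA⟩
    intro x hx hxP
    obtain ⟨t, ht, s, hs, rfl⟩ := hT x hx (fun P _ => hxP P)
    rw [LSq.mul_sq hs]
    exact hqT t ht
  choose! H Art φ θ d hD using hdat
  refine ⟨T, hT0, {v | v.asIdeal ∣ m} ∪
    {q | (¬ q.asIdeal ∣ m ∧ ∀ b ∈ T, LSq q b) ∧ SqAt q (d q)}, ?_, ?_⟩
  · refine (finite_dvd hm).union ?_
    -- finiteness of the exceptional set
    have h1 : ∀ q : PrI K, ((¬ q.asIdeal ∣ m ∧ ∀ b ∈ T, LSq q b) ∧ SqAt q (d q)) →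
        ∃ t ∈ T', ∃ s : K, s ≠ 0 ∧ d q = t * s ^ 2 := by
      rintro q ⟨hq, hqd⟩
      apply hT' (d q) (hD q hq).ne_zero
      intro P hP
      by_cases hPq : P = q
      · rw [hPq]; exact hqd
      · exact ((hD q hq).und_prime hP hPq).1
    choose! t ht s hs hts using h1
    refine Set.Finite.of_finite_image (f := t) ?_ ?_
    · refine T'.finite_toSet.subset ?_
      rintro _ ⟨q, hq, rfl⟩
      exact ht q hq
    · intro q hq q' hq' htt
      by_contra hne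
      exact Dat.inj hm hH hne hq'.1.1 (fun h => hq'.1.1 (hm2 q' h)) (hD q hq.1)
        (hD q' hq'.1) (hs q hq) (hts q hq) (by rw [htt]; exact hts q' hq')
  · intro q hqX hqT
    have hqm : ¬ q.asIdeal ∣ m := fun h => hqX (Or.inl h)
    have hq : ¬ q.asIdeal ∣ m ∧ ∀ b ∈ T, LSq q b := ⟨hqm, hqT⟩
    have hDq := hD q hq
    refine ⟨θ q, d q, hqm, hDq.ne_zero, hDq.sq, fun h => hqX (Or.inr ⟨hq, h⟩),
      fun P hP hPq => (hDq.und_prime hP hPq).1, ?_, ?_⟩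
    · intro H₁ Art₁ h₁
      exact IsRCF.le le_rfl (mul_ne_bot' hm q.ne_bot) Set.finite_empty Set.finite_empty h₁.isRCF
        hDq.rcf.isRCF hDq.mem
    · intro P hP hPq β hPβ hβm hβ0 hβq
      exact (hDq.und_prime hP hPq).2 β hPβ hβm hβ0 hβq (fun h => hP (hm2 P h))

end dat

end Pool.Agent.STc
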