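import Pool.Agent.Lib.MP_1ef7cf_nt.RCF2
import Pool.Agent.Lib.MP_1ef7cf_nt_b.GoodA
import Pool.Agent.Lib.MP_1ef7cf_nt_c.Loc

/-!
# The fields `L_ν(r)`
-/

set_option linter.unusedSectionVars false

open NumberField IsDedekindDomain nonZeroDivisors IntermediateField

namespace Pool.Agent.STc

open Pool.Agent.ST Pool.Agent.STb

section split

variable {K : Type*} [Field K] [NumberField K] [Algebra K ℝ]

/-- `q` splits completely in `L` (up to ramification). -/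
def Spl (q : PrI K) (L : IntermediateField K ℝ) : Prop :=
  ∀ P : PrI L, und K P = q → IsFrob K P (1 : L ≃ₐ[K] L)

/-- `q` is unramified in `L`. -/
def Unr (q : PrI K) (L : IntermediateField K ℝ) : Prop :=
  ∀ P : PrI L, und K P = q → Algebra.IsUnramifiedAt (𝓞 K) P.asIdeal

/-- `φ` is the Frobenius element of `q` in `L`. -/
def FrobAt (q : PrI K) (L : IntermediateField K ℝ) (φ : L ≃ₐ[K] L) : Prop :=
  ∀ P : PrI L, und K P = q → IsFrob K P φ

variable {H L M : IntermediateField K ℝ} {q : PrI K}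

lemma exists_over (L : IntermediateField K ℝ) [FiniteDimensional K L] [IsGalois K L] (q : PrI K) :
    ∃ P : PrI L, und K P = q := by
  have := numberField_of_fd L
  exact exists_ovr q

lemma Unr.mono (h : H ≤ L) [FiniteDimensional K L] [IsAbelianGalois K L] (hq : Unr q L) :
    Unr q H := by
  have := fd_of_le h
  have : IsAbelianGalois K H := isAbelianGalois_of_le h
  intro P₁ hP₁
  obtain ⟨P, hP, h1, -⟩ := isFrob_res' h P₁
  exact h1 (hq P (by rw [hP, hP₁]))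

lemma FrobAt.res [Normal K H] (h : H ≤ L) [FiniteDimensional K L] [FiniteDimensional K H]
    {φ : L ≃ₐ[K] L} (hq : FrobAt q L φ) : FrobAt q H (ST.res h φ) := by
  intro P₁ hP₁
  obtain ⟨P, hP, -, h1⟩ := isFrob_res' h P₁
  exact h1 φ (hq P (by rw [hP, hP₁]))

lemma Spl.mono (h : H ≤ L) [FiniteDimensional K L] [IsAbelianGalois K L] (hq : Spl q L) :
    Spl q H := by
  have := fd_of_le h
  have : IsAbelianGalois K H := isAbelianGalois_of_le h
  have h1 := FrobAt.res h hq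
  rwa [map_one] at h1

lemma FrobAt.unique [FiniteDimensional K L] [IsGalois K L] (hu : Unr q L) {φ ψ : L ≃ₐ[K] L}
    (h : FrobAt q L φ) (h' : FrobAt q L ψ) : φ = ψ := by
  have := numberField_of_fd L
  obtain ⟨P, hP⟩ := exists_over L q
  have := hu P hP
  exact isFrob_unique (h P hP) (h' P hP)

lemma FrobAt.spl_iff [FiniteDimensional K L] [IsGalois K L] (hu : Unr q L) {φ : L ≃ₐ[K] L}
    (h : FrobAt q L φ) : Spl q L ↔ φ = 1 := by
  constructor
  · intro h1; exact h.unique hu h1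
  · rintro rfl; exact h

/-- all Frobenius elements over `q` agree in an abelian extension -/
lemma frobAt_of_isFrob [FiniteDimensional K L] [IsAbelianGalois K L] {P : PrI L} {φ : L ≃ₐ[K] L}
    (h : IsFrob K P φ) : FrobAt (und K P) L φ := by
  have := numberField_of_fd L
  intro P' hP'
  obtain ⟨g, rfl⟩ := exists_pg (K := K) hP'.symm
  intro x
  have h1 := h (g⁻¹ • x)
  have h2 : (und K (pg g P)) = und K P := und_pg g P
  rw [h2]
  rw [mem_pg, smul_sub, smul_pow']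
  have h3 : g⁻¹ • φ • x = φ • g⁻¹ • x := by
    rw [smul_smul, smul_smul, mul_comm' g⁻¹ φ]
  rw [h3]
  exact h1

/-- Frobenius elements in subfields of ray class fields. -/
lemma frobAt_rcf {σ₂ : K →+* ℝ} {n : Ideal (𝓞 K)} {Art : RayClassGroup σ₂ n ≃* (H ≃ₐ[K] H)}
    (hr : IsRayClassField σ₂ n H Art) (hq : ¬ q.asIdeal ∣ n) :
    Unr q H ∧ FrobAt q H (Art (cls σ₂ n (prJ n q hq))) := by
  constructor
  · intro P hP
    exact (hr.isRCF.frobP P (by simp) (prJ n q hq) (by rw [coe_prJ, hP])).1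
  · intro P hP
    exact (hr.isRCF.frobP P (by simp) (prJ n q hq) (by rw [coe_prJ, hP])).2

end split

section ll

variable {K : Type*} [Field K] [Algebra K ℝ]

/-- The fields `L_ν(r) = H(cc ν, θ_q : q ∈ r)`. -/
noncomputable def LL {ι : Type*} (H : IntermediateField K ℝ) (θ : ι → ℝ) (ν : ℕ) (r : Finset ι) :
    IntermediateField K ℝ := twK H ν ⊔ adjoin K (θ '' r)

variable {ι : Type*} {H M : IntermediateField K ℝ} {θ : ι → ℝ} {ν ν' : ℕ} {r r' : Finset ι} {q : ι}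

lemma LL_le (h : H ≤ M) (hc : cc ν ∈ M) (hr : ∀ q ∈ r, θ q ∈ M) : LL H θ ν r ≤ M := by
  apply sup_le (twK_le h hc)
  rw [adjoin_le_iff]
  rintro x ⟨q, hq, rfl⟩
  exact hr q hq

lemma twK_le_LL (H : IntermediateField K ℝ) (θ : ι → ℝ) (ν : ℕ) (r : Finset ι) :
    twK H ν ≤ LL H θ ν r := le_sup_left

lemma le_LL (H : IntermediateField K ℝ) (θ : ι → ℝ) (ν : ℕ) (r : Finset ι) :
    H ≤ LL H θ ν r := (le_twK H ν).trans le_sup_left

lemma cc_mem_LL (H : IntermediateField K ℝ) (θ : ι → ℝ) (ν : ℕ) (r : Finset ι) :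
    cc ν ∈ LL H θ ν r := twK_le_LL H θ ν r (cc_mem_twK H ν)

lemma theta_mem_LL (hq : q ∈ r) : θ q ∈ LL H θ ν r :=
  (le_sup_right : adjoin K (θ '' r) ≤ _) (subset_adjoin K _ ⟨q, hq, rfl⟩)

lemma LL_mono (hν : ν ≤ ν') (hr : r ⊆ r') : LL H θ ν r ≤ LL H θ ν' r' :=
  LL_le (le_LL _ _ _ _) (cc_mem_of_le (cc_mem_LL H θ ν' r') hν)
    (fun _ hq => theta_mem_LL (hr hq))

lemma LL_empty : LL H θ ν (∅ : Finset ι) = twK H ν := by
  apply le_antisymm
  · exact LL_le (le_twK H ν) (cc_mem_twK H ν) (by simp)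
  · exact twK_le_LL H θ ν ∅

lemma LL_insert_le [DecidableEq ι] : LL H θ ν (insert q r) ≤ LL H θ ν r ⊔ K⟮θ q⟯ := by
  apply LL_le ((le_LL H θ ν r).trans le_sup_left)
  · exact (le_sup_left : LL H θ ν r ≤ _) (cc_mem_LL H θ ν r)
  · intro q' hq'
    rcases Finset.mem_insert.1 hq' with rfl | h
    · exact (le_sup_right : K⟮θ q'⟯ ≤ _) (mem_adjoin_simple_self K _)
    · exact (le_sup_left : LL H θ ν r ≤ _) (theta_mem_LL h)

lemma LL_succ_le : LL H θ (ν + 1) r ≤ LL H θ ν r ⊔ K⟮cc (ν + 1)⟯ := by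
  apply LL_le ((le_LL H θ ν r).trans le_sup_left)
  · exact (le_sup_right : K⟮cc (ν + 1)⟯ ≤ _) (mem_adjoin_simple_self K _)
  · intro q' hq'
    exact (le_sup_left : LL H θ ν r ≤ _) (theta_mem_LL hq')

end ll

section quad

variable {K : Type*} [Field K] [Algebra K ℝ] {L L' : IntermediateField K ℝ} {θ : ℝ}

/-- The fibre of a quadratic extension. -/
lemma exists_quad (h : L ≤ L') (hθ : θ ∈ L') (hsup : L' ≤ L ⊔ K⟮θ⟯) (h2 : θ ^ 2 ∈ L) (hn : θ ∉ L)
    [FiniteDimensional K L'] [IsAbelianGalois K L'] [Normal K L] :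
    ∃ σ : L' ≃ₐ[K] L', act σ θ = -θ ∧ (∀ x ∈ L, act σ x = x) ∧ σ ≠ 1 ∧
      ∀ u : ℝ, u ∈ L' → fibProd h u 1 = u * act σ u := by
  classical
  obtain ⟨τ, hτ1, hτ2⟩ : ∃ τ : L' ≃ₐ[K] L', (∀ y ∈ L, act τ y = y) ∧ act τ θ ≠ θ := by
    by_contra hcon
    push Not at hcon
    exact hn (mem_of_fixed h hθ hcon)
  have hsq : ∀ τ : L' ≃ₐ[K] L', (∀ y ∈ L, act τ y = y) → act τ θ = θ ∨ act τ θ = -θ := by
    intro τ hτ
    have h1 : (act τ θ) ^ 2 = θ ^ 2 := by
      rw [← act_pow τ hθ]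
      exact hτ _ h2
    exact sq_eq_sq_iff_eq_or_eq_neg.1 h1
  have huniq : ∀ τ τ' : L' ≃ₐ[K] L', (∀ y ∈ L, act τ y = y) →
      (∀ y ∈ L, act τ' y = y) → act τ θ = act τ' θ → τ = τ' := by
    intro τ τ' h1 h2 h3
    apply eq_of_eq_on_sup (L₁ := L) (L₂ := K⟮θ⟯) hsup h
      (by rw [adjoin_simple_le_iff]; exact hθ)
    · intro x hx; rw [h1 x hx, h2 x hx]
    · have hle2 : K⟮θ⟯ ≤ eqField τ τ' := by
        rw [adjoin_simple_le_iff]; exact ⟨hθ, h3⟩
      intro x hx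
      exact (hle2 hx).2
  have hτ3 : act τ θ = -θ := (hsq τ hτ1).resolve_left hτ2
  have hτne : τ ≠ 1 := by
    rintro rfl
    exact hτ2 (act_one_left hθ)
  refine ⟨τ, hτ3, hτ1, hτne, fun u hu => ?_⟩
  have hfib : fib h (1 : L ≃ₐ[K] L) = {1, τ} := by
    ext δ
    rw [mem_fib, res_eq_one_iff, Finset.mem_insert, Finset.mem_singleton]
    constructor
    · intro hδ
      rcases hsq δ hδ with h1 | h1
      · left
        apply huniq δ 1 hδ
        · intro y hy; exact act_one_left (h hy)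
        · rw [h1, act_one_left hθ]
      · right
        apply huniq δ τ hδ hτ1
        rw [h1, hτ3]
    · rintro (rfl | rfl)
      · intro y hy; exact act_one_left (h hy)
      · exact hτ1
  unfold fibProd
  rw [hfib, Finset.prod_pair (Ne.symm hτne), act_one_left hu]

/-- Elements of a quadratic extension. -/
lemma mem_quad (hθ : θ ^ 2 ∈ L) (hn : θ ∉ L) {x : ℝ} (hx : x ∈ L ⊔ K⟮θ⟯) :
    ∃ a ∈ L, ∃ b ∈ L, x = a + b * θ := by
  have h1 : rs (L ⊔ K⟮θ⟯) = ext (rs L) θ := rs_sup_adjoin L θ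
  have h2 : x ∈ rs (L ⊔ K⟮θ⟯) := hx
  rw [h1] at h2
  exact (mem_ext_iff (E := rs L) hθ hn).1 h2

end quad

end Pool.Agent.STc
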