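import Pool.Agent.Lib.MP_1ef7cf_nt.Gen
import Pool.Agent.Lib.MP_1ef7cf_nt_b.Chain

/-!
# Reduction modulo primes, for real numbers
-/

set_option linter.unusedSectionVars false

open NumberField IsDedekindDomain nonZeroDivisors IntermediateField

namespace Pool.Agent.STc

open Pool.Agent.ST Pool.Agent.STb

variable {K : Type*} [Field K] [NumberField K] [Algebra K ℝ]

section rd

variable {H L : IntermediateField K ℝ}

/-- an algebraic integer of `L` -/
def IsInt (L : IntermediateField K ℝ) (x : ℝ) : Prop := x ∈ L ∧ IsIntegral ℤ x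

lemma IsInt.mono (h : H ≤ L) {x : ℝ} (hx : IsInt H x) : IsInt L x := ⟨h hx.1, hx.2⟩

lemma IsInt.mul {x y : ℝ} (hx : IsInt L x) (hy : IsInt L y) : IsInt L (x * y) :=
  ⟨mul_mem hx.1 hy.1, hx.2.mul hy.2⟩

lemma IsInt.add {x y : ℝ} (hx : IsInt L x) (hy : IsInt L y) : IsInt L (x + y) :=
  ⟨add_mem hx.1 hy.1, hx.2.add hy.2⟩

lemma IsInt.sub {x y : ℝ} (hx : IsInt L x) (hy : IsInt L y) : IsInt L (x - y) :=
  ⟨sub_mem hx.1 hy.1, hx.2.sub hy.2⟩

lemma IsInt.neg {x : ℝ} (hx : IsInt L x) : IsInt L (-x) :=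
  ⟨neg_mem hx.1, hx.2.neg⟩

lemma IsInt.one : IsInt L 1 := ⟨one_mem _, isIntegral_one⟩

lemma IsInt.zero : IsInt L 0 := ⟨zero_mem _, isIntegral_zero⟩

lemma IsInt.natCast (n : ℕ) : IsInt L (n : ℝ) := by
  refine ⟨_root_.natCast_mem _ n, ?_⟩
  exact isIntegral_algebraMap (R := ℤ) (x := (n : ℤ)) |> fun h => by simpa using h

lemma IsInt.two : IsInt L 2 := by exact_mod_cast IsInt.natCast (L := L) 2

lemma IsInt.pow {x : ℝ} (hx : IsInt L x) (n : ℕ) : IsInt L (x ^ n) :=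
  ⟨pow_mem hx.1 n, hx.2.pow n⟩

lemma IsInt.prod {ι : Type*} {s : Finset ι} {f : ι → ℝ} (h : ∀ i ∈ s, IsInt L (f i)) :
    IsInt L (∏ i ∈ s, f i) :=
  ⟨prod_mem fun i hi => (h i hi).1, IsIntegral.prod _ fun i hi => (h i hi).2⟩

lemma isInt_coe (z : 𝓞 L) : IsInt L ((z : L) : ℝ) :=
  ⟨(z : L).2, (RingOfIntegers.isIntegral_coe z).map (algebraMap L ℝ).toIntAlgHom⟩

lemma IsInt.isIntegral' {x : ℝ} (hx : IsInt L x) : IsIntegral ℤ (⟨x, hx.1⟩ : L) :=
  (isIntegral_algebraMap_iff (R := ℤ) (A := L) (B := ℝ) (algebraMap L ℝ).injective).1 hx.2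

/-- the corresponding element of the ring of integers -/
def IsInt.toO {x : ℝ} (hx : IsInt L x) : 𝓞 L := ⟨⟨x, hx.1⟩, hx.isIntegral'⟩

lemma IsInt.coe_toO {x : ℝ} (hx : IsInt L x) : ((hx.toO : L) : ℝ) = x := rfl

lemma IsInt.toO_mul {x y : ℝ} (hx : IsInt L x) (hy : IsInt L y) :
    (hx.mul hy).toO = hx.toO * hy.toO := rfl

lemma IsInt.toO_add {x y : ℝ} (hx : IsInt L x) (hy : IsInt L y) :
    (hx.add hy).toO = hx.toO + hy.toO := rfl

lemma IsInt.toO_sub {x y : ℝ} (hx : IsInt L x) (hy : IsInt L y) :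
    (hx.sub hy).toO = hx.toO - hy.toO := rfl

lemma IsInt.act {x : ℝ} (hx : IsInt L x) (σ : L ≃ₐ[K] L) : IsInt L (act σ x) := by
  have h1 : ST.act σ x = ((σ • hx.toO : 𝓞 L) : L) := by
    rw [act_of_mem σ hx.1]
    rfl
  rw [h1]
  exact isInt_coe _

lemma IsInt.toO_act {x : ℝ} (hx : IsInt L x) (σ : L ≃ₐ[K] L) : (hx.act σ).toO = σ • hx.toO := by
  apply RingOfIntegers.coe_injective
  apply Subtype.ext
  rw [IsInt.coe_toO, act_of_mem σ hx.1]
  rfl

open Classical in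
/-- Reduction of a real number modulo a prime of `L`. -/
noncomputable def rd (P : PrI L) (x : ℝ) : 𝓞 L ⧸ P.asIdeal :=
  if hx : IsInt L x then Ideal.Quotient.mk P.asIdeal hx.toO else 0

variable {P : PrI L} {x y : ℝ}

lemma rd_of (hx : IsInt L x) : rd P x = Ideal.Quotient.mk P.asIdeal hx.toO := dif_pos hx

lemma rd_eq_zero_iff (hx : IsInt L x) : rd P x = 0 ↔ hx.toO ∈ P.asIdeal := by
  rw [rd_of hx, Ideal.Quotient.eq_zero_iff_mem]

lemma rd_mul (hx : IsInt L x) (hy : IsInt L y) : rd P (x * y) = rd P x * rd P y := by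
  rw [rd_of hx, rd_of hy, rd_of (hx.mul hy), IsInt.toO_mul, map_mul]

lemma rd_add (hx : IsInt L x) (hy : IsInt L y) : rd P (x + y) = rd P x + rd P y := by
  rw [rd_of hx, rd_of hy, rd_of (hx.add hy), IsInt.toO_add, map_add]

lemma rd_sub (hx : IsInt L x) (hy : IsInt L y) : rd P (x - y) = rd P x - rd P y := by
  rw [rd_of hx, rd_of hy, rd_of (hx.sub hy), IsInt.toO_sub, map_sub]

lemma rd_one : rd P 1 = 1 := by
  rw [rd_of IsInt.one]
  exact map_one _

lemma rd_zero : rd P 0 = 0 := by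
  rw [rd_of IsInt.zero]
  exact map_zero _

lemma rd_neg (hx : IsInt L x) : rd P (-x) = -rd P x := by
  have h := rd_sub (P := P) IsInt.zero hx
  rwa [zero_sub, rd_zero, zero_sub] at h

lemma rd_natCast (n : ℕ) : rd P (n : ℝ) = n := by
  rw [rd_of (IsInt.natCast n)]
  have : (IsInt.natCast (L := L) n).toO = (n : 𝓞 L) := by
    apply RingOfIntegers.coe_injective
    apply Subtype.ext
    rw [IsInt.coe_toO]
    simp
  rw [this, map_natCast]

lemma rd_two : rd P 2 = 2 := by exact_mod_cast rd_natCast (P := P) 2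

lemma rd_pow (hx : IsInt L x) (n : ℕ) : rd P (x ^ n) = rd P x ^ n := by
  induction n with
  | zero => rw [pow_zero, pow_zero, rd_one]
  | succ n ih => rw [pow_succ, pow_succ, rd_mul (hx.pow n) hx, ih]

lemma rd_prod {ι : Type*} {s : Finset ι} {f : ι → ℝ} (h : ∀ i ∈ s, IsInt L (f i)) :
    rd P (∏ i ∈ s, f i) = ∏ i ∈ s, rd P (f i) := by
  classical
  induction s using Finset.induction_on with
  | empty => rw [Finset.prod_empty, Finset.prod_empty, rd_one]
  | insert a s ha ih =>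
    rw [Finset.prod_insert ha, Finset.prod_insert ha,
      rd_mul (h a (Finset.mem_insert_self _ _))
        (IsInt.prod fun i hi => h i (Finset.mem_insert_of_mem hi)),
      ih fun i hi => h i (Finset.mem_insert_of_mem hi)]

lemma rd_frob {φ : L ≃ₐ[K] L} (hφ : IsFrob K P φ) (hx : IsInt L x) :
    rd P (act φ x) = rd P x ^ pn (und K P) := by
  rw [rd_of (hx.act φ), rd_of hx, IsInt.toO_act hx, ← map_pow]
  exact Ideal.Quotient.eq.2 (hφ hx.toO)

lemma rd_ne_zero (hx : IsInt L x) (hx' : IsInt L x⁻¹) (h0 : x ≠ 0) : rd P x ≠ 0 := by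
  intro h
  have h1 := rd_mul (P := P) hx hx'
  rw [mul_inv_cancel₀ h0, rd_one, h, zero_mul] at h1
  have := P.isPrime
  have hnt : Nontrivial (𝓞 L ⧸ P.asIdeal) := Ideal.Quotient.nontrivial_iff.2 P.isPrime.ne_top
  exact one_ne_zero h1

/-- the valuation of `x - y` -/
lemma rd_eq_iff (hx : IsInt L x) (hy : IsInt L y) :
    rd P x = rd P y ↔ rd P (x - y) = 0 := by
  rw [rd_sub hx hy, sub_eq_zero]

lemma rd_eq_zero_iff_val [NumberField L] (hx : IsInt L x) :
    rd P x = 0 ↔ P.valuation L ⟨x, hx.1⟩ < 1 := by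
  rw [rd_eq_zero_iff hx, ← P.valuation_lt_one_iff_mem (K := L)]
  rfl

/-- primes below -/
lemma exists_dn (h : H ≤ L) [FiniteDimensional K L] (P : PrI L) :
    ∃ P₁ : PrI H, und K P₁ = und K P ∧ (∀ x, IsInt H x → (rd P x = 0 ↔ rd P₁ x = 0)) ∧
      (Algebra.IsUnramifiedAt (𝓞 K) P.asIdeal → Algebra.IsUnramifiedAt (𝓞 K) P₁.asIdeal) := by
  have := fd_of_le h
  have := numberField_of_fd H
  have := numberField_of_fd L
  let _ : Algebra H L := (inclusion h).toAlgebra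
  have : IsScalarTower K H L := IsScalarTower.of_algebraMap_eq' rfl
  refine ⟨und H P, und_und P, fun x hx => ?_, fun hun => unramified_und P⟩
  rw [rd_eq_zero_iff hx, rd_eq_zero_iff (hx.mono h)]
  rfl

/-- primes above -/
lemma exists_up (h : H ≤ L) [FiniteDimensional K L] [IsGalois K L] (P₁ : PrI H) :
    ∃ P : PrI L, und K P = und K P₁ ∧ (∀ x, IsInt H x → (rd P x = 0 ↔ rd P₁ x = 0)) ∧
      (Algebra.IsUnramifiedAt (𝓞 K) P.asIdeal → Algebra.IsUnramifiedAt (𝓞 K) P₁.asIdeal) := by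
  have := fd_of_le h
  have := numberField_of_fd H
  have := numberField_of_fd L
  let _ : Algebra H L := (inclusion h).toAlgebra
  have : IsScalarTower K H L := IsScalarTower.of_algebraMap_eq' rfl
  have : IsGalois H L := IsGalois.tower_top_of_isGalois K H L
  obtain ⟨P, hP⟩ := exists_ovr (K := H) (L := L) P₁
  refine ⟨P, by rw [← hP, und_und], fun x hx => ?_, fun hun => ?_⟩
  · rw [rd_eq_zero_iff hx, rd_eq_zero_iff (hx.mono h), ← hP]
    rfl
  · rw [← hP]; exact unramified_und P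

end rd

end Pool.Agent.STc
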