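import Pool.Agent.Lib.MP_1ef7cf_nt_c.Flds
import Pool.Agent.Lib.MP_1ef7cf_nt_c.Red
import Pool.Agent.Lib.MP_1ef7cf_nt_c.Rel

/-!
# The Kolyvagin congruence
-/

set_option linter.unusedSectionVars false

open NumberField IsDedekindDomain nonZeroDivisors IntermediateField

namespace Pool.Agent.STc

open Pool.Agent.ST Pool.Agent.STb

variable {K : Type*} [Field K] [NumberField K] [Algebra K ℝ]

section basic

variable {L L' : IntermediateField K ℝ} {q : PrI K} {θ : ℝ} {d : K}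

lemma theta_notMem [FiniteDimensional K L] [IsGalois K L] (hu : Unr q L)
    (hθ : θ ^ 2 = algebraMap K ℝ d) (hd0 : d ≠ 0) (hd : ¬ SqAt q d) : θ ∉ L := by
  intro hL
  have := numberField_of_fd L
  obtain ⟨P, rfl⟩ := exists_over L q
  have h1 : algebraMap K L d = (⟨θ, hL⟩ : L) ^ 2 := Subtype.ext hθ.symm
  have h0 : (⟨θ, hL⟩ : L) ≠ 0 := by
    intro h
    rw [h, zero_pow (by norm_num)] at h1
    exact hd0 ((map_eq_zero _).1 h1)
  have h2 : SqAt P (algebraMap K L d) := by rw [h1]; exact sqAt_of_sq h0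
  exact hd ((sqAt_iff_unr P (hu P rfl) d).1 h2)

lemma sig_triv [FiniteDimensional K L] [IsGalois K L] [FiniteDimensional K L'] (h : L ≤ L')
    (hL' : L' ≤ L ⊔ K⟮θ⟯) (hu : Unr q L) (hθ : θ ^ 2 = algebraMap K ℝ d) (hd0 : d ≠ 0)
    (hd : ¬ SqAt q d) {σ : L' ≃ₐ[K] L'} (hθL : θ ∈ L') (hσ : act σ θ = -θ)
    (hσ' : ∀ x ∈ L, act σ x = x) {P : PrI L'} (hP : und K P = q) {x : ℝ} (hx : IsInt L' x) :
    rd P (act σ x) = rd P x := by
  have := numberField_of_fd L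
  have hnot := theta_notMem hu hθ hd0 hd
  have hθ2 : θ ^ 2 ∈ L := by rw [hθ]; exact L.algebraMap_mem d
  obtain ⟨a, ha, b, hb, hab⟩ := mem_quad hθ2 hnot (hL' hx.1)
  have h1 : act σ x = a - b * θ := by
    rw [hab, act_add σ (h ha) (mul_mem (h hb) hθL), act_mul σ (h hb) hθL, hσ, hσ' a ha, hσ' b hb]
    ring
  symm
  rw [rd_eq_iff hx (hx.act σ)]
  set z := x - act σ x with hz
  have hz1 : z = 2 * b * θ := by rw [hz, h1, hab]; ring
  have hzi : IsInt L' z := hx.sub (hx.act σ)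
  by_cases hz0 : z = 0
  · rw [hz0, rd_zero]
  have hz2 : z ^ 2 = algebraMap K ℝ d * (2 * b) ^ 2 := by rw [hz1, ← hθ]; ring
  have hz2L : IsInt L (z ^ 2) :=
    ⟨by rw [hz2]; exact mul_mem (L.algebraMap_mem d) (pow_mem (mul_mem (ofNat_mem _ 2) hb) 2),
      (hzi.pow 2).2⟩
  obtain ⟨P₁, hP₁, hiff, -⟩ := exists_dn h P
  have h3 : rd P (z ^ 2) = 0 := by
    rw [hiff _ hz2L, rd_eq_zero_iff_val hz2L]
    refine lt_of_le_of_ne (val_int P₁ hz2L.isIntegral') fun hval => hd ?_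
    have hun := hu P₁ (by rw [hP₁, hP])
    have hsq : SqAt P₁ (algebraMap K L d) := by
      have hb0 : (2 * b : ℝ) ≠ 0 := by
        intro h0; rw [h0] at hz1; exact hz0 (by rw [hz1, zero_mul])
      have e1 : (⟨z ^ 2, hz2L.1⟩ : L) = algebraMap K L d *
          (⟨2 * b, mul_mem (ofNat_mem _ 2) hb⟩ : L) ^ 2 := Subtype.ext hz2
      refine ⟨⟨2 * b, mul_mem (ofNat_mem _ 2) hb⟩, ?_⟩
      rw [← e1]; exact hval
    have h4 := (sqAt_iff_unr P₁ hun d).1 hsq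
    rwa [hP₁, hP] at h4
  rw [rd_pow hzi] at h3
  have := P.isPrime
  exact pow_eq_zero_iff (by norm_num) |>.1 h3

/-- automorphisms of quadratic extensions -/
lemma aut_quad (h : L ≤ L') (hL' : L' ≤ L ⊔ K⟮θ⟯) (hθL : θ ∈ L') {τ τ' : L' ≃ₐ[K] L'}
    (h1 : ∀ x ∈ L, act τ x = act τ' x) (h2 : act τ θ = act τ' θ) : τ = τ' := by
  apply eq_of_eq_on_sup (L₁ := L) (L₂ := K⟮θ⟯) hL' h
    (by rw [adjoin_simple_le_iff]; exact hθL) h1
  have hle2 : K⟮θ⟯ ≤ eqField τ τ' := by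
    rw [adjoin_simple_le_iff]; exact ⟨hθL, h2⟩
  intro x hx
  exact (hle2 hx).2

lemma act_sq_cases (σ : L' ≃ₐ[K] L') (hθL : θ ∈ L') (h2 : act σ (θ ^ 2) = θ ^ 2) :
    act σ θ = θ ∨ act σ θ = -θ := by
  rw [act_pow σ hθL] at h2
  exact sq_eq_sq_iff_eq_or_eq_neg.1 h2

lemma fibProd_mem_base (h : L ≤ L') [FiniteDimensional K L'] [IsAbelianGalois K L']
    [Normal K L] {u : ℝ} (hu : u ∈ L') : fibProd h u 1 ∈ L := by
  apply mem_of_fixed h (fibProd_mem h hu _)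
  intro γ hγ
  rw [act_fibProd h hu, (res_eq_one_iff h γ).2 hγ, one_mul]

end basic

section top

variable {L₁ L₂ L₁' L₂' : IntermediateField K ℝ} {q : PrI K} {θ c : ℝ} {d : K}

/-- a unit of `L` -/
structure IsUn (L : IntermediateField K ℝ) (x : ℝ) : Prop where
  int : IsInt L x
  inv : IsInt L x⁻¹
  ne : x ≠ 0

/-- **Kolyvagin congruence**, the last level where `q` splits completely. -/
theorem kc_top [FiniteDimensional K L₁] [FiniteDimensional K L₂] [FiniteDimensional K L₁']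
    [FiniteDimensional K L₂'] [IsAbelianGalois K L₁] [IsAbelianGalois K L₂]
    [IsAbelianGalois K L₁'] [IsAbelianGalois K L₂']
    (h12 : L₁ ≤ L₂) (h12' : L₁' ≤ L₂') (h1 : L₁ ≤ L₁') (h2 : L₂ ≤ L₂')
    (hL₂ : L₂ ≤ L₁ ⊔ K⟮c⟯) (hL₁' : L₁' ≤ L₁ ⊔ K⟮θ⟯) (hL₂' : L₂' ≤ L₂ ⊔ K⟮θ⟯)
    (hL₂'' : L₂' ≤ L₁' ⊔ K⟮c⟯) (hc : c ∈ L₂) (hc2 : c ^ 2 ∈ L₁) (hθL : θ ∈ L₁')
    (hθ : θ ^ 2 = algebraMap K ℝ d) (hd0 : d ≠ 0) (hd : ¬ SqAt q d)
    (hodd : Odd (pn q)) (hu : Unr q L₂) (hs : Spl q L₁) {φ : L₂ ≃ₐ[K] L₂} (hφ : FrobAt q L₂ φ)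
    (hφ1 : φ ≠ 1) {Y₁ Y₂ y₁ y₂ : ℝ} (hY₂ : IsUn L₂ Y₂) (hy₂ : IsUn L₂' y₂)
    (n1 : fibProd h2 y₂ 1 = Y₂ / act φ⁻¹ Y₂) (n2 : fibProd h12 Y₂ 1 = Y₁)
    (n3 : fibProd h12' y₂ 1 = y₁) {P : PrI L₁'} (hP : und K P = q) :
    rd P y₁ = rd P Y₁ ^ ((pn q - 1) / 2) := by
  have hθ2 : θ ^ 2 ∈ L₂ := by rw [hθ]; exact L₂.algebraMap_mem d
  have hθ1 : θ ^ 2 ∈ L₁ := by rw [hθ]; exact L₁.algebraMap_mem d
  have hθn := theta_notMem hu hθ hd0 hd
  have hu1 := hu.mono h12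
  have hφL₁ : ∀ x ∈ L₁, act φ x = x := by
    have h3 : res h12 φ = 1 := (hφ.res h12).unique hu1 hs
    exact (res_eq_one_iff h12 φ).1 h3
  -- c
  have hφc : act φ c = -c := by
    rcases act_sq_cases φ hc (hφL₁ _ hc2) with h3 | h3
    · exfalso
      apply hφ1
      apply aut_quad h12 hL₂ hc
      · intro x hx; rw [hφL₁ x hx, act_one_left (h12 hx)]
      · rw [h3, act_one_left hc]
    · exact h3
  have hc0 : c ≠ 0 := by
    rintro rfl
    apply hφ1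
    apply aut_quad h12 hL₂ hc
    · intro x hx; rw [hφL₁ x hx, act_one_left (h12 hx)]
    · rw [hφc, act_one_left hc, neg_zero]
  have hcn : c ∉ L₁ := by
    intro h3
    have h4 := hφL₁ c h3
    rw [hφc] at h4
    apply hc0; linarith
  have hcn' : c ∉ L₁' := by
    intro h3
    obtain ⟨a, ha, b, hb, hab⟩ := mem_quad hθ1 (fun h => hθn (h12 h)) (hL₁' h3)
    have hb0 : b ≠ 0 := by
      rintro rfl
      rw [zero_mul, add_zero] at hab
      exact hcn (by rw [hab]; exact ha)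
    apply hθn
    have : θ = (c - a) / b := by rw [hab]; field_simp; ring
    rw [this]
    exact div_mem (sub_mem hc (h12 ha)) (h12 hb)
  have hc2' : c ^ 2 ∈ L₁' := h1 hc2
  -- the automorphisms
  obtain ⟨σ, hσ1, hσ2, -, hσN⟩ := exists_quad h2 (h12' hθL) hL₂' hθ2 hθn
  obtain ⟨t, ht1, ht2, -, htN⟩ := exists_quad h12' (h2 hc) hL₂'' hc2' hcn'
  obtain ⟨ψ, hψ1, hψ2, -, hψN⟩ := exists_quad h12 hc hL₂ hc2 hcn
  have hψφ : ψ = φ := by
    apply aut_quad h12 hL₂ hc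
    · intro x hx; rw [hψ2 x hx, hφL₁ x hx]
    · rw [hψ1, hφc]
  subst hψφ
  -- φ² = 1
  have hφ2 : ψ⁻¹ = ψ := by
    apply aut_quad h12 hL₂ hc
    · intro x hx
      rw [hφL₁ x hx]
      have := act_inv_act ψ (h12 hx)
      rwa [hφL₁ x hx] at this
    · have h3 : act ψ⁻¹ (act ψ c) = c := act_inv_act ψ hc
      rw [hφc, act_neg _ hc] at h3
      rw [hφc]; linarith
  obtain ⟨P₂, hP₂, hiff, -⟩ := exists_up h12' P
  have hP₂q : und K P₂ = q := by rw [hP₂, hP]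
  have := P₂.isPrime
  -- Frobenius at P₂
  have := numberField_of_fd L₂'
  obtain ⟨F, hF⟩ := exists_isFrob (K := K) P₂
  have hFq : FrobAt q L₂' F := by rw [← hP₂q]; exact frobAt_of_isFrob hF
  have hFres : res h2 F = ψ := (hFq.res h2).unique hu hφ
  have hF2 : ∀ x ∈ L₂, act F x = act ψ x := by
    intro x hx
    rw [← hFres, act_res h2 F hx]
  have key : ∀ x, IsInt L₂' x → rd P₂ (act t x) = rd P₂ x ^ pn q := by
    intro x hx
    have h3 : rd P₂ (act F x) = rd P₂ x ^ pn q := by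
      rw [← hP₂q]; exact rd_frob hF hx
    rw [← h3]
    have hθL2 : θ ∈ L₂' := h12' hθL
    rcases act_sq_cases F hθL2 (by rw [hF2 _ hθ2]; exact hφL₁ _ hθ1) with h4 | h4
    · -- F = t
      have : F = t := by
        apply aut_quad h12' hL₂'' (h2 hc)
        · intro z hz
          rw [ht2 z hz]
          obtain ⟨a, ha, b, hb, hab⟩ := mem_quad hθ1 (fun h => hθn (h12 h)) (hL₁' hz)
          have ha' : a ∈ L₂' := h2 (h12 ha)
          have hb' : b ∈ L₂' := h2 (h12 hb)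
          rw [hab, act_add F ha' (mul_mem hb' hθL2), act_mul F hb' hθL2, h4, hF2 a (h12 ha),
            hF2 b (h12 hb), hφL₁ a ha, hφL₁ b hb]
        · rw [hF2 c hc, hφc, ht1]
      rw [this]
    · -- F = σ t
      have : F = σ * t := by
        apply aut_quad h12' hL₂'' (h2 hc)
        · intro z hz
          rw [act_comp σ t (h12' hz), ht2 z hz]
          obtain ⟨a, ha, b, hb, hab⟩ := mem_quad hθ1 (fun h => hθn (h12 h)) (hL₁' hz)
          have ha' : a ∈ L₂' := h2 (h12 ha)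
          have hb' : b ∈ L₂' := h2 (h12 hb)
          rw [hab, act_add F ha' (mul_mem hb' hθL2), act_mul F hb' hθL2, h4, hF2 a (h12 ha),
            hF2 b (h12 hb), hφL₁ a ha, hφL₁ b hb, act_add σ ha' (mul_mem hb' hθL2),
            act_mul σ hb' hθL2, hσ1, hσ2 a (h12 ha), hσ2 b (h12 hb)]
        · rw [hF2 c hc, hφc, act_comp σ t (h2 hc), ht1, act_neg σ (h2 hc), hσ2 c hc]
      rw [this, act_comp σ t hx.1]
      exact (sig_triv h2 hL₂' hu hθ hd0 hd hθL2 hσ1 hσ2 hP₂q (hx.act t)).symm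
  -- the computation
  set a := act ψ⁻¹ Y₂ with ha
  have haU : IsInt L₂ a := hY₂.int.act _
  have haU' : IsInt L₂ a⁻¹ := by
    have h3 := hY₂.inv.act ψ⁻¹
    rwa [act_inv _ hY₂.int.1, ← ha] at h3
  have ha0 : a ≠ 0 := act_ne_zero _ hY₂.int.1 hY₂.ne
  have e1 : y₂ * act σ y₂ * a = Y₂ := by
    rw [hσN y₂ hy₂.int.1] at n1
    rw [n1]; field_simp
  have e2 : Y₂ = act ψ a := by rw [ha, act_act_inv ψ hY₂.int.1]
  have haL : IsInt L₂' a := haU.mono h2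
  have e3 : rd P₂ (act F a) = rd P₂ a ^ pn q := by rw [← hP₂q]; exact rd_frob hF haL
  rw [hF2 a haU.1, ← e2] at e3
  have e4 : rd P₂ (y₂ * act σ y₂ * a) = rd P₂ y₂ ^ 2 * rd P₂ a := by
    rw [rd_mul (hy₂.int.mul (hy₂.int.act σ)) haL, rd_mul hy₂.int (hy₂.int.act σ),
      sig_triv h2 hL₂' hu hθ hd0 hd (h12' hθL) hσ1 hσ2 hP₂q hy₂.int, pow_two]
  rw [e1, e3] at e4
  have hra : rd P₂ a ≠ 0 := rd_ne_zero haL (haU'.mono h2) ha0
  obtain ⟨k, hk⟩ := hodd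
  have e5 : rd P₂ y₂ ^ 2 = rd P₂ a ^ (2 * k) := by
    apply mul_right_cancel₀ hra
    rw [← e4, hk, pow_succ]
  have e6 : y₁ = y₂ * act t y₂ := by rw [← n3, htN y₂ hy₂.int.1]
  have e7 : rd P₂ y₁ = rd P₂ a ^ (2 * k * (k + 1)) := by
    rw [e6, rd_mul hy₂.int (hy₂.int.act t), key y₂ hy₂.int, hk]
    have : rd P₂ y₂ * rd P₂ y₂ ^ (2 * k + 1) = (rd P₂ y₂ ^ 2) ^ (k + 1) := by ring
    rw [this, e5, ← pow_mul]
  have e8 : Y₁ = Y₂ * a := by
    rw [← n2, hψN Y₂ hY₂.int.1, ha, hφ2]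
  have e9 : rd P₂ Y₁ = rd P₂ a ^ (2 * k + 2) := by
    rw [e8, rd_mul (hY₂.int.mono h2) haL, e3, hk]
    ring
  have hy₁ : IsInt L₁' y₁ := by
    refine ⟨by rw [← n3]; exact fibProd_mem_base h12' hy₂.int.1, ?_⟩
    rw [e6]; exact (hy₂.int.mul (hy₂.int.act t)).2
  have hY₁ : IsInt L₁ Y₁ := by
    refine ⟨by rw [← n2]; exact fibProd_mem_base h12 hY₂.int.1, ?_⟩
    rw [e8]; exact (hY₂.int.mul haU).2
  have hY₁' := hY₁.mono h1
  have e10 : rd P₂ (y₁ - Y₁ ^ k) = 0 := by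
    rw [rd_sub (hy₁.mono h12') ((hY₁'.pow k).mono h12'), rd_pow (hY₁'.mono h12'), e7, e9,
      ← pow_mul, sub_eq_zero]
    congr 1
    ring
  rw [hiff _ (hy₁.sub (hY₁'.pow k))] at e10
  have hk2 : (pn q - 1) / 2 = k := by omega
  rw [hk2, ← rd_pow hY₁', rd_eq_iff hy₁ (hY₁'.pow k)]
  exact e10

end top

end Pool.Agent.STc
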