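import Pool.Agent.Lib.MP_1ef7cf_nt_b.MainT
import Pool.Agent.Lib.MP_1ef7cf_nt_b.Mg.G001
import Pool.Agent.Lib.MP_1ef7cf_nt_c.Flds

/-!
# The units `y_{ν, r}` of the fields `L_ν(r)`
-/

set_option linter.unusedSectionVars false

open NumberField IsDedekindDomain nonZeroDivisors IntermediateField

namespace Pool.Agent.STc

open Pool.Agent.ST Pool.Agent.STb

variable {K : Type*} [Field K] [NumberField K] [Algebra K ℝ]

/-- The modulus `m 2 ^ (ν + 2) ∏ q`. -/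
noncomputable def md (m : Ideal (𝓞 K)) (ν : ℕ) (r : Finset (PrI K)) : Ideal (𝓞 K) :=
  m * Ideal.span {2} ^ (ν + 2) * ∏ q ∈ r, q.asIdeal

section md

variable {m : Ideal (𝓞 K)} {ν ν' : ℕ} {r r' : Finset (PrI K)}

lemma md_le : md m ν r ≤ m := (Ideal.mul_le_left).trans Ideal.mul_le_left

lemma span_two_ne : (Ideal.span {(2 : 𝓞 K)}) ≠ ⊥ := by
  rw [Ne, Ideal.span_singleton_eq_bot]; exact two_ne_zero

lemma md_ne (hm : m ≠ ⊥) : md m ν r ≠ ⊥ := by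
  unfold md
  refine mul_ne_bot' (mul_ne_bot' hm (pow_ne_zero _ span_two_ne)) ?_
  rw [← Ideal.zero_eq_bot]
  exact Finset.prod_ne_zero_iff.2 fun q _ => q.ne_bot

lemma md_insert [DecidableEq (PrI K)] {q : PrI K} (hq : q ∉ r) :
    md m ν (insert q r) = md m ν r * q.asIdeal := by
  unfold md
  rw [Finset.prod_insert hq]
  ring

lemma md_mono (hν : ν ≤ ν') : md m ν' r ≤ md m ν r := by
  unfold md
  exact Ideal.mul_mono_left (Ideal.mul_mono_right (Ideal.pow_le_pow_right (by omega)))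

lemma md_le_span : md m ν r ≤ Ideal.span {(2 : 𝓞 K) ^ (ν + 2)} := by
  rw [← Ideal.span_singleton_pow]
  exact (Ideal.mul_le_left).trans Ideal.mul_le_right

lemma md_le_mul {q : PrI K} (hq : q ∈ r) : md m ν r ≤ m * q.asIdeal := by
  unfold md
  have h1 : ∏ q ∈ r, q.asIdeal ≤ q.asIdeal := by
    rw [← Ideal.dvd_iff_le]
    exact Finset.dvd_prod_of_mem _ hq
  exact Ideal.mul_mono Ideal.mul_le_left h1

lemma dvd_md (hm2 : ∀ v : PrI K, (2 : 𝓞 K) ∈ v.asIdeal → v.asIdeal ∣ m) {v : PrI K}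
    (hv : v.asIdeal ∣ md m ν r) : v.asIdeal ∣ m ∨ v ∈ r := by
  unfold md at hv
  rcases v.prime.dvd_or_dvd hv with h | h
  · left
    rcases v.prime.dvd_or_dvd h with h | h
    · exact h
    · have h3 := v.prime.dvd_of_dvd_pow h
      rw [Ideal.dvd_span_singleton] at h3
      exact hm2 v h3
  · right
    obtain ⟨q, hq, h3⟩ := (v.prime.dvd_finsetProd_iff _).1 h
    rwa [eq_of_dvd_prime h3]

end md

section norm

variable {σ₂ : K →+* ℝ}

/-- The norm relation in subfields of ray class fields. -/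
lemma norm_prime (h2 : Module.finrank ℚ K = 2) (hσ : σ₂ ≠ sg1 K) {n n' : Ideal (𝓞 K)}
    (hn : n ≠ ⊥) (hn1 : n ≠ ⊤) {q : PrI K} (hq : ¬ q.asIdeal ∣ n) (hn' : n' = n * q.asIdeal)
    {H H' : IntermediateField K ℝ} {Art : RayClassGroup σ₂ n ≃* (H ≃ₐ[K] H)}
    {Art' : RayClassGroup σ₂ n' ≃* (H' ≃ₐ[K] H')} {u u' : ℝ} (hd : SData σ₂ n H Art u)
    (hd' : SData σ₂ n' H' Art' u') {L L' : IntermediateField K ℝ} (hL : L ≤ H) (hL' : L' ≤ H')
    (hLL : L ≤ L') [FiniteDimensional K H] [FiniteDimensional K H'] [FiniteDimensional K L]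
    [FiniteDimensional K L'] [IsAbelianGalois K L] [IsAbelianGalois K L'] :
    ∃ φ : L ≃ₐ[K] L, Unr q L ∧ FrobAt q L φ ∧
      fibProd hLL (fibProd hL' u' 1) 1 = fibProd hL u 1 / act φ⁻¹ (fibProd hL u 1) := by
  have hab : IsAbelianGalois K H := hd.rcf.isRCF.abelian
  have hab' : IsAbelianGalois K H' := hd'.rcf.isRCF.abelian
  obtain ⟨f1, f2⟩ := frobAt_rcf hd.rcf hq
  set A := cls σ₂ n (prJ n q hq) with hA
  have hle : n' ≤ n := by rw [hn']; exact Ideal.mul_le_left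
  have hne' : n' ≠ ⊥ := by rw [hn']; exact mul_ne_bot' hn q.ne_bot
  have hHH : H ≤ H' := IsRCF.le hle hne' Set.finite_empty Set.finite_empty hd'.rcf.isRCF
    hd.rcf.isRCF
  refine ⟨res hL (Art A), f1.mono hL, f2.res hL, ?_⟩
  rw [fibProd_trans hLL hL' hd'.pre.mem, ← fibProd_trans hL hHH hd'.pre.mem]
  have h3 : fibProd hHH u' 1 = u / act (Art A)⁻¹ u := by
    have h4 := fibProd_prime h2 hσ hn hn1 hn' hd.rcf hd'.rcf hHH 1 hd'.act
      (Q := prJ n q hq) (coe_prJ n q hq)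
    rw [map_one] at h4
    rw [h4]
    have h5 := hd.act 1
    rw [map_one, act_one_left hd.pre.mem] at h5
    have h6 := hd.act (1 * A⁻¹)
    rw [one_mul, map_inv] at h6
    rw [one_mul, h6, ← h5]
  have hu : act (Art A)⁻¹ u ∈ H := act_mem _ hd.pre.mem
  rw [h3]
  have h4 : fibProd hL (u / act (Art A)⁻¹ u) 1 = fibProd hL u 1 / fibProd hL (act (Art A)⁻¹ u) 1 := by
    unfold fibProd
    rw [← Finset.prod_div_distrib]
    exact Finset.prod_congr rfl fun γ _ => act_div γ hd.pre.mem hu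
  rw [h4]
  congr 1
  have h5 : fibProd hL (act (Art A)⁻¹ u) 1 = act (Art A)⁻¹ (fibProd hL u 1) := by
    unfold fibProd
    rw [act_prod _ _ _ fun γ _ => act_mem γ hd.pre.mem]
    exact Finset.prod_congr rfl fun γ _ => act_act_comm _ _ hd.pre.mem
  have h6 : (res hL (Art A))⁻¹ = res hL (Art A)⁻¹ := (map_inv _ _).symm
  rw [h5, h6, act_res hL _ (hd.pre.fibProd hL).mem]

end norm

/-- The system of the units `y ν r`. -/
structure IsSys (σ₂ : K →+* ℝ) (m : Ideal (𝓞 K)) (H : IntermediateField K ℝ) (θ : PrI K → ℝ)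
    (Q : Set (PrI K)) (y : ℕ → Finset (PrI K) → ℝ) : Prop where
  fd : ∀ (ν : ℕ) (r : Finset (PrI K)), ↑r ⊆ Q → FiniteDimensional K (LL H θ ν r)
  ab : ∀ (ν : ℕ) (r : Finset (PrI K)), ↑r ⊆ Q → IsAbelianGalois K (LL H θ ν r)
  pre : ∀ (ν : ℕ) (r : Finset (PrI K)), ↑r ⊆ Q → PreStark σ₂ (LL H θ ν r) (y ν r)
  unr : ∀ (ν : ℕ) (r : Finset (PrI K)), ↑r ⊆ Q → ∀ q : PrI K, ¬ q.asIdeal ∣ m → q ∉ r →
    Unr q (LL H θ ν r)
  norm : ∀ (ν ν' : ℕ) (h : ν ≤ ν') (r : Finset (PrI K)), ↑r ⊆ Q →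
    ∀ [Normal K (LL H θ ν r)] [FiniteDimensional K (LL H θ ν' r)],
      fibProd (LL_mono (H := H) (θ := θ) (r := r) h subset_rfl) (y ν' r) 1 = y ν r
  frob : ∀ (ν : ℕ) (r : Finset (PrI K)) (q : PrI K) (r' : Finset (PrI K)) (h : r ⊆ r'),
    ↑r' ⊆ Q → q ∉ r → (∀ v, v ∈ r' ↔ v = q ∨ v ∈ r) →
    ∀ [Normal K (LL H θ ν r)] [FiniteDimensional K (LL H θ ν r')],
    ∃ φ : LL H θ ν r ≃ₐ[K] LL H θ ν r, FrobAt q (LL H θ ν r) φ ∧
      fibProd (LL_mono (H := H) (θ := θ) (ν := ν) le_rfl h) (y ν r') 1 = y ν r / act φ⁻¹ (y ν r)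

/-- Existence of the system of units. -/
theorem exists_sys {σ₂ : K →+* ℝ} (h2 : Module.finrank ℚ K = 2) (hσ : σ₂ ≠ sg1 K)
    {m : Ideal (𝓞 K)} (hm : m ≠ ⊥) (hm1 : m ≠ ⊤)
    (hm2 : ∀ v : PrI K, (2 : 𝓞 K) ∈ v.asIdeal → v.asIdeal ∣ m)
    (hS : ∀ n : Ideal (𝓞 K), n ≠ ⊥ → n ≤ m → ∃ (H : IntermediateField K ℝ)
      (Art : RayClassGroup σ₂ n ≃* (H ≃ₐ[K] H)) (u : ℝ), SData σ₂ n H Art u)
    {H : IntermediateField K ℝ} {Art : RayClassGroup σ₂ m ≃* (H ≃ₐ[K] H)} {u : ℝ}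
    (hd : SData σ₂ m H Art u) {θ : PrI K → ℝ} {d : PrI K → K} {Q : Set (PrI K)}
    (hQ : ∀ q ∈ Q, Fine σ₂ m q (θ q) (d q)) :
    ∃ y : ℕ → Finset (PrI K) → ℝ, IsSys σ₂ m H θ Q y ∧
      ∀ ν, ∀ [Normal K H] [FiniteDimensional K (twK H ν)],
        fibProd (le_twK H ν) (y ν ∅) 1 = u := by
  classical
  have hS' : ∀ (ν : ℕ) (r : Finset (PrI K)), ∃ (H : IntermediateField K ℝ)
      (Art : RayClassGroup σ₂ (md m ν r) ≃* (H ≃ₐ[K] H)) (u : ℝ), SData σ₂ (md m ν r) H Art u :=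
    fun ν r => hS _ (md_ne hm) md_le
  choose H' Art' u' hd' using hS'
  have hfin : ∀ ν r, FiniteDimensional K (H' ν r) := fun ν r => (hd' ν r).rcf.finite
  have hab : ∀ ν r, IsAbelianGalois K (H' ν r) := fun ν r => (hd' ν r).rcf.isRCF.abelian
  have hne1 : ∀ ν r, md m ν r ≠ ⊤ := fun ν r => ne_top_of_le md_le hm1
  have hHle : ∀ ν r, H ≤ H' ν r := fun ν r =>
    IsRCF.le md_le (md_ne hm) Set.finite_empty Set.finite_empty (hd' ν r).rcf.isRCF hd.rcf.isRCF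
  have hcc : ∀ ν r, cc ν ∈ H' ν r := fun ν r =>
    cc_mem_rcf h2 hσ md_le_span (md_ne hm) (hd' ν r).rcf
  have hθ : ∀ ν (r : Finset (PrI K)), ↑r ⊆ Q → ∀ q ∈ r, θ q ∈ H' ν r := by
    intro ν r hr q hq
    have hf := hQ q (hr hq)
    obtain ⟨H₁, Art₁, u₁, hd₁⟩ := hS (m * q.asIdeal) (mul_ne_bot' hm q.ne_bot) Ideal.mul_le_left
    have h3 := hf.mem H₁ Art₁ hd₁.rcf
    exact (IsRCF.le (md_le_mul hq) (md_ne hm) Set.finite_empty Set.finite_empty
      (hd' ν r).rcf.isRCF hd₁.rcf.isRCF) h3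
  have hLle : ∀ ν (r : Finset (PrI K)), ↑r ⊆ Q → LL H θ ν r ≤ H' ν r := fun ν r hr =>
    LL_le (hHle ν r) (hcc ν r) (hθ ν r hr)
  have hdvd : ∀ ν (r : Finset (PrI K)) (q : PrI K), ¬ q.asIdeal ∣ m → q ∉ r →
      ¬ q.asIdeal ∣ md m ν r := fun ν r q h1 h2 h3 => (dvd_md hm2 h3).elim h1 h2
  let y : ℕ → Finset (PrI K) → ℝ := fun ν r =>
    if hr : ↑r ⊆ Q then
      haveI : Normal K (LL H θ ν r) :=
        haveI := isAbelianGalois_of_le (hLle ν r hr); inferInstance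
      fibProd (hLle ν r hr) (u' ν r) 1
    else 1
  have hfd : ∀ (ν : ℕ) (r : Finset (PrI K)), ↑r ⊆ Q → FiniteDimensional K (LL H θ ν r) :=
    fun ν r hr => fd_of_le (hLle ν r hr)
  have hya : ∀ (ν : ℕ) (r : Finset (PrI K)), ↑r ⊆ Q → IsAbelianGalois K (LL H θ ν r) :=
    fun ν r hr => isAbelianGalois_of_le (hLle ν r hr)
  have hy : ∀ ν (r : Finset (PrI K)) (hr : ↑r ⊆ Q) [Normal K (LL H θ ν r)],
      y ν r = fibProd (hLle ν r hr) (u' ν r) 1 := by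
    intro ν r hr _
    exact dif_pos hr
  have hpre : ∀ (ν : ℕ) (r : Finset (PrI K)), ↑r ⊆ Q → PreStark σ₂ (LL H θ ν r) (y ν r) := by
    intro ν r hr
    have := hfd ν r hr
    have := hya ν r hr
    rw [hy ν r hr]
    exact (hd' ν r).pre.fibProd (hLle ν r hr)
  refine ⟨y, ⟨hfd, hya, hpre, ?_, ?_, ?_⟩, ?_⟩
  · intro ν r hr q hq hqr
    have := hfin ν r
    have := hab ν r
    exact ((frobAt_rcf (hd' ν r).rcf (hdvd ν r q hq hqr)).1).mono (hLle ν r hr)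
  · intro ν ν' h r hr _ _
    have := hfd ν r hr
    have := hya ν r hr
    have := hya ν' r hr
    obtain ⟨hHH, hcomp⟩ := (hd' ν r).compat h2 hσ (md_mono h) (md_ne hm) (md_ne hm) (hne1 ν r)
      (fun v hv => by
        rcases dvd_md hm2 hv with h3 | h3
        · exact h3.trans ((Dvd.intro _ rfl).trans (Dvd.intro _ rfl))
        · exact (Finset.dvd_prod_of_mem (fun q : PrI K => q.asIdeal) h3).trans
            (Dvd.intro_left _ rfl)) (hd' ν' r)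
    rw [hy ν r hr, hy ν' r hr, fibProd_trans _ _ (hd' ν' r).pre.mem, ← hcomp,
      fibProd_trans _ _ (hd' ν' r).pre.mem]
  · intro ν r q r' hrr' hr' hqr hv _ _
    have hr : (↑r : Set (PrI K)) ⊆ Q := fun v hv => hr' (hrr' hv)
    have := hfd ν r hr
    have := hya ν r hr
    have := hya ν r' hr'
    have hq : q ∈ r' := (hv q).2 (Or.inl rfl)
    have hins : r' = insert q r := by
      ext v; rw [hv, Finset.mem_insert]
    have hqm : ¬ q.asIdeal ∣ m := (hQ q (hr' hq)).ndvd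
    obtain ⟨φ, -, h4, h5⟩ := norm_prime h2 hσ (md_ne hm) (hne1 ν r) (hdvd ν r q hqm hqr)
      (by rw [hins, md_insert hqr]) (hd' ν r) (hd' ν r') (hLle ν r hr) (hLle ν r' hr')
      (LL_mono le_rfl hrr')
    refine ⟨φ, h4, ?_⟩
    rw [hy ν r hr, hy ν r' hr']
    exact h5
  · intro ν _ _
    have hr : ((↑(∅ : Finset (PrI K))) : Set (PrI K)) ⊆ Q := by simp
    have := hfd ν ∅ hr
    have := hya ν ∅ hr
    have hHg : IsGalois K H := hd.rcf.galois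
    obtain ⟨hHH, hcomp⟩ := hd.compat h2 hσ md_le (md_ne hm) hm hm1
      (fun v hv => by
        rcases dvd_md hm2 hv with h3 | h3
        · exact h3
        · simp at h3) (hd' ν ∅)
    have hgen : ∀ (L : IntermediateField K ℝ) (hL : L = LL H θ ν ∅) (hle : H ≤ L)
        [Normal K H] [FiniteDimensional K L], fibProd hle (y ν ∅) 1 = u := by
      rintro L rfl hle _ _
      rw [hy ν ∅ hr, fibProd_trans _ _ (hd' ν ∅).pre.mem, ← hcomp]
    exact hgen (twK H ν) LL_empty.symm (le_twK H ν)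

end Pool.Agent.STc
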