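import Pool.Agent.Lib.MP_1ef7cf_nt_c.KC
import Pool.Agent.Lib.MP_1ef7cf_nt_c.Sys

/-!
# The Kolyvagin congruence: all levels
-/

set_option linter.unusedSectionVars false

open NumberField IsDedekindDomain nonZeroDivisors IntermediateField

namespace Pool.Agent.STc

open Pool.Agent.ST Pool.Agent.STb

variable {K : Type*} [Field K] [NumberField K] [Algebra K ℝ]

attribute [local instance] numberField_of_fd

section down

variable {L₁ L₂ L₁' L₂' : IntermediateField K ℝ} {q : PrI K}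

lemma rd_pg {L : IntermediateField K ℝ} [FiniteDimensional K L] (g : L ≃ₐ[K] L) (P : PrI L) {x : ℝ} (hx : IsInt L x) :
    rd (pg g P) (act g x) = 0 ↔ rd P x = 0 := by
  rw [rd_eq_zero_iff (hx.act g), rd_eq_zero_iff hx, IsInt.toO_act hx, smul_mem_pg]

theorem kc_down [FiniteDimensional K L₁] [FiniteDimensional K L₂] [FiniteDimensional K L₁']
    [FiniteDimensional K L₂'] [IsAbelianGalois K L₁] [IsAbelianGalois K L₂]
    [IsAbelianGalois K L₁'] [IsAbelianGalois K L₂']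
    (h12 : L₁ ≤ L₂) (h12' : L₁' ≤ L₂') (h1 : L₁ ≤ L₁') (h2 : L₂ ≤ L₂')
    (hM : L₂' ≤ L₂ ⊔ L₁') (hinf : L₂ ⊓ L₁' ≤ L₁) {Y₁ Y₂ y₁ y₂ : ℝ} {k : ℕ}
    (hY₂ : IsInt L₂ Y₂) (hy₂ : IsInt L₂' y₂)
    (n2 : fibProd h12 Y₂ 1 = Y₁) (n3 : fibProd h12' y₂ 1 = y₁)
    (hk : ∀ P : PrI L₂', und K P = q → rd P y₂ = rd P Y₂ ^ k) {P : PrI L₁'} (hP : und K P = q) :
    rd P y₁ = rd P Y₁ ^ k := by
  obtain ⟨P₂, hP₂, hiff, -⟩ := exists_up h12' P
  have hP₂q : und K P₂ = q := by rw [hP₂, hP]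
  have hY₂' := hY₂.mono h2
  have key : ∀ γ : L₂' ≃ₐ[K] L₂', rd P₂ (act γ y₂) = rd P₂ (act γ Y₂) ^ k := by
    intro γ
    have h3 := hk (pg γ⁻¹ P₂) (by rw [und_pg, hP₂q])
    rw [← rd_pow hY₂', rd_eq_iff hy₂ (hY₂'.pow k)] at h3
    have h4 := (rd_pg γ (pg γ⁻¹ P₂) (hy₂.sub (hY₂'.pow k))).2 h3
    rw [pg_pg_inv] at h4
    have h5 : act γ (y₂ - Y₂ ^ k) = act γ y₂ - act γ Y₂ ^ k := by
      rw [sub_eq_add_neg, act_add γ hy₂.1 (neg_mem (pow_mem hY₂'.1 k)), act_neg γ (pow_mem hY₂'.1 k),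
        act_pow γ hY₂'.1]
      ring
    rw [h5, ← rd_eq_iff (hy₂.act γ) ((hY₂'.act γ).pow k), rd_pow (hY₂'.act γ)] at h4
    exact h4
  have e1 : rd P₂ y₁ = rd P₂ Y₁ ^ k := by
    have e2 : Y₁ = ∏ γ ∈ fib h12' (1 : L₁' ≃ₐ[K] L₁'), act γ Y₂ := by
      rw [← n2]
      unfold fibProd
      rw [← prod_fib_pair h2 h12' hM h12 h1 hinf (fun α => act α Y₂)]
      exact Finset.prod_congr rfl fun γ _ => act_res h2 γ hY₂.1
    rw [e2, ← n3]
    unfold fibProd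
    rw [rd_prod fun γ _ => hy₂.act γ, rd_prod fun γ _ => hY₂'.act γ, ← Finset.prod_pow]
    exact Finset.prod_congr rfl fun γ _ => key γ
  have hy₁ : IsInt L₁' y₁ := by
    rw [← n3]
    exact ⟨fibProd_mem_base h12' hy₂.1, (IsInt.prod fun γ _ => hy₂.act γ).2⟩
  have hY₁ : IsInt L₁ Y₁ := by
    rw [← n2]
    exact ⟨fibProd_mem_base h12 hY₂.1, (IsInt.prod fun γ _ => hY₂.act γ).2⟩
  have hY₁' := hY₁.mono h1
  rw [← rd_pow (hY₁'.mono h12'), rd_eq_iff (hy₁.mono h12') ((hY₁'.pow k).mono h12'),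
    hiff _ (hy₁.sub (hY₁'.pow k)), ← rd_eq_iff hy₁ (hY₁'.pow k), rd_pow hY₁'] at e1
  exact e1

end down

section bound

lemma exists_card (q : PrI K) : ∃ p f : ℕ, p.Prime ∧ CharP (𝓞 K ⧸ q.asIdeal) p ∧ pn q = p ^ f := by
  have := q.isMaximal
  have : Finite (𝓞 K ⧸ q.asIdeal) := Ideal.finiteQuotientOfFreeOfNeBot q.asIdeal q.ne_bot
  let _ : Field (𝓞 K ⧸ q.asIdeal) := Ideal.Quotient.field q.asIdeal
  let _ : Fintype (𝓞 K ⧸ q.asIdeal) := Fintype.ofFinite _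
  have hcard : Fintype.card (𝓞 K ⧸ q.asIdeal) = pn q := by
    unfold pn
    rw [Ideal.absNorm_apply, Submodule.cardQuot_apply, Nat.card_eq_fintype_card]
  obtain ⟨p, hp⟩ := CharP.exists (𝓞 K ⧸ q.asIdeal)
  obtain ⟨n, hp', hn⟩ := FiniteField.card (𝓞 K ⧸ q.asIdeal) p
  exact ⟨p, n, hp', hp, by rw [← hcard, hn]⟩

lemma odd_pn {q : PrI K} (h2 : (2 : 𝓞 K) ∉ q.asIdeal) : Odd (pn q) := by
  obtain ⟨p, f, hp, hch, hf⟩ := exists_card q
  rw [hf]
  apply Odd.pow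
  rcases hp.eq_two_or_odd' with rfl | h
  · exfalso
    apply h2
    rw [← Ideal.Quotient.eq_zero_iff_mem, map_ofNat]
    exact_mod_cast CharP.cast_eq_zero (𝓞 K ⧸ q.asIdeal) 2
  · exact h

/-- If `q` splits completely in a field containing `cc ν` then `ν` is bounded. -/
theorem split_bound {L : IntermediateField K ℝ} [FiniteDimensional K L] {ν : ℕ} (hc : cc ν ∈ L)
    {P : PrI L} (hP : IsFrob K P (1 : L ≃ₐ[K] L)) (h2 : (2 : 𝓞 K) ∉ (und K P).asIdeal) :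
    2 ^ (ν + 2) < pn (und K P) ^ 2 := by
  set q := und K P with hq
  have hmax := P.isMaximal
  have := numberField_of_fd L
  let _ : Field (𝓞 L ⧸ P.asIdeal) := Ideal.Quotient.field P.asIdeal
  let k := 𝓞 L ⧸ P.asIdeal
  let κ := AlgebraicClosure k
  let e : k →+* κ := algebraMap k κ
  have h20 : (2 : κ) ≠ 0 := by
    intro h
    have h3 : e 2 = 0 := by rw [map_ofNat]; exact h
    have h4 : (2 : k) = 0 := (map_eq_zero e).1 h3
    apply h2
    have h5 : algebraMap (𝓞 K) (𝓞 L) 2 ∈ P.asIdeal := by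
      rw [map_ofNat, ← Ideal.Quotient.eq_zero_iff_mem, map_ofNat]
      exact h4
    exact h5
  obtain ⟨p, f, hp, hch, hf⟩ := exists_card q
  have hchk : CharP κ p := by
    have h3 : CharP k p := by
      have h4 : CharP (𝓞 K ⧸ q.asIdeal) p := hch
      let g : 𝓞 K ⧸ q.asIdeal →+* k := Ideal.quotientMap P.asIdeal (algebraMap (𝓞 K) (𝓞 L)) le_rfl
      have hg : Function.Injective g := Ideal.quotientMap_injective' le_rfl
      exact (RingHom.charP_iff g hg p).1 h4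
    exact charP_of_injective_algebraMap (algebraMap k κ).injective p
  have hpf : Fact p.Prime := ⟨hp⟩
  let s : ℕ → κ := fun j => e (rd P (cc j))
  have hcj : ∀ j ≤ ν, IsInt L (cc j) := fun j hj => ⟨cc_mem_of_le hc hj, isIntegral_cc j⟩
  have hs0 : s 0 = 0 := by
    show e (rd P (cc 0)) = 0
    rw [cc_zero, rd_zero, map_zero]
  have hs1 : ∀ n < ν, s (n + 1) ^ 2 = 2 + s n := by
    intro n hn
    show e (rd P (cc (n + 1))) ^ 2 = 2 + e (rd P (cc n))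
    rw [← map_pow, ← rd_pow (hcj _ (by omega)), cc_sq, rd_add IsInt.two (hcj n (by omega)), rd_two,
      map_add, map_ofNat]
  -- the root
  obtain ⟨z, hz⟩ : ∃ z : κ, z ^ 2 - s ν * z + 1 = 0 := by
    have hdeg : (Polynomial.X ^ 2 - Polynomial.C (s ν) * Polynomial.X + 1 : Polynomial κ).degree ≠ 0 := by
      have : (Polynomial.X ^ 2 - Polynomial.C (s ν) * Polynomial.X + 1 : Polynomial κ).degree = 2 := by
        compute_degree!
      rw [this]; norm_num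
    obtain ⟨z, hz⟩ := IsAlgClosed.exists_root _ hdeg
    refine ⟨z, ?_⟩
    simpa [Polynomial.IsRoot] using hz
  have hz0 : z ≠ 0 := by
    rintro rfl
    simp at hz
  have hzz : z + z⁻¹ = s ν := by
    apply mul_left_cancel₀ hz0
    rw [mul_add, mul_inv_cancel₀ hz0]
    linear_combination hz
  have hpow := STb.pow_eq_neg_one hs0 hs1 ν le_rfl z hz0 hzz
  -- Frobenius
  have hsQ : s ν ^ pn q = s ν := by
    show e (rd P (cc ν)) ^ pn q = e (rd P (cc ν))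
    have h3 := rd_frob hP (hcj ν le_rfl)
    rw [act_one_left hc] at h3
    rw [← map_pow, ← hq] at *
    rw [← h3]
  have hadd : z ^ pn q + (z ^ pn q)⁻¹ = s ν := by
    rw [← hsQ, ← hzz, hf, add_pow_char_pow, inv_pow]
  have hcase : z ^ pn q = z ∨ z ^ pn q = z⁻¹ := by
    have hw0 : z ^ pn q ≠ 0 := pow_ne_zero _ hz0
    set w := z ^ pn q with hw
    have h3 : (w - z) * (w - z⁻¹) = 0 := by
      have h4 : w ^ 2 - s ν * w + 1 = 0 := by
        rw [← hadd, add_mul, inv_mul_cancel₀ hw0]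
        ring
      have h5 : (w - z) * (w - z⁻¹) = w ^ 2 - (z + z⁻¹) * w + z * z⁻¹ := by ring
      rw [h5, hzz, mul_inv_cancel₀ hz0, h4]
    rcases mul_eq_zero.1 h3 with h4 | h4
    · exact Or.inl (sub_eq_zero.1 h4)
    · exact Or.inr (sub_eq_zero.1 h4)
  have hzQ : z ^ (pn q ^ 2) = z := by
    rw [pow_two, pow_mul]
    rcases hcase with h3 | h3
    · rw [h3, h3]
    · rw [h3, inv_pow, h3, inv_inv]
  have hQ2 : 2 ≤ pn q := two_le_pn q
  have hz1 : z ^ (pn q ^ 2 - 1) = 1 := by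
    apply mul_right_cancel₀ hz0
    rw [← pow_succ, one_mul, Nat.sub_add_cancel (Nat.one_le_pow _ _ (by omega)), hzQ]
  have hord : orderOf z = 2 ^ (ν + 2) := by
    have : Fact (Nat.Prime 2) := ⟨Nat.prime_two⟩
    apply orderOf_eq_prime_pow (p := 2) (n := ν + 1)
    · rw [hpow]
      intro h
      apply h20
      have : (2 : κ) = 1 - (-1) := by ring
      rw [this, h, sub_self]
    · rw [pow_succ, pow_mul, hpow]
      ring
  have hdvd := orderOf_dvd_of_pow_eq_one hz1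
  rw [hord] at hdvd
  have hpos : 0 < pn q ^ 2 - 1 := by
    have : 2 ^ 2 ≤ pn q ^ 2 := Nat.pow_le_pow_left hQ2 2
    omega
  have := Nat.le_of_dvd hpos hdvd
  omega

end bound

section kc

variable {σ₂ : K →+* ℝ} {m : Ideal (𝓞 K)} {H : IntermediateField K ℝ} {θ : PrI K → ℝ}
  {d : PrI K → K} {Q : Set (PrI K)} {y : ℕ → Finset (PrI K) → ℝ}

lemma _root_.Pool.Agent.STb.PreStark.isUn {L : IntermediateField K ℝ} {u : ℝ}
    (h : PreStark σ₂ L u) : IsUn L u :=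
  ⟨⟨h.mem, h.int⟩, ⟨inv_mem h.mem, h.int_inv⟩, h.pos'.ne'⟩

lemma two_notMem (hm2 : ∀ v : PrI K, (2 : 𝓞 K) ∈ v.asIdeal → v.asIdeal ∣ m) {q : PrI K}
    (hq : ¬ q.asIdeal ∣ m) : (2 : 𝓞 K) ∉ q.asIdeal := fun h => hq (hm2 q h)

/-- the last level where `q` splits completely -/
lemma exists_top (hsys : IsSys σ₂ m H θ Q y) {r : Finset (PrI K)} (hr : ↑r ⊆ Q) {q : PrI K}
    (h2 : (2 : 𝓞 K) ∉ q.asIdeal) {ν : ℕ} (hs : Spl q (LL H θ ν r)) :
    ∃ ν₁ ≥ ν, Spl q (LL H θ ν₁ r) ∧ ¬ Spl q (LL H θ (ν₁ + 1) r) := by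
  by_contra hcon
  push Not at hcon
  have hall : ∀ j, Spl q (LL H θ (ν + j) r) := by
    intro j
    induction j with
    | zero => exact hs
    | succ j ih => exact hcon (ν + j) (by omega) ih
  have := hsys.fd (ν + pn q ^ 2) r hr
  have := hsys.ab (ν + pn q ^ 2) r hr
  obtain ⟨P, hP⟩ := exists_over (LL H θ (ν + pn q ^ 2) r) q
  have h3 := split_bound (cc_mem_LL H θ _ r) (hall _ P hP) (by rw [hP]; exact h2)
  rw [hP] at h3
  have h4 : pn q ^ 2 < 2 ^ (pn q ^ 2) := Nat.lt_two_pow_self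
  have h5 : 2 ^ (pn q ^ 2) ≤ 2 ^ (ν + pn q ^ 2 + 2) := Nat.pow_le_pow_right (by norm_num) (by omega)
  omega

/-- **Kolyvagin congruence.** -/
theorem IsSys.kc (hsys : IsSys σ₂ m H θ Q y) (hQ : ∀ q ∈ Q, Fine σ₂ m q (θ q) (d q))
    (hm2 : ∀ v : PrI K, (2 : 𝓞 K) ∈ v.asIdeal → v.asIdeal ∣ m) {ν : ℕ} {r r' : Finset (PrI K)}
    {q : PrI K} (hrr' : r ⊆ r') (hr' : ↑r' ⊆ Q) (hq : q ∉ r) (hv : ∀ v, v ∈ r' ↔ v = q ∨ v ∈ r)
    (hs : Spl q (LL H θ ν r)) {P : PrI (LL H θ ν r')} (hP : und K P = q) :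
    rd P (y ν r') = rd P (y ν r) ^ ((pn q - 1) / 2) := by
  classical
  have hr : (↑r : Set (PrI K)) ⊆ Q := fun v hv => hr' (hrr' hv)
  have hq' : q ∈ r' := (hv q).2 (Or.inl rfl)
  have hins : r' = insert q r := by
    ext v; rw [hv, Finset.mem_insert]
  have hf := hQ q (hr' hq')
  have h2 := two_notMem hm2 hf.ndvd
  obtain ⟨ν₁, hν₁, hs1, hs2⟩ := exists_top hsys hr h2 hs
  have i1 := hsys.fd ν r hr
  have i2 := hsys.fd ν₁ r hr
  have i3 := hsys.fd (ν₁ + 1) r hr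
  have i1' := hsys.fd ν r' hr'
  have i2' := hsys.fd ν₁ r' hr'
  have i3' := hsys.fd (ν₁ + 1) r' hr'
  have j1 := hsys.ab ν r hr
  have j2 := hsys.ab ν₁ r hr
  have j3 := hsys.ab (ν₁ + 1) r hr
  have j1' := hsys.ab ν r' hr'
  have j2' := hsys.ab ν₁ r' hr'
  have j3' := hsys.ab (ν₁ + 1) r' hr'
  have hunr : ∀ ν, Unr q (LL H θ ν r) := fun ν => hsys.unr ν r hr q hf.ndvd hq
  have hle : ∀ ν, LL H θ ν r' ≤ LL H θ ν r ⊔ K⟮θ q⟯ := by
    intro ν; rw [hins]; exact LL_insert_le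
  have k3 : Normal K (LL H θ (ν₁ + 1) r) := IsGalois.to_normal
  obtain ⟨φ, hφ, n1⟩ := hsys.frob (ν₁ + 1) r q r' hrr' hr' hq hv
  have hφ1 : φ ≠ 1 := by
    rintro rfl
    exact hs2 hφ
  -- the top level
  have htop : ∀ P : PrI (LL H θ ν₁ r'), und K P = q →
      rd P (y ν₁ r') = rd P (y ν₁ r) ^ ((pn q - 1) / 2) := by
    intro P hP
    exact kc_top (L₁ := LL H θ ν₁ r) (L₂ := LL H θ (ν₁ + 1) r) (L₁' := LL H θ ν₁ r')
      (L₂' := LL H θ (ν₁ + 1) r') (c := cc (ν₁ + 1)) (LL_mono (Nat.le_succ _) subset_rfl)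
      (LL_mono (Nat.le_succ _) subset_rfl) (LL_mono le_rfl hrr') (LL_mono le_rfl hrr')
      LL_succ_le (hle _) (hle _) LL_succ_le (cc_mem_LL _ _ _ _)
      (by rw [cc_sq]; exact add_mem (ofNat_mem _ 2) (cc_mem_LL _ _ _ _)) (theta_mem_LL hq')
      hf.sq hf.ne hf.odd (odd_pn h2) (hunr _) hs1 hφ hφ1 (hsys.pre _ _ hr).isUn
      (hsys.pre _ _ hr').isUn n1 (hsys.norm ν₁ (ν₁ + 1) (Nat.le_succ _) r hr)
      (hsys.norm ν₁ (ν₁ + 1) (Nat.le_succ _) r' hr') hP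
  -- down
  refine kc_down (L₁ := LL H θ ν r) (L₂ := LL H θ ν₁ r) (L₁' := LL H θ ν r')
      (L₂' := LL H θ ν₁ r') (LL_mono hν₁ subset_rfl)
      (LL_mono hν₁ subset_rfl) (LL_mono le_rfl hrr') (LL_mono le_rfl hrr') ?_ ?_
      (hsys.pre _ _ hr).isUn.int (hsys.pre _ _ hr').isUn.int (hsys.norm ν ν₁ hν₁ r hr)
      (hsys.norm ν ν₁ hν₁ r' hr') htop hP
  · refine (hle ν₁).trans (sup_le le_sup_left ?_)
    rw [adjoin_simple_le_iff]
    exact (le_sup_right : LL H θ ν r' ≤ _) (theta_mem_LL hq')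
  · rintro x ⟨hx1, hx2⟩
    have hθn := theta_notMem (hunr ν₁) hf.sq hf.ne hf.odd
    have hθ1 : θ q ^ 2 ∈ LL H θ ν r := by rw [hf.sq]; exact (LL H θ ν r).algebraMap_mem _
    have hmono : LL H θ ν r ≤ LL H θ ν₁ r := LL_mono hν₁ subset_rfl
    obtain ⟨a, ha, b, hb, hab⟩ := mem_quad hθ1 (fun h => hθn (hmono h)) (hle ν hx2)
    by_cases hb0 : b = 0
    · rw [hab, hb0, zero_mul, add_zero]; exact ha
    · exfalso
      apply hθn
      have : θ q = (x - a) / b := by rw [hab]; field_simp; ring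
      rw [this]
      exact div_mem (sub_mem hx1 (hmono ha)) (hmono hb)

end kc

end Pool.Agent.STc
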