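import Pool.Agent.Lib.MP_1ef7cf_nt_c.KC2
import Pool.Agent.Lib.MP_1ef7cf_nt_c.Resid

/-!
# The classes `κ_r = 2 + y_r + 1 / y_r`
-/

set_option linter.unusedSectionVars false

open NumberField IsDedekindDomain nonZeroDivisors IntermediateField

namespace Pool.Agent.STc

open Pool.Agent.ST Pool.Agent.STb

variable {K : Type*} [Field K] [NumberField K] [Algebra K ℝ]

attribute [local instance] numberField_of_fd

/-- Admissible sets of primes. -/
def Adm (H : IntermediateField K ℝ) (θ : PrI K → ℝ) (ν : ℕ) (r : Finset (PrI K)) : Prop :=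
  ∀ q ∈ r, ∀ r₀ : Finset (PrI K), r₀ ⊆ r → q ∉ r₀ → Spl q (LL H θ ν r₀)

lemma Adm.mono {H : IntermediateField K ℝ} {θ : PrI K → ℝ} {ν : ℕ} {r r' : Finset (PrI K)}
    (h : Adm H θ ν r') (hr : r ⊆ r') : Adm H θ ν r :=
  fun q hq r₀ hr₀ hq₀ => h q (hr hq) r₀ (hr₀.trans hr) hq₀

lemma adm_empty {H : IntermediateField K ℝ} {θ : PrI K → ℝ} {ν : ℕ} :
    Adm H θ ν ∅ := fun q hq => by simp at hq

section mem

variable {σ₂ : K →+* ℝ} {m : Ideal (𝓞 K)} {H : IntermediateField K ℝ} {θ : PrI K → ℝ}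
  {d : PrI K → K} {Q : Set (PrI K)} {y : ℕ → Finset (PrI K) → ℝ}

/-- the relation `σ_q y_r = 1 / y_r` -/
lemma exists_sig (hsys : IsSys σ₂ m H θ Q y) (hQ : ∀ q ∈ Q, Fine σ₂ m q (θ q) (d q)) {ν : ℕ}
    {r : Finset (PrI K)} (hr : ↑r ⊆ Q) (hadm : Adm H θ ν r) {q : PrI K} (hq : q ∈ r) :
    ∃ σ : LL H θ ν r ≃ₐ[K] LL H θ ν r, act σ (θ q) = -θ q ∧ (∀ x ∈ twK H ν, act σ x = x) ∧
      (∀ q' ∈ r, q' ≠ q → act σ (θ q') = θ q') ∧ act σ (y ν r) = (y ν r)⁻¹ := by
  classical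
  have hr0 : r.erase q ⊆ r := Finset.erase_subset q r
  have hr0' : (↑(r.erase q) : Set (PrI K)) ⊆ Q := fun v hv => hr (hr0 hv)
  have hq0 : q ∉ r.erase q := Finset.notMem_erase q r
  have := hsys.fd ν r hr
  have := hsys.ab ν r hr
  have := hsys.fd ν _ hr0'
  have := hsys.ab ν _ hr0'
  have hv : ∀ v, v ∈ r ↔ v = q ∨ v ∈ r.erase q := by
    intro v
    rw [Finset.mem_erase]
    by_cases h : v = q
    · rw [h]; simp [hq]
    · simp [h]
  obtain ⟨φ, hφ, n1⟩ := hsys.frob ν (r.erase q) q r hr0 hr hq0 hv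
  have hf := hQ q (hr hq)
  have hunr := hsys.unr ν _ hr0' q hf.ndvd hq0
  have hφ1 : φ = 1 := (hφ.spl_iff hunr).1 (hadm q hq _ hr0 hq0)
  have hle : LL H θ ν r ≤ LL H θ ν (r.erase q) ⊔ K⟮θ q⟯ := by
    have : r = insert q (r.erase q) := (Finset.insert_erase hq).symm
    conv_lhs => rw [this]
    exact LL_insert_le
  have hmono : LL H θ ν (r.erase q) ≤ LL H θ ν r := LL_mono le_rfl hr0
  obtain ⟨σ, h1, h2, -, h3⟩ := exists_quad hmono (theta_mem_LL hq) hle
    (by rw [hf.sq]; exact (LL H θ ν _).algebraMap_mem _) (theta_notMem hunr hf.sq hf.ne hf.odd)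
  refine ⟨σ, h1, fun x hx => h2 x (twK_le_LL H θ ν _ hx), fun q' hq' hne => ?_, ?_⟩
  · exact h2 _ (theta_mem_LL (Finset.mem_erase.2 ⟨hne, hq'⟩))
  · have hpre := hsys.pre ν r hr
    have hpre0 := hsys.pre ν _ hr0'
    rw [h3 _ hpre.mem, hφ1, inv_one, act_one_left hpre0.mem, div_self hpre0.pos'.ne'] at n1
    exact (inv_eq_of_mul_eq_one_right n1).symm

/-- The Galois group over `H(cc ν)` acts on `y` by `± 1`. -/
lemma act_cases (hsys : IsSys σ₂ m H θ Q y) (hQ : ∀ q ∈ Q, Fine σ₂ m q (θ q) (d q)) {ν : ℕ}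
    {r : Finset (PrI K)} (hr : ↑r ⊆ Q) (hadm : Adm H θ ν r) (γ : LL H θ ν r ≃ₐ[K] LL H θ ν r)
    (hγ : ∀ x ∈ twK H ν, act γ x = x) : act γ (y ν r) = y ν r ∨ act γ (y ν r) = (y ν r)⁻¹ := by
  classical
  have := hsys.fd ν r hr
  have := hsys.ab ν r hr
  have hy := (hsys.pre ν r hr).mem
  have key : ∀ A : Finset (PrI K), A ⊆ r → ∀ γ : LL H θ ν r ≃ₐ[K] LL H θ ν r,
      (∀ x ∈ twK H ν, act γ x = x) → (∀ q ∈ r, q ∉ A → act γ (θ q) = θ q) →
      act γ (y ν r) = y ν r ∨ act γ (y ν r) = (y ν r)⁻¹ := by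
    intro A
    induction A using Finset.induction_on with
    | empty =>
      intro _ γ h1 h2
      left
      have h3 : LL H θ ν r ≤ eqField γ 1 := by
        apply sup_le
        · intro x hx
          exact eqField_iff.2 ⟨twK_le_LL H θ ν r hx, h1 x hx⟩
        · rw [adjoin_le_iff]
          rintro x ⟨q, hq, rfl⟩
          exact eqField_iff.2 ⟨theta_mem_LL hq, h2 q hq (by simp)⟩
      exact (eqField_iff.1 (h3 hy)).2
    | insert q A hqA ih =>
      intro hA γ h1 h2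
      have hq : q ∈ r := hA (Finset.mem_insert_self _ _)
      have hA' : A ⊆ r := fun v hv => hA (Finset.mem_insert_of_mem hv)
      have hθq : θ q ∈ LL H θ ν r := theta_mem_LL hq
      have hf := hQ q (hr hq)
      rcases act_sq_cases γ hθq (by rw [hf.sq, act_algebraMap]) with h3 | h3
      · apply ih hA' γ h1
        intro q' hq' hq'A
        by_cases hqq : q' = q
        · rw [hqq]; exact h3
        · exact h2 q' hq' (by rw [Finset.mem_insert]; tauto)
      · obtain ⟨σ, s1, s2, s3, s4⟩ := exists_sig hsys hQ hr hadm hq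
        have h5 := ih hA' (γ * σ) (fun x hx => by
            rw [act_comp _ _ (twK_le_LL H θ ν r hx), s2 x hx, h1 x hx]) (by
          intro q' hq' hq'A
          have hθq' : θ q' ∈ LL H θ ν r := theta_mem_LL hq'
          rw [act_comp _ _ hθq']
          by_cases hqq : q' = q
          · rw [hqq, s1, act_neg _ hθq, h3, neg_neg]
          · rw [s3 q' hq' hqq]
            exact h2 q' hq' (by rw [Finset.mem_insert]; tauto))
        rw [act_comp _ _ hy, s4, act_inv _ hy] at h5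
        rcases h5 with h5 | h5
        · right; exact inv_eq_iff_eq_inv.1 h5
        · left; exact inv_injective h5
  exact key r subset_rfl γ hγ fun q hq hq' => absurd hq hq'

/-- the class attached to `r` -/
noncomputable def kap (y : ℕ → Finset (PrI K) → ℝ) (ν : ℕ) (r : Finset (PrI K)) : ℝ :=
  2 + y ν r + (y ν r)⁻¹

lemma kap_pos (hsys : IsSys σ₂ m H θ Q y) {ν : ℕ} {r : Finset (PrI K)} (hr : ↑r ⊆ Q) :
    0 < kap y ν r := by
  have := (hsys.pre ν r hr).pos'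
  unfold kap
  positivity

lemma kap_eq (hsys : IsSys σ₂ m H θ Q y) {ν : ℕ} {r : Finset (PrI K)} (hr : ↑r ⊆ Q) :
    kap y ν r = (y ν r)⁻¹ * (1 + y ν r) ^ 2 := by
  have := (hsys.pre ν r hr).pos'
  unfold kap
  field_simp
  ring

/-- **The class is an element of the maximal real subfield of `H(cc ν)`.** -/
theorem kap_mem (hsys : IsSys σ₂ m H θ Q y) (hQ : ∀ q ∈ Q, Fine σ₂ m q (θ q) (d q)) {ν : ℕ}
    {r : Finset (PrI K)} (hr : ↑r ⊆ Q) (hadm : Adm H θ ν r) [FiniteDimensional K (twK H ν)]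
    [IsAbelianGalois K (twK H ν)] {c : twK H ν ≃ₐ[K] twK H ν} (hc : IsConj σ₂ (twK H ν) c) :
    kap y ν r ∈ eqField c 1 := by
  have := hsys.fd ν r hr
  have := hsys.ab ν r hr
  have hpre := hsys.pre ν r hr
  have hy := hpre.mem
  have hact : ∀ γ : LL H θ ν r ≃ₐ[K] LL H θ ν r, (act γ (y ν r) = y ν r ∨
      act γ (y ν r) = (y ν r)⁻¹) → act γ (kap y ν r) = kap y ν r := by
    intro γ hγ
    unfold kap
    rw [act_add _ (add_mem (ofNat_mem _ 2) hy) (inv_mem hy), act_add _ (ofNat_mem _ 2) hy,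
      act_inv _ hy]
    have h2 : act γ 2 = 2 := by
      have h3 := act_algebraMap γ (2 : K)
      rwa [map_ofNat] at h3
    rw [h2]
    rcases hγ with h | h
    · rw [h]
    · rw [h, inv_inv]; ring
  have hm : kap y ν r ∈ LL H θ ν r := add_mem (add_mem (ofNat_mem _ 2) hy) (inv_mem hy)
  have hle := twK_le_LL H θ ν r
  have h1 : kap y ν r ∈ twK H ν := by
    apply mem_of_fixed hle hm
    intro γ hγ
    exact hact γ (act_cases hsys hQ hr hadm γ hγ)
  obtain ⟨C, hC⟩ := exists_isConj (L := LL H θ ν r) σ₂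
  have h2 : res hle C = c := (hC.res hle).unique hc
  refine eqField_iff.2 ⟨h1, ?_⟩
  rw [← h2, act_res hle C h1]
  exact hact C (Or.inr (hpre.conj hC))

/-- a unit up to squares -/
lemma kap_sqAt (hsys : IsSys σ₂ m H θ Q y) {ν : ℕ} {r : Finset (PrI K)} (hr : ↑r ⊆ Q)
    [FiniteDimensional K (LL H θ ν r)] (P : PrI (LL H θ ν r)) {x : LL H θ ν r}
    (hx : (x : ℝ) = kap y ν r) : SqAt P x := by
  have hpre := hsys.pre ν r hr
  have hU := hpre.isUn
  have h1 : x = (⟨y ν r, hpre.mem⟩ : LL H θ ν r)⁻¹ * (1 + ⟨y ν r, hpre.mem⟩) ^ 2 := by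
    apply Subtype.ext
    rw [hx, kap_eq hsys hr]
    rfl
  have hval : P.valuation (LL H θ ν r) (⟨y ν r, hpre.mem⟩ : LL H θ ν r) = 1 := by
    apply le_antisymm (val_int P hU.int.isIntegral')
    have h2 := val_int P hU.inv.isIntegral'
    have h3 : (⟨(y ν r)⁻¹, hU.inv.1⟩ : LL H θ ν r) = (⟨y ν r, hpre.mem⟩ : LL H θ ν r)⁻¹ := rfl
    rw [h3, map_inv₀] at h2
    have h4 : P.valuation (LL H θ ν r) (⟨y ν r, hpre.mem⟩ : LL H θ ν r) ≠ 0 := by
      rw [Valuation.ne_zero_iff]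
      intro h; exact hU.ne (congrArg Subtype.val h)
    exact (inv_le_one₀ (zero_lt_iff.2 h4)).1 h2
  have hne : (1 + ⟨y ν r, hpre.mem⟩ : LL H θ ν r) ≠ 0 := by
    intro h
    have := congrArg Subtype.val h
    have hp := hpre.pos'
    change (1 : ℝ) + y ν r = 0 at this
    linarith
  rw [h1, sqAt_mul_sq hne]
  exact SqAt.inv ⟨1, by rw [one_pow, mul_one]; exact hval⟩

end mem

section rel

variable {L L' : IntermediateField K ℝ} {q : PrI K} {θ : ℝ} {d : K}

/-- Local squares and reduction. -/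
lemma lsq_iff_rd [FiniteDimensional K L] {w : PrI L} (hw : IsFrob K w (1 : L ≃ₐ[K] L))
    (h2 : (2 : 𝓞 K) ∉ (und K w).asIdeal) {Y : ℝ} (hY : IsUn L Y) :
    (rd w Y ^ ((pn (und K w) - 1) / 2) = 1 ∧ LSq w (⟨Y, hY.int.1⟩ : L)) ∨
      (rd w Y ^ ((pn (und K w) - 1) / 2) = -1 ∧ ¬ LSq w (⟨Y, hY.int.1⟩ : L)) := by
  set q := und K w with hq
  have hmax := w.isMaximal
  let _ : Field (𝓞 L ⧸ w.asIdeal) := Ideal.Quotient.field w.asIdeal
  have hfin : Finite (𝓞 L ⧸ w.asIdeal) := Ideal.finiteQuotientOfFreeOfNeBot w.asIdeal w.ne_bot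
  let _ : Fintype (𝓞 L ⧸ w.asIdeal) := Fintype.ofFinite _
  have hcard : Fintype.card (𝓞 L ⧸ w.asIdeal) = pn q := by
    rw [hq, ← pn_eq_of_isFrob_one hw]
    unfold pn
    rw [Ideal.absNorm_apply, Submodule.cardQuot_apply, Nat.card_eq_fintype_card]
  have h2w : (2 : 𝓞 L) ∉ w.asIdeal := by
    intro h
    apply h2
    have : algebraMap (𝓞 K) (𝓞 L) 2 ∈ w.asIdeal := by rwa [map_ofNat]
    exact this
  have hchar : ringChar (𝓞 L ⧸ w.asIdeal) ≠ 2 := quot_char h2w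
  have hY0 : rd w Y ≠ 0 := rd_ne_zero hY.int hY.inv hY.ne
  have hYn : hY.int.toO ∉ w.asIdeal := by
    rw [← rd_eq_zero_iff hY.int]; exact hY0
  have hmk : rd w Y = Ideal.Quotient.mk w.asIdeal hY.int.toO := rd_of hY.int
  have hodd : Odd (pn q) := odd_pn h2
  have hdiv : (pn q - 1) / 2 = Fintype.card (𝓞 L ⧸ w.asIdeal) / 2 := by
    rw [hcard]
    obtain ⟨k, hk⟩ := hodd
    omega
  rw [hdiv]
  have hiff := FiniteField.isSquare_iff hchar hY0
  have hdich := FiniteField.pow_dichotomy hchar hY0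
  have hl : LSq w (⟨Y, hY.int.1⟩ : L) ↔ IsSquare (rd w Y) := by
    rw [hmk]
    constructor
    · intro h; exact isSquare_of_lsq hYn h
    · intro h; exact lsq_of_isSquare hYn h
  by_cases hs : IsSquare (rd w Y)
  · exact Or.inl ⟨hiff.1 hs, hl.2 hs⟩
  · refine Or.inr ⟨hdich.resolve_left fun h => hs (hiff.2 h), fun h => hs (hl.1 h)⟩

end rel

end Pool.Agent.STc
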