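import Pool.Agent.Lib.MP_1ef7cf_nt.Mg.G003

/-!
# Asymptotics of the partial sums over principal ideals
-/

open NumberField NumberField.mixedEmbedding NumberField.InfinitePlace NumberField.Units Module
  nonZeroDivisors MeasureTheory

namespace Pool.Agent.STc

open Pool.Agent.ST

section main0

variable (M : Type*) [Field M] [NumberField M]

/-- The covolume of the ring of integers. -/
noncomputable def cov0 : ℝ := (2⁻¹) ^ nrComplexPlaces M * √|(discr M : ℝ)|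

lemma cov0_pos : 0 < cov0 M := by
  have h1 : (0 : ℝ) < |(discr M : ℝ)| := by
    rw [abs_pos]
    exact_mod_cast discr_ne_zero M
  exact mul_pos (by positivity) (Real.sqrt_pos.2 h1)

variable {M}

open scoped Classical in
lemma covolume_fu (J : Ideal (𝓞 M)) (hJ : J ≠ ⊥) :
    ZLattice.covolume (idealLattice M (fu J hJ)) = (Ideal.absNorm J : ℝ) * cov0 M := by
  rw [covolume_idealLattice]
  have h1 : FractionalIdeal.absNorm ((fu J hJ : (FractionalIdeal (𝓞 M)⁰ M)ˣ) :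
      FractionalIdeal (𝓞 M)⁰ M) = (Ideal.absNorm J : ℚ) := by
    show FractionalIdeal.absNorm (J : FractionalIdeal (𝓞 M)⁰ M) = _
    rw [FractionalIdeal.coeIdeal_absNorm]
  rw [h1, cov0]
  push_cast
  ring

/-- The sum over the principal ideals inside `J`. -/
noncomputable def psum (χ : Ideal (𝓞 M) →*₀ ℝ) (J : Ideal (𝓞 M)) (s : ℝ) : ℝ :=
  ∑' I : PId J, χ I.1.1 * (Ideal.absNorm I.1.1 : ℝ) ^ (-s)

open scoped Classical in
/-- The main term. -/
noncomputable def mainT (n : Ideal (𝓞 M)) (χ : Ideal (𝓞 M) →*₀ ℝ) (s : ℝ) : ℝ :=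
  (∑ᶠ a : 𝓞 M ⧸ n, ∑ S : Set {w : InfinitePlace M // IsReal w}, cval n χ a S) *
    (∫ x : mixedSpace M, fs s ∅ x) / (torsionOrder M * Ideal.absNorm n * cov0 M)

variable {n : Ideal (𝓞 M)} {χ : Ideal (𝓞 M) →*₀ ℝ}

open scoped Classical in
lemma isum_asymp {J : Ideal (𝓞 M)} (hJ : J ≠ ⊥) (S : Set {w : InfinitePlace M // IsReal w})
    (a : mixedSpace M) : ∃ C : ℝ, ∀ s : ℝ, 1 < s → s ≤ 2 →
      |(Ideal.absNorm J : ℝ) * cov0 M * isum hJ s S a - ∫ x : mixedSpace M, fs s ∅ x| ≤ C := by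
  obtain ⟨C, hC⟩ := lattice_fs (idealLattice M (fu J hJ)) a S
  refine ⟨C, fun s h1 h2 => ?_⟩
  have h3 := hC s h1 h2
  rw [covolume_fu J hJ] at h3
  exact h3

lemma main0_aux {A B : Type*} [Fintype A] [Fintype B] (c : A → B → ℝ) (hc : ∀ a b, |c a b| ≤ 1)
    (f : ℝ → A → B → ℝ) (I : ℝ → ℝ) (k : ℝ)
    (hf : ∀ a b, ∃ C : ℝ, ∀ s : ℝ, 1 < s → s ≤ 2 → |k * f s a b - I s| ≤ C) :
    ∃ C : ℝ, ∀ s : ℝ, 1 < s → s ≤ 2 →
      |k * (∑ a, ∑ b, c a b * f s a b) - (∑ a, ∑ b, c a b) * I s| ≤ C := by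
  choose C hC using hf
  refine ⟨∑ a, ∑ b, C a b, fun s h1 h2 => ?_⟩
  have e1 : k * (∑ a, ∑ b, c a b * f s a b) - (∑ a, ∑ b, c a b) * I s =
      ∑ a, ∑ b, c a b * (k * f s a b - I s) := by
    rw [Finset.mul_sum, Finset.sum_mul, ← Finset.sum_sub_distrib]
    refine Finset.sum_congr rfl fun a _ => ?_
    rw [Finset.mul_sum, Finset.sum_mul, ← Finset.sum_sub_distrib]
    refine Finset.sum_congr rfl fun b _ => ?_
    ring
  rw [e1]
  refine (Finset.abs_sum_le_sum_abs _ _).trans (Finset.sum_le_sum fun a _ => ?_)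
  refine (Finset.abs_sum_le_sum_abs _ _).trans (Finset.sum_le_sum fun b _ => ?_)
  rw [abs_mul]
  exact (mul_le_of_le_one_left (abs_nonneg _) (hc a b)).trans (hC a b s h1 h2)

/-- Asymptotics of the sum over the principal ideals inside `J`. -/
theorem main0 (h : IsRayChar n χ) (hn : n ≠ ⊥) {J : Ideal (𝓞 M)} (hJ : IsCoprime J n)
    (hJ0 : J ≠ ⊥) : ∃ C : ℝ, ∀ s : ℝ, 1 < s → s ≤ 2 →
      |(Ideal.absNorm J : ℝ) * psum χ J s - mainT n χ s| ≤ C := by
  classical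
  have hfin : Finite (𝓞 M ⧸ n) := Ideal.finiteQuotientOfFreeOfNeBot n hn
  have hft : Fintype (𝓞 M ⧸ n) := Fintype.ofFinite _
  have hJn : n * J ≠ ⊥ := by
    rw [← Ideal.zero_eq_bot] at hn hJ0 ⊢
    exact mul_ne_zero hn hJ0
  obtain ⟨C, hC⟩ := main0_aux (A := 𝓞 M ⧸ n) (B := Set {w : InfinitePlace M // IsReal w})
    (cval n χ) (abs_cval_le h)
    (fun s a S => isum hJn s S (mixedEmbedding M (rep hJ a : M)))
    (fun s => ∫ x : mixedSpace M, fs s ∅ x) ((Ideal.absNorm (n * J) : ℝ) * cov0 M)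
    (fun a S => isum_asymp hJn S _)
  have hw : (0 : ℝ) < torsionOrder M := by
    have : 0 < torsionOrder M := torsionOrder_pos M
    exact_mod_cast this
  have hNn : (0 : ℝ) < Ideal.absNorm n := by
    have : Ideal.absNorm n ≠ 0 := by rwa [Ne, Ideal.absNorm_eq_zero_iff]
    positivity
  have hc0 := cov0_pos M
  have hD : 0 < torsionOrder M * (Ideal.absNorm n : ℝ) * cov0 M := by positivity
  refine ⟨C / (torsionOrder M * (Ideal.absNorm n : ℝ) * cov0 M), fun s h1 h2 => ?_⟩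
  have h3 := hC s h1 h2
  rw [← tsum_gterm_coset h hn hJ hJn h1, tsum_gterm h hn J s,
    tsum_eterm χ (abs_chi_le h) J h1] at h3
  rw [le_div_iff₀ hD]
  have e1 : |(Ideal.absNorm J : ℝ) * psum χ J s - mainT n χ s| *
      (torsionOrder M * (Ideal.absNorm n : ℝ) * cov0 M) =
      |((Ideal.absNorm J : ℝ) * psum χ J s - mainT n χ s) *
        (torsionOrder M * (Ideal.absNorm n : ℝ) * cov0 M)| := by
    rw [abs_mul, abs_of_pos hD]
  rw [e1]
  refine le_trans (le_of_eq ?_) h3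
  congr 1
  have e2 : mainT n χ s * (torsionOrder M * (Ideal.absNorm n : ℝ) * cov0 M) =
      (∑ a : 𝓞 M ⧸ n, ∑ S : Set {w : InfinitePlace M // IsReal w}, cval n χ a S) *
      (∫ x : mixedSpace M, fs s ∅ x) := by
    unfold mainT
    rw [finsum_eq_sum_of_fintype, div_mul_cancel₀ _ hD.ne']
  rw [sub_mul, e2, map_mul, Nat.cast_mul]
  unfold psum
  ring

end main0

end Pool.Agent.STc
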