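import Pool.Agent.Lib.MP_1ef7cf_nt_c.Loc
import Pool.Agent.Lib.MP_1ef7cf_nt_b.MainT

/-!
# The number of primes in the cyclotomic tower
-/

open NumberField IsDedekindDomain IntermediateField

namespace Pool.Agent.STc

open Pool.Agent.ST Pool.Agent.STb

section bound

variable {M : Type} [Field M] [NumberField M]

/-- bound for the number of primes over an odd prime -/
lemma NK_card_odd {l : ℕ} (hl : l.Prime) (hl2 : l ≠ 2) {n d : ℕ}
    (hn : Module.finrank ℤ (𝓞 M) ≤ d * 2 ^ n) {s : ℕ → 𝓞 M} (h0 : s 0 = 0)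
    (h : ∀ k < n, s (k + 1) ^ 2 = 2 + s k)
    (S : Finset (HeightOneSpectrum (𝓞 M))) (hS : ∀ P ∈ S, (l : 𝓞 M) ∈ P.asIdeal) :
    S.card ≤ d * 2 ^ (padicValNat 2 (l + 1) + padicValNat 2 (l - 1)) := by
  set c := padicValNat 2 (l + 1) + padicValNat 2 (l - 1) with hc
  have h1 : (l ^ (2 ^ n)) ^ S.card ≤ (l ^ (2 ^ n)) ^ (d * 2 ^ c) := by
    calc (l ^ (2 ^ n)) ^ S.card = ∏ P ∈ S, l ^ (2 ^ n) := by rw [Finset.prod_const]
      _ ≤ ∏ P ∈ S, (Ideal.absNorm P.asIdeal) ^ (2 ^ c) :=
        Finset.prod_le_prod' fun P hP => norm_ge hl hl2 (hS P hP) h0 h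
      _ = (∏ P ∈ S, Ideal.absNorm P.asIdeal) ^ (2 ^ c) := by rw [Finset.prod_pow]
      _ ≤ (l ^ Module.finrank ℤ (𝓞 M)) ^ (2 ^ c) :=
        Nat.pow_le_pow_left (prod_norm_le hl S hS) _
      _ ≤ (l ^ (d * 2 ^ n)) ^ (2 ^ c) :=
        Nat.pow_le_pow_left (Nat.pow_le_pow_right hl.pos hn) _
      _ = (l ^ (2 ^ n)) ^ (d * 2 ^ c) := by
        rw [← pow_mul, ← pow_mul]
        congr 1
        ring
  have h2 : 1 < l ^ (2 ^ n) := Nat.one_lt_pow (pow_ne_zero _ (by norm_num)) hl.one_lt
  exact (Nat.pow_le_pow_iff_right h2).1 h1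

/-- ramification at the primes over `2` -/
lemma NK_ram_two {P : HeightOneSpectrum (𝓞 M)} (hP : (2 : 𝓞 M) ∈ P.asIdeal) {n : ℕ}
    {s : ℕ → 𝓞 M} (h0 : s 0 = 0) (h : ∀ k < n, s (k + 1) ^ 2 = 2 + s k) :
    (2 : 𝓞 M) ∈ P.asIdeal ^ (2 ^ n) := by
  set v := P.intValuation with hv
  set t := v (2 : 𝓞 M) with ht
  have ht1 : t < 1 := (P.intValuation_lt_one_iff_mem _).2 hP
  have ht0 : t ≠ 0 := P.intValuation_ne_zero _ two_ne_zero
  have ht0' : 0 < t := zero_lt_iff.2 ht0
  have key : ∀ j ≤ n, v (2 - s j) ^ (2 ^ j) = t ∧ v (2 + s j) ^ (2 ^ j) = t := by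
    intro j
    induction j with
    | zero =>
      intro _
      rw [h0]
      simp [ht]
    | succ j ih =>
      intro hj
      obtain ⟨i1, i2⟩ := ih (by omega)
      have hA1 : v (2 - s j) ≤ 1 := P.intValuation_le_one _
      have hB1 : v (2 + s j) ≤ 1 := P.intValuation_le_one _
      have hAt : t ≤ v (2 - s j) := by
        rw [← i1]
        exact pow_le_of_le_one zero_le hA1 (pow_ne_zero _ (by norm_num))
      have hmul : v (2 - s (j + 1)) * v (2 + s (j + 1)) = v (2 - s j) := by
        rw [← map_mul]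
        congr 1
        have := h j (by omega)
        linear_combination -this
      have hsq : v (s (j + 1)) ^ 2 = v (2 + s j) := by
        rw [← map_pow, h j (by omega)]
      have heq : v (2 - s (j + 1)) = v (2 + s (j + 1)) := by
        by_contra hne
        have h1 : v ((2 + s (j + 1)) - (2 - s (j + 1))) =
            max (v (2 + s (j + 1))) (v (2 - s (j + 1))) := by
          rw [sub_eq_add_neg, Valuation.map_add_of_distinct_val]
          · rw [Valuation.map_neg]
          · rw [Valuation.map_neg]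
            exact fun h => hne h.symm
        have h2 : (2 + s (j + 1)) - (2 - s (j + 1)) = 2 * s (j + 1) := by ring
        rw [h2, map_mul, ← ht] at h1
        have h3 : v (2 - s j) ≤ (t * v (s (j + 1))) ^ 2 := by
          rw [← hmul, h1, pow_two, mul_comm]
          exact mul_le_mul' (le_max_left _ _) (le_max_right _ _)
        rw [mul_pow, hsq] at h3
        have h4 : t ^ 2 * v (2 + s j) ≤ t ^ 2 := mul_le_of_le_one_right' hB1
        have h5 : t ≤ t ^ 2 := hAt.trans (h3.trans h4)
        have h6 : t ^ 2 < t := by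
          rw [pow_two]
          calc t * t < t * 1 := by
                rw [mul_lt_mul_iff_right₀ ht0']
                exact ht1
            _ = t := mul_one t
        exact absurd h5 (not_le.2 h6)
      have h7 : v (2 - s (j + 1)) ^ 2 = v (2 - s j) := by
        rw [pow_two]
        nth_rewrite 2 [heq]
        exact hmul
      have h8 : v (2 - s (j + 1)) ^ (2 ^ (j + 1)) = t := by
        rw [pow_succ, mul_comm, pow_mul, h7, i1]
      exact ⟨h8, by rw [← heq]; exact h8⟩
  obtain ⟨k1, -⟩ := key n le_rfl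
  rw [← P.intValuation_le_pow_iff_mem, ← hv, ← ht, ← k1]
  set A := v (2 - s n) with hA
  have hA0 : A ≠ 0 := by
    intro h
    rw [h, zero_pow (pow_ne_zero _ (by norm_num))] at k1
    exact ht0 k1.symm
  have hA1 : A < 1 := by
    by_contra hcon
    push Not at hcon
    have h9 : (1 : WithZero (Multiplicative ℤ)) ≤ A ^ (2 ^ n) := one_le_pow₀ hcon
    rw [k1] at h9
    exact absurd h9 (not_le.2 ht1)
  have hlog : WithZero.log A ≤ -1 := by
    have : WithZero.log A < 0 := by
      rw [← WithZero.log_one, WithZero.log_lt_log hA0 one_ne_zero]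
      exact hA1
    omega
  rw [← WithZero.exp_log hA0, ← WithZero.exp_nsmul, WithZero.exp_le_exp]
  rw [nsmul_eq_mul]
  push_cast
  have h2n : (0 : ℤ) ≤ 2 ^ n := by positivity
  nlinarith

/-- bound for the number of primes over `2` -/
lemma NK_card_two {n d : ℕ}
    (hn : Module.finrank ℤ (𝓞 M) ≤ d * 2 ^ n) {s : ℕ → 𝓞 M} (h0 : s 0 = 0)
    (h : ∀ k < n, s (k + 1) ^ 2 = 2 + s k)
    (S : Finset (HeightOneSpectrum (𝓞 M))) (hS : ∀ P ∈ S, (2 : 𝓞 M) ∈ P.asIdeal) :
    S.card ≤ d := by
  classical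
  have hdvd : (∏ P ∈ S, P.asIdeal ^ (2 ^ n)) ∣ Ideal.span {(2 : 𝓞 M)} := by
    apply Finset.prod_dvd_of_coprime
    · intro P _ Q _ hPQ
      apply IsCoprime.pow
      rw [Ideal.isCoprime_iff_sup_eq]
      by_contra hne
      obtain ⟨J, hJ, hle⟩ := Ideal.exists_le_maximal _ hne
      have h1 : P.asIdeal = J := P.isMaximal.eq_of_le hJ.ne_top (le_sup_left.trans hle)
      have h2 : Q.asIdeal = J := Q.isMaximal.eq_of_le hJ.ne_top (le_sup_right.trans hle)
      exact hPQ (HeightOneSpectrum.ext (h1.trans h2.symm))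
    · intro P hP
      rw [Ideal.dvd_span_singleton]
      exact NK_ram_two (hS P hP) h0 h
  have h1 := map_dvd Ideal.absNorm hdvd
  have e2 : (2 : 𝓞 M) = ((2 : ℕ) : 𝓞 M) := by norm_num
  rw [map_prod, e2, Ideal.absNorm_span_natCast] at h1
  have h2 := Nat.le_of_dvd (pow_pos (by norm_num) _) h1
  have h3 : (2 ^ (2 ^ n)) ^ S.card ≤ (2 ^ (2 ^ n)) ^ d := by
    calc (2 ^ (2 ^ n)) ^ S.card = ∏ P ∈ S, 2 ^ (2 ^ n) := by rw [Finset.prod_const]
      _ ≤ ∏ P ∈ S, Ideal.absNorm (P.asIdeal ^ (2 ^ n)) := by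
        refine Finset.prod_le_prod' fun P _ => ?_
        rw [map_pow]
        apply Nat.pow_le_pow_left
        have h4 : Ideal.absNorm P.asIdeal ≠ 1 := by
          rw [Ne, Ideal.absNorm_eq_one_iff]
          exact P.isPrime.ne_top
        have h5 : Ideal.absNorm P.asIdeal ≠ 0 := by
          rw [Ne, Ideal.absNorm_eq_zero_iff]
          exact P.ne_bot
        omega
      _ ≤ 2 ^ Module.finrank ℤ (𝓞 M) := h2
      _ ≤ 2 ^ (d * 2 ^ n) := Nat.pow_le_pow_right (by norm_num) hn
      _ = (2 ^ (2 ^ n)) ^ d := by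
        rw [← pow_mul]
        congr 1
        ring
  have h4 : 1 < 2 ^ (2 ^ n) := Nat.one_lt_pow (pow_ne_zero _ (by norm_num)) (by norm_num)
  exact (Nat.pow_le_pow_iff_right h4).1 h3

end bound

section tower

variable {K : Type*} [Field K] [NumberField K] [Algebra K ℝ]

omit [NumberField K] in
lemma NK_seq (L : IntermediateField K ℝ) {n : ℕ} (hc : cc n ∈ L) :
    ∃ s : ℕ → 𝓞 L, s 0 = 0 ∧ ∀ k < n, s (k + 1) ^ 2 = 2 + s k := by
  have hmem : ∀ k ≤ n, cc k ∈ L := fun k hk => cc_mem_of_le hc hk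
  have hex : ∀ k, ∃ r : 𝓞 L, k ≤ n → ((algebraMap (𝓞 L) L r : L) : ℝ) = cc k := by
    intro k
    by_cases hk : k ≤ n
    · have hint : IsIntegral ℤ (⟨cc k, hmem k hk⟩ : L) :=
        (isIntegral_algebraMap_iff (algebraMap L ℝ).injective).1 (isIntegral_cc k)
      exact ⟨⟨_, hint⟩, fun _ => rfl⟩
    · exact ⟨0, fun h => absurd h hk⟩
  choose s hs using hex
  refine ⟨s, ?_, ?_⟩
  · apply RingOfIntegers.coe_injective
    apply Subtype.ext
    rw [hs 0 (Nat.zero_le n), map_zero, cc_zero]
    rfl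
  · intro k hk
    apply RingOfIntegers.coe_injective
    apply Subtype.ext
    rw [map_pow, map_add, map_ofNat]
    push_cast
    rw [hs (k + 1) hk, hs k hk.le, cc_sq]
    rfl

omit [NumberField K] in
lemma NK_finrank_cc [CharZero K] (n : ℕ) : Module.finrank K K⟮cc n⟯ ≤ 2 ^ n := by
  have hint : IsIntegral K (cc n) := (isIntegral_cc n).tower_top
  rw [adjoin.finrank hint]
  have h1 : Polynomial.aeval (cc n) ((pp n).map (algebraMap ℚ K)) = 0 := by
    rw [Polynomial.aeval_map_algebraMap]
    exact (pp_spec n).1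
  have h2 : ((pp n).map (algebraMap ℚ K)).natDegree = 2 ^ n := by
    rw [Polynomial.natDegree_map]
    exact (pp_spec n).2
  rw [← h2]
  apply Polynomial.natDegree_le_of_dvd (minpoly.dvd _ _ h1)
  intro h
  rw [h, Polynomial.natDegree_zero] at h2
  exact absurd h2.symm (pow_ne_zero n (by norm_num))

lemma NK_rank (B : IntermediateField K ℝ) [FiniteDimensional K B] (k : ℕ)
    [FiniteDimensional K (twK B k)] [NumberField (twK B k)] :
    Module.finrank ℤ (𝓞 (twK B k)) ≤ (Module.finrank ℚ K * Module.finrank K B) * 2 ^ k := by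
  rw [RingOfIntegers.rank, ← Module.finrank_mul_finrank ℚ K (twK B k), mul_assoc]
  apply Nat.mul_le_mul_left
  have h1 : Module.finrank K (twK B k) ≤ Module.finrank K B * Module.finrank K K⟮cc k⟯ :=
    IntermediateField.finrank_sup_le B K⟮cc k⟯
  exact h1.trans (Nat.mul_le_mul_left _ (NK_finrank_cc k))

lemma NK_lt_rank (j : ℕ) : j < Module.finrank ℚ (QQ j) := by
  induction j with
  | zero => exact Module.finrank_pos
  | succ j ih =>
    have h1 : QQ j ≤ QQ (j + 1) := tw_le_succ _ j
    have h2 : QQ j ≠ QQ (j + 1) := by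
      intro h
      apply cc_notMem j
      rw [h]; exact cc_mem_tw _ _
    have h3 := finrank_dvd_of_le h1
    have h4 : Module.finrank ℚ (QQ j) ≠ Module.finrank ℚ (QQ (j + 1)) :=
      fun h => h2 (eq_of_le_of_finrank h1 h)
    have h5 := Nat.le_of_dvd Module.finrank_pos h3
    omega

lemma NK_rank_lower (B : IntermediateField K ℝ) (k : ℕ) [FiniteDimensional K (twK B k)] :
    k < Module.finrank ℚ K * Module.finrank K (twK B k) := by
  have hnf := numberField_of_fd (twK B k)
  have hle : QQ k ≤ rs (twK B k) := by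
    apply ext_le bot_le
    exact cc_mem_twK B k
  have hfin := fd_rs (twK B k)
  have h1 := NK_lt_rank k
  have h3 := finrank_dvd_of_le hle
  have h5 := Nat.le_of_dvd Module.finrank_pos h3
  have h6 : Module.finrank ℚ (rs (twK B k)) = Module.finrank ℚ (twK B k) := by
    let ι : twK B k →+* rs (twK B k) :=
      { toFun := fun x => ⟨x.1, x.2⟩
        map_one' := rfl
        map_mul' := fun _ _ => rfl
        map_zero' := rfl
        map_add' := fun _ _ => rfl }
    have hbij : Function.Bijective ι := by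
      refine ⟨ι.injective, ?_⟩
      rintro ⟨x, hx⟩
      exact ⟨⟨x, hx⟩, rfl⟩
    exact (LinearEquiv.ofBijective (ι.toAddMonoidHom.toRatLinearMap) hbij).finrank_eq.symm
  have h7 := Module.finrank_mul_finrank ℚ K (twK B k)
  omega

/-- the automorphisms fixing `B` have `2`-power order -/
lemma NK_pow (B : IntermediateField K ℝ) (k : ℕ) (g : twK B k ≃ₐ[K] twK B k)
    (hg : ∀ y ∈ B, act g y = y) : g ^ (2 ^ k) = 1 := by
  have hcm : ∀ j ≤ k, cc j ∈ twK B k := fun j hj => cc_mem_of_le (cc_mem_twK B k) hj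
  have hpowB : ∀ (i : ℕ), ∀ y ∈ B, act (g ^ i) y = y := by
    intro i
    induction i with
    | zero =>
      intro y hy
      rw [pow_zero, act_one_left (le_twK B k hy)]
    | succ i ih =>
      intro y hy
      rw [pow_succ, act_comp _ _ (le_twK B k hy), hg y hy, ih y hy]
  have hcc : ∀ j ≤ k, act (g ^ (2 ^ j)) (cc j) = cc j := by
    intro j
    induction j with
    | zero =>
      intro _
      rw [cc_zero]
      have := act_algebraMap (g ^ (2 ^ 0)) (0 : K)
      simpa using this
    | succ j ih =>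
      intro hj
      have hm := hcm (j + 1) hj
      have hmj := hcm j (by omega)
      set h := g ^ (2 ^ j) with hh
      have e1 : (act h (cc (j + 1))) ^ 2 = (cc (j + 1)) ^ 2 := by
        rw [← act_pow h hm, cc_sq, act_add h (ofNat_mem _ 2) hmj, ih (by omega)]
        congr 1
        have := act_algebraMap h (2 : K)
        rw [map_ofNat] at this
        exact this
      have e2 : g ^ (2 ^ (j + 1)) = h * h := by
        rw [hh, ← pow_add]
        congr 1
        ring
      rw [e2, act_comp _ _ hm]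
      rcases sq_eq_sq_iff_eq_or_eq_neg.1 e1 with h1 | h1
      · rw [h1, h1]
      · rw [h1, act_neg h hm, h1, neg_neg]
  apply act_ext
  intro x hx
  have hle : twK B k ≤ eqField (g ^ (2 ^ k)) 1 := by
    apply twK_le
    · intro y hy
      refine eqField_iff.2 ⟨le_twK B k hy, ?_⟩
      exact hpowB _ y hy
    · refine eqField_iff.2 ⟨cc_mem_twK B k, ?_⟩
      exact hcc k le_rfl
  rw [act_one_left hx]
  exact (eqField_iff.1 (hle hx)).2

/-- growth of the 2-part -/
lemma NK_growth (B : IntermediateField K ℝ)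
    (hfd : ∀ k, FiniteDimensional K (twK B k)) (hab : ∀ k, IsAbelianGalois K (twK B k)) (N : ℕ) :
    ∃ k : ℕ, N < Nat.card {g : twK B k ≃ₐ[K] twK B k // ∃ j : ℕ, g ^ (2 ^ j) = 1} := by
  have hB : FiniteDimensional K B := by
    have := hfd 0
    exact fd_of_le (le_twK B 0)
  obtain ⟨k, hk⟩ : ∃ k : ℕ, k = N * (Module.finrank ℚ K * Module.finrank K B) := ⟨_, rfl⟩
  refine ⟨k, ?_⟩
  have := hfd k
  have := hab k
  have h1 := NK_rank_lower B k
  let F : IntermediateField K (twK B k) := IntermediateField.restrict (le_twK B k)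
  have h2 : Nat.card (IntermediateField.fixingSubgroup F) = Module.finrank F (twK B k) :=
    IsGalois.card_fixingSubgroup_eq_finrank F
  have h3 : Module.finrank K F * Module.finrank F (twK B k) = Module.finrank K (twK B k) :=
    Module.finrank_mul_finrank K F (twK B k)
  have h4 : Module.finrank K F = Module.finrank K B :=
    (IntermediateField.restrictAlgEquiv (le_twK B k)).symm.toLinearEquiv.finrank_eq
  have h5 : N < Module.finrank F (twK B k) := by
    rw [← h3, h4] at h1
    by_contra hcon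
    push Not at hcon
    have h6 : Module.finrank ℚ K * (Module.finrank K B * Module.finrank F (twK B k)) ≤
        Module.finrank ℚ K * (Module.finrank K B * N) :=
      Nat.mul_le_mul_left _ (Nat.mul_le_mul_left _ hcon)
    have h7 : N * (Module.finrank ℚ K * Module.finrank K B) =
        Module.finrank ℚ K * (Module.finrank K B * N) := by ring
    omega
  refine h5.trans_le ?_
  rw [← h2]
  have hfin : Finite {g : twK B k ≃ₐ[K] twK B k // ∃ j : ℕ, g ^ (2 ^ j) = 1} :=
    Subtype.finite
  apply Nat.card_le_card_of_injective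
    (fun g : IntermediateField.fixingSubgroup F =>
      (⟨g.1, k, NK_pow B k g.1 (by
        intro y hy
        have hy' : (⟨y, le_twK B k hy⟩ : twK B k) ∈ F := by
          rw [IntermediateField.mem_restrict]
          exact hy
        have h6 := (IntermediateField.mem_fixingSubgroup_iff _ _).1 g.2 _ hy'
        rw [act_of_mem _ (le_twK B k hy), h6])⟩ :
        {g : twK B k ≃ₐ[K] twK B k // ∃ j : ℕ, g ^ (2 ^ j) = 1}))
  intro g g' hgg
  apply Subtype.ext
  exact congrArg (fun z => z.1) hgg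

/-- bounded number of primes -/
lemma NK_bounded (B : IntermediateField K ℝ)
    (hfd : ∀ k, FiniteDimensional K (twK B k)) (D : Finset (PrI K)) :
    ∃ N : ℕ, ∀ k, Set.ncard {u : PrI (twK B k) | und K u ∈ D} ≤ N := by
  classical
  have hB : FiniteDimensional K B := by
    have := hfd 0
    exact fd_of_le (le_twK B 0)
  have hl : ∀ v : PrI K, ∃ l : ℕ, l.Prime ∧ (l : 𝓞 K) ∈ v.asIdeal := by
    intro v
    have h1 : Ideal.absNorm v.asIdeal ≠ 0 := by
      rw [Ne, Ideal.absNorm_eq_zero_iff]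
      exact v.ne_bot
    have h2 : (Ideal.absNorm v.asIdeal : 𝓞 K) ∈ v.asIdeal := Ideal.absNorm_mem _
    have h3 : (Ideal.absNorm v.asIdeal : 𝓞 K) =
        ∏ l ∈ (Ideal.absNorm v.asIdeal).primeFactors,
          (l : 𝓞 K) ^ (Ideal.absNorm v.asIdeal).factorization l := by
      conv_lhs => rw [← Nat.prod_factorization_pow_eq_self h1]
      rw [Finsupp.prod, Nat.support_factorization]
      push_cast
      rfl
    rw [h3] at h2
    have := v.isPrime
    obtain ⟨l, hl, hl'⟩ := (Ideal.IsPrime.prod_mem_iff (p := v.asIdeal)).1 h2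
    exact ⟨l, Nat.prime_of_mem_primeFactors hl, Ideal.IsPrime.mem_of_pow_mem this _ hl'⟩
  choose l hlp hlv using hl
  set d := Module.finrank ℚ K * Module.finrank K B with hd
  refine ⟨∑ v ∈ D, d * 2 ^ (padicValNat 2 (l v + 1) + padicValNat 2 (l v - 1)), fun k => ?_⟩
  have := hfd k
  have hnf := numberField_of_fd (twK B k)
  obtain ⟨s, h0, hs⟩ := NK_seq (twK B k) (cc_mem_twK B k)
  have hrk := NK_rank B k
  have hfin : {u : PrI (twK B k) | und K u ∈ D}.Finite := by
    have h1 : {u : PrI (twK B k) | und K u ∈ D} = ⋃ v ∈ D, ovr K (E := twK B k) v := by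
      ext u
      simp [ovr]
    rw [h1]
    exact D.finite_toSet.biUnion fun v _ => finite_ovr K v
  rw [Set.ncard_eq_toFinset_card _ hfin]
  have hmaps : ∀ u ∈ hfin.toFinset, und K u ∈ D := fun u hu => hfin.mem_toFinset.1 hu
  rw [Finset.card_eq_sum_card_fiberwise (f := fun u => und K u) (t := D) hmaps]
  apply Finset.sum_le_sum
  intro v _
  have hmem : ∀ u ∈ hfin.toFinset.filter (fun u => und K u = v),
      ((l v : ℕ) : 𝓞 (twK B k)) ∈ u.asIdeal := by
    intro u hu
    rw [Finset.mem_filter] at hu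
    have h1 : (l v : 𝓞 K) ∈ (und K u).asIdeal := by rw [hu.2]; exact hlv v
    have h2 : algebraMap (𝓞 K) (𝓞 (twK B k)) (l v : 𝓞 K) ∈ u.asIdeal := h1
    rwa [map_natCast] at h2
  by_cases h2 : l v = 2
  · have h3 := NK_card_two hrk h0 hs (hfin.toFinset.filter (fun u => und K u = v)) (by
      intro u hu
      have := hmem u hu
      rw [h2] at this
      exact_mod_cast this)
    exact h3.trans (Nat.le_mul_of_pos_right _ (by positivity))
  · exact NK_card_odd (hlp v) h2 hrk h0 hs _ hmem

/-- **N.** In the cyclotomic tower `B(cc k)` the number of the primes above `D` is bounded but the 2-part of the Galois group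
grows. -/
theorem exists_k {K : Type*} [Field K] [NumberField K] [Algebra K ℝ] (B : IntermediateField K ℝ)
    (hfd : ∀ k, FiniteDimensional K (twK B k)) (hab : ∀ k, IsAbelianGalois K (twK B k))
    (D : Finset (PrI K)) :
    ∃ k : ℕ, Set.ncard {u : PrI (twK B k) | und K u ∈ D} <
      Nat.card {g : twK B k ≃ₐ[K] twK B k // ∃ j : ℕ, g ^ (2 ^ j) = 1} := by
  obtain ⟨N, hN⟩ := NK_bounded B hfd D
  obtain ⟨k, hk⟩ := NK_growth B hfd hab N
  exact ⟨k, (hN k).trans_lt hk⟩

end tower

end Pool.Agent.STc
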