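import Pool.Agent.Lib.MP_1ef7cf_nt.RCF4

/-!
# Adjoining square roots to an abelian extension
-/

set_option linter.style.haveILetI false

open NumberField IsDedekindDomain IntermediateField

namespace Pool.Agent.STc

open Pool.Agent.ST

/-- **W.** Adjoining square roots of elements of `K` (also negative ones) to an abelian extension `L ⊂ ℝ` of `K`. -/
theorem exists_Omega {K : Type*} [Field K] [NumberField K] [Algebra K ℝ] (L : IntermediateField K ℝ)
    [FiniteDimensional K L] [IsAbelianGalois K L] (𝔅 : Finset K) :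
    ∃ (Ω : Type) (_ : Field Ω) (_ : NumberField Ω) (_ : Algebra K Ω) (_ : Algebra L Ω)
      (_ : IsScalarTower K L Ω) (_ : IsGalois K Ω), (∀ σ τ : Ω ≃ₐ[K] Ω, σ * τ = τ * σ) ∧
      (∀ σ : Ω ≃ₐ[K] Ω, (∀ x : L, σ (algebraMap L Ω x) = algebraMap L Ω x) → σ ^ 2 = 1) ∧
      ∀ b ∈ 𝔅, ∃ s : Ω, s ^ 2 = algebraMap K Ω b := by
  classical
  haveI : NumberField L := NumberField.of_module_finite K L
  set P : Polynomial K := ∏ b ∈ 𝔅, (Polynomial.X ^ 2 - Polynomial.C b) with hP
  have hne : ∀ b : K, (Polynomial.X ^ 2 - Polynomial.C b : Polynomial K) ≠ 0 :=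
    fun b => Polynomial.X_pow_sub_C_ne_zero two_pos b
  have hP0 : P ≠ 0 := Finset.prod_ne_zero_iff.2 fun b _ => hne b
  set PL : Polynomial L := P.map (algebraMap K L) with hPL
  obtain ⟨Q, hQ0, hQ⟩ : ∃ Q : Polynomial K, Q ≠ 0 ∧ Polynomial.IsSplittingField K L Q := by
    obtain ⟨Q, hQ⟩ := Normal.exists_isSplittingField K L
    by_cases h0 : Q = 0
    · refine ⟨1, one_ne_zero, ⟨by simp, ?_⟩⟩
      have h1 := hQ.adjoin_rootSet'
      rw [h0, Polynomial.rootSet_zero] at h1
      rw [Polynomial.rootSet_one]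
      exact h1
    · exact ⟨Q, h0, hQ⟩
  let Ω := PL.SplittingField
  haveI : CharZero Ω := charZero_of_injective_algebraMap (algebraMap L Ω).injective
  haveI : NumberField Ω := NumberField.of_module_finite L Ω
  haveI : Polynomial.IsSplittingField K Ω (Q * P) := Polynomial.IsSplittingField.mul (K := L) Ω Q P hQ0 hP0
  haveI : Normal K Ω := Normal.of_isSplittingField (Q * P)
  haveI : IsGalois K Ω := { }
  -- the roots
  have hroots : ∀ x ∈ PL.rootSet Ω, ∃ b ∈ 𝔅, x ^ 2 = algebraMap K Ω b := by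
    intro x hx
    have h3 := (Polynomial.mem_rootSet.1 hx).2
    have h5 : Polynomial.aeval x PL = Polynomial.aeval x P := by
      have := Polynomial.aeval_map_algebraMap L x P
      exact this
    rw [h5, hP, map_prod] at h3
    obtain ⟨b, hb, h4⟩ := Finset.prod_eq_zero_iff.1 h3
    refine ⟨b, hb, ?_⟩
    simp only [map_sub, map_pow, Polynomial.aeval_X, Polynomial.aeval_C] at h4
    exact sub_eq_zero.1 h4
  have hsign : ∀ (σ : Ω ≃ₐ[K] Ω), ∀ x ∈ PL.rootSet Ω, σ x = x ∨ σ x = -x := by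
    intro σ x hx
    obtain ⟨b, hb, h4⟩ := hroots x hx
    rw [← sq_eq_sq_iff_eq_or_eq_neg, ← map_pow, h4, σ.commutes]
  have hext : ∀ ρ : Ω ≃ₐ[K] Ω, (∀ x : L, ρ (algebraMap L Ω x) = algebraMap L Ω x) →
      (∀ x ∈ PL.rootSet Ω, ρ x = x) → ρ = 1 := by
    intro ρ h1 h2
    let ρ' : Ω →ₐ[L] Ω := { toRingHom := (ρ : Ω →+* Ω), commutes' := h1 }
    have h5 : ρ' = AlgHom.id L Ω :=
      AlgHom.ext_of_adjoin_eq_top (Polynomial.SplittingField.adjoin_rootSet PL)
        (fun x hx => h2 x hx)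
    ext x
    exact DFunLike.congr_fun h5 x
  refine ⟨Ω, inferInstance, inferInstance, inferInstance, inferInstance, inferInstance,
    inferInstance, ?_, ?_, ?_⟩
  · intro σ τ
    have h1 : (τ * σ)⁻¹ * (σ * τ) = 1 := by
      apply hext
      · intro x
        have e1 : ∀ ρ : Ω ≃ₐ[K] Ω, ∀ y : L, ρ (algebraMap L Ω y) =
            algebraMap L Ω (ρ.restrictNormal L y) :=
          fun ρ y => (AlgEquiv.restrictNormal_commutes ρ L y).symm
        have e2 : (σ * τ) (algebraMap L Ω x) = (τ * σ) (algebraMap L Ω x) := by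
          rw [AlgEquiv.mul_apply, AlgEquiv.mul_apply, e1 τ, e1 σ, e1 σ, e1 τ,
            ← AlgEquiv.mul_apply, ← AlgEquiv.mul_apply, mul_comm']
        rw [AlgEquiv.mul_apply, e2, ← AlgEquiv.mul_apply, inv_mul_cancel, AlgEquiv.one_apply]
      · intro x hx
        have e2 : (σ * τ) x = (τ * σ) x := by
          rw [AlgEquiv.mul_apply, AlgEquiv.mul_apply]
          rcases hsign σ x hx with h3 | h3 <;> rcases hsign τ x hx with h4 | h4 <;>
            simp [h3, h4]
        rw [AlgEquiv.mul_apply, e2, ← AlgEquiv.mul_apply, inv_mul_cancel, AlgEquiv.one_apply]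
    exact (inv_mul_eq_one.1 h1).symm
  · intro σ hσ
    apply hext
    · intro x
      rw [pow_two, AlgEquiv.mul_apply, hσ, hσ]
    · intro x hx
      rw [pow_two, AlgEquiv.mul_apply]
      rcases hsign σ x hx with h3 | h3
      · rw [h3, h3]
      · rw [h3, map_neg, h3]
        exact neg_neg x
  · intro b hb
    have hspl := Polynomial.SplittingField.splits PL
    have hdvd : (Polynomial.X ^ 2 - Polynomial.C b : Polynomial K) ∣ P := Finset.dvd_prod_of_mem _ hb
    have h3 : (((Polynomial.X ^ 2 - Polynomial.C b : Polynomial K).map (algebraMap K L)).map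
        (algebraMap L Ω)).Splits :=
      hspl.of_dvd (Polynomial.map_ne_zero (Polynomial.map_ne_zero hP0))
        (Polynomial.map_dvd _ (Polynomial.map_dvd _ hdvd))
    obtain ⟨a, ha⟩ := h3.exists_eval_eq_zero (by
      rw [Polynomial.degree_map, Polynomial.degree_map, Polynomial.degree_X_pow_sub_C two_pos]
      norm_num)
    refine ⟨a, ?_⟩
    simp only [Polynomial.map_sub, Polynomial.map_pow, Polynomial.map_X, Polynomial.map_C,
      Polynomial.eval_sub, Polynomial.eval_pow, Polynomial.eval_X, Polynomial.eval_C] at ha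
    rw [IsScalarTower.algebraMap_apply K L Ω]
    exact sub_eq_zero.1 ha

end Pool.Agent.STc
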