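import Pool.Agent.Lib.MP_1ef7cf_nt.PrimeSum
import Pool.Agent.Lib.MP_1ef7cf_nt_b.Val

/-!
# Quadratic ray class characters given by their values at the primes
-/

open NumberField IsDedekindDomain

namespace Pool.Agent.STc

open Pool.Agent.ST Pool.Agent.STb

/-- `ℓ` gives a quadratic character of a narrow ray class group of `E`. -/
def IsRay {E : Type*} [Field E] [NumberField E] (ℓ : PrI E → ZMod 2) : Prop :=
  ∃ n : Ideal (𝓞 E), n ≠ ⊥ ∧ (∀ u : PrI E, u.asIdeal ∣ n → ℓ u = 0) ∧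
    ∀ a : 𝓞 E, a ≠ 0 → a - 1 ∈ n → (∀ φ : E →+* ℝ, 0 < φ (a : E)) →
      ∑ᶠ u ∈ {u : PrI E | ¬ SqAt u (a : E)}, ℓ u = 0

end Pool.Agent.STc
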