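import Pool.Agent.Lib.MP_1ef7cf_nt.PrimeSum2
import Pool.Agent.Lib.MP_1ef7cf_nt_c.RayChar
import Pool.Agent.Lib.MP_1ef7cf_nt_c.VDefs

/-!
# Quadratic ray class characters from their values at the primes
-/

set_option linter.unusedSectionVars false

open NumberField IsDedekindDomain

namespace Pool.Agent.STc

open Pool.Agent.ST Pool.Agent.STb

/-- The sign attached to an element of `ZMod 2`. -/
noncomputable def sg (x : ZMod 2) : ℝ := if x = 0 then 1 else -1

lemma sg_zero : sg 0 = 1 := if_pos rfl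

lemma sg_one : sg 1 = -1 := if_neg one_ne_zero

lemma zmod2 (x : ZMod 2) : x = 0 ∨ x = 1 := by
  fin_cases x
  · left; rfl
  · right; rfl

lemma sg_add (x y : ZMod 2) : sg (x + y) = sg x * sg y := by
  rcases zmod2 x with rfl | rfl <;> rcases zmod2 y with rfl | rfl
  · rw [add_zero, sg_zero, mul_one]
  · rw [zero_add, sg_zero, one_mul]
  · rw [add_zero, sg_zero, mul_one]
  · have : (1 : ZMod 2) + 1 = 0 := rfl
    rw [this, sg_zero, sg_one]; norm_num

lemma sg_nsmul (k : ℕ) (x : ZMod 2) : sg (k • x) = sg x ^ k := by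
  induction k with
  | zero => rw [zero_nsmul, sg_zero, pow_zero]
  | succ k ih => rw [succ_nsmul, sg_add, ih, pow_succ]

lemma sg_sum {ι : Type*} (s : Finset ι) (f : ι → ZMod 2) : sg (∑ i ∈ s, f i) = ∏ i ∈ s, sg (f i) := by
  classical
  induction s using Finset.induction_on with
  | empty => rw [Finset.sum_empty, Finset.prod_empty, sg_zero]
  | insert a s ha ih => rw [Finset.sum_insert ha, Finset.prod_insert ha, sg_add, ih]

lemma sg_eq (x : ZMod 2) : sg x = 1 ∨ sg x = -1 := by
  unfold sg
  split_ifs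
  · left; rfl
  · right; rfl

lemma sg_eq_one_iff (x : ZMod 2) : sg x = 1 ↔ x = 0 := by
  rcases zmod2 x with rfl | rfl
  · simp [sg_zero]
  · rw [sg_one]
    constructor
    · intro h; norm_num at h
    · intro h; exact absurd h one_ne_zero

section mchi

variable {M : Type*} [Field M] [NumberField M]

open UniqueFactorizationMonoid in
open Classical in
/-- The completely multiplicative function with values `f` at the primes. -/
noncomputable def mchi (f : Ideal (𝓞 M) → ℝ) : Ideal (𝓞 M) →*₀ ℝ where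
  toFun I := if I = 0 then 0 else ((normalizedFactors I).map f).prod
  map_zero' := if_pos rfl
  map_one' := by
    rw [if_neg one_ne_zero, normalizedFactors_one, Multiset.map_zero, Multiset.prod_zero]
  map_mul' I J := by
    by_cases hI : I = 0
    · rw [hI, zero_mul, if_pos rfl, zero_mul]
    by_cases hJ : J = 0
    · rw [hJ, mul_zero, if_pos rfl, mul_zero]
    rw [if_neg hI, if_neg hJ, if_neg (mul_ne_zero hI hJ), normalizedFactors_mul hI hJ,
      Multiset.map_add, Multiset.prod_add]

open UniqueFactorizationMonoid in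
lemma mchi_prime (f : Ideal (𝓞 M) → ℝ) (P : PrI M) : mchi f P.asIdeal = f P.asIdeal := by
  have h0 : P.asIdeal ≠ 0 := P.ne_bot
  have h1 : Irreducible P.asIdeal := P.irreducible
  change (if P.asIdeal = 0 then 0 else ((normalizedFactors P.asIdeal).map f).prod) = _
  rw [if_neg h0, normalizedFactors_irreducible h1]
  simp

lemma coprime_iff_not_dvd (P : PrI M) (n : Ideal (𝓞 M)) :
    IsCoprime P.asIdeal n ↔ ¬ P.asIdeal ∣ n := by
  rw [Ideal.isCoprime_iff_sup_eq]
  constructor
  · intro h hd
    have h1 : n ≤ P.asIdeal := Ideal.le_of_dvd hd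
    rw [sup_eq_left.2 h1] at h
    exact P.isPrime.ne_top h
  · intro h
    by_contra hne
    apply h
    rw [Ideal.dvd_iff_le]
    have h1 : P.asIdeal = P.asIdeal ⊔ n := P.isMaximal.eq_of_le hne le_sup_left
    rw [h1]
    exact le_sup_right

/-- A criterion for a completely multiplicative function to be a ray class character. -/
lemma isRayChar_of {n : Ideal (𝓞 M)} (hn : n ≠ ⊥) {χ : Ideal (𝓞 M) →*₀ ℝ}
    (h1 : ∀ P : PrI M, ¬ P.asIdeal ∣ n → χ P.asIdeal = 1 ∨ χ P.asIdeal = -1)
    (h2 : ∀ P : PrI M, P.asIdeal ∣ n → χ P.asIdeal = 0)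
    (h3 : ∀ a : 𝓞 M, a ≠ 0 → a - 1 ∈ n → (∀ φ : M →+* ℝ, 0 < φ (a : M)) →
      χ (Ideal.span {a}) = 1) : IsRayChar n χ := by
  refine ⟨?_, ?_, h3⟩
  · intro I
    refine UniqueFactorizationMonoid.induction_on_prime
      (P := fun I => I ≠ ⊥ → IsCoprime I n → χ I = 1 ∨ χ I = -1) I ?_ ?_ ?_
    · intro h
      exact absurd rfl h
    · intro J hJ _ _
      left
      rw [isUnit_iff_eq_one] at hJ
      rw [hJ, map_one]
    · intro J P hJ hP ih _ hc
      have hc1 := hc.of_mul_left_left
      have hc2 := hc.of_mul_left_right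
      set P' : PrI M := ⟨P, Ideal.isPrime_of_prime hP, hP.ne_zero⟩ with hP'
      have e1 := h1 P' ((coprime_iff_not_dvd P' n).1 hc1)
      have e2 := ih hJ hc2
      have e3 : χ P = χ P'.asIdeal := rfl
      rw [map_mul, e3]
      rcases e1 with e1 | e1 <;> rcases e2 with e2 | e2 <;> rw [e1, e2] <;> norm_num
  · intro I hI
    by_cases h0 : I = ⊥
    · rw [h0, ← Ideal.zero_eq_bot, map_zero]
    rw [Ideal.isCoprime_iff_sup_eq] at hI
    obtain ⟨P, hP, hle⟩ := Ideal.exists_le_maximal _ hI
    have hPI : I ≤ P := le_sup_left.trans hle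
    have hPn : n ≤ P := le_sup_right.trans hle
    have hPb : P ≠ ⊥ := by
      rintro rfl
      exact hn (le_bot_iff.1 hPn)
    set P' : PrI M := ⟨P, hP.isPrime, hPb⟩ with hP'
    have e1 := h2 P' (Ideal.dvd_iff_le.2 hPn)
    obtain ⟨J, hJ⟩ := Ideal.dvd_iff_le.2 hPI
    have e3 : χ P = χ P'.asIdeal := rfl
    rw [hJ, map_mul, e3, e1, zero_mul]

lemma intVal_eq (P : PrI M) {a : 𝓞 M} (ha : a ≠ 0) :
    P.valuation M (a : M) = WithZero.exp (-(mlt P (Ideal.span {a}) : ℤ)) := by
  have hI : Ideal.span {a} ≠ ⊥ := by rwa [Ne, Ideal.span_singleton_eq_bot]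
  have h1 : P.valuation M (a : M) = P.intValuation a := by
    have := P.valuation_of_algebraMap (K := M) a
    exact this
  rw [h1, P.intValuation_if_neg ha]
  congr 3
  have h2 : emultiplicity P.asIdeal (Ideal.span {a}) =
      (Associates.mk P.asIdeal).count (Associates.mk (Ideal.span {a})).factors := by
    rw [UniqueFactorizationMonoid.emultiplicity_eq_count_normalizedFactors P.irreducible hI,
      normalize_eq, ← Ideal.count_associates_factors_eq hI P.isPrime P.ne_bot]
  have h3 : FiniteMultiplicity P.asIdeal (Ideal.span {a}) :=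
    FiniteMultiplicity.of_prime_left P.prime hI
  rw [h3.emultiplicity_eq_multiplicity] at h2
  exact_mod_cast h2.symm

lemma sqAt_iff_even (P : PrI M) {a : 𝓞 M} (ha : a ≠ 0) :
    SqAt P (a : M) ↔ Even (mlt P (Ideal.span {a})) := by
  rw [sqAt_iff (intVal_eq P ha)]
  simp

/-- `ℓ` is given by a quadratic ray class character. -/
def RayFn (ℓ : PrI M → ZMod 2) : Prop := ∃ (n : Ideal (𝓞 M)) (χ : Ideal (𝓞 M) →*₀ ℝ), n ≠ ⊥ ∧
  IsRayChar n χ ∧ (∀ u : PrI M, ¬ u.asIdeal ∣ n → χ u.asIdeal = sg (ℓ u)) ∧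
    (∀ u : PrI M, u.asIdeal ∣ n → ℓ u = 0)

open Classical in
lemma IsRay.rayFn {ℓ : PrI M → ZMod 2} (h : IsRay ℓ) : RayFn ℓ := by
  obtain ⟨n, hn, h0, h1⟩ := h
  set f : Ideal (𝓞 M) → ℝ := fun I => if h : ∃ P : PrI M, P.asIdeal = I ∧ ¬ P.asIdeal ∣ n then
    sg (ℓ h.choose) else 0 with hf
  have hf1 : ∀ P : PrI M, ¬ P.asIdeal ∣ n → f P.asIdeal = sg (ℓ P) := by
    intro P hP
    have hex : ∃ P' : PrI M, P'.asIdeal = P.asIdeal ∧ ¬ P'.asIdeal ∣ n := ⟨P, rfl, hP⟩
    have e : hex.choose = P := HeightOneSpectrum.ext hex.choose_spec.1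
    change (if h : ∃ P' : PrI M, P'.asIdeal = P.asIdeal ∧ ¬ P'.asIdeal ∣ n then
      sg (ℓ h.choose) else 0) = _
    rw [dif_pos hex, e]
  have hf2 : ∀ P : PrI M, P.asIdeal ∣ n → f P.asIdeal = 0 := by
    intro P hP
    apply dif_neg
    rintro ⟨P', hP', hn'⟩
    exact hn' (hP' ▸ hP)
  refine ⟨n, mchi f, hn, ?_, ?_, h0⟩
  · refine isRayChar_of hn ?_ ?_ ?_
    · intro P hP
      rw [mchi_prime, hf1 P hP]
      exact sg_eq _
    · intro P hP
      rw [mchi_prime, hf2 P hP]
    · intro a ha han hpos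
      have hI : Ideal.span {a} ≠ ⊥ := by rwa [Ne, Ideal.span_singleton_eq_bot]
      have hfin := Ideal.finite_factors hI
      set T : Finset (PrI M) := hfin.toFinset with hT
      have hTm : ∀ P : PrI M, P ∈ T ↔ P.asIdeal ∣ Ideal.span {a} := by
        intro P
        rw [hT, Set.Finite.mem_toFinset]
        rfl
      have hTn : ∀ P ∈ T, ¬ P.asIdeal ∣ n := by
        intro P hP hPn
        rw [hTm] at hP
        have e1 : a ∈ P.asIdeal := Ideal.le_of_dvd hP (Ideal.mem_span_singleton_self a)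
        have e2 : a - 1 ∈ P.asIdeal := Ideal.le_of_dvd hPn han
        apply P.isPrime.ne_top
        rw [Ideal.eq_top_iff_one]
        have : (1 : 𝓞 M) = a - (a - 1) := by ring
        rw [this]
        exact P.asIdeal.sub_mem e1 e2
      rw [ideal_eq_prod (Ideal.span {a}) hI T (fun P hP => (hTm P).2 hP), map_prod]
      have e2 : ∀ P ∈ T, mchi f (P.asIdeal ^ mlt P (Ideal.span {a})) =
          sg (mlt P (Ideal.span {a}) • ℓ P) := by
        intro P hP
        rw [map_pow, mchi_prime, hf1 P (hTn P hP), sg_nsmul]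
      rw [Finset.prod_congr rfl e2, ← sg_sum, sg_eq_one_iff]
      have e3 := h1 a ha han hpos
      rw [← e3]
      have e4 : ∑ᶠ u ∈ {u : PrI M | ¬ SqAt u (a : M)}, ℓ u =
          ∑ᶠ u, (if ¬ SqAt u (a : M) then ℓ u else 0) := by
        apply finsum_congr
        intro u
        by_cases hu : SqAt u (a : M)
        · simp [hu]
        · simp [hu]
      rw [e4, finsum_eq_sum_of_support_subset (s := T)]
      · apply Finset.sum_congr rfl
        intro P _
        by_cases hP : SqAt P (a : M)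
        · rw [if_neg (not_not.2 hP)]
          rw [sqAt_iff_even P ha] at hP
          obtain ⟨k, hk⟩ := hP
          rw [hk, nsmul_eq_mul]
          push_cast
          have : (k : ZMod 2) + k = 0 := CharTwo.add_self_eq_zero _
          rw [this, zero_mul]
        · rw [if_pos hP]
          rw [sqAt_iff_even P ha, Nat.not_even_iff_odd] at hP
          obtain ⟨k, hk⟩ := hP
          rw [hk, nsmul_eq_mul]
          push_cast
          have : (2 : ZMod 2) = 0 := rfl
          rw [this, zero_mul, zero_add, one_mul]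
      · intro P hP
        rw [Function.mem_support] at hP
        rw [Finset.mem_coe, hTm]
        by_contra hd
        apply hP
        have h5 : SqAt P (a : M) := by
          rw [sqAt_iff_even P ha]
          have : mlt P (Ideal.span {a}) = 0 := multiplicity_eq_zero.2 hd
          rw [this]
          exact Even.zero
        rw [if_neg (not_not.2 h5)]
  · intro P hP
    rw [mchi_prime, hf1 P hP]

end mchi

end Pool.Agent.STc
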