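import Pool.Agent.Lib.MP_1ef7cf_nt.Frob2
import Pool.Agent.Lib.MP_1ef7cf_nt_c.V1a

/-!
# Quadratic ray class characters in extensions
-/

set_option linter.unusedSectionVars false
set_option linter.style.haveILetI false

open NumberField IsDedekindDomain

namespace Pool.Agent.STc

open Pool.Agent.ST Pool.Agent.STb

section pos

/-- Product over a group of a function with `f (τ σ) = conj (f σ)`. -/
lemma prod_pos_of_conj {G : Type*} [Group G] [DecidableEq G] {τ : G} (hτ : τ ≠ 1) (hτ2 : τ * τ = 1)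
    {f : G → ℂ} (hf : ∀ σ, f (τ * σ) = (starRingEnd ℂ) (f σ)) (h0 : ∀ σ, f σ ≠ 0) :
    ∀ (k : ℕ) (S : Finset G), S.card ≤ k → (∀ σ ∈ S, τ * σ ∈ S) →
      ∃ r : ℝ, 0 < r ∧ ∏ σ ∈ S, f σ = (r : ℂ) := by
  intro k
  induction k with
  | zero =>
    intro S hS _
    have : S = ∅ := Finset.card_eq_zero.1 (by omega)
    rw [this]
    exact ⟨1, one_pos, by simp⟩
  | succ k ih =>
    intro S hS hc
    rcases S.eq_empty_or_nonempty with h | ⟨σ, hσ⟩
    · rw [h]
      exact ⟨1, one_pos, by simp⟩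
    have h1 : τ * σ ∈ S := hc σ hσ
    have h2 : τ * σ ≠ σ := by
      intro h
      exact hτ (mul_eq_right.1 h)
    have h3 : τ * σ ∈ S.erase σ := Finset.mem_erase.2 ⟨h2, h1⟩
    have hτσ : τ * (τ * σ) = σ := by rw [← mul_assoc, hτ2, one_mul]
    obtain ⟨r, hr, hr'⟩ := ih ((S.erase σ).erase (τ * σ)) (by
      rw [Finset.card_erase_of_mem h3, Finset.card_erase_of_mem hσ]
      omega) (by
      intro ρ hρ
      rw [Finset.mem_erase, Finset.mem_erase] at hρ ⊢
      refine ⟨?_, ?_, hc ρ hρ.2.2⟩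
      · intro h
        exact hρ.2.1 (mul_left_cancel h)
      · intro h
        apply hρ.1
        rw [← h, ← mul_assoc, hτ2, one_mul])
    refine ⟨Complex.normSq (f σ) * r, mul_pos (Complex.normSq_pos.2 (h0 σ)) hr, ?_⟩
    rw [← Finset.mul_prod_erase S f hσ, ← Finset.mul_prod_erase (S.erase σ) f h3, hr', hf σ,
      ← mul_assoc, Complex.mul_conj]
    push_cast
    rfl

variable {E F : Type*} [Field E] [NumberField E] [Field F] [NumberField F] [Algebra E F]
  [IsGalois E F]

/-- The norm of a totally positive element is totally positive. -/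
lemma norm_pos {a : F} (h0 : a ≠ 0) (ha : ∀ φ : F →+* ℝ, 0 < φ a) (φ : E →+* ℝ) :
    0 < φ (Algebra.norm E a) := by
  classical
  letI := (Complex.ofRealHom.comp φ).toAlgebra
  have hfd : FiniteDimensional E F := inferInstance
  have halg : Algebra.IsAlgebraic E F := inferInstance
  set Φ : F →ₐ[E] ℂ := IsAlgClosed.lift with hΦ
  have hmap : ∀ x : E, algebraMap E ℂ x = (φ x : ℂ) := fun x => rfl
  have hN : ((φ (Algebra.norm E a) : ℝ) : ℂ) = ∏ σ : F ≃ₐ[E] F, Φ (σ a) := by
    rw [← hmap, ← Φ.commutes, Algebra.norm_eq_prod_automorphisms, map_prod]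
  by_cases hreal : ∀ x : F, (starRingEnd ℂ) (Φ x) = Φ x
  · have him : ∀ x : F, (Φ x).im = 0 := fun x => Complex.conj_eq_iff_im.1 (hreal x)
    have hre : ∀ x : F, (((Φ x).re : ℝ) : ℂ) = Φ x := fun x => Complex.conj_eq_iff_re.1 (hreal x)
    set ψ : F →+* ℝ :=
      { toFun := fun x => (Φ x).re
        map_one' := by rw [map_one]; rfl
        map_zero' := by rw [map_zero]; rfl
        map_mul' := fun x y => by rw [map_mul, Complex.mul_re, him x, zero_mul, sub_zero]
        map_add' := fun x y => by rw [map_add, Complex.add_re] } with hψ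
    have h1 : φ (Algebra.norm E a) = ∏ σ : F ≃ₐ[E] F, ψ (σ a) := by
      have : ((φ (Algebra.norm E a) : ℝ) : ℂ) = ((∏ σ : F ≃ₐ[E] F, ψ (σ a) : ℝ) : ℂ) := by
        rw [hN]
        push_cast
        exact Finset.prod_congr rfl fun σ _ => (hre (σ a)).symm
      exact_mod_cast this
    rw [h1]
    exact Finset.prod_pos fun σ _ => ha (ψ.comp (σ : F →+* F))
  · push Not at hreal
    obtain ⟨x₀, hx₀⟩ := hreal
    letI : Algebra F ℂ := Φ.toRingHom.toAlgebra
    have htower : IsScalarTower E F ℂ := IsScalarTower.of_algebraMap_eq' Φ.comp_algebraMap.symm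
    set Ψ : F →ₐ[E] ℂ :=
      { toRingHom := (starRingEnd ℂ).comp Φ.toRingHom
        commutes' := fun x => by
          change (starRingEnd ℂ) (Φ (algebraMap E F x)) = _
          rw [Φ.commutes, hmap, Complex.conj_ofReal] } with hΨ
    set τ : F ≃ₐ[E] F := Normal.algHomEquivAut E ℂ F Ψ with hτ
    have hτ1 : ∀ x : F, Φ (τ x) = (starRingEnd ℂ) (Φ x) := by
      intro x
      have h1 : (Normal.algHomEquivAut E ℂ F).symm τ = Ψ := by
        rw [hτ, Equiv.symm_apply_apply]
      have h2 := DFunLike.congr_fun h1 x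
      exact h2
    have hinj : Function.Injective Φ := Φ.toRingHom.injective
    have hτ2 : τ * τ = 1 := by
      ext x
      apply hinj
      rw [AlgEquiv.mul_apply, hτ1, hτ1, Complex.conj_conj, AlgEquiv.one_apply]
    have hτ3 : τ ≠ 1 := by
      intro h
      apply hx₀
      rw [← hτ1, h, AlgEquiv.one_apply]
    obtain ⟨r, hr, hr'⟩ := prod_pos_of_conj hτ3 hτ2 (f := fun σ : F ≃ₐ[E] F => Φ (σ a))
      (fun σ => hτ1 (σ a)) (fun σ h => h0 (by
        have h1 : Φ (σ a) = Φ 0 := by rw [h, map_zero]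
        have h2 := hinj h1
        rwa [EmbeddingLike.map_eq_zero_iff] at h2)) _ Finset.univ le_rfl (fun _ _ => Finset.mem_univ _)
    rw [← hN] at hr'
    have : φ (Algebra.norm E a) = r := by exact_mod_cast hr'
    rw [this]
    exact hr

end pos

section up

variable (E : Type*) {F : Type*} [Field E] [NumberField E] [Field F] [NumberField F] [Algebra E F]

/-- The pull back of `ℓ` under the norm. -/
noncomputable def ev (ℓ : PrI E → ZMod 2) (w : PrI F) : ZMod 2 :=
  (w.asIdeal.inertiaDeg (𝓞 E)) • ℓ (und E w)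

lemma relNorm_prime (w : PrI F) :
    Ideal.relNorm (𝓞 E) w.asIdeal = (und E w).asIdeal ^ (w.asIdeal.inertiaDeg (𝓞 E)) := by
  haveI : w.asIdeal.LiesOver (und E w).asIdeal := ⟨rfl⟩
  haveI : (und E w).asIdeal.IsMaximal := (und E w).isMaximal
  haveI : w.asIdeal.IsMaximal := w.isMaximal
  exact Ideal.relNorm_eq_pow_of_isMaximal _ _

variable {E}

lemma dvd_map_iff (n : Ideal (𝓞 E)) (w : PrI F) :
    w.asIdeal ∣ n.map (algebraMap (𝓞 E) (𝓞 F)) ↔ (und E w).asIdeal ∣ n := by
  rw [Ideal.dvd_iff_le, Ideal.dvd_iff_le, Ideal.map_le_iff_le_comap]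
  rfl

lemma intNorm_coe [IsGalois E F] (a : 𝓞 F) :
    ((Algebra.intNorm (𝓞 E) (𝓞 F) a : 𝓞 E) : E) = Algebra.norm E (a : F) :=
  Algebra.algebraMap_intNorm (K := E) (L := F) a

/-- Quadratic ray class characters pull back to quadratic ray class characters. -/
lemma RayFn.up [IsGalois E F] {ℓ : PrI E → ZMod 2} (h : RayFn ℓ) :
    RayFn (ev E ℓ : PrI F → ZMod 2) := by
  classical
  obtain ⟨n, χ, hn, hχ, h1, h2⟩ := h
  have hn' : n.map (algebraMap (𝓞 E) (𝓞 F)) ≠ ⊥ := by
    rw [Ne, Ideal.map_eq_bot_iff_of_injective (FaithfulSMul.algebraMap_injective _ _)]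
    exact hn
  have key : ∀ w : PrI F, (χ.comp (Ideal.relNorm (𝓞 E))) w.asIdeal =
      χ (und E w).asIdeal ^ (w.asIdeal.inertiaDeg (𝓞 E)) := by
    intro w
    rw [MonoidWithZeroHom.comp_apply, relNorm_prime, map_pow]
  have key1 : ∀ w : PrI F, ¬ w.asIdeal ∣ n.map (algebraMap (𝓞 E) (𝓞 F)) →
      (χ.comp (Ideal.relNorm (𝓞 E))) w.asIdeal = sg (ev E ℓ w) := by
    intro w hw
    rw [dvd_map_iff] at hw
    rw [key, h1 _ hw, ev, sg_nsmul]
  refine ⟨n.map (algebraMap (𝓞 E) (𝓞 F)), χ.comp (Ideal.relNorm (𝓞 E)), hn',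
    isRayChar_of hn' ?_ ?_ ?_, key1, ?_⟩
  · intro w hw
    rw [key1 w hw]
    exact sg_eq _
  · intro w hw
    rw [dvd_map_iff] at hw
    have h3 : χ (und E w).asIdeal = 0 := by
      apply hχ.zero
      rw [coprime_iff_not_dvd]
      exact not_not.2 hw
    rw [key, h3, zero_pow (inertiaDeg_pos' E w).ne']
  · intro a ha han hpos
    rw [MonoidWithZeroHom.comp_apply, Ideal.relNorm_singleton]
    have hne : Algebra.intNorm (𝓞 E) (𝓞 F) a ≠ 0 := by
      rwa [Ne, Algebra.intNorm_eq_zero]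
    have ha' : (a : F) ≠ 0 := fun h => ha (RingOfIntegers.ext h)
    apply hχ.one _ hne
    · have e1 : algebraMap (𝓞 E) (𝓞 F) (Algebra.intNorm (𝓞 E) (𝓞 F) a) =
          ∏ σ : F ≃ₐ[E] F, σ • a := by
        apply RingOfIntegers.coe_injective
        have e2 : (algebraMap (𝓞 F) F) (algebraMap (𝓞 E) (𝓞 F) (Algebra.intNorm (𝓞 E) (𝓞 F) a)) =
            algebraMap E F ((Algebra.intNorm (𝓞 E) (𝓞 F) a : 𝓞 E) : E) := rfl
        rw [e2, intNorm_coe, Algebra.norm_eq_prod_automorphisms, map_prod]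
        rfl
      have e3 : ∀ σ : F ≃ₐ[E] F, σ • a - 1 ∈ n.map (algebraMap (𝓞 E) (𝓞 F)) := by
        intro σ
        have e4 : σ • a - 1 = σ • (a - 1) := by
          rw [smul_sub, smul_one]
        rw [e4]
        have e5 : ∀ x ∈ n.map (algebraMap (𝓞 E) (𝓞 F)),
            σ • x ∈ n.map (algebraMap (𝓞 E) (𝓞 F)) := by
          intro x hx
          have e6 : n.map (algebraMap (𝓞 E) (𝓞 F)) ≤ (n.map (algebraMap (𝓞 E) (𝓞 F))).comap
              (MulSemiringAction.toRingHom (F ≃ₐ[E] F) (𝓞 F) σ) := by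
            rw [Ideal.map_le_iff_le_comap]
            intro y hy
            rw [Ideal.mem_comap, Ideal.mem_comap, MulSemiringAction.toRingHom_apply,
              smul_algebraMap]
            exact Ideal.mem_map_of_mem _ hy
          exact e6 hx
        exact e5 _ han
      have e7 : ∏ σ : F ≃ₐ[E] F, σ • a - 1 ∈ n.map (algebraMap (𝓞 E) (𝓞 F)) := by
        rw [← Ideal.Quotient.eq, map_prod, map_one]
        apply Finset.prod_eq_one
        intro σ _
        have := e3 σ
        rw [← Ideal.Quotient.eq, map_one] at this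
        exact this
      have e8 : Algebra.intNorm (𝓞 E) (𝓞 F) a - 1 ∈
          (n.map (algebraMap (𝓞 E) (𝓞 F))).comap (algebraMap (𝓞 E) (𝓞 F)) := by
        rw [Ideal.mem_comap, map_sub, map_one, e1]
        exact e7
      rwa [Ideal.comap_map_eq_self_of_faithfullyFlat] at e8
    · intro φ
      rw [intNorm_coe]
      exact norm_pos ha' hpos φ
  · intro w hw
    rw [dvd_map_iff] at hw
    rw [ev, h2 _ hw, smul_zero]

end up

end Pool.Agent.STc
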