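import Pool.Agent.Lib.MP_1ef7cf_nt.LowDens
import Pool.Agent.Lib.MP_1ef7cf_nt_c.Mg.G004
import Pool.Agent.Lib.MP_1ef7cf_nt_c.V1a

/-!
# Density of the primes with given value of a quadratic character
-/

set_option linter.unusedSectionVars false
set_option linter.style.haveILetI false

open NumberField IsDedekindDomain Filter Topology

namespace Pool.Agent.STc

open Pool.Agent.ST Pool.Agent.STb

section dens

variable {M : Type*} [Field M] [NumberField M]

lemma ind_summable (B : Set (PrI M)) {s : ℝ} (hs : 1 < s) :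
    Summable (B.indicator (px s) : PrI M → ℝ) := (summable_px hs).indicator B

lemma ind_nonneg (B : Set (PrI M)) (s : ℝ) (P : PrI M) : 0 ≤ B.indicator (px s) P :=
  Set.indicator_nonneg (fun x _ => (px_pos s x).le) P

lemma ev_lt_two : ∀ᶠ s in 𝓝[>] (1 : ℝ), s < 2 :=
  mem_nhdsWithin_of_mem_nhds (Iio_mem_nhds (by norm_num))

/-- The primes with value `1` under a nontrivial quadratic ray class character. -/
lemma RayFn.densGe {ℓ : PrI M → ZMod 2} (h : RayFn ℓ) (hne : ∃ P, ℓ P = 1) :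
    DensGe {P : PrI M | ℓ P = 1} (1 / 2) := by
  classical
  obtain ⟨n, χ, hn, hχ, h1, h2⟩ := h
  obtain ⟨P₀, hP₀⟩ := hne
  have hP₀n : ¬ P₀.asIdeal ∣ n := by
    intro hd
    rw [h2 P₀ hd] at hP₀
    exact zero_ne_one hP₀
  obtain ⟨C, hC⟩ := weber hn hχ ⟨P₀, by rw [h1 P₀ hP₀n, hP₀, sg_one]⟩
  obtain ⟨CM, hCM⟩ := primeSum_asymp M
  set D : Set (PrI M) := {P | P.asIdeal ∣ n} with hD
  have hDfin : D.Finite := Ideal.finite_factors hn
  obtain ⟨C', hC'⟩ := (DensLe.of_finite hDfin).tsum_le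
  refine ⟨(C + CM + C') / 2, ?_⟩
  filter_upwards [hCM, self_mem_nhdsWithin, ev_lt_two] with s h3 h4 h5
  have hs : (1 : ℝ) < s := h4
  set B : Set (PrI M) := {P : PrI M | ℓ P = 1} with hB
  have sχ : Summable (fun P : PrI M => χ P.asIdeal * px s P) := by
    refine Summable.of_norm_bounded (summable_px hs) fun P => ?_
    rw [Real.norm_eq_abs, abs_mul, abs_of_pos (px_pos s P)]
    exact mul_le_of_le_one_left (px_pos s P).le (abs_chi_le hχ _)
  have e1 : primeSum M s ≤ 2 * ∑' P, B.indicator (px s) P + ∑' P : PrI M, χ P.asIdeal * px s P +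
      ∑' P, D.indicator (px s) P := by
    rw [← tsum_mul_left, ← ((ind_summable B hs).mul_left 2).tsum_add sχ,
      ← (((ind_summable B hs).mul_left 2).add sχ).tsum_add (ind_summable D hs)]
    apply (summable_px hs).tsum_le_tsum _
      ((((ind_summable B hs).mul_left 2).add sχ).add (ind_summable D hs))
    intro P
    have p1 := ind_nonneg B s P
    have p3 := (px_pos s P).le
    by_cases hP : P.asIdeal ∣ n
    · have hPD : P ∈ D := hP
      have h6 : χ P.asIdeal = 0 := by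
        apply hχ.zero
        rw [coprime_iff_not_dvd]
        exact not_not.2 hP
      rw [Set.indicator_of_mem hPD, h6]
      linarith
    · have hPD : P ∉ D := hP
      rw [Set.indicator_of_notMem hPD, h1 P hP]
      rcases zmod2 (ℓ P) with h0 | h0
      · rw [h0, sg_zero]
        linarith
      · have hPB : P ∈ B := h0
        rw [Set.indicator_of_mem hPB, h0, sg_one]
        linarith
  have e2 := hC s hs h5
  have e3 := hC' s hs h5
  rw [zero_mul, zero_add] at e3
  rw [abs_le] at h3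
  rw [log_one_div_sub]
  linarith [h3.1]

/-- The common kernel of two independent quadratic characters. -/
lemma rayFn_upper {ℓ₁ ℓ₂ : PrI M → ZMod 2} (h1 : RayFn ℓ₁) (h2 : RayFn ℓ₂) (h3 : RayFn (ℓ₁ + ℓ₂))
    (n1 : ∃ P, ℓ₁ P = 1) (n2 : ∃ P, ℓ₂ P = 1) (n3 : ∃ P, (ℓ₁ + ℓ₂) P = 1) :
    ∃ C : ℝ, ∀ᶠ s in 𝓝[>] (1 : ℝ), ∑' P, {P : PrI M | ℓ₁ P = 0 ∧ ℓ₂ P = 0}.indicator (px s) P ≤
      (1 / 4) * Real.log (1 / (s - 1)) + C := by
  obtain ⟨C1, hC1⟩ := h1.densGe n1
  obtain ⟨C2, hC2⟩ := h2.densGe n2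
  obtain ⟨C3, hC3⟩ := h3.densGe n3
  obtain ⟨CM, hCM⟩ := primeSum_asymp M
  refine ⟨CM + (C1 + C2 + C3) / 2, ?_⟩
  filter_upwards [hC1, hC2, hC3, hCM, self_mem_nhdsWithin] with s e1 e2 e3 e4 h4
  have hs : (1 : ℝ) < s := h4
  set B1 : Set (PrI M) := {P | ℓ₁ P = 1} with hB1
  set B2 : Set (PrI M) := {P | ℓ₂ P = 1} with hB2
  set B3 : Set (PrI M) := {P | (ℓ₁ + ℓ₂) P = 1} with hB3
  set Z : Set (PrI M) := {P | ℓ₁ P = 0 ∧ ℓ₂ P = 0} with hZ
  have key : 2 * ∑' P, Z.indicator (px s) P + (∑' P, B1.indicator (px s) P +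
      ∑' P, B2.indicator (px s) P + ∑' P, B3.indicator (px s) P) ≤ 2 * primeSum M s := by
    rw [primeSum, ← tsum_mul_left, ← tsum_mul_left, ← (ind_summable B1 hs).tsum_add
      (ind_summable B2 hs), ← ((ind_summable B1 hs).add (ind_summable B2 hs)).tsum_add
      (ind_summable B3 hs), ← ((ind_summable Z hs).mul_left 2).tsum_add
      (((ind_summable B1 hs).add (ind_summable B2 hs)).add (ind_summable B3 hs))]
    apply Summable.tsum_le_tsum _ (((ind_summable Z hs).mul_left 2).add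
      (((ind_summable B1 hs).add (ind_summable B2 hs)).add (ind_summable B3 hs)))
      ((summable_px hs).mul_left 2)
    intro P
    have p3 := (px_pos s P).le
    have m1 : P ∈ B1 ↔ ℓ₁ P = 1 := Iff.rfl
    have m2 : P ∈ B2 ↔ ℓ₂ P = 1 := Iff.rfl
    have m3 : P ∈ B3 ↔ ℓ₁ P + ℓ₂ P = 1 := Iff.rfl
    have mz : P ∈ Z ↔ ℓ₁ P = 0 ∧ ℓ₂ P = 0 := Iff.rfl
    have z1 : (0 : ZMod 2) ≠ 1 := zero_ne_one
    have z2 : (1 : ZMod 2) ≠ 0 := one_ne_zero
    have z3 : (1 : ZMod 2) + 1 = 0 := rfl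
    rcases zmod2 (ℓ₁ P) with a1 | a1 <;> rcases zmod2 (ℓ₂ P) with a2 | a2
    · have c1 : P ∉ B1 := by rw [m1, a1]; exact z1
      have c2 : P ∉ B2 := by rw [m2, a2]; exact z1
      have c3 : P ∉ B3 := by rw [m3, a1, a2, add_zero]; exact z1
      have cz : P ∈ Z := by rw [mz]; exact ⟨a1, a2⟩
      rw [Set.indicator_of_mem cz, Set.indicator_of_notMem c1, Set.indicator_of_notMem c2,
        Set.indicator_of_notMem c3]
      linarith
    · have c1 : P ∉ B1 := by rw [m1, a1]; exact z1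
      have c2 : P ∈ B2 := by rw [m2, a2]
      have c3 : P ∈ B3 := by rw [m3, a1, a2, zero_add]
      have cz : P ∉ Z := by rw [mz, a2]; exact fun h => z2 h.2
      rw [Set.indicator_of_notMem cz, Set.indicator_of_notMem c1, Set.indicator_of_mem c2,
        Set.indicator_of_mem c3]
      linarith
    · have c1 : P ∈ B1 := by rw [m1, a1]
      have c2 : P ∉ B2 := by rw [m2, a2]; exact z1
      have c3 : P ∈ B3 := by rw [m3, a1, a2, add_zero]
      have cz : P ∉ Z := by rw [mz, a1]; exact fun h => z2 h.1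
      rw [Set.indicator_of_notMem cz, Set.indicator_of_mem c1, Set.indicator_of_notMem c2,
        Set.indicator_of_mem c3]
      linarith
    · have c1 : P ∈ B1 := by rw [m1, a1]
      have c2 : P ∈ B2 := by rw [m2, a2]
      have c3 : P ∉ B3 := by rw [m3, a1, a2, z3]; exact z1
      have cz : P ∉ Z := by rw [mz, a1]; exact fun h => z2 h.1
      rw [Set.indicator_of_notMem cz, Set.indicator_of_mem c1, Set.indicator_of_mem c2,
        Set.indicator_of_notMem c3]
      linarith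
  rw [abs_le] at e4
  rw [log_one_div_sub] at *
  linarith [e4.2]

end dens

section quad

lemma px_le_of_sq_le {K E : Type*} [Field K] [NumberField K] [Field E] [NumberField E] [Algebra K E]
    {q : PrI E} (hq : pn q ≠ pn (und K q)) {s : ℝ} (hs : 1 < s) : px s q ≤ px 2 (und K q) := by
  have h5 := pn_sq_le K hq
  have h7 := two_le_pn (und K q)
  have h8 : (2 : ℝ) ≤ (pn (und K q) : ℝ) := by exact_mod_cast h7
  have h9 : ((pn (und K q) : ℝ)) ^ 2 ≤ (pn q : ℝ) := by exact_mod_cast h5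
  unfold px
  calc (pn q : ℝ) ^ (-s) ≤ ((pn (und K q) : ℝ) ^ 2) ^ (-s) := by
        apply Real.rpow_le_rpow_of_nonpos (by positivity) h9 (by linarith)
    _ = (pn (und K q) : ℝ) ^ (-(2 * s)) := by
        rw [← Real.rpow_natCast, ← Real.rpow_mul (by positivity)]
        congr 1
        push_cast
        ring
    _ ≤ (pn (und K q) : ℝ) ^ (-2 : ℝ) := by
        apply Real.rpow_le_rpow_of_exponent_le (by linarith) (by linarith)

lemma tendsto_neg_log : Tendsto (fun s : ℝ => -Real.log (s - 1)) (𝓝[>] 1) atTop := by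
  have h1 : Tendsto (fun s : ℝ => s - 1) (𝓝[>] 1) (𝓝[>] 0) := by
    have h2 : Tendsto (fun s : ℝ => s - 1) (𝓝 1) (𝓝 0) := by
      have h3 : Continuous fun s : ℝ => s - 1 := by fun_prop
      have h4 := h3.tendsto 1
      rwa [sub_self] at h4
    refine tendsto_nhdsWithin_iff.2 ⟨h2.mono_left nhdsWithin_le_nhds, ?_⟩
    filter_upwards [self_mem_nhdsWithin] with s hs
    have : (1 : ℝ) < s := hs
    simpa using this
  exact tendsto_neg_atBot_atTop.comp (Real.tendsto_log_nhdsGT_zero.comp h1)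

variable {F₁ F₂ : Type*} [Field F₁] [NumberField F₁] [Field F₂] [NumberField F₂] [Algebra F₁ F₂]
  [IsGalois F₁ F₂]

/-- A quadratic extension cannot trivialise two independent quadratic characters. -/
lemma exists_degree_one (hdeg : Module.finrank F₁ F₂ = 2) {ℓ₁ ℓ₂ : PrI F₁ → ZMod 2}
    (h1 : RayFn ℓ₁) (h2 : RayFn ℓ₂) (h3 : RayFn (ℓ₁ + ℓ₂))
    (n1 : ∃ P, ℓ₁ P = 1) (n2 : ∃ P, ℓ₂ P = 1) (n3 : ∃ P, (ℓ₁ + ℓ₂) P = 1) :
    ∃ w : PrI F₂, pn w = pn (und F₁ w) ∧ (ℓ₁ (und F₁ w) = 1 ∨ ℓ₂ (und F₁ w) = 1) := by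
  classical
  by_contra hcon
  push Not at hcon
  set Z : Set (PrI F₁) := {P | ℓ₁ P = 0 ∧ ℓ₂ P = 0} with hZ
  obtain ⟨C, hC⟩ := rayFn_upper h1 h2 h3 n1 n2 n3
  obtain ⟨C2, hC2⟩ := primeSum_asymp F₂
  set g : ℝ → PrI F₁ → ℝ := fun s p => Z.indicator (px s) p + px 2 p with hg
  have hup : ∀ s : ℝ, 1 < s → primeSum F₂ s ≤
      2 * (∑' p, Z.indicator (px s) p + primeSum F₁ 2) := by
    intro s hs
    have e1 := primeSum_le_of F₁ (E := F₂) (g s) (fun p => by
      have := ind_nonneg Z s p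
      have := (px_pos 2 p).le
      simp only [hg]
      linarith) ((ind_summable Z hs).add (summable_px one_lt_two)) (fun w => by
      have p1 := ind_nonneg Z s (und F₁ w)
      have p2 := (px_pos 2 (und F₁ w)).le
      simp only [hg]
      by_cases hw : pn w = pn (und F₁ w)
      · have hwZ : und F₁ w ∈ Z := by
          obtain ⟨h4, h5⟩ := hcon w hw
          exact ⟨(zmod2 _).resolve_right h4, (zmod2 _).resolve_right h5⟩
        rw [Set.indicator_of_mem hwZ]
        have : px s w = px s (und F₁ w) := by rw [px, px, hw]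
        linarith
      · have := px_le_of_sq_le hw hs
        linarith)
    rw [hdeg] at e1
    simp only [hg] at e1
    rw [(ind_summable Z hs).tsum_add (summable_px one_lt_two)] at e1
    exact_mod_cast e1
  have hlog := tendsto_neg_log.eventually_gt_atTop (2 * (C2 + 2 * (C + primeSum F₁ 2)))
  obtain ⟨s, e1, e2, e3, e4⟩ := (hlog.and (hC.and (hC2.and self_mem_nhdsWithin))).exists
  have hs : (1 : ℝ) < s := e4
  have e5 := hup s hs
  rw [abs_le] at e3
  rw [log_one_div_sub] at e2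
  linarith [e3.1]

end quad

end Pool.Agent.STc
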