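import Pool.Agent.Lib.MP_1ef7cf_nt_c.VMC

/-!
# The local argument and duality
-/

set_option linter.unusedSectionVars false

open NumberField IsDedekindDomain

namespace Pool.Agent.STc.VM

open Pool.Agent.ST Pool.Agent.STb Cnt MonoidAlgebra

section loc

variable {K E : Type*} [Field K] [NumberField K] [Field E] [NumberField E] [Algebra K E]
  {D r : Finset (PrI K)} {τ : PrI K → K}

/-- the element `Θ` -/
noncomputable def Th (φ : Mq Eˣ →+ ZMod 2) (b : Eˣ) : Rg (E ≃ₐ[K] E) :=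
  ∑ g : E ≃ₐ[K] E, single g (φ (mkq (g⁻¹ • b)))

lemma Th_coeff (φ : Mq Eˣ →+ ZMod 2) (b : Eˣ) (h : E ≃ₐ[K] E) :
    (Th φ b).coeff h = φ (mkq (h⁻¹ • b)) := by
  classical
  unfold Th
  rw [coeff_sum, Finsupp.finsetSum_apply, Finset.sum_eq_single h]
  · rw [coeff_single, Finsupp.single_eq_same]
  · intro g _ hg
    rw [coeff_single, Finsupp.single_eq_of_ne (Ne.symm hg)]
  · intro hh
    exact absurd (Finset.mem_univ _) hh

lemma coeff_mul_Th (φ : Mq Eˣ →+ ZMod 2) (b : Eˣ) (z : Rg (E ≃ₐ[K] E)) :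
    (z * Th φ b).coeff 1 = φ (act (sigq (E ≃ₐ[K] E) Eˣ) z (mkq b)) := by
  induction z using MonoidAlgebra.induction_linear with
  | zero =>
    rw [zero_mul, map_zero]
    exact (map_zero φ).symm
  | add x y hx hy => rw [add_mul, act_add, map_add, ← hx, ← hy]; rfl
  | single g a =>
    rcases zmod2_cases a with rfl | rfl
    · rw [MonoidAlgebra.single_zero, zero_mul, map_zero]
      exact (map_zero φ).symm
    · rw [act_single, sigq_mkq]
      have h1 := MonoidAlgebra.coeff_single_mul_eq_mul_coeff (x := Th φ b) (m := g)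
        (r := (1 : ZMod 2)) (m₁ := (1 : E ≃ₐ[K] E)) g⁻¹ (by
          intro h _
          constructor
          · intro h2
            exact (inv_eq_of_mul_eq_one_right h2).symm
          · rintro rfl
            rw [mul_inv_cancel])
      rw [h1, one_mul, Th_coeff, inv_inv]

/-- the local conclusion at a prime `v` with `ℓ v ≠ 0` -/
lemma local_conclusion [IsGalois K E] (hab : ∀ g h : E ≃ₐ[K] E, g * h = h * g)
    {N e : Rg (E ≃ₐ[K] E)}
    (he : e * e = e) (hdich : ∀ x, e * x = x → N * x = 0 ∨ ∃ n, 0 < n ∧ x ^ n = e)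
    {b : Eˣ} {v : PrI E}
    {φ : Mq Eˣ →+ ZMod 2} (hφ : ∀ x : Eˣ, SqAt v (x : E) → (φ (mkq x) = 0 ↔ LSq v (x : E)))
    (hb : ∀ g : E ≃ₐ[K] E, SqAt v ((g • b : Eˣ) : E))
    (hinj : Function.Injective (fun g : E ≃ₐ[K] E => g • v))
    {x : E} (hx : InP r τ x)
    (h1 : ∀ u : PrI E, und K u = und K v → (SqAt u x ↔ LSq u (b : E)))
    (h2 : ∀ u : PrI E, und K u ≠ und K v → und K u ∉ D → und K u ∉ r → SqAt u x)
    {ℓ : PrI E → ZMod 2} (hℓ : ℓ ∈ CC E D r τ) (hℓe : act (sigf (PrI E) hab) e ℓ = ℓ)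
    (hℓv : ℓ v ≠ 0) (z : Rg (E ≃ₐ[K] E)) :
    φ (act (sigq (E ≃ₐ[K] E) Eˣ) (z * (N * e)) (mkq b)) = 0 := by
  have hR1 : ∀ ℓ' ∈ CC E D r τ, act (sigf (PrI E) hab) (Th φ b) ℓ' v = 0 := by
    intro ℓ' hℓ'
    rw [act_sigf]
    simp only [Th_coeff]
    exact relation hφ hb hinj hx h1 h2 hℓ'
  have hR2 : N * (e * Th φ b) = 0 := by
    rcases hdich (e * Th φ b) (by rw [← mul_assoc, he]) with h | ⟨n, hn, h⟩
    · exact h
    · exfalso
      obtain ⟨n, rfl⟩ := Nat.exists_eq_succ_of_ne_zero hn.ne'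
      have h3 : (e * Th φ b) ^ (n + 1) = Th φ b * (e * (e * Th φ b) ^ n) := by
        rw [pow_succ', Rg_comm hab e (Th φ b), mul_assoc]
      apply hℓv
      rw [← hℓe, ← h, Nat.succ_eq_add_one, h3, act_mul]
      exact hR1 _ (act_mem _ (fun g m hm => CC_smul hab g hm) _ hℓ)
  rw [← coeff_mul_Th, mul_assoc, mul_assoc, hR2, mul_zero]
  rfl

end loc

section dual

variable {K E : Type*} [Field K] [NumberField K] [Field E] [NumberField E] [Algebra K E]
  {D r : Finset (PrI K)} {τ : PrI K → K}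

lemma inP_one : InP r τ (1 : E) := ⟨one_ne_zero, fun φ => by rw [map_one]; exact one_pos,
  fun _ _ => trv_one⟩

/-- the primes outside `D` and `r` -/
abbrev XX (E : Type*) {K : Type*} [Field K] [NumberField K] [Field E] [NumberField E] [Algebra K E]
    (D r : Finset (PrI K)) := {u : PrI E // und K u ∉ D ∧ und K u ∉ r}

/-- the parities of the orders outside `D` and `r` -/
noncomputable def ov (D r : Finset (PrI K)) (x : Eˣ) : XX E D r →₀ ZMod 2 :=
  Finsupp.comapDomain (fun u : XX E D r => u.1)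
    ((dv x).mapRange (fun n : ℤ => (n : ZMod 2)) (by simp)) Subtype.val_injective.injOn

lemma ov_apply (x : Eˣ) (u : XX E D r) : ov D r x u = ((ord u.1 x : ℤ) : ZMod 2) := rfl

lemma ov_eq_zero (x : Eˣ) (u : XX E D r) : ov D r x u = 0 ↔ SqAt u.1 (x : E) := by
  rw [ov_apply, ZMod.intCast_zmod_eq_zero_iff_dvd, sqAt_iff_even, even_iff_two_dvd]
  rfl

/-- the space of parities of elements of `P_r` -/
noncomputable def WW (D : Finset (PrI K)) {r : Finset (PrI K)} {τ : PrI K → K}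
    (hτ0 : ∀ u : PrI E, und K u ∈ r → algebraMap K E (τ (und K u)) ≠ 0) :
    Submodule (ZMod 2) (XX E D r →₀ ZMod 2) where
  carrier := {w | ∃ x : Eˣ, InP r τ (x : E) ∧ ov D r x = w}
  zero_mem' := ⟨1, inP_one, by
    ext u
    rw [ov_apply, ord_one]
    simp⟩
  add_mem' := by
    rintro _ _ ⟨x, hx, rfl⟩ ⟨y, hy, rfl⟩
    refine ⟨x * y, ⟨(x * y).ne_zero, fun φ => ?_, fun u hu => ?_⟩, ?_⟩
    · rw [Units.val_mul, map_mul]
      exact mul_pos (hx.pos φ) (hy.pos φ)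
    · exact trv_mul (hτ0 u hu) (hx.trv u hu) (hy.trv u hu)
    · ext u
      rw [Finsupp.add_apply, ov_apply, ov_apply, ov_apply, ord_mul]
      push_cast
      rfl
  smul_mem' := by
    rintro c _ ⟨x, hx, rfl⟩
    rcases zmod2_cases c with rfl | rfl
    · refine ⟨1, inP_one, ?_⟩
      ext u
      rw [ov_apply, ord_one]
      simp
    · exact ⟨x, hx, by rw [one_smul]⟩

open Classical in
/-- extension of a functional by zero -/
noncomputable def extl (f : (XX E D r →₀ ZMod 2) →ₗ[ZMod 2] ZMod 2) (u : PrI E) : ZMod 2 :=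
  if h : und K u ∉ D ∧ und K u ∉ r then f (Finsupp.single ⟨u, h⟩ 1) else 0

lemma extl_of (f : (XX E D r →₀ ZMod 2) →ₗ[ZMod 2] ZMod 2) (u : XX E D r) :
    extl f u.1 = f (Finsupp.single u 1) := dif_pos u.2

lemma extl_of_not (f : (XX E D r →₀ ZMod 2) →ₗ[ZMod 2] ZMod 2) {u : PrI E}
    (h : ¬ (und K u ∉ D ∧ und K u ∉ r)) : extl f u = 0 := dif_neg h

lemma finsupp_zmod2 {X : Type*} (w : X →₀ ZMod 2) :
    w = ∑ u ∈ w.support, Finsupp.single u (1 : ZMod 2) := by
  classical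
  conv_lhs => rw [← Finsupp.sum_single w]
  rw [Finsupp.sum]
  refine Finset.sum_congr rfl fun u hu => ?_
  rw [(zmod2_cases _).resolve_left (Finsupp.mem_support_iff.1 hu)]

lemma extl_sum (f : (XX E D r →₀ ZMod 2) →ₗ[ZMod 2] ZMod 2) (x : Eˣ) :
    ∑ᶠ u ∈ {u : PrI E | ¬ SqAt u (x : E)}, extl f u = f (ov D r x) := by
  classical
  have h4 : ∀ u : XX E D r, u ∈ (ov D r x).support ↔ ¬ SqAt u.1 (x : E) := by
    intro u
    rw [Finsupp.mem_support_iff, Ne, ov_eq_zero]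
  rw [finsum_mem_def, finsum_eq_sum_of_support_subset
    (s := (ov D r x).support.map (Function.Embedding.subtype _)), Finset.sum_map]
  · conv_rhs => rw [finsupp_zmod2 (ov D r x), map_sum]
    refine Finset.sum_congr rfl fun u hu => ?_
    rw [← extl_of]
    exact Set.indicator_of_mem (s := {u : PrI E | ¬ SqAt u (x : E)}) ((h4 u).1 hu) _
  · intro u hu
    rw [Function.mem_support] at hu
    have hu1 : u ∈ {u : PrI E | ¬ SqAt u (x : E)} := by
      by_contra h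
      exact hu (Set.indicator_of_notMem h _)
    rw [Set.indicator_of_mem hu1] at hu
    have hu2 : und K u ∉ D ∧ und K u ∉ r := by
      by_contra h
      exact hu (extl_of_not f h)
    rw [Finset.coe_map]
    exact ⟨⟨u, hu2⟩, (h4 ⟨u, hu2⟩).2 hu1, rfl⟩

lemma extl_mem (hτ0 : ∀ u : PrI E, und K u ∈ r → algebraMap K E (τ (und K u)) ≠ 0)
    {f : (XX E D r →₀ ZMod 2) →ₗ[ZMod 2] ZMod 2} (hf : ∀ w ∈ WW D (τ := τ) hτ0, f w = 0) :
    extl f ∈ CC E D r τ := by
  refine ⟨fun u hu => ?_, fun x hx => ?_⟩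
  · apply extl_of_not
    rintro ⟨h1, h2⟩
    rcases hu with hu | hu
    · exact h1 hu
    · exact h2 hu
  · have h1 := extl_sum f (Units.mk0 x hx.ne_zero)
    rw [Units.val_mk0] at h1
    rw [h1]
    exact hf _ ⟨Units.mk0 x hx.ne_zero, hx, rfl⟩

open Classical in
/-- If the idempotent `e` kills the dual Selmer group then it kills the class group. -/
lemma exists_of_dual [IsGalois K E] (hab : ∀ g h : E ≃ₐ[K] E, g * h = h * g)
    (hτ0 : ∀ u : PrI E, und K u ∈ r → algebraMap K E (τ (und K u)) ≠ 0)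
    {e : Rg (E ≃ₐ[K] E)}
    (hdual : ∀ ℓ ∈ CC E D r τ, act (sigf (PrI E) hab) e ℓ = 0) {u₀ : PrI E}
    (hD : und K u₀ ∉ D) (hr : und K u₀ ∉ r) :
    ∃ x : E, InP r τ x ∧ ∀ u' : PrI E, und K u' ∉ D → und K u' ∉ r →
      ((∑ g ∈ Finset.univ.filter (fun g : E ≃ₐ[K] E => pg g u₀ = u'), e.coeff g = 0) ↔ SqAt u' x) := by
  have hX : ∀ g : E ≃ₐ[K] E, und K (g • u₀) ∉ D ∧ und K (g • u₀) ∉ r := by
    intro g
    rw [und_smul]
    exact ⟨hD, hr⟩
  set w₀ : XX E D r →₀ ZMod 2 :=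
    ∑ g : E ≃ₐ[K] E, Finsupp.single (⟨g • u₀, hX g⟩ : XX E D r) (e.coeff g) with hw₀def
  have hw₀ : w₀ ∈ WW D (τ := τ) hτ0 := by
    by_contra hcon
    obtain ⟨f, hf1, hf2⟩ := Submodule.exists_dual_map_eq_bot_of_notMem hcon inferInstance
    have hℓ := extl_mem (τ := τ) hτ0 (f := f) (fun w hw => by
      have h1 : f w ∈ (WW D (τ := τ) hτ0).map f := ⟨w, hw, rfl⟩
      rw [hf2] at h1
      exact (Submodule.mem_bot _).1 h1)
    have h3 := congrFun (hdual _ hℓ) u₀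
    rw [act_sigf, Pi.zero_apply] at h3
    apply hf1
    rw [← h3, hw₀def, map_sum]
    refine Finset.sum_congr rfl fun g _ => ?_
    have h4 := extl_of f ⟨g • u₀, hX g⟩
    rw [show extl f (g • u₀) = _ from h4]
    rcases zmod2_cases (e.coeff g) with h6 | h6
    · rw [h6, Finsupp.single_zero, map_zero, zero_mul]
    · rw [h6, one_mul]
  obtain ⟨x, hx, hxw⟩ := hw₀
  refine ⟨x, hx, fun u' hD' hr' => ?_⟩
  have h1 : ov D r x ⟨u', hD', hr'⟩ = w₀ ⟨u', hD', hr'⟩ := by rw [hxw]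
  have h2 : w₀ ⟨u', hD', hr'⟩ =
      ∑ g ∈ Finset.univ.filter (fun g : E ≃ₐ[K] E => pg g u₀ = u'), e.coeff g := by
    rw [hw₀def, Finsupp.finsetSum_apply, Finset.sum_filter]
    refine Finset.sum_congr rfl fun g _ => ?_
    rw [Finsupp.single_apply]
    simp only [Subtype.mk.injEq, smul_eq_pg]
  rw [← h2, ← h1, ov_eq_zero]

end dual

end Pool.Agent.STc.VM
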