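import Pool.Agent.Lib.MP_1ef7cf_nt_c.VMA

/-!
# Modules over the group ring: classes modulo squares, functions
-/

namespace Pool.Agent.STc.VM

open Cnt MonoidAlgebra

section gen

variable {G : Type*} [Group G] {M : Type*} [AddCommGroup M] [Module (ZMod 2) M]

/-- the action of the group ring -/
noncomputable def act (σ : G →* Module.End (ZMod 2) M) : Rg G →ₐ[ZMod 2] Module.End (ZMod 2) M :=
  MonoidAlgebra.lift (ZMod 2) _ G σ

lemma act_single (σ : G →* Module.End (ZMod 2) M) (g : G) : act σ (single g 1) = σ g := by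
  unfold act
  rw [MonoidAlgebra.lift_single, one_smul]

lemma act_apply [Fintype G] (σ : G →* Module.End (ZMod 2) M) (z : Rg G) (m : M) :
    act σ z m = ∑ g : G, z.coeff g • σ g m := by
  conv_lhs => rw [sum_single z]
  rw [map_sum, LinearMap.sum_apply]
  refine Finset.sum_congr rfl fun g _ => ?_
  unfold act
  rw [MonoidAlgebra.lift_single, LinearMap.smul_apply]

lemma act_mul (σ : G →* Module.End (ZMod 2) M) (z z' : Rg G) (m : M) :
    act σ (z * z') m = act σ z (act σ z' m) := by
  rw [map_mul]; rfl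

lemma act_add (σ : G →* Module.End (ZMod 2) M) (z z' : Rg G) (m : M) :
    act σ (z + z') m = act σ z m + act σ z' m := by
  rw [map_add]; rfl

lemma act_one (σ : G →* Module.End (ZMod 2) M) (m : M) : act σ 1 m = m := by
  rw [map_one]; rfl

end gen

section sq

variable (A : Type*) [CommGroup A]

/-- squares -/
def SqS : AddSubgroup (Additive A) := (nsmulAddMonoidHom 2).range

/-- classes modulo squares -/
abbrev Mq := Additive A ⧸ SqS A

noncomputable instance : Module (ZMod 2) (Mq A) := AddCommGroup.zmodModule (by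
  intro x
  obtain ⟨y, rfl⟩ := QuotientAddGroup.mk_surjective x
  rw [← QuotientAddGroup.mk_nsmul, QuotientAddGroup.eq_zero_iff]
  exact ⟨y, rfl⟩)

variable {A}

/-- class modulo squares -/
def mkq (x : A) : Mq A := QuotientAddGroup.mk (Additive.ofMul x)

lemma mkq_surj (m : Mq A) : ∃ x : A, mkq x = m := by
  obtain ⟨y, rfl⟩ := QuotientAddGroup.mk_surjective m
  exact ⟨y.toMul, rfl⟩

lemma mkq_mul (x y : A) : mkq (x * y) = mkq x + mkq y := rfl

lemma mkq_eq_zero {x : A} : mkq x = 0 ↔ IsSquare x := by
  unfold mkq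
  rw [QuotientAddGroup.eq_zero_iff]
  constructor
  · rintro ⟨y, hy⟩
    refine ⟨y.toMul, ?_⟩
    have h1 : (2 • y).toMul = x := congrArg Additive.toMul hy
    rw [← h1, two_nsmul]
    rfl
  · rintro ⟨y, rfl⟩
    refine ⟨Additive.ofMul y, ?_⟩
    change 2 • Additive.ofMul y = _
    rw [two_nsmul]
    rfl

lemma mkq_prod {κ : Type*} (s : Finset κ) (f : κ → A) :
    mkq (∏ i ∈ s, f i) = ∑ i ∈ s, mkq (f i) := by
  classical
  induction s using Finset.induction_on with
  | empty =>
    rw [Finset.prod_empty, Finset.sum_empty, mkq_eq_zero]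
    exact IsSquare.one
  | insert i s hi ih => rw [Finset.prod_insert hi, Finset.sum_insert hi, mkq_mul, ih]

variable {G : Type*} [Group G] [MulDistribMulAction G A]

/-- action of a group element on classes -/
noncomputable def sgq (g : G) : Mq A →+ Mq A :=
  QuotientAddGroup.map (SqS A) (SqS A) (MonoidHom.toAdditive (MulDistribMulAction.toMonoidHom A g)) (by
    rintro _ ⟨y, rfl⟩
    refine ⟨MonoidHom.toAdditive (MulDistribMulAction.toMonoidHom A g) y, ?_⟩
    exact (map_nsmul _ 2 y).symm)

lemma sgq_mkq (g : G) (x : A) : sgq g (mkq x) = mkq (g • x) := rfl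

/-- action on classes as a homomorphism -/
noncomputable def sigq (G A : Type*) [Group G] [CommGroup A] [MulDistribMulAction G A] :
    G →* Module.End (ZMod 2) (Mq A) where
  toFun g := AddMonoidHom.toZModLinearMap 2 (sgq g)
  map_one' := by
    ext m
    obtain ⟨x, rfl⟩ := mkq_surj m
    change sgq (1 : G) (mkq x) = mkq x
    rw [sgq_mkq, one_smul]
  map_mul' g h := by
    ext m
    obtain ⟨x, rfl⟩ := mkq_surj m
    change sgq (g * h) (mkq x) = sgq g (sgq h (mkq x))
    rw [sgq_mkq, sgq_mkq, sgq_mkq, mul_smul]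

lemma sigq_mkq (g : G) (x : A) : sigq G A g (mkq x) = mkq (g • x) := rfl

lemma act_mkq [Fintype G] (z : Rg G) (x : A) : act (sigq G A) z (mkq x) = mkq (ff z.coeff.support x) := by
  rw [act_apply, ff_apply, mkq_prod, ← Finset.sum_subset (Finset.subset_univ z.coeff.support)]
  · refine Finset.sum_congr rfl fun g hg => ?_
    rw [(zmod2_cases _).resolve_left (Finsupp.mem_support_iff.1 hg), one_smul, sigq_mkq]
  · intro g _ hg
    rw [Finsupp.notMem_support_iff.1 hg]
    exact zero_smul (ZMod 2) (sigq G A g (mkq x))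

end sq

section fn

variable {G : Type*} [Group G] {X : Type*} [MulAction G X]

/-- action on functions: `(g ℓ) u = ℓ (g u)` -/
def sigf (X : Type*) [MulAction G X] (hab : ∀ g h : G, g * h = h * g) :
    G →* Module.End (ZMod 2) (X → ZMod 2) where
  toFun g := LinearMap.funLeft (ZMod 2) (ZMod 2) (fun u => g • u)
  map_one' := by
    ext ℓ u
    simp [LinearMap.funLeft]
  map_mul' g h := by
    ext1 ℓ
    funext u
    change ℓ ((g * h) • u) = ℓ (h • g • u)
    rw [hab, mul_smul]

lemma sigf_apply (hab : ∀ g h : G, g * h = h * g) (g : G) (ℓ : X → ZMod 2) (u : X) :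
    sigf X hab g ℓ u = ℓ (g • u) := rfl

lemma act_sigf [Fintype G] (hab : ∀ g h : G, g * h = h * g) (z : Rg G) (ℓ : X → ZMod 2) (u : X) :
    act (sigf X hab) z ℓ u = ∑ g : G, z.coeff g * ℓ (g • u) := by
  rw [act_apply, Finset.sum_apply]
  rfl

/-- additive subgroups which are stable under the group are stable under the group ring -/
lemma act_mem [Fintype G] {M : Type*} [AddCommGroup M] [Module (ZMod 2) M]
    (σ : G →* Module.End (ZMod 2) M) {C : AddSubgroup M} (hC : ∀ g, ∀ m ∈ C, σ g m ∈ C)
    (z : Rg G) {m : M} (hm : m ∈ C) : act σ z m ∈ C := by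
  rw [act_apply]
  refine sum_mem fun g _ => ?_
  rcases zmod2_cases (z.coeff g) with h | h
  · rw [h, zero_smul]
    exact zero_mem _
  · rw [h, one_smul]
    exact hC g m hm

end fn

end Pool.Agent.STc.VM
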