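import Pool.Agent.Lib.MP_1ef7cf_nt_c.CountEqv
import Pool.Agent.Lib.MP_1ef7cf_nt_c.CountLoc
import Pool.Agent.Lib.MP_1ef7cf_nt_c.VMB

/-!
# The dual Selmer group
-/

set_option linter.unusedSectionVars false

open NumberField IsDedekindDomain

namespace Pool.Agent.STc.VM

open Pool.Agent.ST Pool.Agent.STb Cnt MonoidAlgebra

section symb

variable {E : Type*} [Field E] [NumberField E]

/-- the quadratic symbol at `v` as a homomorphism on classes -/
lemma exists_symb (v : PrI E) : ∃ φ : Mq Eˣ →+ ZMod 2, ∀ x : Eˣ, SqAt v (x : E) →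
    (φ (mkq x) = 0 ↔ LSq v (x : E)) := by
  obtain ⟨τ, hτ⟩ := v.valuation_surjective E (WithZero.exp 1)
  have hτ0 : τ ≠ 0 := by
    rintro rfl
    rw [map_zero] at hτ
    exact WithZero.zero_ne_coe hτ
  have hτ1 : ¬ SqAt v τ := by
    rw [sqAt_iff hτ]
    decide
  set φ0 := trs v τ hτ0 hτ1 with hφ0
  have hker : SqS Eˣ ≤ φ0.ker := by
    rintro _ ⟨y, rfl⟩
    rw [AddMonoidHom.mem_ker, nsmulAddMonoidHom_apply, map_nsmul, two_nsmul]
    have : ∀ a : ZMod 2, a + a = 0 := by decide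
    exact this _
  refine ⟨QuotientAddGroup.lift _ φ0 hker, fun x hx => ?_⟩
  have h1 : QuotientAddGroup.lift _ φ0 hker (mkq x) = φ0 (Additive.ofMul x) := rfl
  rw [h1, hφ0, trs_eq_zero]
  constructor
  · rintro (h | h)
    · exact h
    · exfalso
      have h2 := SqAt.mul_of_iff (mul_ne_zero hτ0 x.ne_zero) x.ne_zero (iff_of_true h.sqAt hx)
      obtain ⟨y, hy⟩ := h2
      exact hτ1 ⟨x * y, by rw [← hy]; congr 1; ring⟩
  · exact Or.inl

end symb

section C

variable {K E : Type*} [Field K] [NumberField K] [Field E] [NumberField E] [Algebra K E]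

lemma finite_notSqAt {x : E} (hx : x ≠ 0) : {u : PrI E | ¬ SqAt u x}.Finite := by
  refine (finite_ord (Units.mk0 x hx)).subset ?_
  intro u hu h0
  apply hu
  have h1 : SqAt u ((Units.mk0 x hx : Eˣ) : E) := by
    rw [sqAt_iff_even, h0]
    exact Even.zero
  exact h1

lemma sqAt_smul {g : E ≃ₐ[K] E} {u : PrI E} {x : E} : SqAt (g • u) (g x) ↔ SqAt u x :=
  sqAt_pg

lemma lsq_smul' {g : E ≃ₐ[K] E} {u : PrI E} {x : E} : LSq (g • u) (g x) ↔ LSq u x :=
  LSq.pg

lemma inP_smul {r : Finset (PrI K)} {τ : PrI K → K} {x : E} (h : InP r τ x) (g : E ≃ₐ[K] E) :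
    InP r τ (g x) := by
  refine ⟨(map_ne_zero _).2 h.ne_zero, fun φ => ?_, fun u hu => ?_⟩
  · exact h.pos (φ.comp (g : E →+* E))
  · have hu' : und K (g⁻¹ • u) ∈ r := by rwa [und_smul]
    have h1 := h.trv (g⁻¹ • u) hu'
    rw [und_smul] at h1
    have e1 : g • g⁻¹ • u = u := smul_inv_smul g u
    rcases h1 with h1 | h1
    · left
      rw [← e1, lsq_smul']
      exact h1
    · right
      rw [← lsq_smul' (g := g), e1, map_mul, AlgEquiv.commutes] at h1
      exact h1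

/-- the dual Selmer group -/
def CC (E : Type*) {K : Type*} [Field K] [NumberField K] [Field E] [NumberField E] [Algebra K E]
    (D r : Finset (PrI K)) (τ : PrI K → K) : AddSubgroup (PrI E → ZMod 2) where
  carrier := {ℓ | (∀ u, und K u ∈ D ∨ und K u ∈ r → ℓ u = 0) ∧
    ∀ x : E, InP r τ x → ∑ᶠ u ∈ {u : PrI E | ¬ SqAt u x}, ℓ u = 0}
  zero_mem' := ⟨fun _ _ => rfl, fun x _ => by simp⟩
  add_mem' := by
    rintro a b ⟨ha, ha'⟩ ⟨hb, hb'⟩
    refine ⟨fun u hu => by rw [Pi.add_apply, ha u hu, hb u hu, add_zero], fun x hx => ?_⟩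
    have h1 := finsum_mem_add_distrib (f := a) (g := b) (finite_notSqAt hx.ne_zero)
    rw [ha' x hx, hb' x hx, add_zero] at h1
    exact h1
  neg_mem' := by
    rintro a ⟨ha, ha'⟩
    have h1 : -a = a := by
      funext u
      have : ∀ a : ZMod 2, -a = a := by decide
      exact this _
    rw [h1]
    exact ⟨ha, ha'⟩

variable {D r : Finset (PrI K)} {τ : PrI K → K}

lemma mem_CC {ℓ : PrI E → ZMod 2} : ℓ ∈ CC E D r τ ↔ (∀ u, und K u ∈ D ∨ und K u ∈ r → ℓ u = 0) ∧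
    ∀ x : E, InP r τ x → ∑ᶠ u ∈ {u : PrI E | ¬ SqAt u x}, ℓ u = 0 := Iff.rfl

lemma CC_smul (hab : ∀ g h : E ≃ₐ[K] E, g * h = h * g) (g : E ≃ₐ[K] E) {ℓ : PrI E → ZMod 2}
    (hℓ : ℓ ∈ CC E D r τ) : sigf (PrI E) hab g ℓ ∈ CC E D r τ := by
  obtain ⟨h1, h2⟩ := hℓ
  refine ⟨fun u hu => ?_, fun x hx => ?_⟩
  · rw [sigf_apply]
    apply h1
    rw [und_smul]
    exact hu
  · rw [← h2 (g x) (inP_smul hx g)]
    apply finsum_mem_eq_of_bijOn (fun u => g • u)
    · refine ⟨fun u hu => ?_, (MulAction.injective g).injOn, fun u hu => ?_⟩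
      · change ¬ SqAt (g • u) (g x)
        rw [sqAt_smul]
        exact hu
      · refine ⟨g⁻¹ • u, ?_, smul_inv_smul g u⟩
        change ¬ SqAt (g⁻¹ • u) x
        rw [← sqAt_smul (g := g), smul_inv_smul]
        exact hu
    · intro u _
      rfl

/-- The relation given by the element `x` of `hex`. -/
lemma relation [IsGalois K E] {b : Eˣ} {v : PrI E}
    {φ : Mq Eˣ →+ ZMod 2} (hφ : ∀ x : Eˣ, SqAt v (x : E) → (φ (mkq x) = 0 ↔ LSq v (x : E)))
    (hb : ∀ g : E ≃ₐ[K] E, SqAt v ((g • b : Eˣ) : E))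
    (hinj : Function.Injective (fun g : E ≃ₐ[K] E => g • v))
    {x : E} (hx : InP r τ x)
    (h1 : ∀ u : PrI E, und K u = und K v → (SqAt u x ↔ LSq u (b : E)))
    (h2 : ∀ u : PrI E, und K u ≠ und K v → und K u ∉ D → und K u ∉ r → SqAt u x)
    {ℓ : PrI E → ZMod 2} (hℓ : ℓ ∈ CC E D r τ) :
    ∑ g : E ≃ₐ[K] E, φ (mkq (g⁻¹ • b)) * ℓ (g • v) = 0 := by
  classical
  have h3 := hℓ.2 x hx
  rw [finsum_mem_def, finsum_eq_sum_of_support_subset (s := Finset.univ.image
    (fun g : E ≃ₐ[K] E => g • v)), Finset.sum_image (fun g _ h _ hgh => hinj hgh)] at h3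
  · rw [← h3]
    refine Finset.sum_congr rfl fun g _ => ?_
    have h4 : SqAt (g • v) x ↔ φ (mkq (g⁻¹ • b)) = 0 := by
      have e : g ((g⁻¹ • b : Eˣ) : E) = (b : E) := by
        have : ((g • g⁻¹ • b : Eˣ) : E) = (b : E) := by rw [smul_inv_smul]
        exact this
      rw [h1 (g • v) (by rw [und_smul]), hφ _ (hb _),
        ← lsq_smul' (g := g) (u := v) (x := ((g⁻¹ • b : Eˣ) : E)), e]
    by_cases h5 : SqAt (g • v) x
    · rw [h4.1 h5, zero_mul, Set.indicator_of_notMem]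
      exact fun h6 => h6 h5
    · have h6 : φ (mkq (g⁻¹ • b)) = 1 := (zmod2_cases _).resolve_left (fun h => h5 (h4.2 h))
      rw [h6, one_mul, Set.indicator_of_mem]
      exact h5
  · intro u hu
    rw [Function.mem_support] at hu
    have hu1 : u ∈ {u : PrI E | ¬ SqAt u x} := by
      by_contra h
      exact hu (Set.indicator_of_notMem h _)
    rw [Set.indicator_of_mem hu1] at hu
    have hu2 : und K u = und K v := by
      by_contra h
      by_cases hD : und K u ∈ D ∨ und K u ∈ r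
      · exact hu (hℓ.1 u hD)
      · push Not at hD
        exact hu1 (h2 u h hD.1 hD.2)
    obtain ⟨g, hg⟩ := exists_pg (u := v) (u' := u) hu2.symm
    rw [Finset.coe_image]
    exact ⟨g, by simp, hg⟩

end C

end Pool.Agent.STc.VM
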