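import Pool.Agent.Lib.MP_1ef7cf_nt.LowDens
import Pool.Agent.Lib.MP_1ef7cf_nt_c.CountSym
import Pool.Agent.Lib.MP_1ef7cf_nt_c.VDefs
import Pool.Agent.Lib.MP_1ef7cf_nt_c.VMC

/-!
# Further lemmas for the module V
-/

set_option linter.unusedSectionVars false

open NumberField IsDedekindDomain Filter Topology

namespace Pool.Agent.STc.VM

open Pool.Agent.ST Pool.Agent.STb Cnt MonoidAlgebra

section odd

variable {G : Type*} [Group G] [Fintype G]

lemma coeff_NS (S : Set G) [DecidablePred (· ∈ S)] (h : G) :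
    (NS S : Rg G).coeff h = if h ∈ S then 1 else 0 := by
  classical
  unfold NS
  rw [coeff_sum, Finsupp.finsetSum_apply]
  have h1 : ∀ t : G, (single t (1 : ZMod 2)).coeff h = if t = h then 1 else 0 := by
    intro t
    rw [coeff_single, Finsupp.single_apply]
  rw [Finset.sum_congr rfl fun t _ => h1 t, Finset.sum_ite_eq']
  simp only [Finset.mem_filter, Finset.mem_univ, true_and]

/-- invariant elements are fixed by the norm of a subset of odd cardinality -/
lemma act_NS_inv {M : Type*} [AddCommGroup M] [Module (ZMod 2) M]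
    (σ : G →* Module.End (ZMod 2) M) (S : Set G) (hS : Odd S.ncard) {m : M}
    (hm : ∀ g, σ g m = m) : act σ (NS S) m = m := by
  classical
  rw [act_apply]
  have h1 : ∀ g : G, (NS S : Rg G).coeff g • σ g m = if g ∈ S then m else 0 := by
    intro g
    rw [coeff_NS, hm]
    split_ifs
    · exact one_smul _ _
    · exact zero_smul _ _
  rw [Finset.sum_congr rfl fun g _ => h1 g, ← Finset.sum_filter, Finset.sum_const]
  have h2 : (Finset.univ.filter (fun g : G => g ∈ S)).card = S.ncard := by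
    rw [Set.ncard_eq_toFinset_card' S]
    congr 1
    ext g
    simp
  rw [h2]
  obtain ⟨k, hk⟩ := hS
  rw [hk, add_nsmul, mul_comm, mul_nsmul, one_nsmul]
  have h3 : 2 • m = 0 := by
    have h4 : ((2 : ℕ) : ZMod 2) • m = 2 • m := Nat.cast_smul_eq_nsmul _ _ _
    rw [← h4]
    have h5 : ((2 : ℕ) : ZMod 2) = 0 := by decide
    rw [h5]
    exact zero_smul _ _
  rw [← mul_nsmul, mul_nsmul', h3, nsmul_zero, zero_add]

variable (G) in
/-- the elements of odd order -/
def Dl (hab : ∀ g h : G, g * h = h * g) : Subgroup G where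
  carrier := {g | Odd (orderOf g)}
  one_mem' := by
    change Odd (orderOf (1 : G))
    rw [orderOf_one]
    exact odd_one
  mul_mem' := by
    intro g h hg hh
    have h1 : orderOf (g * h) ∣ orderOf g * orderOf h :=
      (show Commute g h from hab g h).orderOf_mul_dvd_mul_orderOf
    exact (Odd.mul hg hh).of_dvd_nat h1
  inv_mem' := by
    intro g hg
    change Odd (orderOf g⁻¹)
    rw [orderOf_inv]
    exact hg

lemma odd_Dl (hab : ∀ g h : G, g * h = h * g) : Odd (Set.ncard (Dl G hab : Set G)) := by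
  rw [← Nat.card_coe_set_eq]
  change Odd (Nat.card (Dl G hab))
  rw [← Nat.not_even_iff_odd]
  intro h
  have : Fact (Nat.Prime 2) := ⟨Nat.prime_two⟩
  obtain ⟨x, hx⟩ := exists_prime_orderOf_dvd_card' (G := Dl G hab) 2 h.two_dvd
  have h1 : Odd (orderOf (x : G)) := x.2
  rw [Subgroup.orderOf_coe, hx] at h1
  exact absurd h1 (by decide)

lemma NS_mul_self (S : Subgroup G) (hS : Odd (Set.ncard (S : Set G))) :
    (NS (S : Set G) : Rg G) * NS (S : Set G) = NS (S : Set G) := by
  classical
  ext h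
  rw [coeff_NS_mul, coeff_NS]
  have h1 : ∀ t ∈ Finset.univ.filter (fun t : G => t ∈ (S : Set G)),
      (NS (S : Set G) : Rg G).coeff (t⁻¹ * h) = if h ∈ (S : Set G) then 1 else 0 := by
    intro t ht
    have ht' : t ∈ S := (Finset.mem_filter.1 ht).2
    rw [coeff_NS]
    have h2 : t⁻¹ * h ∈ (S : Set G) ↔ h ∈ (S : Set G) :=
      S.mul_mem_cancel_left (S.inv_mem ht')
    simp only [h2]
  rw [Finset.sum_congr rfl h1, Finset.sum_const]
  have h2 : (Finset.univ.filter (fun g : G => g ∈ (S : Set G))).card = Set.ncard (S : Set G) := by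
    rw [Set.ncard_eq_toFinset_card' (S : Set G)]
    congr 1
    ext g
    simp
  rw [h2, nsmul_eq_mul, (ZMod.natCast_eq_one_iff_odd).2 hS, one_mul]

lemma aug_eq_zero (S : Subgroup G) (hS : Odd (Set.ncard (S : Set G))) {e : Rg G}
    (he : NS (S : Set G) * e = 0) : ∑ g : G, e.coeff g = 0 := by
  classical
  have h1 : ∑ h : G, (NS (S : Set G) * e).coeff h = 0 := by
    rw [he]
    exact Finset.sum_eq_zero fun _ _ => rfl
  simp only [coeff_NS_mul] at h1
  rw [Finset.sum_comm] at h1
  have h3 : ∀ t ∈ Finset.univ.filter (fun t : G => t ∈ (S : Set G)),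
      ∑ h : G, e.coeff (t⁻¹ * h) = ∑ g : G, e.coeff g := by
    intro t _
    exact Equiv.sum_comp (Equiv.mulLeft t⁻¹) (fun g => e.coeff g)
  rw [Finset.sum_congr rfl h3, Finset.sum_const] at h1
  have h2 : (Finset.univ.filter (fun g : G => g ∈ (S : Set G))).card = Set.ncard (S : Set G) := by
    rw [Set.ncard_eq_toFinset_card' (S : Set G)]
    congr 1
    ext g
    simp
  rwa [h2, nsmul_eq_mul, (ZMod.natCast_eq_one_iff_odd).2 hS, one_mul] at h1

end odd

section omega

variable {K E Ω : Type*} [Field K] [Field E] [Field Ω] [Algebra K E] [Algebra K Ω] [Algebra E Ω]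
  [IsScalarTower K E Ω] [IsGalois K E] [IsGalois K Ω] [FiniteDimensional K Ω]

/-- An element of `E` which is a square in `Ω` is invariant modulo squares. -/
lemma mkq_smul_of_isSquare (hab : ∀ σ τ : Ω ≃ₐ[K] Ω, σ * τ = τ * σ) {y : Eˣ}
    (hy : IsSquare (algebraMap E Ω (y : E))) (g : E ≃ₐ[K] E) : mkq (g • y) = mkq y := by
  obtain ⟨s, hs⟩ := hy
  have hs0 : s ≠ 0 := by
    rintro rfl
    rw [mul_zero, map_eq_zero] at hs
    exact y.ne_zero hs
  obtain ⟨gt, hgt⟩ := AlgEquiv.restrictNormalHom_surjective (F := K) (K₁ := E) Ω g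
  have hgt' : ∀ x : E, gt (algebraMap E Ω x) = algebraMap E Ω (g x) := by
    intro x
    rw [← hgt]
    exact (AlgEquiv.restrictNormal_commutes gt E x).symm
  have hgal : IsGalois E Ω := IsGalois.tower_top_of_isGalois K E Ω
  have hfd : FiniteDimensional E Ω := FiniteDimensional.right K E Ω
  have hc : ∀ σ : Ω ≃ₐ[E] Ω, σ (gt s / s) = gt s / s := by
    intro σ
    have h1 : σ s * σ s = s * s := by
      rw [← map_mul, ← hs, AlgEquiv.commutes]
    have h2 : σ (gt s) = gt (σ s) := by
      have := DFunLike.congr_fun (hab (σ.restrictScalars K) gt) s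
      exact this
    rw [map_div₀, h2]
    rcases mul_self_eq_mul_self_iff.1 h1 with h3 | h3
    · rw [h3]
    · rw [h3, map_neg, neg_div_neg_eq]
  have hmem := (IsGalois.mem_range_algebraMap_iff_fixed (F := E) (E := Ω) (gt s / s)).2 hc
  obtain ⟨c, hc'⟩ := hmem
  have hc0 : c ≠ 0 := by
    rintro rfl
    rw [map_zero] at hc'
    exact div_ne_zero ((map_ne_zero _).2 hs0) hs0 hc'.symm
  have h4 : g (y : E) = c ^ 2 * y := by
    apply (algebraMap E Ω).injective
    rw [← hgt', hs, map_mul gt, map_mul, map_pow, hc', hs]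
    field_simp
  have h5 : g • y = (Units.mk0 c hc0) ^ 2 * y := by
    apply Units.ext
    exact h4
  rw [h5, mkq_mul, mkq_eq_zero.2 (IsSquare.sq _)]
  exact zero_add (mkq y)

end omega

section dens

variable {Ω : Type*} [Field Ω] [NumberField Ω]

lemma tendsto_log_one_div : Tendsto (fun s : ℝ => Real.log (1 / (s - 1))) (𝓝[>] 1) atTop := by
  have h1 : Tendsto (fun s : ℝ => s - 1) (𝓝[>] 1) (𝓝[>] 0) := by
    apply tendsto_nhdsWithin_of_tendsto_nhds_of_eventually_within
    · have : Tendsto (fun s : ℝ => s - 1) (𝓝 1) (𝓝 (1 - 1)) := by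
        exact (continuous_id.sub continuous_const).tendsto 1
      rw [sub_self] at this
      exact this.mono_left nhdsWithin_le_nhds
    · filter_upwards [self_mem_nhdsWithin] with s hs
      exact sub_pos.2 (Set.mem_Ioi.1 hs)
  have h2 := Real.tendsto_log_atTop.comp (tendsto_inv_nhdsGT_zero.comp h1)
  refine h2.congr fun s => ?_
  simp [one_div]

lemma dens_contra {A L B : Set (PrI Ω)} (hA : DensGe A (1 / 2))
    (hL : ∃ C : ℝ, ∀ᶠ s in 𝓝[>] (1 : ℝ),
      ∑' w, L.indicator (px s) w ≤ (1 / 4) * Real.log (1 / (s - 1)) + C)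
    (hB : B.Finite) (hsub : A ⊆ L ∪ B) : False := by
  obtain ⟨C, hC⟩ := hA
  obtain ⟨C', hC'⟩ := hL
  obtain ⟨D, hD⟩ := (DensLe.of_finite hB).tsum_le
  have hs2 : ∀ᶠ s in 𝓝[>] (1 : ℝ), s < 2 :=
    mem_nhdsWithin_of_mem_nhds (Iio_mem_nhds (by norm_num))
  have hbig := tendsto_log_one_div.eventually_gt_atTop (4 * (C + C' + D))
  obtain ⟨s, h1, h2, h3, h4, h5⟩ := (hC.and (hC'.and (hs2.and (hbig.and
    (self_mem_nhdsWithin : ∀ᶠ s in 𝓝[>] (1 : ℝ), s ∈ Set.Ioi 1))))).exists
  have hs1 : (1 : ℝ) < s := h5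
  have s1 : Summable (A.indicator (px s) : PrI Ω → ℝ) := (summable_px hs1).indicator _
  have s2 : Summable (L.indicator (px s) : PrI Ω → ℝ) := (summable_px hs1).indicator _
  have s3 : Summable (B.indicator (px s) : PrI Ω → ℝ) := (summable_px hs1).indicator _
  have e1 : ∑' q, A.indicator (px s) q ≤ ∑' q, L.indicator (px s) q + ∑' q, B.indicator (px s) q := by
    rw [← s2.tsum_add s3]
    apply s1.tsum_le_tsum _ (s2.add s3)
    intro q
    have p2 : 0 ≤ L.indicator (px s) q := Set.indicator_nonneg (fun x _ => (px_pos s x).le) q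
    have p3 : 0 ≤ B.indicator (px s) q := Set.indicator_nonneg (fun x _ => (px_pos s x).le) q
    by_cases hq : q ∈ A
    · rw [Set.indicator_of_mem hq]
      rcases hsub hq with h | h
      · rw [Set.indicator_of_mem h]; linarith
      · rw [Set.indicator_of_mem h (f := px s)]; linarith
    · rw [Set.indicator_of_notMem hq]; linarith
  have h6 := hD s hs1 h3
  linarith

end dens

section ray

variable {K E : Type*} [Field K] [NumberField K] [Field E] [NumberField E] [Algebra K E]
  {D r : Finset (PrI K)} {τ : PrI K → K}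

open Classical in
lemma isRay_of_mem_CC {ℓ : PrI E → ZMod 2} (hℓ : ℓ ∈ CC E D r τ) : IsRay ℓ := by
  have := Fintype.ofFinite (OvE E (D ∪ r))
  refine ⟨∏ u : OvE E (D ∪ r), u.1.asIdeal, ?_, ?_, ?_⟩
  · rw [← Ideal.zero_eq_bot, Finset.prod_ne_zero_iff]
    intro u _
    rw [Ideal.zero_eq_bot]
    exact u.1.ne_bot
  · intro u hu
    obtain ⟨v, _, hv⟩ := (u.prime.dvd_finsetProd_iff _).1 hu
    have h1 : u = v.1 := by
      have h2 := Ideal.le_of_dvd hv
      have h3 := v.1.isMaximal
      have h4 := v.1.isMaximal.eq_of_le u.isPrime.ne_top h2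
      exact HeightOneSpectrum.ext h4.symm
    apply hℓ.1
    have h2 := v.2
    rw [← h1, Finset.mem_union] at h2
    exact h2
  · intro a ha ha1 hpos
    apply hℓ.2
    refine ⟨fun h => ha (RingOfIntegers.coe_injective (h.trans (map_zero _).symm)), hpos, fun u hu => ?_⟩
    left
    refine ⟨1, ?_⟩
    rw [one_pow, mul_one]
    have h1 : a - 1 ∈ u.asIdeal := by
      have h2 : ∏ v : OvE E (D ∪ r), v.1.asIdeal ≤ u.asIdeal := by
        rw [← Finset.mul_prod_erase Finset.univ _
          (Finset.mem_univ (⟨u, Finset.mem_union_right _ hu⟩ : OvE E (D ∪ r)))]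
        exact Ideal.mul_le_left
      exact h2 ha1
    have h2 : u.valuation E (algebraMap (𝓞 E) E (a - 1)) < 1 :=
      (u.valuation_lt_one_iff_mem (K := E) _).2 h1
    rwa [map_sub, map_one] at h2

end ray

end Pool.Agent.STc.VM
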