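import Pool.Agent.Lib.MP_1ef7cf_nt_c.Count
import Pool.Agent.Lib.MP_1ef7cf_nt_b.Mg.G001
import Pool.Agent.Lib.MP_1ef7cf_nt_c.Mg.G005
import Pool.Agent.Lib.MP_1ef7cf_nt_c.VMD
import Pool.Agent.Lib.MP_1ef7cf_nt_c.VME

/-!
# The module V: a norm from the Selmer group is a square
-/

set_option linter.unusedSectionVars false

open NumberField IsDedekindDomain Filter Topology

namespace Pool.Agent.STc

open Pool.Agent.ST Pool.Agent.STb Cnt MonoidAlgebra

namespace VM

section gen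

variable {G : Type*} [Group G] [Fintype G] {A : Type*} [CommGroup A] [MulDistribMulAction G A]

lemma act_NS_mkq (S : Set G) [DecidablePred (· ∈ S)] (x : A) :
    act (sigq G A) (NS S) (mkq x) = mkq (∏ g ∈ Finset.univ.filter (fun g : G => g ∈ S), g • x) := by
  rw [act_apply, mkq_prod, Finset.sum_filter]
  refine Finset.sum_congr rfl fun g _ => ?_
  rw [coeff_NS]
  split_ifs
  · rw [one_smul, sigq_mkq]
  · exact zero_smul (ZMod 2) (sigq G A g (mkq x))

lemma act_NS_sub (T : Subgroup G) [Fintype T] (x : A) :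
    act (sigq G A) (NS (T : Set G)) (mkq x) = mkq (∏ t : T, (t : G) • x) := by
  classical
  rw [act_NS_mkq]
  congr 1
  rw [← Finset.prod_coe_sort (Finset.univ.filter (fun g : G => g ∈ (T : Set G))) (fun g => g • x)]
  refine Fintype.prod_equiv (Equiv.subtypeEquivRight (fun g => by simp)) _ _ fun g => rfl

end gen

section fld

variable {K E : Type*} [Field K] [NumberField K] [Field E] [NumberField E] [Algebra K E]

/-- elements all of whose conjugates have even order at `v` -/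
def EvS (K : Type*) {E : Type*} [Field K] [NumberField K] [Field E] [NumberField E] [Algebra K E]
    (v : PrI E) : Subgroup Eˣ where
  carrier := {x | ∀ g : E ≃ₐ[K] E, SqAt v ((g • x : Eˣ) : E)}
  one_mem' := by
    intro g
    rw [Cnt.sqAt_iff_even, smul_one, ord_one]
    exact Even.zero
  mul_mem' := by
    intro x y hx hy g
    have h1 := hx g
    have h2 := hy g
    rw [Cnt.sqAt_iff_even] at h1 h2 ⊢
    rw [smul_mul', ord_mul]
    exact h1.add h2
  inv_mem' := by
    intro x hx g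
    have h1 := hx g
    rw [Cnt.sqAt_iff_even] at h1 ⊢
    rw [smul_inv', ord_inv]
    exact h1.neg

lemma EvS_smul (v : PrI E) (g : E ≃ₐ[K] E) {x : Eˣ} (hx : x ∈ EvS K v) : g • x ∈ EvS K v := by
  intro h
  rw [← mul_smul]
  exact hx (h * g)

lemma inj_of_split [IsGalois K E] {v : PrI E} (h : pn v = pn (und K v))
    (hun : Algebra.IsUnramifiedAt (𝓞 K) v.asIdeal) :
    Function.Injective (fun g : E ≃ₐ[K] E => g • v) := by
  have h1 := ncard_ovr_eq K h
  have h2 : Nat.card (E ≃ₐ[K] E) = Nat.card (ovr K (E := E) (und K v)) := by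
    rw [IsGalois.card_aut_eq_finrank, ← h1]
    rfl
  let f : (E ≃ₐ[K] E) → ovr K (E := E) (und K v) := fun g => ⟨g • v, und_smul g v⟩
  have hfin : Finite (ovr K (E := E) (und K v)) := finite_ovr K _
  have hf : Function.Surjective f := by
    rintro ⟨u, hu⟩
    obtain ⟨g, hg⟩ := exists_pg (u := v) (u' := u) hu.symm
    exact ⟨g, Subtype.ext hg⟩
  have hf' := ((Nat.bijective_iff_surjective_and_card f).2 ⟨hf, h2⟩).1
  intro g g' hgg
  exact hf' (Subtype.ext hgg)

end fld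

end VM

open VM

open Classical in
/-- **V.** -/
theorem thmV {K : Type*} {E Ω : Type} [Field K] [NumberField K] [Field E] [NumberField E] [Field Ω]
    [NumberField Ω] [Algebra K E] [Algebra K Ω] [Algebra E Ω] [IsScalarTower K E Ω] [IsGalois K E]
    [IsGalois K Ω] (habE : ∀ σ τ : E ≃ₐ[K] E, σ * τ = τ * σ) (hab : ∀ σ τ : Ω ≃ₐ[K] Ω, σ * τ = τ * σ)
    (hΩ : ∀ σ : Ω ≃ₐ[E] Ω, ∃ j : ℕ, σ ^ (2 ^ j) = 1)
    (hK : Module.finrank ℚ K = 2)
    (hTR : ∀ (φ : E →+* ℂ) (x : E), (φ x).im = 0) (D r : Finset (PrI K)) (hDr : Disjoint D r)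
    (hD2 : ∀ q : PrI K, (2 : 𝓞 K) ∈ q.asIdeal → q ∈ D)
    (hrs : ∀ u : PrI E, und K u ∈ r → pn u = pn (und K u) ∧ Algebra.IsUnramifiedAt (𝓞 K) u.asIdeal)
    (τ : PrI K → K) (hτ : ∀ q ∈ r, τ q ≠ 0 ∧ ¬ SqAt q (τ q))
    (b : E) (hb : InH D r τ b)
    (hΔ : IsSquare (∏ g ∈ Finset.univ.filter (fun g : E ≃ₐ[K] E => Odd (orderOf g)), g b))
    (B : Set (PrI Ω)) (hB : B.Finite)
    (hex : ∀ w : PrI Ω, w ∉ B → pn w = pn (und K w) → ∃ x : E, InP r τ x ∧
      (∀ u : PrI E, und K u = und K w → (SqAt u x ↔ LSq u b)) ∧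
      (∀ u : PrI E, und K u ≠ und K w → und K u ∉ D → und K u ∉ r → SqAt u x))
    (T : Subgroup (E ≃ₐ[K] E)) (hT : ∀ g, g ∈ T ↔ ∃ j : ℕ, g ^ (2 ^ j) = 1)
    (hcard : Set.ncard {u : PrI E | und K u ∈ D} < Nat.card T) :
    IsSquare (∏ t : T, (t : E ≃ₐ[K] E) b) := by
  by_contra hcon
  set b0 : Eˣ := Units.mk0 b hb.ne_zero with hb0
  set σq := sigq (E ≃ₐ[K] E) Eˣ with hσq
  set Δ := Dl (E ≃ₐ[K] E) habE with hΔdef
  have hoddΔ : Odd (Set.ncard (Δ : Set (E ≃ₐ[K] E))) := odd_Dl habE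
  set x0 : Eˣ := ∏ t : T, (t : E ≃ₐ[K] E) • b0 with hx0
  have hx0v : (x0 : E) = ∏ t : T, (t : E ≃ₐ[K] E) b := by
    rw [hx0, Units.coe_prod]
    rfl
  set y0 : Mq Eˣ := mkq x0 with hy0def
  have hy0T : act σq (NS (T : Set (E ≃ₐ[K] E))) (mkq b0) = y0 := by
    rw [hσq, act_NS_sub]
  have hy0 : y0 ≠ 0 := by
    intro h
    apply hcon
    rw [← hx0v]
    obtain ⟨s, hs⟩ := mkq_eq_zero.1 h
    exact ⟨s, by rw [hs, Units.val_mul]⟩
  have hΔb : act σq (NS (Δ : Set (E ≃ₐ[K] E))) (mkq b0) = 0 := by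
    rw [hσq, act_NS_mkq, mkq_eq_zero]
    obtain ⟨s, hs⟩ := hΔ
    have h1 : ((∏ g ∈ Finset.univ.filter (fun g : E ≃ₐ[K] E => g ∈ (Δ : Set (E ≃ₐ[K] E))), g • b0 : Eˣ) : E)
        = s * s := by
      rw [← hs, Units.coe_prod]
      refine Finset.prod_congr ?_ fun g _ => rfl
      ext g
      rw [Finset.mem_filter, Finset.mem_filter]
      rfl
    have hs0 : s ≠ 0 := by
      rintro rfl
      rw [mul_zero] at h1
      exact Units.ne_zero _ h1
    exact ⟨Units.mk0 s hs0, Units.ext h1⟩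
  have hNy : act σq (NS (Δ : Set (E ≃ₐ[K] E))) y0 = 0 := by
    rw [← hy0T, ← VM.act_mul, Rg_comm habE, VM.act_mul, hΔb, map_zero]
  obtain ⟨e, he, hey, hNe, hdich⟩ := exists_idem habE hT (act σq) hy0 (NS_mul_self Δ hoddΔ) hNy
  -- an element of the `e` part which is a square in `Ω` is trivial
  have hzero : ∀ (y : Eˣ) (m : Mq Eˣ), mkq y = act σq e m → IsSquare (algebraMap E Ω (y : E)) →
      mkq y = 0 := by
    intro y m hym hsq
    have h1 := act_NS_inv σq (Δ : Set (E ≃ₐ[K] E)) hoddΔ (m := mkq y) (fun g => by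
      rw [hσq, sigq_mkq]
      exact mkq_smul_of_isSquare hab hsq g)
    rw [← h1, hym, ← VM.act_mul, hNe, map_zero]
    rfl
  -- the dual Selmer group
  have hdual : ∀ ℓ ∈ CC E D r τ, act (sigf (PrI E) habE) e ℓ = 0 := by
    intro ℓ0 hℓ0
    by_contra hne
    set σf := sigf (PrI E) habE with hσf
    set Λ : AddSubgroup (PrI E → ZMod 2) := (CC E D r τ).map (act σf e).toAddMonoidHom with hΛdef
    have hΛ : ∀ ℓ ∈ Λ, ∃ ℓ1 ∈ CC E D r τ, act σf e ℓ1 = ℓ := fun ℓ h => h
    have hCCs : ∀ g : E ≃ₐ[K] E, ∀ ℓ ∈ CC E D r τ, σf g ℓ ∈ CC E D r τ :=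
      fun g ℓ h => CC_smul habE g h
    have hlow := dens_lower (K := K) (E := E) (Ω := Ω) hab hΩ Λ ?_ ?_ ?_ (act σf e ℓ0)
      ⟨ℓ0, hℓ0, rfl⟩ hne
    rotate_left
    · rintro _ ⟨ℓ1, hℓ1, rfl⟩ g
      refine ⟨σf g ℓ1, hCCs g ℓ1 hℓ1, ?_⟩
      change act σf e (σf g ℓ1) = σf g (act σf e ℓ1)
      rw [← act_single, ← VM.act_mul, Rg_comm habE, VM.act_mul]
    · rintro _ ⟨ℓ1, hℓ1, rfl⟩
      exact isRay_of_mem_CC (act_mem σf hCCs e hℓ1)
    · rintro _ ⟨ℓ1, hℓ1, rfl⟩ h0
      by_contra hall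
      push Not at hall
      apply h0
      have h1 := act_NS_inv σf (Δ : Set (E ≃ₐ[K] E)) hoddΔ (m := act σf e ℓ1) (fun g => hall g)
      change act σf e ℓ1 = 0
      rw [← h1, ← VM.act_mul, hNe, map_zero]
      rfl
    -- the elements `Y1`, `Y2`
    set Y1 : Eˣ := ff e.coeff.support x0 with hY1
    have hY1e : mkq Y1 = act σq e y0 := (act_mkq e x0).symm
    obtain ⟨g, hg⟩ : ∃ g : E ≃ₐ[K] E, mkq (g • Y1) ≠ mkq Y1 := by
      by_contra hall
      push Not at hall
      apply hey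
      have h1 := act_NS_inv σq (Δ : Set (E ≃ₐ[K] E)) hoddΔ (m := mkq Y1) (fun g => hall g)
      rw [← hY1e, ← h1, hY1e, ← VM.act_mul, hNe, map_zero]
      rfl
    have hY2e : mkq (g • Y1) = act σq e (act σq (single g 1) y0) := by
      rw [← VM.act_mul, Rg_comm habE, VM.act_mul, ← hY1e, act_single]
      rfl
    have hup := dens_upper (Ω := Ω) (algebraMap E Ω (Y1 : E)) (algebraMap E Ω ((g • Y1 : Eˣ) : E))
      ?_ ?_ ?_
    rotate_left
    · intro hsq
      apply hey
      rw [← hY1e]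
      exact hzero Y1 y0 hY1e hsq
    · intro hsq
      have h1 := hzero (g • Y1) _ hY2e hsq
      apply hey
      have h2 : mkq Y1 = σq g⁻¹ (mkq (g • Y1)) := by
        rw [hσq, sigq_mkq, inv_smul_smul]
      rw [← hY1e, h2, h1, map_zero]
    · intro hsq
      rw [← map_mul, ← Units.val_mul] at hsq
      have h1 := hzero (Y1 * g • Y1) (y0 + act σq (single g 1) y0) (by
        rw [mkq_mul, hY2e, hY1e, map_add]) hsq
      rw [mkq_mul] at h1
      apply hg
      have h2 : mkq Y1 + mkq Y1 = 0 := by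
        rw [← mkq_mul, mkq_eq_zero]
        exact ⟨Y1, rfl⟩
      have h3 : mkq Y1 + mkq (g • Y1) = mkq Y1 + mkq Y1 := by rw [h1, h2]
      exact (neg_add_cancel_left (mkq Y1) (mkq (g • Y1))).symm.trans
        ((congrArg (fun z => -mkq Y1 + z) h3).trans (neg_add_cancel_left (mkq Y1) (mkq Y1)))
    -- the exceptional set
    set B' : Set (PrI Ω) := B ∪ {w | und K w ∈ D ∪ r} ∪
      {w | ¬ Algebra.IsUnramifiedAt (𝓞 K) w.asIdeal} with hB'
    have hB'fin : B'.Finite := by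
      refine (hB.union ?_).union (finite_ramified K)
      have h1 : {w : PrI Ω | und K w ∈ D ∪ r} = ⋃ p ∈ D ∪ r, ovr K (E := Ω) p := by
        ext w
        simp only [Set.mem_ofPred_eq, Set.mem_iUnion, exists_prop]
        constructor
        · intro h
          exact ⟨_, h, rfl⟩
        · rintro ⟨p, hp, hw⟩
          have hw' : und K w = p := hw
          rwa [hw']
      rw [h1]
      exact Set.Finite.biUnion (Finset.finite_toSet _) fun p _ => finite_ovr K p
    refine dens_contra hlow hup hB'fin ?_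
    rintro w ⟨hw1, hw2⟩
    by_cases hwB : w ∈ B'
    · exact Or.inr hwB
    left
    rw [hB'] at hwB
    simp only [Set.mem_union, Set.mem_ofPred_eq, not_or, not_not] at hwB
    obtain ⟨⟨hwB1, hwB2⟩, hwB3⟩ := hwB
    set v : PrI E := und E w with hv
    have huv : und K v = und K w := und_und w
    have hunr : Algebra.IsUnramifiedAt (𝓞 K) v.asIdeal := unramified_und w
    have hpn : pn v = pn (und K v) := by
      apply le_antisymm _ (pn_und_le K v)
      rw [huv, ← hw1]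
      exact pn_und_le E w
    have hvD : und K v ∉ D ∧ und K v ∉ r := by
      rw [huv]
      rw [Finset.mem_union, not_or] at hwB2
      exact hwB2
    obtain ⟨x, hx, hx1, hx2⟩ := hex w hwB1 hw1
    obtain ⟨φ, hφ⟩ := exists_symb v
    have hbE : b0 ∈ EvS K v := by
      intro g
      have h1 : SqAt (g⁻¹ • v) b := hb.even _ (by rw [und_smul]; exact hvD.1)
        (by rw [und_smul]; exact hvD.2)
      rw [← sqAt_smul (g := g), smul_inv_smul] at h1
      exact h1
    have hx0E : x0 ∈ EvS K v := prod_mem fun t _ => EvS_smul v _ hbE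
    have hY1E : Y1 ∈ EvS K v := ff_mem _ (fun g x hx => EvS_smul v g hx) x0 hx0E
    have hloc := local_conclusion habE he hdich hφ hbE (inj_of_split hpn hunr) hx
      (fun u hu => by rw [huv] at hu; exact hx1 u hu)
      (fun u hu => by rw [huv] at hu; exact hx2 u hu) (act_mem σf hCCs e hℓ0)
      (by rw [← VM.act_mul, he]) (by rw [hw2]; exact one_ne_zero)
    have hNTe : act σq (NS (T : Set (E ≃ₐ[K] E)) * e) (mkq b0) = mkq Y1 := by
      rw [Rg_comm habE, VM.act_mul, hy0T, hY1e]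
    have hl1 : LSq v (Y1 : E) := by
      have h1 := hloc 1
      rw [one_mul, hNTe] at h1
      have h2 := hY1E 1
      rw [one_smul] at h2
      exact (hφ Y1 h2).1 h1
    have hl2 : LSq v ((g • Y1 : Eˣ) : E) := by
      have h1 := hloc (single g 1)
      rw [VM.act_mul, hNTe, act_single] at h1
      exact (hφ (g • Y1) (hY1E g)).1 h1
    exact ⟨hl1.up, hl2.up⟩
  -- the count
  have hτ0 : ∀ u : PrI E, und K u ∈ r → algebraMap K E (τ (und K u)) ≠ 0 :=
    fun u hu => (map_ne_zero _).2 (hτ _ hu).1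
  have hle := count habE hK hTR D r hDr (fun q hq h2 => Finset.disjoint_left.1 hDr (hD2 q h2) hq)
    hrs τ hτ e he (aug_eq_zero Δ hoddΔ hNe)
    (fun u hD hr => exists_of_dual habE hτ0 hdual hD hr) b hb T
    (fun g => by
      obtain ⟨j, hj⟩ := (hT g).1 g.2
      exact ⟨j, Subtype.ext hj⟩)
    ?_
  · exact absurd hle (not_le.2 hcard)
  · rw [← hx0v]
    intro hsq
    apply hey
    have h3 : prd e (x0 : E) = ((ff e.coeff.support x0 : Eˣ) : E) := by
      unfold prd
      rw [ff_apply, Units.coe_prod (f := fun g : E ≃ₐ[K] E => g • x0)]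
      rfl
    rw [h3] at hsq
    have h4 : mkq (ff e.coeff.support x0) = 0 := by
      rw [mkq_eq_zero]
      obtain ⟨s, hs⟩ := hsq
      have hs0 : s ≠ 0 := by
        rintro rfl
        rw [mul_zero] at hs
        exact Units.ne_zero _ hs
      exact ⟨Units.mk0 s hs0, Units.ext hs⟩
    rw [← h4]
    exact act_mkq e x0

end Pool.Agent.STc
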