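import Pool.Agent.Lib.MP_1ef7cf_nt_c.Loc

/-!
# Definitions for the count of the Selmer group
-/

set_option linter.unusedSectionVars false

open NumberField IsDedekindDomain

namespace Pool.Agent.STc

open Pool.Agent.ST Pool.Agent.STb

variable {K E : Type*} [Field K] [NumberField K] [Field E] [NumberField E] [Algebra K E]

/-- `x` is positive under all real embeddings of `E`. -/
def PosR (x : E) : Prop := ∀ φ : E →+* ℝ, 0 < φ x

/-- transverse condition at `u` with respect to `τ` (an element with odd valuation at `u`): up to
local squares `x` is `1` or `τ`. -/
def Trv (u : PrI E) (τ x : E) : Prop := LSq u x ∨ LSq u (τ * x)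

/-- The group `P_r`: totally positive elements which are transverse at the primes above `r`. -/
structure InP (r : Finset (PrI K)) (τ : PrI K → K) (x : E) : Prop where
  ne_zero : x ≠ 0
  pos : PosR x
  trv : ∀ u : PrI E, und K u ∈ r → Trv u (algebraMap K E (τ (und K u))) x

/-- The Selmer condition: `x` in `P_r` with even valuations outside `D` and `r`. -/
structure InH (D r : Finset (PrI K)) (τ : PrI K → K) (x : E) : Prop extends InP r τ x where
  even : ∀ u : PrI E, und K u ∉ D → und K u ∉ r → SqAt u x

/-- The action of an element of the group ring over `ZMod 2` (a set of automorphisms): the product of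
the conjugates of `x`. -/
noncomputable def prd (z : MonoidAlgebra (ZMod 2) (E ≃ₐ[K] E)) (x : E) : E :=
  ∏ g ∈ z.coeff.support, g x

end Pool.Agent.STc
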