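import Pool.Agent.Lib.MP_1ef7cf_nt_e.Mg.G003
import Pool.Agent.Lib.MP_1ef7cf_nt.Bridge2
import Pool.Agent.Lib.MP_1ef7cf_nt.Mg.G005
import Pool.Agent.Lib.MP_1ef7cf_nt.Propagate

/-!
# The square root condition: consequences for highly divisible moduli
-/

open NumberField IsDedekindDomain

namespace Pool.Agent.STc

open Pool.Agent.ST

variable {K : Type*} [Field K] [NumberField K] [Algebra K ℝ] {σ₂ : K →+* ℝ}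

/-- `Stark` at all multiples of `m` implies Q1 at `m`. -/
theorem starkTate_of_stark (hK : Module.finrank ℚ K = 2) (hσ : σ₂ ≠ sg1 K)
    {m : Ideal (𝓞 K)} (hm : m ≠ ⊥)
    (hm2 : ∀ v : HeightOneSpectrum (𝓞 K), (2 : 𝓞 K) ∈ v.asIdeal → v.asIdeal ∣ m)
    (hS : ∀ n : Ideal (𝓞 K), n ≠ ⊥ → m ∣ n → Stark σ₂ n) : StarkTate σ₂ m := by
  obtain ⟨H, Art, Z, ε, h1, h2, h3, h4, h5⟩ := hS m hm dvd_rfl
  refine ⟨H, Art, Z, ε, h1, h2, h3, h4, h5, fun A => ?_⟩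
  refine final_sqrt hK hσ hm hm2 (fun n hn hnm => ?_) h1 h2 h3 h4 h5 A
  obtain ⟨H, Art, Z, ε, h1, h2, h3, h4, h5⟩ := hS n hn (Ideal.dvd_iff_le.2 hnm)
  exact ⟨H, Art, _, (Pool.Agent.STb.stark_data h1 h2 h3 h4 h5).1⟩

theorem squareRoots (hK : Module.finrank ℚ K = 2) (hσ : σ₂ ≠ sg1 K) {n : Ideal (𝓞 K)}
    (htwo : ∀ v : HeightOneSpectrum (𝓞 K), (2 : 𝓞 K) ∈ v.asIdeal → v.asIdeal ∣ n) (k : ℕ)
    (hst : ∀ m : Ideal (𝓞 K), m ≠ ⊥ → n ∣ m → k ≤ numPrimes m →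
      (∀ v : HeightOneSpectrum (𝓞 K), v.asIdeal ∣ m → v.asIdeal ^ k ∣ m) →
      GenP σ₂ (RatioP σ₂) m k) :
    ∀ m : Ideal (𝓞 K), m ≠ ⊥ → n ∣ m → StarkTate σ₂ m := by
  intro m hm hnm
  have h := main_weak_stark hK hσ (Pool.Agent.STb.ne_top_of_two htwo) htwo k hst
  exact starkTate_of_stark hK hσ hm (fun v hv => (htwo v hv).trans hnm)
    fun m' hm' hmm' => h m' hm' (hnm.trans hmm')

theorem exceptions (hK : Module.finrank ℚ K = 2) (hσ : σ₂ ≠ sg1 K) {n : Ideal (𝓞 K)}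
    (hn : n ≠ ⊥)
    (htwo : ∀ v : HeightOneSpectrum (𝓞 K), (2 : 𝓞 K) ∈ v.asIdeal → v.asIdeal ∣ n)
    (hfail : ¬ StarkTate σ₂ n) (C : ℝ) :
    ∃ δ > 0, ∀ s : ℝ, 1 < s → s < 1 + δ → ∃ T : Finset (Ideal (𝓞 K)),
      (∀ m ∈ T, m ≠ ⊥ ∧ n ∣ m ∧ ¬ RatioP σ₂ m) ∧
      C * Real.log (1 / (s - 1)) ≤ ∑ m ∈ T, (Ideal.absNorm m : ℝ) ^ (-s) := by
  obtain ⟨n₁, hn₁, hdvd, hf⟩ : ∃ n₁ : Ideal (𝓞 K), n₁ ≠ ⊥ ∧ n ∣ n₁ ∧ ¬ Stark σ₂ n₁ := by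
    by_contra hcon
    push Not at hcon
    exact hfail (starkTate_of_stark hK hσ hn htwo hcon)
  have hn₁1 : n₁ ≠ ⊤ :=
    ne_top_of_le (Ideal.dvd_iff_le.1 hdvd) (Pool.Agent.STb.ne_top_of_two htwo)
  obtain ⟨δ, hδ, h⟩ := propagate (σ₂ := σ₂) (P := RatioP σ₂) (Q := Stark σ₂)
    (fun m hm => by
      obtain ⟨H, Art, hr, -⟩ := hm
      exact ⟨H, Art, hr⟩)
    (fun m hm => hm.ratioP)
    (fun n hn hn1 h2' => by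
      obtain ⟨j, hj⟩ := local_uniform (σ₂ := σ₂) hK hσ hn hn1 h2'
      exact ⟨j, fun 𝔞 h𝔞 hcop => (hj j le_rfl 𝔞 h𝔞 hcop 1).2.1⟩)
    hn₁ hn₁1 (fun v hv => (htwo v hv).trans hdvd) hf C
  refine ⟨δ, hδ, fun s hs hs' => ?_⟩
  obtain ⟨T', hT, hsum⟩ := h s hs hs'
  refine ⟨T', fun m hm => ?_, hsum⟩
  obtain ⟨h1, h3, h4⟩ := hT m hm
  exact ⟨h1, hdvd.trans h3, h4⟩

end Pool.Agent.STc
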