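import Pool.Agent.Lib.MP_1ef7cf_nt_c.CountB

/-!
# Idempotents of the group ring over `F_2` of a finite commutative group
-/

namespace Pool.Agent.STc.VM

open Cnt MonoidAlgebra

variable {G : Type*} [Group G]

/-- the group ring -/
abbrev Rg (G : Type*) [Group G] := MonoidAlgebra (ZMod 2) G

lemma Rg_comm (hab : ∀ g h : G, g * h = h * g) (x y : Rg G) : x * y = y * x := by
  induction x using MonoidAlgebra.induction_linear with
  | zero => rw [zero_mul, mul_zero]
  | add x x' hx hx' => rw [add_mul, mul_add, hx, hx']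
  | single g a =>
    induction y using MonoidAlgebra.induction_linear with
    | zero => rw [zero_mul, mul_zero]
    | add y y' hy hy' => rw [add_mul, mul_add, hy, hy']
    | single h b => rw [single_mul_single, single_mul_single, hab, mul_comm a]

lemma Rg_two (x : Rg G) : x + x = 0 := by
  ext g
  have : ∀ a : ZMod 2, a + a = 0 := by decide
  exact this _

lemma Rg_neg (x : Rg G) : -x = x := by
  rw [neg_eq_iff_add_eq_zero, Rg_two]

lemma Rg_finite [Finite G] : Finite (Rg G) := by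
  have : Finite (G →₀ ZMod 2) := Finite.of_equiv _ Finsupp.equivFunOnFinite.symm
  exact Finite.of_equiv _ (coeffEquiv (R := ZMod 2) (M := G)).symm

lemma add_pow_two_pow (hab : ∀ g h : G, g * h = h * g) (x y : Rg G) (k : ℕ) :
    (x + y) ^ 2 ^ k = x ^ 2 ^ k + y ^ 2 ^ k := by
  induction k with
  | zero => simp
  | succ k ih =>
    rw [pow_succ 2 k, pow_mul, ih, pow_mul, pow_mul, pow_two, add_mul, mul_add, mul_add, pow_two,
      pow_two, Rg_comm hab (y ^ 2 ^ k) (x ^ 2 ^ k)]
    rw [add_assoc, ← add_assoc (x ^ 2 ^ k * y ^ 2 ^ k), Rg_two, zero_add]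

lemma zmod2_pow_two_pow (a : ZMod 2) (k : ℕ) : a ^ 2 ^ k = a := by
  rcases zmod2_cases a with rfl | rfl
  · rw [zero_pow (by positivity)]
  · rw [one_pow]

lemma sum_single [Fintype G] (x : Rg G) : x = ∑ g : G, single g (x.coeff g) := by
  classical
  ext h
  rw [coeff_sum, Finsupp.finsetSum_apply, Finset.sum_eq_single h]
  · rw [coeff_single, Finsupp.single_eq_same]
  · intro g _ hg
    rw [coeff_single, Finsupp.single_eq_of_ne (Ne.symm hg)]
  · intro hh
    exact absurd (Finset.mem_univ _) hh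

/-- Frobenius on the group ring -/
lemma pow_two_pow [Fintype G] (hab : ∀ g h : G, g * h = h * g) (x : Rg G) (k : ℕ) :
    x ^ 2 ^ k = ∑ g : G, single (g ^ 2 ^ k) (x.coeff g) := by
  classical
  have key : ∀ s : Finset G, (∑ g ∈ s, single g (x.coeff g) : Rg G) ^ 2 ^ k =
      ∑ g ∈ s, single (g ^ 2 ^ k) (x.coeff g) := by
    intro s
    induction s using Finset.induction_on with
    | empty => rw [Finset.sum_empty, Finset.sum_empty, zero_pow (by positivity)]
    | insert g s hg ih =>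
      rw [Finset.sum_insert hg, Finset.sum_insert hg, add_pow_two_pow hab, ih, single_pow,
        zmod2_pow_two_pow]
  conv_lhs => rw [sum_single x]
  exact key _

variable [Finite G] (T : Subgroup G)

open Classical in
/-- the sum of the elements of a subgroup -/
noncomputable def NS (T : Set G) : Rg G :=
  have := Fintype.ofFinite G
  ∑ t ∈ Finset.univ.filter (fun t : G => t ∈ T), single t 1

lemma NS_eq [Fintype G] [DecidablePred (fun t : G => t ∈ (T : Set G))] :
    NS (T : Set G) = ∑ t ∈ Finset.univ.filter (fun t : G => t ∈ (T : Set G)), single t (1 : ZMod 2) := by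
  unfold NS
  refine Finset.sum_congr ?_ fun _ _ => rfl
  ext t
  simp only [Finset.mem_filter, Finset.mem_univ, true_and]

lemma coeff_NS_mul [Fintype G] [DecidablePred (fun t : G => t ∈ (T : Set G))] (x : Rg G) (h : G) :
    (NS (T : Set G) * x).coeff h =
      ∑ t ∈ Finset.univ.filter (fun t : G => t ∈ (T : Set G)), x.coeff (t⁻¹ * h) := by
  rw [NS_eq, Finset.sum_mul, coeff_sum, Finsupp.finsetSum_apply]
  refine Finset.sum_congr rfl fun t _ => ?_
  have h1 := MonoidAlgebra.coeff_single_mul_eq_mul_coeff (x := x) (m := t) (r := (1 : ZMod 2))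
    (m₁ := h) (t⁻¹ * h) (by
      intro g _
      constructor
      · rintro rfl
        rw [inv_mul_cancel_left]
      · rintro rfl
        rw [mul_inv_cancel_left])
  rw [h1, one_mul]

variable {T}

lemma exists_exp (hab : ∀ g h : G, g * h = h * g) (hT : ∀ g, g ∈ T ↔ ∃ j : ℕ, g ^ (2 ^ j) = 1) :
    ∃ k₀ : ℕ, ∀ k ≥ k₀, ∀ g h : G, g ^ 2 ^ k = h ^ 2 ^ k ↔ g⁻¹ * h ∈ T := by
  classical
  have := Fintype.ofFinite G
  have h1 : ∀ g : G, ∃ j : ℕ, g ∈ T → g ^ 2 ^ j = 1 := by
    intro g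
    by_cases hg : g ∈ T
    · obtain ⟨j, hj⟩ := (hT g).1 hg
      exact ⟨j, fun _ => hj⟩
    · exact ⟨0, fun h => absurd h hg⟩
  choose j hj using h1
  refine ⟨∑ g : G, j g, fun k hk g h => ?_⟩
  have hpow : (g⁻¹ * h) ^ 2 ^ k = (g ^ 2 ^ k)⁻¹ * h ^ 2 ^ k := by
    rw [(show Commute g⁻¹ h from hab _ _).mul_pow, inv_pow]
  constructor
  · intro hgh
    rw [hT]
    refine ⟨k, ?_⟩
    rw [hpow, hgh, inv_mul_cancel]
  · intro hgh
    have h2 := hj _ hgh
    have h3 : j (g⁻¹ * h) ≤ k :=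
      (Finset.single_le_sum (f := j) (fun _ _ => Nat.zero_le _) (Finset.mem_univ _)).trans hk
    obtain ⟨l, rfl⟩ := Nat.exists_eq_add_of_le h3
    have h4 : (g⁻¹ * h) ^ 2 ^ (j (g⁻¹ * h) + l) = 1 := by
      rw [pow_add, pow_mul, h2, one_pow]
    rw [hpow] at h4
    exact (inv_mul_eq_one.1 h4)

/-- nilpotent elements are killed by the norm of the Sylow subgroup -/
lemma NS_mul_nilpotent (hab : ∀ g h : G, g * h = h * g)
    (hT : ∀ g, g ∈ T ↔ ∃ j : ℕ, g ^ (2 ^ j) = 1) {x : Rg G} {n : ℕ} (hx : x ^ n = 0) :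
    NS (T : Set G) * x = 0 := by
  classical
  have := Fintype.ofFinite G
  obtain ⟨k₀, hk₀⟩ := exists_exp hab hT
  set k := k₀ + n with hk
  have h1 : x ^ 2 ^ k = 0 := by
    have h2 : n ≤ 2 ^ k := by
      have : k < 2 ^ k := Nat.lt_two_pow_self
      omega
    obtain ⟨l, hl⟩ := Nat.exists_eq_add_of_le h2
    rw [hl, pow_add, hx, zero_mul]
  rw [pow_two_pow hab] at h1
  ext h
  rw [coeff_NS_mul]
  have h2 := congrArg (fun y : Rg G => y.coeff (h ^ 2 ^ k)) h1
  simp only [coeff_sum, Finsupp.finsetSum_apply, coeff_single] at h2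
  have h3 : ∀ g : G, (Finsupp.single (g ^ 2 ^ k) (x.coeff g)) (h ^ 2 ^ k) =
      if g⁻¹ * h ∈ T then x.coeff g else 0 := by
    intro g
    rw [Finsupp.single_apply]
    have := hk₀ k (by omega) g h
    simp only [this]
  rw [Finset.sum_congr rfl fun g _ => h3 g] at h2
  rw [← Equiv.sum_comp (Equiv.mulRight h)] at h2
  rw [← Equiv.sum_comp (Equiv.inv G), ← Finset.sum_filter] at h2
  have h4 : ∀ t : G, t ∈ (T : Set G) ↔
      ((Equiv.mulRight h) ((Equiv.inv G) t))⁻¹ * h ∈ T := by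
    intro t
    simp only [Equiv.coe_mulRight, Equiv.inv_apply, mul_inv_rev, inv_inv, SetLike.mem_coe]
    rw [mul_assoc, hab h⁻¹, mul_assoc, mul_inv_cancel, mul_one]
  have h5 : (Finset.univ.filter (fun t : G => t ∈ (T : Set G))) =
      Finset.univ.filter (fun t : G => ((Equiv.mulRight h) ((Equiv.inv G) t))⁻¹ * h ∈ T) :=
    Finset.filter_congr fun t _ => h4 t
  rw [h5]
  exact h2

/-- some positive power of an element of a finite monoid is idempotent -/
lemma exists_idem_pow {S : Type*} [Monoid S] [Finite S] (x : S) :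
    ∃ n, 0 < n ∧ x ^ n * x ^ n = x ^ n := by
  obtain ⟨i, j, hij, h⟩ : ∃ i j : ℕ, i < j ∧ x ^ i = x ^ j := by
    obtain ⟨i, j, hij, h⟩ := Finite.exists_ne_map_eq_of_infinite (fun n : ℕ => x ^ n)
    rcases lt_or_gt_of_ne hij with h1 | h1
    · exact ⟨i, j, h1, h⟩
    · exact ⟨j, i, h1, h.symm⟩
  obtain ⟨p, rfl⟩ := Nat.exists_eq_add_of_lt hij
  have h1 : ∀ m, i ≤ m → x ^ (m + (p + 1)) = x ^ m := by
    intro m hm
    obtain ⟨l, rfl⟩ := Nat.exists_eq_add_of_le hm
    have e : i + l + (p + 1) = (i + p + 1) + l := by ring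
    rw [e, pow_add, ← h, ← pow_add]
  have h2 : ∀ c m, i ≤ m → x ^ (m + c * (p + 1)) = x ^ m := by
    intro c
    induction c with
    | zero => intro m _; simp
    | succ c ih =>
      intro m hm
      have e : m + (c + 1) * (p + 1) = (m + c * (p + 1)) + (p + 1) := by ring
      rw [e, h1 _ (by omega), ih m hm]
  refine ⟨(i + 1) * (p + 1), by positivity, ?_⟩
  rw [← pow_add]
  apply h2
  nlinarith

/-- a minimal idempotent that does not kill `y₀` -/
theorem exists_idem (hab : ∀ g h : G, g * h = h * g)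
    (hT : ∀ g, g ∈ T ↔ ∃ j : ℕ, g ^ (2 ^ j) = 1) {M : Type*} [AddCommGroup M]
    [Module (ZMod 2) M] (ρ : Rg G →ₐ[ZMod 2] Module.End (ZMod 2) M) {y₀ : M} (hy₀ : y₀ ≠ 0) {N : Rg G} (hN : N * N = N)
    (hNy : ρ N y₀ = 0) :
    ∃ e : Rg G, e * e = e ∧ ρ e y₀ ≠ 0 ∧ N * e = 0 ∧
      ∀ x, e * x = x → NS (T : Set G) * x = 0 ∨ ∃ n, 0 < n ∧ x ^ n = e := by
  classical
  have hfin := Rg_finite (G := G)
  set S : Set (Rg G) := {e | e * e = e ∧ ρ e y₀ ≠ 0} with hS
  have h1S : (1 : Rg G) ∈ S := ⟨one_mul _, by rw [map_one]; exact hy₀⟩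
  obtain ⟨e, heS, hmin⟩ := Set.exists_min_image S (fun e => (Set.range (fun z => e * z)).ncard)
    S.toFinite ⟨1, h1S⟩
  have hmin' : ∀ e' ∈ S, e' * e = e' → e' = e := by
    intro e' he' h
    have hsub : Set.range (fun z => e' * z) ⊆ Set.range (fun z => e * z) := by
      rintro _ ⟨z, rfl⟩
      refine ⟨e' * z, ?_⟩
      change e * (e' * z) = e' * z
      rw [← mul_assoc, Rg_comm hab e e', h]
    have heq := Set.eq_of_subset_of_ncard_le hsub (hmin e' he') (Set.toFinite _)
    have he : e ∈ Set.range (fun z => e' * z) := by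
      rw [heq]
      exact ⟨1, mul_one e⟩
    obtain ⟨z, hz⟩ := he
    have hz' : e' * z = e := hz
    have h2 : e' * e = e := by rw [← hz', ← mul_assoc, he'.1]
    rw [← h, h2]
  have hmul : ∀ (a b : Rg G) (m : M), ρ (a * b) m = ρ a (ρ b m) := fun a b m => by
    rw [map_mul]; rfl
  have hadd : ∀ (a b : Rg G) (m : M), ρ (a + b) m = ρ a m + ρ b m := fun a b m => by
    rw [map_add]; rfl
  -- complementary idempotents
  have hcomp : ∀ f : Rg G, f * f = f → f * e = f → ρ f y₀ = 0 → f = 0 := by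
    intro f hf hfe hfy
    have h1 : (e + f) * (e + f) = e + f := by
      rw [add_mul, mul_add, mul_add, heS.1, hf, Rg_comm hab e f, hfe, add_assoc, ← add_assoc f f,
        Rg_two, zero_add]
    have h2 : (e + f) * e = e + f := by rw [add_mul, heS.1, hfe]
    have h3 : ρ (e + f) y₀ ≠ 0 := by
      rw [hadd, hfy, add_zero]
      exact heS.2
    have h4 := hmin' (e + f) ⟨h1, h3⟩ h2
    exact add_eq_left.1 h4
  refine ⟨e, heS.1, heS.2, ?_, ?_⟩
  · apply hcomp
    · rw [mul_assoc, ← mul_assoc e, Rg_comm hab e N, mul_assoc, heS.1, ← mul_assoc, hN]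
    · rw [mul_assoc, heS.1]
    · rw [Rg_comm hab N e, hmul, hNy, map_zero]
  · intro x hx
    obtain ⟨n, hn, hidem⟩ := exists_idem_pow x
    have h1 : x ^ n * e = x ^ n := by
      obtain ⟨n, rfl⟩ := Nat.exists_eq_succ_of_ne_zero hn.ne'
      rw [Rg_comm hab, Nat.succ_eq_add_one, pow_succ', ← mul_assoc, hx]
    by_cases h2 : ρ (x ^ n) y₀ = 0
    · left
      exact NS_mul_nilpotent hab hT (hcomp _ hidem h1 h2)
    · right
      exact ⟨n, hn, hmin' _ ⟨hidem, h2⟩ h1⟩

end Pool.Agent.STc.VM
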